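import Pool.Agent.Helper54.ETRFin

section
open Pool.Agent.Helper54.Poly

namespace Pool.Agent.Helper54.ETR

/-- number of extra bits used by the certificates -/
def LL (k m N : ℕ) : ℕ := rr k m N + ee k m N + rr k m N * N + 1

/-- entry coded by a flag and an integer -/
def mkEnt (b : Bool) (z : ℤ) : Ent := (b, (⟨z.toNat⟩, ⟨(-z).toNat⟩))

theorem mkEnt_val (b : Bool) (z : ℤ) :
    (((mkEnt b z).2.1.n : ℝ) - (mkEnt b z).2.2.n) = z := by
  simp only [mkEnt]
  have h1 : ((z.toNat : ℤ) : ℝ) - (((-z).toNat : ℤ) : ℝ) = z := by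
    have : (z.toNat : ℤ) - ((-z).toNat : ℤ) = z := by omega
    exact_mod_cast this
  push_cast at h1 ⊢
  exact_mod_cast h1

/-- the rounded assignment -/
noncomputable def rnd (X : Finset ℕ) (L : ℕ) (x : ℕ → ℝ) (N : ℕ) : List Ent :=
  (List.range N).map fun i => mkEnt (decide (i ∈ X)) ⌊x i * 2 ^ L⌋

theorem rnd_len (X : Finset ℕ) (L : ℕ) (x : ℕ → ℝ) (N : ℕ) : (rnd X L x N).length = N := by
  simp [rnd]

theorem rnd_drop (X : Finset ℕ) (L : ℕ) (x : ℕ → ℝ) (N : ℕ) (i : ℕ) (hi : i < N) :
    ∃ l, (rnd X L x N).drop i = mkEnt (decide (i ∈ X))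
      ⌊x i * 2 ^ L⌋ :: l := by
  have h : i < (rnd X L x N).length := by rw [rnd_len]; exact hi
  rw [List.drop_eq_getElem_cons h]
  simp only [rnd, List.getElem_map, List.getElem_range]
  exact ⟨_, rfl⟩

theorem cert_complete (k m N : ℕ) (p : Form) (hN : p.toks.length ≤ N)
    (hfr : p.Frag k m) (hsol : ∃ x : ℕ → ℝ, p.Holds x) :
    ∃ A : List Ent, A.length = N ∧
      (∀ en ∈ A, ∃ b z, en = mkEnt b z ∧ z.natAbs ≤ 2 ^ (rr k m N + LL k m N)) ∧
      (XX (A, (LL k m N, (rr k m N, rr k m N + ee k m N)))).card ≤ k ∧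
      ∃ r, fval (A, (LL k m N, (rr k m N, rr k m N + ee k m N))) p = some r ∧
        r.1 = true ∧ r.2 ≤ m := by
  obtain ⟨X, hX, hdeg, hcnt⟩ := hfr
  have hv : ∀ a ∈ p.atoms, VarsLt N a.1 ∧ VarsLt N a.2 := by
    intro a ha
    obtain ⟨h1, h2⟩ := atoms_tsz p a ha
    exact ⟨varsLt_of_size _ _ (h1.trans hN), varsLt_of_size _ _ (h2.trans hN)⟩
  have hg := good_of p N X N hN hdeg hv
  obtain ⟨sg, x, hrob, htv⟩ := certA hg hsol
  set R0 : ℕ := RAn (Fintype.card (VX N X)) (Fintype.card (VY N X)) (L1 X p).length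
    (L2 X p).length N (2 ^ (N + 1)) with hR0
  set r := rr k m N with hr
  set e := ee k m N with he
  set L := LL k m N with hL
  have hLe : L = r + e + r * N + 1 := rfl
  have hR1 : 1 ≤ R0 := by rw [hR0]; exact Sgn.HH_pos _ _ _ _ _ _
  have hc2 := L2_count X p hdeg
  have hRr : 2 * R0 ≤ 2 ^ r := by
    have hcv := card_VX_VY (n := N) (X := X)
    exact RAn_le ((card_VX_le (n := N) (X := X)).trans hX) (by omega)
      ((L1_len _ _).trans hN) (by rw [hc2]; exact hcnt) ((L2_len _ _).trans hN) le_rfl
  have hr1 : 1 ≤ r := by rw [hr]; unfold rr; omega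
  have he1 : 1 ≤ e := by rw [he]; unfold ee; omega
  set c : Ctx := (rnd X L x N, (L, (r, r + e))) with hc
  have hR0' : (1:ℝ) ≤ (R0 : ℝ) := by exact_mod_cast hR1
  have hRr' : 2 * (R0 : ℝ) ≤ 2 ^ r := by exact_mod_cast hRr
  have hpL : (0:ℝ) < 2 ^ L := by positivity
  -- values
  have hxx : ∀ i < N, xx c i = (⌊x i * 2 ^ L⌋ : ℝ) / 2 ^ L := by
    intro i hi
    obtain ⟨l, hl⟩ := rnd_drop X L x N i hi
    simp only [xx, hc, hl]
    rw [mkEnt_val]
  have hflag : ∀ i < N, (i ∈ XX c ↔ i ∈ X) := by
    intro i hi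
    obtain ⟨l, hl⟩ := rnd_drop X L x N i hi
    simp only [XX, hc, rnd_len, Finset.mem_filter, Finset.mem_range, hi, true_and, flagAt, hl,
      mkEnt, decide_eq_true_eq]
  have hxb : ∀ i < N, |x i| ≤ R0 := by
    intro i hi
    have := hrob.bd i hi
    simpa using this
  have hdiff : ∀ i < N, |xx c i - x i| ≤ 1 / 2 ^ L := by
    intro i hi
    rw [hxx i hi]
    have h1 := Int.floor_le (x i * 2 ^ L)
    have h2 := Int.lt_floor_add_one (x i * 2 ^ L)
    have h3 : (⌊x i * 2 ^ L⌋ : ℝ) / 2 ^ L - x i = ((⌊x i * 2 ^ L⌋ : ℝ) - x i * 2 ^ L) / 2 ^ L := by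
      field_simp
    rw [h3, abs_div, abs_of_pos hpL]
    apply div_le_div_of_nonneg_right _ hpL.le
    rw [abs_le]; constructor <;> linarith
  have hinvL : (1:ℝ) / 2 ^ L ≤ 1 := by
    rw [div_le_one hpL]; exact one_le_pow₀ (by norm_num)
  have h2r : (2:ℝ) ≤ 2 ^ r := by
    calc (2:ℝ) = 2 ^ 1 := by norm_num
      _ ≤ 2 ^ r := pow_le_pow_right₀ (by norm_num) hr1
  have hxB : ∀ i < N, |x i| ≤ (2:ℝ) ^ r := fun i hi => (hxb i hi).trans (by linarith)
  have hzB : ∀ i < N, |xx c i| ≤ (2:ℝ) ^ r := by
    intro i hi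
    have h1 : |xx c i| ≤ |xx c i - x i| + |x i| := by
      have := abs_add_le (xx c i - x i) (x i)
      simpa using this
    have h2 := hdiff i hi
    have h3 := hxb i hi
    linarith
  -- perturbation of an atom
  have hpert : ∀ a ∈ p.atoms, |(a.1.eval (xx c) - a.2.eval (xx c)) -
      (a.1.eval x - a.2.eval x)| ≤ 1 / 2 ^ (r + e) := by
    intro a ha
    obtain ⟨v1, v2⟩ := hv a ha
    obtain ⟨s1, s2⟩ := atoms_tsz p a ha
    have l1 := (lip (xx c) x N (2 ^ r) (1 / 2 ^ L) h2r (by positivity) hzB hxB hdiff a.1 v1).2.2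
    have l2 := (lip (xx c) x N (2 ^ r) (1 / 2 ^ L) h2r (by positivity) hzB hxB hdiff a.2 v2).2.2
    have hm1 : ((2:ℝ) ^ r) ^ tsz a.1 ≤ 2 ^ (r * N) := by
      rw [← pow_mul]
      exact pow_le_pow_right₀ (by norm_num) (Nat.mul_le_mul_left _ (s1.trans hN))
    have hm2 : ((2:ℝ) ^ r) ^ tsz a.2 ≤ 2 ^ (r * N) := by
      rw [← pow_mul]
      exact pow_le_pow_right₀ (by norm_num) (Nat.mul_le_mul_left _ (s2.trans hN))
    have hsplit : (a.1.eval (xx c) - a.2.eval (xx c)) - (a.1.eval x - a.2.eval x) =
      (a.1.eval (xx c) - a.1.eval x) - (a.2.eval (xx c) - a.2.eval x) := by ring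
    rw [hsplit]
    refine (abs_sub _ _).trans ?_
    have hpi : (0:ℝ) ≤ 1 / 2 ^ L := by positivity
    have k1 := mul_le_mul_of_nonneg_left hm1 hpi
    have k2 := mul_le_mul_of_nonneg_left hm2 hpi
    have hfin : 1 / 2 ^ L * 2 ^ (r * N) + 1 / 2 ^ L * 2 ^ (r * N) = (1:ℝ) / 2 ^ (r + e) := by
      have : (2:ℝ) ^ L = 2 ^ (r + e) * 2 ^ (r * N) * 2 := by
        rw [hLe, pow_succ, pow_add]
      rw [this]
      field_simp
      ring
    linarith
  -- classification
  have hcl : ∀ a ∈ p.atoms, ∃ kk, kcls c a.1 a.2 = some kk ∧ sgOf kk = sg a := by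
    intro a ha
    obtain ⟨v1, v2⟩ := hv a ha
    have hlen : c.1.length = N := by simp only [hc]; rw [rnd_len]
    obtain ⟨u, hu⟩ := tval_ex c a.1 (by rw [hlen]; exact v1)
    obtain ⟨w, hw⟩ := tval_ex c a.2 (by rw [hlen]; exact v2)
    have hp := hpert a ha
    have hat := hrob.at' a ha
    set v0 := a.1.eval x - a.2.eval x with hv0
    set v1' := a.1.eval (xx c) - a.2.eval (xx c) with hv1
    have hp' := abs_le.1 hp
    have hr0 : (0:ℝ) < 2 ^ r := by positivity
    have he0 : (0:ℝ) < 2 ^ (r + e) := by positivity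
    have hre : (2:ℝ) ^ r * (1 / 2 ^ (r + e)) ≤ 1 / 2 := by
      rw [pow_add]
      have : (2:ℝ) ≤ 2 ^ e := by
        calc (2:ℝ) = 2 ^ 1 := by norm_num
          _ ≤ 2 ^ e := pow_le_pow_right₀ (by norm_num) he1
      have h2 : (0:ℝ) < 2 ^ e := by positivity
      have h3 : (2:ℝ) ^ r * (1 / (2 ^ r * 2 ^ e)) = 1 / 2 ^ e := by field_simp
      rw [h3]
      exact one_div_le_one_div_of_le (by norm_num) this
    obtain ⟨kk, hk1, hk2⟩ := cls0_complete c _ v1' (tdiff_sem c _ _ _ _ hu hw) (sg a)
      (by change r + 1 ≤ r + e; omega)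
      (by
        intro hs
        have := hat true
        rw [hs] at this
        have e1 : al (-1) true = 1 := rfl
        have e2 : be (-1) = 1 := rfl
        rw [e1, e2] at this
        push_cast at this
        have h5 : (R0:ℝ) * v0 ≤ -1 := by linarith
        change (2:ℝ) ^ r * v1' ≤ -1
        have h6 : v0 ≤ 0 := by
          by_contra hcc; push Not at hcc
          have : 0 < (R0:ℝ) * v0 := by positivity
          linarith
        have h7 : (2:ℝ) ^ r * v0 ≤ 2 * R0 * v0 := by nlinarith
        have h8 : (2:ℝ) ^ r * v1' ≤ 2 ^ r * v0 + 2 ^ r * (1 / 2 ^ (r + e)) := by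
          rw [← mul_add]
          apply mul_le_mul_of_nonneg_left _ hr0.le
          linarith [hp'.2]
        linarith)
      (by
        intro hs
        have := hat true
        rw [hs] at this
        have e1 : al 1 true = -1 := rfl
        have e2 : be 1 = 1 := rfl
        rw [e1, e2] at this
        push_cast at this
        have h5 : 1 ≤ (R0:ℝ) * v0 := by linarith
        change 1 ≤ (2:ℝ) ^ r * v1'
        have h6 : 0 ≤ v0 := by
          by_contra hcc; push Not at hcc
          have : (R0:ℝ) * v0 < 0 := by nlinarith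
          linarith
        have h7 : 2 * R0 * v0 ≤ (2:ℝ) ^ r * v0 := by nlinarith
        have h8 : 2 ^ r * v0 - 2 ^ r * (1 / 2 ^ (r + e)) ≤ (2:ℝ) ^ r * v1' := by
          rw [← mul_sub]
          apply mul_le_mul_of_nonneg_left _ hr0.le
          linarith [hp'.1]
        linarith)
      (by
        intro hs
        have t1 := hat true
        have t2 := hat false
        rw [hs] at t1 t2
        have e1 : al 0 true = 1 := rfl
        have e3 : al 0 false = -1 := rfl
        have e2 : be 0 = 0 := rfl
        rw [e1, e2] at t1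
        rw [e3, e2] at t2
        push_cast at t1 t2
        have h5 : v0 = 0 := by
          apply le_antisymm
          · by_contra hcc; push Not at hcc
            have : 0 < (R0:ℝ) * v0 := by positivity
            linarith
          · by_contra hcc; push Not at hcc
            have : (R0:ℝ) * v0 < 0 := by nlinarith
            linarith
        change |v1'| * 2 ^ (r + e) ≤ 1
        rw [h5, sub_zero] at hp
        rw [le_div_iff₀ he0] at hp
        exact hp)
    refine ⟨kk, ?_, hk2⟩
    simp only [kcls, hu, hw, hk1]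
  have hdc : ∀ a ∈ p.atoms, atomDeg (XX c) a = atomDeg X a := by
    intro a ha
    obtain ⟨v1, v2⟩ := hv a ha
    unfold atomDeg
    rw [deg_congr hflag a.1 v1, deg_congr hflag a.2 v2]
  refine ⟨rnd X L x N, rnd_len _ _ _ _, ?_, ?_, ?_⟩
  · intro en hen
    simp only [rnd, List.mem_map, List.mem_range] at hen
    obtain ⟨i, hi, rfl⟩ := hen
    refine ⟨_, _, rfl, ?_⟩
    have h1 := hzB i hi
    rw [hxx i hi, abs_div, abs_of_pos hpL, div_le_iff₀ hpL, ← pow_add] at h1
    have h2 : ((⌊x i * 2 ^ L⌋.natAbs : ℕ) : ℝ) ≤ 2 ^ (r + L) := by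
      rw [Nat.cast_natAbs]; push_cast; exact h1
    exact_mod_cast h2
  · refine (Finset.card_le_card ?_).trans hX
    intro i hi
    have hi' : i < N := by
      have := (Finset.mem_filter.1 hi).1
      rw [Finset.mem_range] at this
      simpa [hc, rnd_len] using this
    exact (hflag i hi').1 hi
  · obtain ⟨rv, hrv⟩ := fval_ex c p (by
      intro a ha
      obtain ⟨kk, hk, _⟩ := hcl a ha
      exact ⟨⟨kk, hk⟩, by rw [hdc a ha]; exact hdeg a ha⟩)
    obtain ⟨h1, h2, h3⟩ := fval_sem c p rv hrv
    refine ⟨rv, hrv, ?_, ?_⟩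
    · rw [h2, ← htv]
      apply tv_congr
      intro a ha
      obtain ⟨kk, hk, hs⟩ := hcl a ha
      simp only [sgc, hk, hs]
    · rw [h3, L2_count _ _ (fun a ha => (h1 a ha).2)]
      refine le_trans (le_of_eq ?_) hcnt
      apply List.countP_congr
      intro a ha
      rw [hdc a ha]

end Pool.Agent.Helper54.ETR
end

section
open Pool.Agent.Helper54.Poly

namespace Pool.Agent.Helper54.ETR

/-! ### the tokeniser is polynomial-time -/

theorem tok4_inj : Function.Injective (TEnc.enc : Bool × (Bool × (Bool × Bool)) → Tr) := by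
  rintro ⟨a, b, c, d⟩ ⟨a', b', c', d'⟩ h
  cases a <;> cases b <;> cases c <;> cases d <;> cases a' <;> cases b' <;> cases c' <;>
    cases d' <;> simp_all

theorem PTtok4 {α : Type} [TEnc α] {a b c d : α → Bool} (ha : PT a) (hb : PT b) (hc : PT c)
    (hd : PT d) : PT (fun x => tok4 (a x) (b x) (c x) (d x)) := by
  have h : PT (fun y : Bool × (Bool × (Bool × Bool)) => tok4 y.1 y.2.1 y.2.2.1 y.2.2.2) :=
    PT.finite tok4_inj _
  exact h.comp (ha.pair (hb.pair (hc.pair hd)))

abbrev TkS := List Bool × List Tok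

theorem PTtkStep : PT (fun z : Bool × TkS => tkStep z.1 z.2) := by
  have h3 : PT (fun z : ((Bool × TkS) × Bool × List Bool) × Bool × List Bool =>
      (match z.2.2 with
        | [] => ([z.1.1.1, z.1.2.1, z.2.1], z.1.1.2.2)
        | e :: _ => ([], tok4 z.1.1.1 z.1.2.1 z.2.1 e :: z.1.1.2.2) : TkS)) := by
    have h4 := PT.listCase (α := ((Bool × TkS) × Bool × List Bool) × Bool × List Bool)
      (l := fun z => z.2.2) (f := fun z => (([z.1.1.1, z.1.2.1, z.2.1], z.1.1.2.2) : TkS))
      (g := fun y => (([], tok4 y.1.1.1.1 y.1.1.2.1 y.1.2.1 y.2.1 :: y.1.1.1.2.2) : TkS))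
      PT.id.snd.snd
      ((PT.lcons PT.id.fst.fst.fst (PT.lcons PT.id.fst.snd.fst (PT.lcons PT.id.snd.fst
        (PT.const [])))).pair PT.id.fst.fst.snd.snd)
      ((PT.const []).pair (PT.lcons (PTtok4 PT.id.fst.fst.fst.fst PT.id.fst.fst.snd.fst
        PT.id.fst.snd.fst PT.id.snd.fst) PT.id.fst.fst.fst.snd.snd))
    refine h4.congr fun z => ?_
    rcases z.2.2 with _ | ⟨v, t⟩ <;> rfl
  have h2 : PT (fun z : (Bool × TkS) × Bool × List Bool =>
      (match z.2.2 with
        | [] => ([z.1.1, z.2.1], z.1.2.2)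
        | d :: t => (match t with
          | [] => ([z.1.1, z.2.1, d], z.1.2.2)
          | e :: _ => ([], tok4 z.1.1 z.2.1 d e :: z.1.2.2)) : TkS)) := by
    have h4 := PT.listCase (α := (Bool × TkS) × Bool × List Bool)
      (l := fun z => z.2.2) (f := fun z => (([z.1.1, z.2.1], z.1.2.2) : TkS))
      PT.id.snd.snd
      ((PT.lcons PT.id.fst.fst (PT.lcons PT.id.snd.fst (PT.const []))).pair PT.id.fst.snd.snd) h3
    refine h4.congr fun z => ?_
    rcases z.2.2 with _ | ⟨v, t⟩ <;> rfl
  have h4 := PT.listCase (α := Bool × TkS) (l := fun z => z.2.1)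
    (f := fun z => (([z.1], z.2.2) : TkS)) PT.id.snd.fst
    ((PT.lcons PT.id.fst (PT.const [])).pair PT.id.snd.snd) h2
  refine h4.congr fun z => ?_
  obtain ⟨b, l, ts⟩ := z
  rcases l with _ | ⟨c, _ | ⟨d, _ | ⟨e, l⟩⟩⟩ <;> rfl

theorem sz_tok (t : Tok) : sz t ≤ 17 := by
  change sz t.bits ≤ 17
  have := PT.sz_boolList t.bits
  rw [bits_length] at this
  omega

theorem sz_toks (l : List Tok) : sz l ≤ 18 * l.length + 1 := by
  induction l with
  | nil => rw [sz_nil]; simp
  | cons t l ih =>
    rw [sz_cons, List.length_cons]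
    have := sz_tok t
    omega

theorem tk_len (l : List Bool) : (tk l).2.length ≤ l.length := by
  induction l with
  | nil => simp [tk]
  | cons b l ih =>
    rw [tk_cons, List.length_cons]
    rcases h : tk l with ⟨buf, ts⟩
    rw [h] at ih
    simp only at ih
    rcases buf with _ | ⟨c, _ | ⟨d, _ | ⟨e, l⟩⟩⟩ <;>
      simp only [tkStep, List.length_cons] <;> omega

theorem tk_sz (l : List Bool) : sz (tk l) ≤ 18 * l.length + 15 := by
  have h1 := (tk_sound l).1
  have h2 := tk_len l
  have h3 := PT.sz_boolList (tk l).1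
  have h4 := sz_toks (tk l).2
  have h5 : sz (tk l) = sz (tk l).1 + sz (tk l).2 + 1 := sz_pair _ _
  omega

theorem foldr_take {β σ : Type} (f : β → σ → σ) (x : σ) (l : List β) (k : ℕ) :
    (l.reverse.take k).foldl (fun s t => f t s) x =
      (l.drop (l.length - k)).foldr f x := by
  rw [List.take_reverse, List.foldl_reverse]

/-- right folds whose size is controlled -/
theorem PTfoldr {α β σ : Type} [TEnc α] [TEnc β] [TEnc σ] {f : β → σ → σ} {x : σ}
    (hf : PT (fun z : β × σ => f z.1 z.2)) {l : α → List β} (hl : PT l)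
    (q : Polynomial ℕ) (hq : ∀ m : List β, sz (m.foldr f x) ≤ q.eval m.length) :
    PT (fun a => (l a).foldr f x) := by
  obtain ⟨S, hS⟩ := hl.bound
  have h := PT.foldl (β := α) (σ := σ) (γ := β) (f := fun z => f z.2.2 z.2.1)
    (hf.comp (PT.id.snd.snd.pair PT.id.snd.fst)) hl.reverse (x := fun _ => x) (PT.const _)
    (q.comp S) (by
      intro a k hk
      change sz (((l a).reverse.take k).foldl (fun s t => f t s) x) ≤ _
      rw [foldr_take, Polynomial.eval_comp]
      refine (hq _).trans (poly_mono q ?_)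
      rw [List.length_drop]
      have := (length_le_sz (l a)).trans (hS a)
      omega)
  refine h.congr fun a => ?_
  rw [List.foldl_reverse]

theorem PTtk {α : Type} [TEnc α] {l : α → List Bool} (hl : PT l) : PT (fun a => tk (l a)) :=
  PTfoldr PTtkStep hl (18 * Polynomial.X + 15) (by
    intro m
    have := tk_sz m
    simp only [Polynomial.eval_add, Polynomial.eval_mul, Polynomial.eval_ofNat,
      Polynomial.eval_X]
    exact this)

/-! ### decoding of certificates -/

/-- pending symbol, current item, items -/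
abbrev DS := Option Bool × (List Bool × List (List Bool))

def dstep (b : Bool) (s : DS) : DS :=
  match s.1 with
  | none => (some b, (s.2.1, s.2.2))
  | some c => if b then (none, (c :: s.2.1, s.2.2)) else (none, ([], s.2.1 :: s.2.2))

def dec (w : List Bool) : DS := w.foldr dstep (none, ([], []))

def encItem (l : List Bool) : List Bool := false :: false :: l.flatMap fun b => [true, b]

theorem dec_item (l : List Bool) (w : List Bool) (it : List (List Bool))
    (h : dec w = (none, ([], it))) : dec (encItem l ++ w) = (none, ([], l :: it)) := by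
  have h1 : dec ((l.flatMap fun b => [true, b]) ++ w) = (none, (l, it)) := by
    induction l with
    | nil => simpa using h
    | cons b l ih =>
      rw [List.flatMap_cons, List.append_assoc]
      change dstep true (dstep b (dec ((l.flatMap fun b => [true, b]) ++ w))) = _
      rw [ih]; rfl
  change dstep false (dstep false (dec ((l.flatMap fun b => [true, b]) ++ w))) = _
  rw [h1]; rfl

theorem dec_enc (ls : List (List Bool)) : (dec (ls.flatMap encItem)).2.2 = ls := by
  have h : dec (ls.flatMap encItem) = (none, ([], ls)) := by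
    induction ls with
    | nil => rfl
    | cons l ls ih => rw [List.flatMap_cons]; exact dec_item _ _ _ ih
  rw [h]

theorem dstep_sz (b : Bool) (s : DS) : sz (dstep b s) ≤ sz s + 8 := by
  obtain ⟨o, l, it⟩ := s
  have h0 : sz ((o, (l, it)) : DS) = sz o + (sz l + sz it + 1) + 1 := by rw [sz_pair, sz_pair]
  rw [h0]
  have := sz_bool b
  cases o with
  | none =>
    change sz ((some b, (l, it)) : DS) ≤ _
    rw [sz_pair, sz_pair, sz_some, sz_none]
    omega
  | some c =>
    have := sz_bool c
    rw [sz_some]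
    cases b
    · change sz ((none, ([], l :: it)) : DS) ≤ _
      rw [sz_pair, sz_pair, sz_cons, sz_none, sz_nil]
      omega
    · change sz ((none, (c :: l, it)) : DS) ≤ _
      rw [sz_pair, sz_pair, sz_cons, sz_none]
      omega

theorem dec_sz (w : List Bool) : sz (dec w) ≤ 8 * w.length + 5 := by
  induction w with
  | nil =>
    change sz ((none, ([], [])) : DS) ≤ _
    rw [sz_pair, sz_pair, sz_none, sz_nil, sz_nil]; simp
  | cons b w ih =>
    have h1 : dec (b :: w) = dstep b (dec w) := rfl
    rw [h1, List.length_cons]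
    have := dstep_sz b (dec w)
    omega

theorem PTdstep : PT (fun z : Bool × DS => dstep z.1 z.2) := by
  have h := PT.optCase (α := Bool × DS) (l := fun z => z.2.1)
    (f := fun z => ((some z.1, (z.2.2.1, z.2.2.2)) : DS))
    (g := fun y => if y.1.1 then ((none, (y.2 :: y.1.2.2.1, y.1.2.2.2)) : DS)
      else (none, ([], y.1.2.2.1 :: y.1.2.2.2)))
    PT.id.snd.fst
    ((PT.osome PT.id.fst).pair (PT.id.snd.snd.fst.pair PT.id.snd.snd.snd))
    (PT.ite PT.id.fst.fst ((PT.const none).pair ((PT.lcons PT.id.snd PT.id.fst.snd.snd.fst).pair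
      PT.id.fst.snd.snd.snd)) ((PT.const none).pair ((PT.const []).pair
        (PT.lcons PT.id.fst.snd.snd.fst PT.id.fst.snd.snd.snd))))
  refine h.congr fun z => ?_
  obtain ⟨b, o, l, it⟩ := z
  cases o <;> rfl

theorem PTdec {α : Type} [TEnc α] {l : α → List Bool} (hl : PT l) : PT (fun a => dec (l a)) :=
  PTfoldr PTdstep hl (8 * Polynomial.X + 5) (by
    intro m
    have := dec_sz m
    simp only [Polynomial.eval_add, Polynomial.eval_mul, Polynomial.eval_ofNat,
      Polynomial.eval_X]
    exact this)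

/-- entry coded by a list of bits -/
def ient (l : List Bool) : Ent :=
  (hd l, if hd l.tail then (⟨0⟩, ⟨bval l.tail.tail⟩) else (⟨bval l.tail.tail⟩, ⟨0⟩))

theorem PTient {α : Type} [TEnc α] {l : α → List Bool} (hl : PT l) : PT (fun a => ient (l a)) := by
  have hb : PT (fun a => (⟨bval (l a).tail.tail⟩ : BN)) :=
    PT.ofVal (PT.tail (PT.tail hl)) fun a => rfl
  exact (PT.hd hl).pair (PT.ite (PT.hd (PT.tail hl)) ((PT.const _).pair hb)
    (hb.pair (PT.const _)))

/-- list of bits coding an entry -/
def itemOf (b : Bool) (z : ℤ) : List Bool := b :: decide (z < 0) :: Nat.bits z.natAbs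

theorem ient_item (b : Bool) (z : ℤ) : ient (itemOf b z) = mkEnt b z := by
  have h1 : hd (itemOf b z) = b := rfl
  have h2 : hd (itemOf b z).tail = decide (z < 0) := rfl
  have h3 : (itemOf b z).tail.tail = Nat.bits z.natAbs := rfl
  unfold ient mkEnt
  rw [h1, h2, h3, bval_bits]
  by_cases h : z < 0
  · simp only [h, decide_true, if_true]
    have e1 : z.toNat = 0 := by omega
    have e2 : (-z).toNat = z.natAbs := by omega
    rw [e1, e2]
  · simp only [h, decide_false, Bool.false_eq_true, if_false]
    have e1 : z.toNat = z.natAbs := by omega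
    have e2 : (-z).toNat = 0 := by omega
    rw [e1, e2]

/-! ### exponents -/

theorem PTrr (k m : ℕ) {α : Type} [TEnc α] {N : α → ℕ} (hN : PT N) :
    PT (fun a => rr k m (N a)) :=
  PT.succ (PT.pow (PT.add (PT.mul (PT.const 6) hN) (PT.const 4)) _)

theorem PTee (k m : ℕ) {α : Type} [TEnc α] {N : α → ℕ} (hN : PT N) :
    PT (fun a => ee k m (N a)) :=
  PT.succ (PT.pow (PT.add (PT.add (PTrr k m hN) (PT.mul (PT.const 6) hN)) (PT.const 5)) _)

theorem PTLL (k m : ℕ) {α : Type} [TEnc α] {N : α → ℕ} (hN : PT N) :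
    PT (fun a => LL k m (N a)) :=
  PT.succ (PT.add (PT.add (PTrr k m hN) (PTee k m hN)) (PT.mul (PTrr k m hN) hN))

/-! ### the verifier -/

def cntf (A : List Ent) : ℕ := A.foldl (fun s e => if e.1 then s + 1 else s) 0

theorem cntf_aux (A : List Ent) : ∀ s, A.foldl (fun s e => if e.1 then s + 1 else s) s =
    s + (A.filter fun e => e.1).length := by
  induction A with
  | nil => intro s; rfl
  | cons e A ih =>
    intro s
    rw [List.foldl_cons, ih]
    cases h : e.1
    · rw [List.filter_cons_of_neg (by simp [h])]; simp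
    · rw [List.filter_cons_of_pos (by simp [h]), List.length_cons]; simp; omega

theorem PTcntf {α : Type} [TEnc α] {A : α → List Ent} (hA : PT A) : PT (fun a => cntf (A a)) := by
  have h1 : PT (fun z : α × (ℕ × Ent) => if z.2.2.1 then z.2.1 + 1 else z.2.1) :=
    PT.ite PT.id.snd.snd.fst (PT.succ PT.id.snd.fst) PT.id.snd.fst
  exact PT.foldl_add h1 hA (x := fun _ => 0) (PT.const 0) 2 (by
    intro b s c _
    simp only [Polynomial.eval_ofNat, sz_nat]
    split_ifs <;> omega)

def mkCtx (k m N : ℕ) (A : List Ent) : Ctx := (A, (LL k m N, (rr k m N, rr k m N + ee k m N)))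

def fin1 (m : ℕ) (o : Option (List Val)) : Bool :=
  match o with
  | none => false
  | some st => match st with
    | [] => false
    | v :: t => t.isEmpty && (kd (true, true) v && (v.2.2.2.1 && decide (v.2.2.2.2 ≤ m)))

def entOk (K : ℕ) (e : Ent) : Bool :=
  decide (e.2.1.n ≤ 2 ^ K) && decide (e.2.2.n ≤ 2 ^ K)

/-- the verifier, as a function of the input and the certificate -/
def ver (k m : ℕ) (u w : List Bool) : Bool :=
  (tk u).1.isEmpty &&
  (decide (((dec w).2.2.map ient).length ≤ u.length) &&
  (decide (cntf ((dec w).2.2.map ient) ≤ k) &&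
  (((dec w).2.2.map ient).all (entOk (rr k m u.length + LL k m u.length)) &&
  fin1 m (veval (mkCtx k m u.length ((dec w).2.2.map ient)) (tk u).2))))

theorem PTfin1 (m : ℕ) {α : Type} [TEnc α] {o : α → Option (List Val)} (ho : PT o) :
    PT (fun a => fin1 m (o a)) := by
  have h1 : PT (fun z : (α × List Val) × Val × List Val =>
      z.2.2.isEmpty && (kd (true, true) z.2.1 && (z.2.1.2.2.2.1 && decide (z.2.1.2.2.2.2 ≤ m)))) :=
    PT.and (PT.isEmpty PT.id.snd.snd) (PT.and (PTkd _ PT.id.snd.fst)
      (PT.and PT.id.snd.fst.snd.snd.snd.fst (PT.leN PT.id.snd.fst.snd.snd.snd.snd (PT.const m))))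
  have h2 : PT (fun z : α × List Val => (match z.2 with
    | [] => false
    | v :: t => t.isEmpty && (kd (true, true) v && (v.2.2.2.1 && decide (v.2.2.2.2 ≤ m))))) := by
    refine (PT.listCase (α := α × List Val) (l := fun z => z.2) PT.id.snd (PT.const false)
      h1).congr fun z => ?_
    rcases z.2 with _ | ⟨v, t⟩ <;> rfl
  refine (PT.optCase ho (PT.const false) h2).congr fun a => ?_
  unfold fin1
  cases o a <;> rfl

theorem PTentOk {α : Type} [TEnc α] {K : α → ℕ} {e : α → Ent} (hK : PT K) (he : PT e) :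
    PT (fun a => entOk (K a) (e a)) :=
  PT.and (PT.ble he.snd.fst (PTone hK)) (PT.ble he.snd.snd (PTone hK))

theorem PTver (k m : ℕ) {α : Type} [TEnc α] {u w : α → List Bool} (hu : PT u) (hw : PT w) :
    PT (fun a => ver k m (u a) (w a)) := by
  have hN : PT (fun a => (u a).length) := PT.length hu
  have hA : PT (fun a => (dec (w a)).2.2.map ient) :=
    PT.map (α := α) (f := fun z => ient z.2) (PTient PT.id.snd) (PTdec hw).snd.snd
  have hT := PTtk hu
  have hr := PTrr k m hN
  have hL := PTLL k m hN
  have he := PTee k m hN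
  have hall : PT (fun a => ((dec (w a)).2.2.map ient).all
      (entOk (rr k m (u a).length + LL k m (u a).length))) :=
    PT.all (α := α) (f := fun z => entOk (rr k m (u z.1).length + LL k m (u z.1).length) z.2)
      (PTentOk ((PT.add hr hL).comp PT.id.fst) PT.id.snd) hA
  have hctx : PT (fun a => mkCtx k m (u a).length ((dec (w a)).2.2.map ient)) :=
    hA.pair (hL.pair (hr.pair (PT.add hr he)))
  exact PT.and (PT.isEmpty hT.fst) (PT.and (PT.leN (PT.length hA) hN)
    (PT.and (PT.leN (PTcntf hA) (PT.const k)) (PT.and hall (PTfin1 m (PTveval hctx hT.snd)))))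

/-! ### splitting pairs -/

abbrev SpS := Bool × (List Bool × List Bool)

def spStep (o : Option Bool) (s : SpS) : SpS :=
  match o with
  | none => (true, (s.2.1, s.2.2))
  | some b => if s.1 then (true, (b :: s.2.1, s.2.2)) else (false, (s.2.1, b :: s.2.2))

def split (l : List (Option Bool)) : SpS := l.foldr spStep (false, ([], []))

theorem split_pair (u w : List Bool) : split (encPair (u, w)) = (true, (u, w)) := by
  have h1 : split (w.map some) = (false, ([], w)) := by
    induction w with
    | nil => rfl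
    | cons b w ih =>
      change spStep (some b) (split (w.map some)) = _
      rw [ih]; rfl
  have h2 : split (none :: w.map some) = (true, ([], w)) := by
    change spStep none (split (w.map some)) = _
    rw [h1]; rfl
  change split (u.map some ++ (none :: w.map some)) = _
  induction u with
  | nil => exact h2
  | cons b u ih =>
    change spStep (some b) (split (u.map some ++ (none :: w.map some))) = _
    rw [ih]; rfl

theorem split_sz (l : List (Option Bool)) : sz (split l) ≤ 8 * l.length + 5 := by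
  induction l with
  | nil =>
    change sz ((false, ([], [])) : SpS) ≤ _
    rw [sz_pair, sz_pair, sz_false, sz_nil]; simp
  | cons o l ih =>
    have h1 : split (o :: l) = spStep o (split l) := rfl
    rw [h1, List.length_cons]
    generalize split l = s at ih ⊢
    obtain ⟨b, x, y⟩ := s
    rw [sz_pair, sz_pair] at ih
    cases o with
    | none =>
      change sz ((true, (x, y)) : SpS) ≤ _
      rw [sz_pair, sz_pair, sz_true]
      have := sz_pos b
      omega
    | some c =>
      have := sz_bool c
      have := sz_bool b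
      cases b
      · change sz ((false, (x, c :: y)) : SpS) ≤ _
        rw [sz_false] at ih
        rw [sz_pair, sz_pair, sz_cons, sz_false]
        omega
      · change sz ((true, (c :: x, y)) : SpS) ≤ _
        rw [sz_true] at ih
        rw [sz_pair, sz_pair, sz_cons, sz_true]
        omega

theorem PTspStep : PT (fun z : Option Bool × SpS => spStep z.1 z.2) := by
  have h := PT.optCase (α := Option Bool × SpS) (l := fun z => z.1)
    (f := fun z => ((true, (z.2.2.1, z.2.2.2)) : SpS))
    (g := fun y => if y.1.2.1 then ((true, (y.2 :: y.1.2.2.1, y.1.2.2.2)) : SpS)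
      else (false, (y.1.2.2.1, y.2 :: y.1.2.2.2)))
    PT.id.fst
    ((PT.const true).pair (PT.id.snd.snd.fst.pair PT.id.snd.snd.snd))
    (PT.ite PT.id.fst.snd.fst ((PT.const true).pair ((PT.lcons PT.id.snd
      PT.id.fst.snd.snd.fst).pair PT.id.fst.snd.snd.snd)) ((PT.const false).pair
        (PT.id.fst.snd.snd.fst.pair (PT.lcons PT.id.snd PT.id.fst.snd.snd.snd))))
  refine h.congr fun z => ?_
  obtain ⟨o, b, l, it⟩ := z
  cases o <;> rfl

theorem PTsplit {α : Type} [TEnc α] {l : α → List (Option Bool)} (hl : PT l) :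
    PT (fun a => split (l a)) :=
  PTfoldr PTspStep hl (8 * Polynomial.X + 5) (by
    intro m
    have := split_sz m
    simp only [Polynomial.eval_add, Polynomial.eval_mul, Polynomial.eval_ofNat,
      Polynomial.eval_X]
    exact this)

theorem ver_poly (k m : ℕ) : Nonempty (Turing.TM2ComputableInPolyTime encPair
    Computability.encodeBool (fun p : List Bool × List Bool => ver k m p.1 p.2)) := by
  refine polytime_bool encPair _ (fun l => ver k m (split l).2.1 (split l).2.2)
    (PTver k m (PTsplit PT.id).snd.fst (PTsplit PT.id).snd.snd) ?_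
  rintro ⟨u, w⟩
  rw [split_pair]

end Pool.Agent.Helper54.ETR
end

section
open Pool.Agent.Helper54.Poly

namespace Pool.Agent.Helper54.ETR

theorem XX_card (A : List Ent) (q : ℕ × (ℕ × ℕ)) : (XX (A, q)).card = cntf A := by
  have h1 : cntf A = (A.filter fun e => e.1).length := by
    unfold cntf; rw [cntf_aux]; simp
  rw [h1]
  clear h1
  unfold XX
  induction A with
  | nil => simp
  | cons e A ih =>
    rw [Finset.card_filter] at ih ⊢
    change (∑ i ∈ Finset.range (A.length + 1), _) = _
    rw [Finset.sum_range_succ']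
    have h2 : ∀ i, flagAt (e :: A, q) (i + 1) = flagAt (A, q) i := by
      intro i; simp [flagAt]
    have h3 : flagAt (e :: A, q) 0 = e.1 := by simp [flagAt]
    simp only [h2, h3]
    change (∑ i ∈ Finset.range A.length, _) + _ = _
    have ih' : (∑ i ∈ Finset.range A.length, if flagAt (A, q) i = true then 1 else 0) =
        (A.filter fun e => e.1).length := ih
    rw [ih']
    cases h : e.1
    · rw [List.filter_cons_of_neg (by simp [h])]; simp
    · rw [List.filter_cons_of_pos (by simp [h]), List.length_cons]; simp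

theorem fin1_true {m : ℕ} {o : Option (List Val)} (h : fin1 m o = true) :
    ∃ v, o = some [v] ∧ kd (true, true) v = true ∧ v.2.2.2.1 = true ∧ v.2.2.2.2 ≤ m := by
  cases o with
  | none => simp [fin1] at h
  | some st =>
    rcases st with _ | ⟨v, t⟩
    · simp [fin1] at h
    · simp only [fin1, Bool.and_eq_true, decide_eq_true_eq, List.isEmpty_iff] at h
      obtain ⟨h1, h2, h3, h4⟩ := h
      subst h1
      exact ⟨v, rfl, h2, h3, h4⟩

theorem ver_sound (k m : ℕ) (u w : List Bool) (h : ver k m u w = true) :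
    ∃ p : Form, u = p.code ∧ p.Frag k m ∧ ∃ x : ℕ → ℝ, p.Holds x := by
  simp only [ver, Bool.and_eq_true, decide_eq_true_eq, List.isEmpty_iff, List.all_eq_true] at h
  obtain ⟨h1, h2, h3, h4, h5⟩ := h
  obtain ⟨v, h6, h7, h8, h9⟩ := fin1_true h5
  set A := (dec w).2.2.map ient with hA
  set N := u.length with hN
  rw [veval_eq] at h6
  cases hp : parse (tk u).2 with
  | none => rw [hp] at h6; simp at h6
  | some st =>
    rw [hp, Option.bind_some] at h6
    rcases st with _ | ⟨o, st⟩
    · simp [ovals] at h6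
    · obtain ⟨v', vs, o1, o2, o3⟩ := ovals_cons h6
      simp only [List.cons.injEq] at o3
      obtain ⟨rfl, rfl⟩ := o3
      rcases st with _ | ⟨o', st⟩
      · rw [kd_oval o1, decide_eq_true_eq] at h7
        cases o with
        | num i => simp [okind] at h7
        | tm t => simp [okind] at h7
        | fm p =>
          obtain ⟨r, hr, rfl⟩ := oval_fm o1
          have hu : u = p.code := (decode_iff u p).2 ⟨h1, hp⟩
          refine ⟨p, hu, ?_⟩
          have hlen : p.toks.length ≤ N := by rw [hN, hu]; exact toks_le_code p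
          exact cert_sound (mkCtx k m N A) k m N (ee k m N) p r hlen h2
            (by rw [mkCtx, XX_card]; exact h3) rfl rfl rfl
            (by
              intro en hen
              have := h4 en hen
              simp only [entOk, Bool.and_eq_true, decide_eq_true_eq] at this
              exact this) hr h9 h8
      · obtain ⟨v'', vs', o4, o5, o6⟩ := ovals_cons o2
        simp at o6

theorem items_of (K : ℕ) (A : List Ent)
    (h : ∀ en ∈ A, ∃ b z, en = mkEnt b z ∧ z.natAbs ≤ 2 ^ K) :
    ∃ ls : List (List Bool), ls.map ient = A ∧ (ls.flatMap encItem).length ≤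
      A.length * (2 * (K + 3) + 2) := by
  induction A with
  | nil => exact ⟨[], rfl, by simp⟩
  | cons e A ih =>
    obtain ⟨ls, h1, h2⟩ := ih fun en hen => h en (List.mem_cons_of_mem _ hen)
    obtain ⟨b, z, he, hz⟩ := h e List.mem_cons_self
    refine ⟨itemOf b z :: ls, ?_, ?_⟩
    · rw [List.map_cons, ient_item, h1, he]
    · rw [List.flatMap_cons, List.length_append, List.length_cons]
      have h3 : (itemOf b z).length ≤ K + 3 := by
        unfold itemOf
        rw [List.length_cons, List.length_cons, Nat.size_eq_bits_len]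
        have : z.natAbs < 2 ^ (K + 1) := by
          rw [pow_succ]
          have : 0 < 2 ^ K := by positivity
          omega
        have := Nat.size_le.2 this
        omega
      have h4 : ∀ l : List Bool, (encItem l).length = 2 * l.length + 2 := by
        intro l
        unfold encItem
        rw [List.length_cons, List.length_cons]
        have : (l.flatMap fun b => [true, b]).length = 2 * l.length := by
          induction l with
          | nil => rfl
          | cons c l ih => rw [List.flatMap_cons, List.length_append, ih, List.length_cons]; simp; ring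
        rw [this]
      rw [h4, Nat.add_mul, Nat.one_mul]
      omega

theorem ver_complete (k m : ℕ) (p : Form) (hf : p.Frag k m) (hs : ∃ x : ℕ → ℝ, p.Holds x) :
    ∃ w : List Bool, w.length ≤ p.code.length * (2 * (rr k m p.code.length +
      LL k m p.code.length + 3) + 2) ∧ ver k m p.code w = true := by
  set N := p.code.length with hN
  obtain ⟨A, h1, h2, h3, r, h4, h5, h6⟩ := cert_complete k m N p (toks_le_code p) hf hs
  obtain ⟨ls, h7, h8⟩ := items_of _ A h2
  refine ⟨ls.flatMap encItem, by rw [h1] at h8; exact h8, ?_⟩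
  obtain ⟨d1, d2⟩ := (decode_iff p.code p).1 rfl
  simp only [ver, Bool.and_eq_true, decide_eq_true_eq, List.isEmpty_iff, List.all_eq_true]
  rw [dec_enc, h7, ← hN]
  refine ⟨d1, h1.le, ?_, ?_, ?_⟩
  · rw [← XX_card A (LL k m N, (rr k m N, rr k m N + ee k m N))]; exact h3
  · intro en hen
    obtain ⟨b, z, rfl, hz⟩ := h2 en hen
    simp only [entOk, mkEnt, Bool.and_eq_true, decide_eq_true_eq]
    constructor
    · exact le_trans (by omega) hz
    · exact le_trans (by omega) hz
  · rw [veval_eq, d2, Option.bind_some]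
    have ho : oval (mkCtx k m N A) (Ob.fm p) = some (vfm r) := by
      simp only [oval]
      rw [show fval (mkCtx k m N A) p = some r from h4]
    rw [ovals_mk ho rfl]
    simp only [fin1, vfm, List.isEmpty_nil, Bool.true_and, Bool.and_eq_true, decide_eq_true_eq]
    exact ⟨rfl, h5, h6⟩

theorem frag_inNP (k m : ℕ) :
    InNP {s | ∃ φ : Form, s = φ.code ∧ φ.Frag k m ∧ ∃ x : ℕ → ℝ, φ.Holds x} := by
  have hP : PT (fun N : ℕ => N * (2 * (rr k m N + LL k m N + 3) + 2)) :=
    PT.mul PT.id (PT.add (PT.mul (PT.const 2) (PT.add (PT.add (PTrr k m PT.id) (PTLL k m PT.id))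
      (PT.const 3))) (PT.const 2))
  obtain ⟨S, hS⟩ := hP.nbound
  refine ⟨fun p => ver k m p.1 p.2, S.comp (2 * Polynomial.X + 1), ver_poly k m, ?_⟩
  intro u
  constructor
  · rintro ⟨p, rfl, hf, hs⟩
    obtain ⟨w, hw1, hw2⟩ := ver_complete k m p hf hs
    refine ⟨w, hw1.trans ?_, hw2⟩
    refine (hS _).trans (le_of_eq ?_)
    rw [sz_nat, Polynomial.eval_comp]
    simp only [Polynomial.eval_add, Polynomial.eval_mul, Polynomial.eval_ofNat,
      Polynomial.eval_X, Polynomial.eval_one]
  · rintro ⟨w, _, hw⟩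
    exact ver_sound k m u w hw

end Pool.Agent.Helper54.ETR
end
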