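import Mathlib

namespace Pool.Agent.Helper54.ETR

/-- Terms built from `0`, `1` and the variables `x_0, x_1, …` using `+`, `-`, `·`. -/
inductive Term : Type
  | zero : Term
  | one : Term
  | var (i : ℕ) : Term
  | add (s t : Term) : Term
  | sub (s t : Term) : Term
  | mul (s t : Term) : Term

/-- Quantifier-free formulas. -/
inductive Form : Type
  | lt (s t : Term) : Form
  | le (s t : Term) : Form
  | eq (s t : Term) : Form
  | ge (s t : Term) : Form
  | gt (s t : Term) : Form
  | and (p q : Form) : Form
  | or (p q : Form) : Form
  | not (p : Form) : Form

/-- The value of a term at a real point. -/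
def Term.eval (x : ℕ → ℝ) : Term → ℝ
  | zero => 0
  | one => 1
  | var i => x i
  | add s t => s.eval x + t.eval x
  | sub s t => s.eval x - t.eval x
  | mul s t => s.eval x * t.eval x

/-- Truth of a quantifier-free formula at a real point. -/
def Form.Holds (x : ℕ → ℝ) : Form → Prop
  | lt s t => s.eval x < t.eval x
  | le s t => s.eval x ≤ t.eval x
  | eq s t => s.eval x = t.eval x
  | ge s t => s.eval x ≥ t.eval x
  | gt s t => s.eval x > t.eval x
  | and p q => p.Holds x ∧ q.Holds x
  | or p q => p.Holds x ∨ q.Holds x
  | not p => ¬ p.Holds x

/-- The sixteen symbols used to write formulas; `x_i` is written `x s … s e` with `i` times `s`. -/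
inductive Tok : Type
  | zero | one | x | s | e | add | sub | mul | lt | le | eq | ge | gt | and | or | not

/-- Four-bit code of a symbol. -/
def Tok.bits : Tok → List Bool
  | zero => [false, false, false, false]
  | one => [false, false, false, true]
  | x => [false, false, true, false]
  | s => [false, false, true, true]
  | e => [false, true, false, false]
  | add => [false, true, false, true]
  | sub => [false, true, true, false]
  | mul => [false, true, true, true]
  | lt => [true, false, false, false]
  | le => [true, false, false, true]
  | eq => [true, false, true, false]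
  | ge => [true, false, true, true]
  | gt => [true, true, false, false]
  | and => [true, true, false, true]
  | or => [true, true, true, false]
  | not => [true, true, true, true]

/-- Polish notation for terms. -/
def Term.toks : Term → List Tok
  | zero => [Tok.zero]
  | one => [Tok.one]
  | var i => Tok.x :: (List.replicate i Tok.s ++ [Tok.e])
  | add s t => Tok.add :: (s.toks ++ t.toks)
  | sub s t => Tok.sub :: (s.toks ++ t.toks)
  | mul s t => Tok.mul :: (s.toks ++ t.toks)

/-- Polish notation for formulas. -/
def Form.toks : Form → List Tok
  | lt s t => Tok.lt :: (s.toks ++ t.toks)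
  | le s t => Tok.le :: (s.toks ++ t.toks)
  | eq s t => Tok.eq :: (s.toks ++ t.toks)
  | ge s t => Tok.ge :: (s.toks ++ t.toks)
  | gt s t => Tok.gt :: (s.toks ++ t.toks)
  | and p q => Tok.and :: (p.toks ++ q.toks)
  | or p q => Tok.or :: (p.toks ++ q.toks)
  | not p => Tok.not :: p.toks

/-- The binary string encoding (the existential closure of) a formula. -/
def Form.code (p : Form) : List Bool := p.toks.flatMap Tok.bits

/-- The atomic formulas occurring in a formula, with repetitions. -/
def Form.atoms : Form → List (Term × Term)
  | lt s t => [(s, t)]
  | le s t => [(s, t)]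
  | eq s t => [(s, t)]
  | ge s t => [(s, t)]
  | gt s t => [(s, t)]
  | and p q => p.atoms ++ q.atoms
  | or p q => p.atoms ++ q.atoms
  | not p => p.atoms

/-- Syntactic degree of a term in the variables outside `X`. -/
def Term.deg (X : Finset ℕ) : Term → ℕ
  | zero => 0
  | one => 0
  | var i => if i ∈ X then 0 else 1
  | add s t => max (s.deg X) (t.deg X)
  | sub s t => max (s.deg X) (t.deg X)
  | mul s t => s.deg X + t.deg X

/-- Degree of an atomic formula in the variables outside `X`. -/
def atomDeg (X : Finset ℕ) (a : Term × Term) : ℕ := max (a.1.deg X) (a.2.deg X)

/-- The fragment: for some set `X` of at most `k` variables, every atomic formula has degree at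
most two in the variables outside `X` (and arbitrary degree in the variables of `X`), and at
most `m` atomic formulas have degree exactly two in the variables outside `X`. -/
def Form.Frag (k m : ℕ) (p : Form) : Prop :=
  ∃ X : Finset ℕ, X.card ≤ k ∧ (∀ a ∈ p.atoms, atomDeg X a ≤ 2) ∧
    p.atoms.countP (fun a => decide (atomDeg X a = 2)) ≤ m

/-- Pairs of strings are written `u # v`. -/
def encPair (p : List Bool × List Bool) : List (Option Bool) :=
  p.1.map some ++ none :: p.2.map some

/-- The class NP: certificates of polynomial length, checked by a Turing machine in
polynomial time. -/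
def InNP (L : Set (List Bool)) : Prop :=
  ∃ (V : List Bool × List Bool → Bool) (p : Polynomial ℕ),
    Nonempty (Turing.TM2ComputableInPolyTime encPair Computability.encodeBool V) ∧
    ∀ u, u ∈ L ↔ ∃ w : List Bool, w.length ≤ p.eval u.length ∧ V (u, w) = true

end Pool.Agent.Helper54.ETR
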