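import Pool.Agent.Helper54.ETRDefs

namespace Pool.Agent.Helper54.ETR

/-! ### tokenisation -/

/-- decode four bits -/
def tok4 : Bool → Bool → Bool → Bool → Tok
  | false, false, false, false => Tok.zero
  | false, false, false, true => Tok.one
  | false, false, true, false => Tok.x
  | false, false, true, true => Tok.s
  | false, true, false, false => Tok.e
  | false, true, false, true => Tok.add
  | false, true, true, false => Tok.sub
  | false, true, true, true => Tok.mul
  | true, false, false, false => Tok.lt
  | true, false, false, true => Tok.le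
  | true, false, true, false => Tok.eq
  | true, false, true, true => Tok.ge
  | true, true, false, false => Tok.gt
  | true, true, false, true => Tok.and
  | true, true, true, false => Tok.or
  | true, true, true, true => Tok.not

theorem bits_tok4 (a b c d : Bool) : (tok4 a b c d).bits = [a, b, c, d] := by
  cases a <;> cases b <;> cases c <;> cases d <;> rfl

theorem tok4_bits (t : Tok) : ∃ a b c d, t.bits = [a, b, c, d] ∧ tok4 a b c d = t := by
  cases t <;> exact ⟨_, _, _, _, rfl, rfl⟩

theorem bits_length (t : Tok) : t.bits.length = 4 := by cases t <;> rfl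

/-- one step of the tokeniser (reading from the right) -/
def tkStep (b : Bool) (s : List Bool × List Tok) : List Bool × List Tok :=
  match s.1 with
  | [] => ([b], s.2)
  | [c] => ([b, c], s.2)
  | [c, d] => ([b, c, d], s.2)
  | c :: d :: e :: _ => ([], tok4 b c d e :: s.2)

def tk (l : List Bool) : List Bool × List Tok := l.foldr tkStep ([], [])

theorem tk_cons (b : Bool) (l : List Bool) : tk (b :: l) = tkStep b (tk l) := rfl

theorem tk_sound (l : List Bool) : (tk l).1.length ≤ 3 ∧ l = (tk l).1 ++ (tk l).2.flatMap Tok.bits := by
  induction l with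
  | nil => simp [tk]
  | cons b l ih =>
    obtain ⟨h1, h2⟩ := ih
    rw [tk_cons]
    rcases h : tk l with ⟨buf, ts⟩
    rw [h] at h1 h2
    rcases buf with _ | ⟨c, _ | ⟨d, _ | ⟨e, _ | ⟨f, buf⟩⟩⟩⟩
    · refine ⟨by simp [tkStep], ?_⟩
      simp only [tkStep]; simpa using h2
    · refine ⟨by simp [tkStep], ?_⟩
      simp only [tkStep]; simpa using h2
    · refine ⟨by simp [tkStep], ?_⟩
      simp only [tkStep]; simpa using h2
    · refine ⟨by simp [tkStep], ?_⟩
      simp only [tkStep, List.flatMap_cons, bits_tok4]; simpa using h2
    · simp at h1; omega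

theorem tk_complete (ts : List Tok) : tk (ts.flatMap Tok.bits) = ([], ts) := by
  induction ts with
  | nil => simp [tk]
  | cons t ts ih =>
    obtain ⟨a, b, c, d, h1, h2⟩ := tok4_bits t
    rw [List.flatMap_cons, h1]
    simp only [List.cons_append, List.nil_append, tk_cons, ih, tkStep, h2]

/-! ### parsing -/

/-- objects on the parsing stack -/
inductive Ob : Type
  | num (i : ℕ) : Ob
  | tm (t : Term) : Ob
  | fm (p : Form) : Ob

def Ob.toks : Ob → List Tok
  | num i => List.replicate i Tok.s ++ [Tok.e]
  | tm t => t.toks
  | fm p => p.toks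

/-- one step of the parser (reading from the right) -/
def pstep : Tok → List Ob → Option (List Ob)
  | Tok.zero, st => some (Ob.tm Term.zero :: st)
  | Tok.one, st => some (Ob.tm Term.one :: st)
  | Tok.e, st => some (Ob.num 0 :: st)
  | Tok.s, Ob.num i :: st => some (Ob.num (i + 1) :: st)
  | Tok.x, Ob.num i :: st => some (Ob.tm (Term.var i) :: st)
  | Tok.add, Ob.tm a :: Ob.tm b :: st => some (Ob.tm (Term.add a b) :: st)
  | Tok.sub, Ob.tm a :: Ob.tm b :: st => some (Ob.tm (Term.sub a b) :: st)
  | Tok.mul, Ob.tm a :: Ob.tm b :: st => some (Ob.tm (Term.mul a b) :: st)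
  | Tok.lt, Ob.tm a :: Ob.tm b :: st => some (Ob.fm (Form.lt a b) :: st)
  | Tok.le, Ob.tm a :: Ob.tm b :: st => some (Ob.fm (Form.le a b) :: st)
  | Tok.eq, Ob.tm a :: Ob.tm b :: st => some (Ob.fm (Form.eq a b) :: st)
  | Tok.ge, Ob.tm a :: Ob.tm b :: st => some (Ob.fm (Form.ge a b) :: st)
  | Tok.gt, Ob.tm a :: Ob.tm b :: st => some (Ob.fm (Form.gt a b) :: st)
  | Tok.and, Ob.fm a :: Ob.fm b :: st => some (Ob.fm (Form.and a b) :: st)
  | Tok.or, Ob.fm a :: Ob.fm b :: st => some (Ob.fm (Form.or a b) :: st)
  | Tok.not, Ob.fm a :: st => some (Ob.fm (Form.not a) :: st)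
  | _, _ => none

def parse (l : List Tok) : Option (List Ob) := l.foldr (fun t s => s.bind (pstep t)) (some [])

theorem parse_cons (t : Tok) (l : List Tok) : parse (t :: l) = (parse l).bind (pstep t) := rfl

theorem pstep_sound (t : Tok) (st st' : List Ob) (h : pstep t st = some st') :
    st'.flatMap Ob.toks = t :: st.flatMap Ob.toks := by
  unfold pstep at h
  split at h
  case h_17 => exact absurd h (by simp)
  all_goals
    rw [Option.some.injEq] at h
    subst h
    simp [Ob.toks, Term.toks, Form.toks, List.replicate_succ]

theorem parse_sound (l : List Tok) (st : List Ob) (h : parse l = some st) :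
    l = st.flatMap Ob.toks := by
  induction l generalizing st with
  | nil =>
    have : st = [] := by simpa [parse] using h.symm
    subst this; rfl
  | cons t l ih =>
    rw [parse_cons, Option.bind_eq_some_iff] at h
    obtain ⟨st0, h1, h2⟩ := h
    rw [pstep_sound t st0 st h2, ← ih st0 h1]

theorem parse_num (i : ℕ) (l : List Tok) (st : List Ob) (h : parse l = some st) :
    parse ((List.replicate i Tok.s ++ [Tok.e]) ++ l) = some (Ob.num i :: st) := by
  induction i with
  | zero => simp [parse_cons, h, pstep]
  | succ i ih =>
    rw [List.replicate_succ, List.cons_append, List.cons_append, parse_cons, ih]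
    rfl

theorem parse_term (t : Term) : ∀ (l : List Tok) (st : List Ob), parse l = some st →
    parse (t.toks ++ l) = some (Ob.tm t :: st) := by
  induction t with
  | zero => intro l st h; simp [Term.toks, parse_cons, h, pstep]
  | one => intro l st h; simp [Term.toks, parse_cons, h, pstep]
  | var i =>
    intro l st h
    have h1 := parse_num i l st h
    rw [Term.toks, List.cons_append, parse_cons, h1]; rfl
  | add s t ihs iht =>
    intro l st h
    have h1 := ihs _ _ (iht _ _ h)
    rw [Term.toks, List.cons_append, List.append_assoc, parse_cons, h1]; rfl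
  | sub s t ihs iht =>
    intro l st h
    have h1 := ihs _ _ (iht _ _ h)
    rw [Term.toks, List.cons_append, List.append_assoc, parse_cons, h1]; rfl
  | mul s t ihs iht =>
    intro l st h
    have h1 := ihs _ _ (iht _ _ h)
    rw [Term.toks, List.cons_append, List.append_assoc, parse_cons, h1]; rfl

theorem parse_form (p : Form) : ∀ (l : List Tok) (st : List Ob), parse l = some st →
    parse (p.toks ++ l) = some (Ob.fm p :: st) := by
  induction p with
  | lt s t | le s t | eq s t | ge s t | gt s t =>
    intro l st h
    have h1 := parse_term s _ _ (parse_term t _ _ h)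
    rw [Form.toks, List.cons_append, List.append_assoc, parse_cons, h1]; rfl
  | and p q ihp ihq =>
    intro l st h
    have h1 := ihp _ _ (ihq _ _ h)
    rw [Form.toks, List.cons_append, List.append_assoc, parse_cons, h1]; rfl
  | or p q ihp ihq =>
    intro l st h
    have h1 := ihp _ _ (ihq _ _ h)
    rw [Form.toks, List.cons_append, List.append_assoc, parse_cons, h1]; rfl
  | not p ihp =>
    intro l st h
    have h1 := ihp _ _ h
    rw [Form.toks, List.cons_append, parse_cons, h1]; rfl

/-- the formula encoded by a string, if any -/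
theorem decode_iff (u : List Bool) (p : Form) :
    u = p.code ↔ (tk u).1 = [] ∧ parse (tk u).2 = some [Ob.fm p] := by
  constructor
  · rintro rfl
    have h1 := tk_complete p.toks
    rw [Form.code, h1]
    refine ⟨rfl, ?_⟩
    have h2 := parse_form p [] [] rfl
    simpa using h2
  · rintro ⟨h1, h2⟩
    have h3 := (tk_sound u).2
    rw [h1, List.nil_append] at h3
    have h4 := parse_sound _ _ h2
    have h5 : [Ob.fm p].flatMap Ob.toks = p.toks := by simp [Ob.toks]
    rw [h5] at h4
    rw [h3, h4]; rfl

theorem code_injective {p q : Form} (h : p.code = q.code) : p = q := by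
  have h1 := (decode_iff p.code p).1 rfl
  have h2 := (decode_iff p.code q).1 h
  have h3 : some [Ob.fm p] = some [Ob.fm q] := h1.2.symm.trans h2.2
  simpa using h3

end Pool.Agent.Helper54.ETR
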