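import Pool.Agent.Helper54.Poly.Arith
import Pool.Agent.Helper54.ETRParse

section
open Pool.Agent.Helper54.Poly

namespace Pool.Agent.Helper54.ETR



/-- entry of an assignment: flag (in `X` or not), positive and negative part of the numerator -/
abbrev Ent := Bool × (BN × BN)
/-- positive part, negative part, weight, degree -/
abbrev TRec := BN × (BN × (ℕ × ℕ))
/-- truth value and number of atoms of degree two -/
abbrev FRec := Bool × ℕ
abbrev Val := (Bool × Bool) × (List Ent × (TRec × FRec))
/-- assignment, scale `L`, exponents `r`, `r + e` -/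
abbrev Ctx := List Ent × (ℕ × (ℕ × ℕ))

def t0 : TRec := (⟨0⟩, (⟨0⟩, (0, 0)))
def f0 : FRec := (false, 0)
def vnum (l : List Ent) : Val := ((false, false), (l, (t0, f0)))
def vtm (r : TRec) : Val := ((false, true), ([], (r, f0)))
def vfm (f : FRec) : Val := ((true, true), ([], (t0, f)))

def tadd (c : Ctx) (a b : TRec) : TRec :=
  (⟨a.1.n * 2 ^ (c.2.1 * b.2.2.1) + b.1.n * 2 ^ (c.2.1 * a.2.2.1)⟩,
    (⟨a.2.1.n * 2 ^ (c.2.1 * b.2.2.1) + b.2.1.n * 2 ^ (c.2.1 * a.2.2.1)⟩,
      (a.2.2.1 + b.2.2.1, max a.2.2.2 b.2.2.2)))

def tswap (b : TRec) : TRec := (b.2.1, (b.1, b.2.2))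

def tmul (a b : TRec) : TRec :=
  (⟨a.1.n * b.1.n + a.2.1.n * b.2.1.n⟩,
    (⟨a.1.n * b.2.1.n + a.2.1.n * b.1.n⟩, (a.2.2.1 + b.2.2.1, a.2.2.2 + b.2.2.2)))

/-- classification of a difference -/
def cls0 (c : Ctx) (d : TRec) : Option (Bool × Bool) :=
  if decide (2 ^ (c.2.1 * d.2.2.1) + d.1.n * 2 ^ c.2.2.1 ≤ d.2.1.n * 2 ^ c.2.2.1) then
    some (true, false)
  else if decide (2 ^ (c.2.1 * d.2.2.1) + d.2.1.n * 2 ^ c.2.2.1 ≤ d.1.n * 2 ^ c.2.2.1) then
    some (false, true)
  else if decide (d.1.n * 2 ^ c.2.2.2 ≤ d.2.1.n * 2 ^ c.2.2.2 + 2 ^ (c.2.1 * d.2.2.1)) &&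
    decide (d.2.1.n * 2 ^ c.2.2.2 ≤ d.1.n * 2 ^ c.2.2.2 + 2 ^ (c.2.1 * d.2.2.1)) then
    some (false, false)
  else none

def atomV (g : Bool × Bool → Bool) (c : Ctx) (a b : TRec) : Option FRec :=
  match cls0 c (tadd c a (tswap b)) with
  | none => none
  | some k => if decide (max a.2.2.2 b.2.2.2 ≤ 2) then
      some (g k, if decide (2 ≤ max a.2.2.2 b.2.2.2) then 1 else 0) else none

def kd (K : Bool × Bool) (v : Val) : Bool := (v.1.1 == K.1) && (v.1.2 == K.2)

def un (K : Bool × Bool) (F : Val → Option Val) (st : List Val) : Option (List Val) :=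
  match st with
  | [] => none
  | v :: t => if kd K v then (match F v with | none => none | some u => some (u :: t)) else none

def bin (K : Bool × Bool) (F : Val → Val → Option Val) (st : List Val) : Option (List Val) :=
  match st with
  | [] => none
  | v :: t => match t with
    | [] => none
    | w :: t' => if kd K v && kd K w then
        (match F v w with | none => none | some u => some (u :: t')) else none

def fvar (v : Val) : Option Val :=
  match v.2.1 with
  | [] => none
  | e :: _ => some (vtm (e.2.1, (e.2.2, (1, if e.1 then 0 else 1))))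

def fatom (g : Bool × Bool → Bool) (c : Ctx) (v w : Val) : Option Val :=
  match atomV g c v.2.2.1 w.2.2.1 with
  | none => none
  | some f => some (vfm f)

def gLt (k : Bool × Bool) : Bool := k.1
def gLe (k : Bool × Bool) : Bool := !k.2
def gEq (k : Bool × Bool) : Bool := !k.1 && !k.2
def gGe (k : Bool × Bool) : Bool := !k.1
def gGt (k : Bool × Bool) : Bool := k.2

def vstep (c : Ctx) : Tok → List Val → Option (List Val)
  | Tok.zero, st => some (vtm (⟨0⟩, (⟨0⟩, (1, 0))) :: st)
  | Tok.one, st => some (vtm (⟨1 * 2 ^ c.2.1⟩, (⟨0⟩, (1, 0))) :: st)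
  | Tok.e, st => some (vnum c.1 :: st)
  | Tok.s, st => un (false, false) (fun v => some (vnum v.2.1.tail)) st
  | Tok.x, st => un (false, false) fvar st
  | Tok.add, st => bin (false, true) (fun v w => some (vtm (tadd c v.2.2.1 w.2.2.1))) st
  | Tok.sub, st => bin (false, true) (fun v w => some (vtm (tadd c v.2.2.1 (tswap w.2.2.1)))) st
  | Tok.mul, st => bin (false, true) (fun v w => some (vtm (tmul v.2.2.1 w.2.2.1))) st
  | Tok.lt, st => bin (false, true) (fatom gLt c) st
  | Tok.le, st => bin (false, true) (fatom gLe c) st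
  | Tok.eq, st => bin (false, true) (fatom gEq c) st
  | Tok.ge, st => bin (false, true) (fatom gGe c) st
  | Tok.gt, st => bin (false, true) (fatom gGt c) st
  | Tok.and, st => bin (true, true)
      (fun v w => some (vfm (v.2.2.2.1 && w.2.2.2.1, v.2.2.2.2 + w.2.2.2.2))) st
  | Tok.or, st => bin (true, true)
      (fun v w => some (vfm (v.2.2.2.1 || w.2.2.2.1, v.2.2.2.2 + w.2.2.2.2))) st
  | Tok.not, st => un (true, true) (fun v => some (vfm (!v.2.2.2.1, v.2.2.2.2))) st

/-! ### polynomial time -/

section PTs

variable {α : Type} [TEnc α]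

theorem PTmax {f g : α → ℕ} (hf : PT f) (hg : PT g) : PT (fun a => max (f a) (g a)) :=
  (PT.ite (PT.leN hf hg) hg hf).congr fun a => by
    by_cases h : f a ≤ g a
    · simp [h]
    · simp [h, max_eq_left (Nat.le_of_lt (Nat.lt_of_not_le h))]

theorem PTtadd {c : α → Ctx} {a b : α → TRec} (hc : PT c) (ha : PT a) (hb : PT b) :
    PT (fun x => tadd (c x) (a x) (b x)) := by
  have hL := hc.snd.fst
  exact (PT.badd (PT.bshift ha.fst (PT.mul hL hb.snd.snd.fst))
    (PT.bshift hb.fst (PT.mul hL ha.snd.snd.fst))).pair
    ((PT.badd (PT.bshift ha.snd.fst (PT.mul hL hb.snd.snd.fst))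
    (PT.bshift hb.snd.fst (PT.mul hL ha.snd.snd.fst))).pair
    ((PT.add ha.snd.snd.fst hb.snd.snd.fst).pair (PTmax ha.snd.snd.snd hb.snd.snd.snd)))

theorem PTtswap {b : α → TRec} (hb : PT b) : PT (fun x => tswap (b x)) :=
  hb.snd.fst.pair (hb.fst.pair hb.snd.snd)

theorem PTtmul {a b : α → TRec} (ha : PT a) (hb : PT b) :
    PT (fun x => tmul (a x) (b x)) :=
  (PT.badd (PT.bmul ha.fst hb.fst) (PT.bmul ha.snd.fst hb.snd.fst)).pair
    ((PT.badd (PT.bmul ha.fst hb.snd.fst) (PT.bmul ha.snd.fst hb.fst)).pair
    ((PT.add ha.snd.snd.fst hb.snd.snd.fst).pair (PT.add ha.snd.snd.snd hb.snd.snd.snd)))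

theorem PTone {k : α → ℕ} (hk : PT k) : PT (fun x => (⟨2 ^ k x⟩ : BN)) :=
  (PT.bshift (PT.const (⟨1⟩ : BN)) hk).congr fun a => by simp

theorem PTcls0 {c : α → Ctx} {d : α → TRec} (hc : PT c) (hd : PT d) :
    PT (fun x => cls0 (c x) (d x)) := by
  have hL := hc.snd.fst
  have hr := hc.snd.snd.fst
  have he := hc.snd.snd.snd
  have hT := PTone (PT.mul hL hd.snd.snd.fst)
  have h1 := PT.ble (PT.badd hT (PT.bshift hd.fst hr)) (PT.bshift hd.snd.fst hr)
  have h2 := PT.ble (PT.badd hT (PT.bshift hd.snd.fst hr)) (PT.bshift hd.fst hr)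
  have h3 := PT.ble (PT.bshift hd.fst he) (PT.badd (PT.bshift hd.snd.fst he) hT)
  have h4 := PT.ble (PT.bshift hd.snd.fst he) (PT.badd (PT.bshift hd.fst he) hT)
  exact PT.ite h1 (PT.const _) (PT.ite h2 (PT.const _) (PT.ite (PT.and h3 h4) (PT.const _)
    (PT.const _)))

theorem PTg {g : Bool × Bool → Bool} {k : α → Bool × Bool} (hk : PT k) : PT (fun x => g (k x)) := by
  have h : PT g := PT.finite (by
    rintro ⟨a, b⟩ ⟨c, d⟩ h
    cases a <;> cases b <;> cases c <;> cases d <;> simp_all) g
  exact h.comp hk

theorem PTatomV (g : Bool × Bool → Bool) {c : α → Ctx} {a b : α → TRec} (hc : PT c)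
    (ha : PT a) (hb : PT b) : PT (fun x => atomV g (c x) (a x) (b x)) := by
  have h1 := PTcls0 hc (PTtadd hc ha (PTtswap hb))
  have hm := PTmax ha.snd.snd.snd hb.snd.snd.snd
  have h2 : PT (fun z : α × (Bool × Bool) =>
      if decide (max (a z.1).2.2.2 (b z.1).2.2.2 ≤ 2) then
      some (g z.2, if decide (2 ≤ max (a z.1).2.2.2 (b z.1).2.2.2) then 1 else 0)
      else (none : Option FRec)) := by
    have hm' := hm.comp (PT.id (α := α × (Bool × Bool))).fst
    exact PT.ite (PT.leN hm' (PT.const 2)) (PT.osome ((PTg PT.id.snd).pair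
      (PT.ite (PT.leN (PT.const 2) hm') (PT.const 1) (PT.const 0)))) (PT.const _)
  have h3 := PT.optCase h1 (PT.const (none : Option FRec)) h2
  refine h3.congr fun x => ?_
  unfold atomV
  cases cls0 (c x) (tadd (c x) (a x) (tswap (b x))) <;> rfl

theorem PTkd (K : Bool × Bool) {v : α → Val} (hv : PT v) : PT (fun x => kd K (v x)) :=
  PT.and (PT.beq hv.fst.fst (PT.const _)) (PT.beq hv.fst.snd (PT.const _))

theorem PTun (K : Bool × Bool) {F : α → Val → Option Val} {st : α → List Val}
    (hF : PT (fun z : α × Val => F z.1 z.2)) (hst : PT st) :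
    PT (fun x => un K (F x) (st x)) := by
  have h1 : PT (fun z : α × Val × List Val => if kd K z.2.1 then
      (match F z.1 z.2.1 with | none => none | some u => some (u :: z.2.2))
      else (none : Option (List Val))) := by
    refine PT.ite (PTkd K PT.id.snd.fst) ?_ (PT.const _)
    have h2 := PT.optCase (l := fun z : α × Val × List Val => F z.1 z.2.1)
      (f := fun _ => (none : Option (List Val)))
      (g := fun y : (α × Val × List Val) × Val => some (y.2 :: y.1.2.2))
      (hF.comp (PT.id.fst.pair PT.id.snd.fst)) (PT.const _)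
      (PT.osome (PT.lcons PT.id.snd PT.id.fst.snd.snd))
    refine h2.congr fun z => ?_
    cases F z.1 z.2.1 <;> rfl
  have h3 := PT.listCase hst (PT.const (none : Option (List Val))) h1
  refine h3.congr fun x => ?_
  unfold un
  rcases st x with _ | ⟨v, t⟩ <;> rfl

theorem PTbin (K : Bool × Bool) {F : α → Val → Val → Option Val} {st : α → List Val}
    (hF : PT (fun z : α × (Val × Val) => F z.1 z.2.1 z.2.2)) (hst : PT st) :
    PT (fun x => bin K (F x) (st x)) := by
  have h0 : PT (fun z : (α × Val × List Val) × Val × List Val =>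
      if kd K z.1.2.1 && kd K z.2.1 then
        (match F z.1.1 z.1.2.1 z.2.1 with | none => none | some u => some (u :: z.2.2))
      else (none : Option (List Val))) := by
    refine PT.ite (PT.and (PTkd K PT.id.fst.snd.fst) (PTkd K PT.id.snd.fst)) ?_ (PT.const _)
    have h2 := PT.optCase (l := fun z : (α × Val × List Val) × Val × List Val =>
        F z.1.1 z.1.2.1 z.2.1)
      (f := fun _ => (none : Option (List Val)))
      (g := fun y : ((α × Val × List Val) × Val × List Val) × Val => some (y.2 :: y.1.2.2))
      (hF.comp (PT.id.fst.fst.pair (PT.id.fst.snd.fst.pair PT.id.snd.fst))) (PT.const _)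
      (PT.osome (PT.lcons PT.id.snd PT.id.fst.snd.snd))
    refine h2.congr fun z => ?_
    cases F z.1.1 z.1.2.1 z.2.1 <;> rfl
  have h1 : PT (fun z : α × Val × List Val => match z.2.2 with
      | [] => (none : Option (List Val))
      | w :: t' => if kd K z.2.1 && kd K w then
        (match F z.1 z.2.1 w with | none => none | some u => some (u :: t')) else none) := by
    have h2 := PT.listCase (l := fun z : α × Val × List Val => z.2.2) PT.id.snd.snd
      (PT.const (none : Option (List Val))) h0
    refine h2.congr fun z => ?_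
    rcases z.2.2 with _ | ⟨w, t⟩ <;> rfl
  have h3 := PT.listCase hst (PT.const (none : Option (List Val))) h1
  refine h3.congr fun x => ?_
  unfold bin
  rcases st x with _ | ⟨v, t⟩ <;> rfl

theorem PTvtm {r : α → TRec} (hr : PT r) : PT (fun x => vtm (r x)) :=
  (PT.const _).pair ((PT.const _).pair (hr.pair (PT.const _)))

theorem PTvfm {r : α → FRec} (hr : PT r) : PT (fun x => vfm (r x)) :=
  (PT.const _).pair ((PT.const _).pair ((PT.const _).pair hr))

theorem PTvnum {r : α → List Ent} (hr : PT r) : PT (fun x => vnum (r x)) :=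
  (PT.const _).pair (hr.pair (PT.const _))

theorem PTfvar {v : α → Val} (hv : PT v) : PT (fun x => fvar (v x)) := by
  have h1 : PT (fun z : α × Ent × List Ent =>
      some (vtm (z.2.1.2.1, (z.2.1.2.2, (1, if z.2.1.1 then 0 else 1))))) := by
    have he : PT (fun z : α × Ent × List Ent => z.2.1) := PT.id.snd.fst
    exact PT.osome (PTvtm (he.snd.fst.pair (he.snd.snd.pair ((PT.const 1).pair
      (PT.ite he.fst (PT.const 0) (PT.const 1))))))
  have h3 := PT.listCase hv.snd.fst (PT.const (none : Option Val)) h1
  refine h3.congr fun x => ?_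
  unfold fvar
  rcases (v x).2.1 with _ | ⟨e, t⟩ <;> rfl

theorem PTfatom (g : Bool × Bool → Bool) {c : α → Ctx} {v w : α → Val} (hc : PT c)
    (hv : PT v) (hw : PT w) : PT (fun x => fatom g (c x) (v x) (w x)) := by
  have h1 := PT.optCase (PTatomV g hc hv.snd.snd.fst hw.snd.snd.fst)
    (PT.const (none : Option Val)) (g := fun z : α × FRec => some (vfm z.2))
    (PT.osome (PTvfm PT.id.snd))
  refine h1.congr fun x => ?_
  unfold fatom
  cases atomV g (c x) (v x).2.2.1 (w x).2.2.1 <;> rfl

end PTs

instance : DecidableEq Tok := fun a b =>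
  if h : a.bits = b.bits then isTrue (by
    obtain ⟨a1, a2, a3, a4, h1, h2⟩ := tok4_bits a
    obtain ⟨b1, b2, b3, b4, h3, h4⟩ := tok4_bits b
    rw [h1, h3] at h
    simp only [List.cons.injEq] at h
    obtain ⟨rfl, rfl, rfl, rfl, _⟩ := h
    rw [← h2, ← h4]) else isFalse (fun h2 => h (by rw [h2]))

instance : TEnc Tok := ⟨fun t => TEnc.enc t.bits⟩

instance : Fintype Tok :=
  Fintype.ofList [Tok.zero, Tok.one, Tok.x, Tok.s, Tok.e, Tok.add, Tok.sub, Tok.mul, Tok.lt,
    Tok.le, Tok.eq, Tok.ge, Tok.gt, Tok.and, Tok.or, Tok.not] (by intro t; cases t <;> simp)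

theorem enc_bits_inj (l m : List Bool) (h : TEnc.enc l = TEnc.enc m) : l = m := by
  induction l generalizing m with
  | nil => cases m with
    | nil => rfl
    | cons b m => simp at h
  | cons a l ih => cases m with
    | nil => simp at h
    | cons b m =>
      simp only [enc_lcons, Tr.cons.injEq] at h
      rw [ih m h.2]
      have : a = b := by
        cases a <;> cases b <;> simp_all
      rw [this]

theorem tok_inj : Function.Injective (TEnc.enc : Tok → Tr) := by
  intro a b h
  have h1 : a.bits = b.bits := enc_bits_inj _ _ h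
  obtain ⟨a1, a2, a3, a4, h3, h4⟩ := tok4_bits a
  obtain ⟨b1, b2, b3, b4, h5, h6⟩ := tok4_bits b
  rw [h3, h5] at h1
  simp only [List.cons.injEq] at h1
  obtain ⟨rfl, rfl, rfl, rfl, _⟩ := h1
  rw [← h4, ← h6]

/-- dispatch on a token -/
theorem PTtok {α β : Type} [TEnc α] [TEnc β] {t : α → Tok} (ht : PT t) (F : Tok → α → β)
    (hF : ∀ t, PT (F t)) : PT (fun x => F (t x) x) := by
  have key : ∀ l : List Tok, ∃ G : α → β, PT G ∧ ∀ x, t x ∈ l → G x = F (t x) x := by
    intro l
    induction l with
    | nil => exact ⟨F Tok.zero, hF _, by simp⟩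
    | cons c l ih =>
      obtain ⟨G, hG, hGe⟩ := ih
      have h1 : PT (fun t : Tok => decide (t = c)) := PT.finite tok_inj _
      refine ⟨_, PT.ite (h1.comp ht) (hF c) hG, fun x hx => ?_⟩
      by_cases h : t x = c
      · simp [h]
      · simp only [h, decide_false, Bool.false_eq_true, if_false]
        exact hGe x (by simpa [h] using hx)
  obtain ⟨G, hG, hGe⟩ := key (Finset.univ : Finset Tok).toList
  exact hG.congr fun x => hGe x (by simp)

theorem PTvatom (g : Bool × Bool → Bool) :
    PT (fun z : Ctx × (Tok × List Val) => bin (false, true) (fatom g z.1) z.2.2) := by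
  have hc1 : PT (fun z : (Ctx × (Tok × List Val)) × (Val × Val) => z.1.1) := PT.id.fst.fst
  have hv : PT (fun z : (Ctx × (Tok × List Val)) × (Val × Val) => z.2.1) := PT.id.snd.fst
  have hw : PT (fun z : (Ctx × (Tok × List Val)) × (Val × Val) => z.2.2) := PT.id.snd.snd
  have hs : PT (fun z : Ctx × (Tok × List Val) => z.2.2) := PT.id.snd.snd
  have h1 : PT (fun z : (Ctx × (Tok × List Val)) × (Val × Val) =>
      fatom g z.1.1 z.2.1 z.2.2) := PTfatom g hc1 hv hw
  exact PTbin (α := Ctx × (Tok × List Val)) (false, true) (F := fun z => fatom g z.1) h1 hs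

theorem PTvstep : PT (fun z : Ctx × (Tok × List Val) => vstep z.1 z.2.1 z.2.2) := by
  refine PTtok (α := Ctx × (Tok × List Val)) (t := fun z => z.2.1) PT.id.snd.fst
    (fun t z => vstep z.1 t z.2.2) ?_
  have hc : PT (fun z : Ctx × (Tok × List Val) => z.1) := PT.id.fst
  have hs : PT (fun z : Ctx × (Tok × List Val) => z.2.2) := PT.id.snd.snd
  have hc1 : PT (fun z : (Ctx × (Tok × List Val)) × (Val × Val) => z.1.1) := PT.id.fst.fst
  have hv : PT (fun z : (Ctx × (Tok × List Val)) × (Val × Val) => z.2.1) := PT.id.snd.fst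
  have hw : PT (fun z : (Ctx × (Tok × List Val)) × (Val × Val) => z.2.2) := PT.id.snd.snd
  have hu : PT (fun z : (Ctx × (Tok × List Val)) × Val => z.2) := PT.id.snd
  intro t
  cases t with
  | zero =>
    exact PT.osome (PT.lcons (PT.const _) hs)
  | one =>
    exact PT.osome (PT.lcons (PTvtm ((PT.bshift (PT.const (⟨1⟩ : BN)) hc.snd.fst).pair
      (PT.const _))) hs)
  | e =>
    exact PT.osome (PT.lcons (PTvnum hc.fst) hs)
  | s =>
    exact PTun (α := Ctx × (Tok × List Val)) (false, false)
      (F := fun _ v => some (vnum v.2.1.tail))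
      (PT.osome (PTvnum (PT.tail hu.snd.fst))) hs
  | x =>
    exact PTun (α := Ctx × (Tok × List Val)) (false, false) (F := fun _ v => fvar v)
      (PTfvar hu) hs
  | add =>
    exact PTbin (α := Ctx × (Tok × List Val)) (false, true)
      (F := fun z v w => some (vtm (tadd z.1 v.2.2.1 w.2.2.1)))
      (PT.osome (PTvtm (PTtadd hc1 hv.snd.snd.fst hw.snd.snd.fst))) hs
  | sub =>
    exact PTbin (α := Ctx × (Tok × List Val)) (false, true)
      (F := fun z v w => some (vtm (tadd z.1 v.2.2.1 (tswap w.2.2.1))))
      (PT.osome (PTvtm (PTtadd hc1 hv.snd.snd.fst (PTtswap hw.snd.snd.fst)))) hs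
  | mul =>
    exact PTbin (α := Ctx × (Tok × List Val)) (false, true)
      (F := fun z v w => some (vtm (tmul v.2.2.1 w.2.2.1)))
      (PT.osome (PTvtm (PTtmul hv.snd.snd.fst hw.snd.snd.fst))) hs
  | lt => exact PTvatom gLt
  | le => exact PTvatom gLe
  | eq => exact PTvatom gEq
  | ge => exact PTvatom gGe
  | gt => exact PTvatom gGt
  | and =>
    exact PTbin (α := Ctx × (Tok × List Val)) (true, true)
      (F := fun z v w => some (vfm (v.2.2.2.1 && w.2.2.2.1,
      v.2.2.2.2 + w.2.2.2.2))) (PT.osome (PTvfm ((PT.and hv.snd.snd.snd.fst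
        hw.snd.snd.snd.fst).pair (PT.add hv.snd.snd.snd.snd hw.snd.snd.snd.snd)))) hs
  | or =>
    exact PTbin (α := Ctx × (Tok × List Val)) (true, true)
      (F := fun z v w => some (vfm (v.2.2.2.1 || w.2.2.2.1,
      v.2.2.2.2 + w.2.2.2.2))) (PT.osome (PTvfm ((PT.or hv.snd.snd.snd.fst
        hw.snd.snd.snd.fst).pair (PT.add hv.snd.snd.snd.snd hw.snd.snd.snd.snd)))) hs
  | not =>
    exact PTun (α := Ctx × (Tok × List Val)) (true, true)
      (F := fun _ v => some (vfm (!v.2.2.2.1, v.2.2.2.2)))
      (PT.osome (PTvfm ((PT.not hu.snd.snd.snd.fst).pair hu.snd.snd.snd.snd))) hs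

end Pool.Agent.Helper54.ETR
end

section
open Pool.Agent.Helper54.Poly

namespace Pool.Agent.Helper54.ETR

/-! ### values of objects -/

def tval (c : Ctx) : Term → Option TRec
  | Term.zero => some (⟨0⟩, (⟨0⟩, (1, 0)))
  | Term.one => some (⟨1 * 2 ^ c.2.1⟩, (⟨0⟩, (1, 0)))
  | Term.var i => match c.1.drop i with
    | [] => none
    | e :: _ => some (e.2.1, (e.2.2, (1, if e.1 then 0 else 1)))
  | Term.add s t => match tval c s, tval c t with
    | some a, some b => some (tadd c a b)
    | _, _ => none
  | Term.sub s t => match tval c s, tval c t with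
    | some a, some b => some (tadd c a (tswap b))
    | _, _ => none
  | Term.mul s t => match tval c s, tval c t with
    | some a, some b => some (tmul a b)
    | _, _ => none

def aval (g : Bool × Bool → Bool) (c : Ctx) (s t : Term) : Option FRec :=
  match tval c s, tval c t with
  | some a, some b => atomV g c a b
  | _, _ => none

def fval (c : Ctx) : Form → Option FRec
  | Form.lt s t => aval gLt c s t
  | Form.le s t => aval gLe c s t
  | Form.eq s t => aval gEq c s t
  | Form.ge s t => aval gGe c s t
  | Form.gt s t => aval gGt c s t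
  | Form.and p q => match fval c p, fval c q with
    | some a, some b => some (a.1 && b.1, a.2 + b.2)
    | _, _ => none
  | Form.or p q => match fval c p, fval c q with
    | some a, some b => some (a.1 || b.1, a.2 + b.2)
    | _, _ => none
  | Form.not p => match fval c p with
    | some a => some (!a.1, a.2)
    | none => none

def oval (c : Ctx) : Ob → Option Val
  | Ob.num i => some (vnum (c.1.drop i))
  | Ob.tm t => match tval c t with
    | some r => some (vtm r)
    | none => none
  | Ob.fm p => match fval c p with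
    | some r => some (vfm r)
    | none => none

def ovals (c : Ctx) : List Ob → Option (List Val)
  | [] => some []
  | o :: st => match oval c o, ovals c st with
    | some v, some vs => some (v :: vs)
    | _, _ => none

theorem ovals_cons {c : Ctx} {o : Ob} {st : List Ob} {vs : List Val}
    (h : ovals c (o :: st) = some vs) :
    ∃ v vs', oval c o = some v ∧ ovals c st = some vs' ∧ vs = v :: vs' := by
  simp only [ovals] at h
  cases h1 : oval c o with
  | none => rw [h1] at h; simp at h
  | some v =>
    cases h2 : ovals c st with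
    | none => rw [h1, h2] at h; simp at h
    | some vs' => rw [h1, h2] at h; exact ⟨v, vs', rfl, rfl, by simpa using h.symm⟩

theorem ovals_mk {c : Ctx} {o : Ob} {st : List Ob} {v : Val} {vs : List Val}
    (h1 : oval c o = some v) (h2 : ovals c st = some vs) :
    ovals c (o :: st) = some (v :: vs) := by
  simp [ovals, h1, h2]

theorem ovals_none1 {c : Ctx} {o : Ob} {st : List Ob} (h1 : oval c o = none) :
    ovals c (o :: st) = none := by
  simp [ovals, h1]

theorem ovals_none2 {c : Ctx} {o : Ob} {st : List Ob} (h1 : ovals c st = none) :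
    ovals c (o :: st) = none := by
  simp only [ovals, h1]
  cases oval c o <;> rfl

/-- kinds of objects -/
def okind : Ob → Bool × Bool
  | Ob.num _ => (false, false)
  | Ob.tm _ => (false, true)
  | Ob.fm _ => (true, true)

theorem kd_oval {c : Ctx} {o : Ob} {v : Val} (h : oval c o = some v) (K : Bool × Bool) :
    kd K v = decide (okind o = K) := by
  obtain ⟨k1, k2⟩ := K
  cases o with
  | num i =>
    simp only [oval, Option.some.injEq] at h
    subst h
    cases k1 <;> cases k2 <;> rfl
  | tm t =>
    simp only [oval] at h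
    cases ht : tval c t with
    | none => rw [ht] at h; simp at h
    | some r =>
      rw [ht] at h; simp only [Option.some.injEq] at h; subst h
      cases k1 <;> cases k2 <;> rfl
  | fm t =>
    simp only [oval] at h
    cases ht : fval c t with
    | none => rw [ht] at h; simp at h
    | some r =>
      rw [ht] at h; simp only [Option.some.injEq] at h; subst h
      cases k1 <;> cases k2 <;> rfl

theorem un_ok (c : Ctx) (K : Bool × Bool) (F : Val → Option Val) (G : Ob → Option Ob)
    (st : List Ob) (vs : List Val) (h : ovals c st = some vs)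
    (hk : ∀ o, okind o ≠ K → G o = none)
    (hG : ∀ o v, okind o = K → oval c o = some v → F v = (G o).bind (oval c)) :
    un K F vs = (match st with
      | [] => none
      | o :: t => (G o).bind fun o' => some (o' :: t)).bind (ovals c) := by
  cases st with
  | nil =>
    simp only [ovals, Option.some.injEq] at h; subst h; rfl
  | cons o t =>
    obtain ⟨v, vs', h1, h2, rfl⟩ := ovals_cons h
    simp only [un, kd_oval h1]
    by_cases hK : okind o = K
    · simp only [hK, decide_true, if_true]
      rw [hG o v hK h1]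
      cases hGo : G o with
      | none => rfl
      | some o' =>
        simp only [Option.bind_some]
        cases ho' : oval c o' with
        | none => rw [ovals_none1 ho']
        | some u => rw [ovals_mk ho' h2]
    · simp only [hK, decide_false, Bool.false_eq_true, if_false]
      rw [hk o hK]; rfl

theorem bin_ok (c : Ctx) (K : Bool × Bool) (F : Val → Val → Option Val)
    (G : Ob → Ob → Option Ob)
    (st : List Ob) (vs : List Val) (h : ovals c st = some vs)
    (hk : ∀ o o', ¬ (okind o = K ∧ okind o' = K) → G o o' = none)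
    (hG : ∀ o o' v v', okind o = K → okind o' = K → oval c o = some v → oval c o' = some v' →
      F v v' = (G o o').bind (oval c)) :
    bin K F vs = (match st with
      | o :: o' :: t => (G o o').bind fun o' => some (o' :: t)
      | _ => none).bind (ovals c) := by
  cases st with
  | nil =>
    simp only [ovals, Option.some.injEq] at h; subst h; rfl
  | cons o t =>
    obtain ⟨v, vs', h1, h2, rfl⟩ := ovals_cons h
    cases t with
    | nil =>
      simp only [ovals, Option.some.injEq] at h2; subst h2; rfl
    | cons o' t =>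
      obtain ⟨v', vs'', h3, h4, rfl⟩ := ovals_cons h2
      simp only [bin, kd_oval h1, kd_oval h3]
      by_cases hK : okind o = K ∧ okind o' = K
      · simp only [hK.1, hK.2, decide_true, Bool.and_self, if_true]
        rw [hG o o' v v' hK.1 hK.2 h1 h3]
        cases hGo : G o o' with
        | none => rfl
        | some u =>
          simp only [Option.bind_some]
          cases ho' : oval c u with
          | none => rw [ovals_none1 ho']
          | some u' => rw [ovals_mk ho' h4]
      · have hne : (decide (okind o = K) && decide (okind o' = K)) = false := by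
          rcases Classical.not_and_iff_not_or_not.1 hK with h | h <;> simp [h]
        rw [hne, hk o o' hK]; rfl

def Gbin (f : Term → Term → Ob) : Ob → Ob → Option Ob
  | Ob.tm a, Ob.tm b => some (f a b)
  | _, _ => none

def GbinF (f : Form → Form → Form) : Ob → Ob → Option Ob
  | Ob.fm a, Ob.fm b => some (Ob.fm (f a b))
  | _, _ => none

theorem Gbin_none (f : Term → Term → Ob) (o o' : Ob)
    (h : ¬ (okind o = (false, true) ∧ okind o' = (false, true))) : Gbin f o o' = none := by
  cases o <;> cases o' <;> simp_all [okind, Gbin]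

theorem GbinF_none (f : Form → Form → Form) (o o' : Ob)
    (h : ¬ (okind o = (true, true) ∧ okind o' = (true, true))) : GbinF f o o' = none := by
  cases o <;> cases o' <;> simp_all [okind, GbinF]

theorem oval_tm {c : Ctx} {t : Term} {v : Val} (h : oval c (Ob.tm t) = some v) :
    ∃ r, tval c t = some r ∧ v = vtm r := by
  simp only [oval] at h
  cases ht : tval c t with
  | none => rw [ht] at h; simp at h
  | some r => rw [ht] at h; exact ⟨r, rfl, by simpa using h.symm⟩

theorem oval_fm {c : Ctx} {t : Form} {v : Val} (h : oval c (Ob.fm t) = some v) :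
    ∃ r, fval c t = some r ∧ v = vfm r := by
  simp only [oval] at h
  cases ht : fval c t with
  | none => rw [ht] at h; simp at h
  | some r => rw [ht] at h; exact ⟨r, rfl, by simpa using h.symm⟩

theorem Gbin_ok (c : Ctx) (F : Val → Val → Option Val) (f : Term → Term → Ob)
    (hF : ∀ a b ra rb, tval c a = some ra → tval c b = some rb →
      F (vtm ra) (vtm rb) = oval c (f a b)) :
    ∀ o o' v v', okind o = (false, true) → okind o' = (false, true) → oval c o = some v →
      oval c o' = some v' → F v v' = (Gbin f o o').bind (oval c) := by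
  intro o o' v v' h1 h2 h3 h4
  cases o with
  | num i => simp [okind] at h1
  | fm p => simp [okind] at h1
  | tm a =>
    cases o' with
    | num i => simp [okind] at h2
    | fm p => simp [okind] at h2
    | tm b =>
      obtain ⟨ra, h5, rfl⟩ := oval_tm h3
      obtain ⟨rb, h6, rfl⟩ := oval_tm h4
      rw [hF a b ra rb h5 h6]; rfl

theorem GbinF_ok (c : Ctx) (F : Val → Val → Option Val) (f : Form → Form → Form)
    (hF : ∀ a b ra rb, fval c a = some ra → fval c b = some rb →
      F (vfm ra) (vfm rb) = oval c (Ob.fm (f a b))) :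
    ∀ o o' v v', okind o = (true, true) → okind o' = (true, true) → oval c o = some v →
      oval c o' = some v' → F v v' = (GbinF f o o').bind (oval c) := by
  intro o o' v v' h1 h2 h3 h4
  cases o with
  | num i => simp [okind] at h1
  | tm p => simp [okind] at h1
  | fm a =>
    cases o' with
    | num i => simp [okind] at h2
    | tm p => simp [okind] at h2
    | fm b =>
      obtain ⟨ra, h5, rfl⟩ := oval_fm h3
      obtain ⟨rb, h6, rfl⟩ := oval_fm h4
      rw [hF a b ra rb h5 h6]; rfl

theorem atom_ok (c : Ctx) (g : Bool × Bool → Bool) (f : Term → Term → Form)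
    (hf : ∀ a b, fval c (f a b) = aval g c a b) (a b : Term) (ra rb : TRec)
    (h1 : tval c a = some ra) (h2 : tval c b = some rb) :
    fatom g c (vtm ra) (vtm rb) = oval c (Ob.fm (f a b)) := by
  simp only [oval, hf, aval, h1, h2]
  change (match atomV g c ra rb with | none => none | some f => some (vfm f)) = _
  cases atomV g c ra rb <;> rfl

theorem vstep_ok (c : Ctx) (t : Tok) (st : List Ob) (vs : List Val)
    (h : ovals c st = some vs) : vstep c t vs = (pstep t st).bind (ovals c) := by
  cases t with
  | zero =>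
    change some _ = ovals c (Ob.tm Term.zero :: st)
    rw [ovals_mk rfl h]
  | one =>
    change some _ = ovals c (Ob.tm Term.one :: st)
    rw [ovals_mk rfl h]
  | e =>
    change some _ = ovals c (Ob.num 0 :: st)
    rw [ovals_mk rfl h]; rfl
  | s =>
    have h1 := un_ok c (false, false) (fun v => some (vnum v.2.1.tail))
      (fun o => match o with | Ob.num i => some (Ob.num (i + 1)) | _ => none) st vs h
      (by intro o ho; cases o <;> simp_all [okind])
      (by
        intro o v ho hv
        cases o with
        | num i =>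
          simp only [oval, Option.some.injEq] at hv
          subst hv
          simp [oval, vnum]
        | tm t => simp [okind] at ho
        | fm t => simp [okind] at ho)
    change un (false, false) (fun v => some (vnum v.2.1.tail)) vs = _
    rw [h1]
    rcases st with _ | ⟨_ | _ | _, st⟩ <;> rfl
  | x =>
    have h1 := un_ok c (false, false) fvar
      (fun o => match o with | Ob.num i => some (Ob.tm (Term.var i)) | _ => none) st vs h
      (by intro o ho; cases o <;> simp_all [okind])
      (by
        intro o v ho hv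
        cases o with
        | num i =>
          simp only [oval, Option.some.injEq] at hv
          subst hv
          change fvar (vnum (c.1.drop i)) = oval c (Ob.tm (Term.var i))
          simp only [fvar, vnum, oval, tval]
          rcases c.1.drop i with _ | ⟨e, l⟩ <;> rfl
        | tm t => simp [okind] at ho
        | fm t => simp [okind] at ho)
    change un (false, false) fvar vs = _
    rw [h1]
    rcases st with _ | ⟨_ | _ | _, st⟩ <;> rfl
  | add =>
    have h1 := bin_ok c (false, true) (fun v w => some (vtm (tadd c v.2.2.1 w.2.2.1)))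
      (Gbin fun a b => Ob.tm (Term.add a b)) st vs h (Gbin_none _)
      (Gbin_ok c _ _ (by
        intro a b ra rb ha hb
        simp only [oval, tval, ha, hb]; rfl))
    change bin (false, true) (fun v w => some (vtm (tadd c v.2.2.1 w.2.2.1))) vs = _
    rw [h1]
    rcases st with _ | ⟨_ | _ | _, _ | ⟨_ | _ | _, st⟩⟩ <;> rfl
  | sub =>
    have h1 := bin_ok c (false, true) (fun v w => some (vtm (tadd c v.2.2.1 (tswap w.2.2.1))))
      (Gbin fun a b => Ob.tm (Term.sub a b)) st vs h (Gbin_none _)
      (Gbin_ok c _ _ (by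
        intro a b ra rb ha hb
        simp only [oval, tval, ha, hb]; rfl))
    change bin (false, true) (fun v w => some (vtm (tadd c v.2.2.1 (tswap w.2.2.1)))) vs = _
    rw [h1]
    rcases st with _ | ⟨_ | _ | _, _ | ⟨_ | _ | _, st⟩⟩ <;> rfl
  | mul =>
    have h1 := bin_ok c (false, true) (fun v w => some (vtm (tmul v.2.2.1 w.2.2.1)))
      (Gbin fun a b => Ob.tm (Term.mul a b)) st vs h (Gbin_none _)
      (Gbin_ok c _ _ (by
        intro a b ra rb ha hb
        simp only [oval, tval, ha, hb]; rfl))
    change bin (false, true) (fun v w => some (vtm (tmul v.2.2.1 w.2.2.1))) vs = _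
    rw [h1]
    rcases st with _ | ⟨_ | _ | _, _ | ⟨_ | _ | _, st⟩⟩ <;> rfl
  | lt =>
    have h1 := bin_ok c (false, true) (fatom gLt c)
      (Gbin fun a b => Ob.fm (Form.lt a b)) st vs h (Gbin_none _)
      (Gbin_ok c _ _ (atom_ok c gLt Form.lt (fun _ _ => rfl)))
    change bin (false, true) (fatom gLt c) vs = _
    rw [h1]
    rcases st with _ | ⟨_ | _ | _, _ | ⟨_ | _ | _, st⟩⟩ <;> rfl
  | le =>
    have h1 := bin_ok c (false, true) (fatom gLe c)
      (Gbin fun a b => Ob.fm (Form.le a b)) st vs h (Gbin_none _)
      (Gbin_ok c _ _ (atom_ok c gLe Form.le (fun _ _ => rfl)))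
    change bin (false, true) (fatom gLe c) vs = _
    rw [h1]
    rcases st with _ | ⟨_ | _ | _, _ | ⟨_ | _ | _, st⟩⟩ <;> rfl
  | eq =>
    have h1 := bin_ok c (false, true) (fatom gEq c)
      (Gbin fun a b => Ob.fm (Form.eq a b)) st vs h (Gbin_none _)
      (Gbin_ok c _ _ (atom_ok c gEq Form.eq (fun _ _ => rfl)))
    change bin (false, true) (fatom gEq c) vs = _
    rw [h1]
    rcases st with _ | ⟨_ | _ | _, _ | ⟨_ | _ | _, st⟩⟩ <;> rfl
  | ge =>
    have h1 := bin_ok c (false, true) (fatom gGe c)
      (Gbin fun a b => Ob.fm (Form.ge a b)) st vs h (Gbin_none _)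
      (Gbin_ok c _ _ (atom_ok c gGe Form.ge (fun _ _ => rfl)))
    change bin (false, true) (fatom gGe c) vs = _
    rw [h1]
    rcases st with _ | ⟨_ | _ | _, _ | ⟨_ | _ | _, st⟩⟩ <;> rfl
  | gt =>
    have h1 := bin_ok c (false, true) (fatom gGt c)
      (Gbin fun a b => Ob.fm (Form.gt a b)) st vs h (Gbin_none _)
      (Gbin_ok c _ _ (atom_ok c gGt Form.gt (fun _ _ => rfl)))
    change bin (false, true) (fatom gGt c) vs = _
    rw [h1]
    rcases st with _ | ⟨_ | _ | _, _ | ⟨_ | _ | _, st⟩⟩ <;> rfl
  | and =>
    have h1 := bin_ok c (true, true)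
      (fun v w => some (vfm (v.2.2.2.1 && w.2.2.2.1, v.2.2.2.2 + w.2.2.2.2)))
      (GbinF Form.and) st vs h (GbinF_none _)
      (GbinF_ok c _ _ (by
        intro a b ra rb ha hb
        simp only [oval, fval, ha, hb]; rfl))
    change bin (true, true)
      (fun v w => some (vfm (v.2.2.2.1 && w.2.2.2.1, v.2.2.2.2 + w.2.2.2.2))) vs = _
    rw [h1]
    rcases st with _ | ⟨_ | _ | _, _ | ⟨_ | _ | _, st⟩⟩ <;> rfl
  | or =>
    have h1 := bin_ok c (true, true)
      (fun v w => some (vfm (v.2.2.2.1 || w.2.2.2.1, v.2.2.2.2 + w.2.2.2.2)))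
      (GbinF Form.or) st vs h (GbinF_none _)
      (GbinF_ok c _ _ (by
        intro a b ra rb ha hb
        simp only [oval, fval, ha, hb]; rfl))
    change bin (true, true)
      (fun v w => some (vfm (v.2.2.2.1 || w.2.2.2.1, v.2.2.2.2 + w.2.2.2.2))) vs = _
    rw [h1]
    rcases st with _ | ⟨_ | _ | _, _ | ⟨_ | _ | _, st⟩⟩ <;> rfl
  | not =>
    have h1 := un_ok c (true, true) (fun v => some (vfm (!v.2.2.2.1, v.2.2.2.2)))
      (fun o => match o with | Ob.fm p => some (Ob.fm (Form.not p)) | _ => none) st vs h
      (by intro o ho; cases o <;> simp_all [okind])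
      (by
        intro o v ho hv
        cases o with
        | num i => simp [okind] at ho
        | tm t => simp [okind] at ho
        | fm t =>
          obtain ⟨r, hr, rfl⟩ := oval_fm hv
          simp only [Option.bind_some, oval, fval, hr]; rfl)
    change un (true, true) (fun v => some (vfm (!v.2.2.2.1, v.2.2.2.2))) vs = _
    rw [h1]
    rcases st with _ | ⟨_ | _ | _, st⟩ <;> rfl

end Pool.Agent.Helper54.ETR
end

section
open Pool.Agent.Helper54.Poly

namespace Pool.Agent.Helper54.ETR

/-- strictness of the object values -/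
theorem vstep_none (c : Ctx) (t : Tok) (st : List Ob) (h : ovals c st = none) :
    (pstep t st).bind (ovals c) = none := by
  have h1 : ∀ (o : Ob) (st : List Ob), ovals c (o :: st) = none →
      oval c o = none ∨ ovals c st = none := by
    intro o st h
    cases h1 : oval c o with
    | none => exact Or.inl rfl
    | some v =>
      cases h2 : ovals c st with
      | none => exact Or.inr rfl
      | some vs => rw [ovals_mk h1 h2] at h; exact absurd h (by simp)
  have tmN : ∀ t : Term, oval c (Ob.tm t) = none → tval c t = none := by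
    intro t ht
    simp only [oval] at ht
    cases h : tval c t with
    | none => rfl
    | some r => rw [h] at ht; simp at ht
  have fmN : ∀ t : Form, oval c (Ob.fm t) = none → fval c t = none := by
    intro t ht
    simp only [oval] at ht
    cases h : fval c t with
    | none => rfl
    | some r => rw [h] at ht; simp at ht
  have avN : ∀ (g : Bool × Bool → Bool) (s t : Term), tval c s = none ∨ tval c t = none →
      aval g c s t = none := by
    intro g s t h
    unfold aval
    rcases h with h | h
    · rw [h]
    · rw [h]; cases tval c s <;> rfl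
  unfold pstep
  split
  case h_17 => rfl
  case h_1 => exact ovals_none2 h
  case h_2 => exact ovals_none2 h
  case h_3 => exact ovals_none2 h
  case h_4 =>
    rcases h1 _ _ h with h2 | h2
    · simp [oval] at h2
    · exact ovals_none2 h2
  case h_5 =>
    rcases h1 _ _ h with h2 | h2
    · simp [oval] at h2
    · exact ovals_none2 h2
  case h_6 a b st =>
    rcases h1 _ _ h with h2 | h2
    · apply ovals_none1; simp [oval, tval, tmN _ h2]
    · rcases h1 _ _ h2 with h2 | h2
      · apply ovals_none1; simp only [oval, tval, tmN _ h2]; cases tval c a <;> rfl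
      · exact ovals_none2 h2
  case h_7 a b st =>
    rcases h1 _ _ h with h2 | h2
    · apply ovals_none1; simp [oval, tval, tmN _ h2]
    · rcases h1 _ _ h2 with h2 | h2
      · apply ovals_none1; simp only [oval, tval, tmN _ h2]; cases tval c a <;> rfl
      · exact ovals_none2 h2
  case h_8 a b st =>
    rcases h1 _ _ h with h2 | h2
    · apply ovals_none1; simp [oval, tval, tmN _ h2]
    · rcases h1 _ _ h2 with h2 | h2
      · apply ovals_none1; simp only [oval, tval, tmN _ h2]; cases tval c a <;> rfl
      · exact ovals_none2 h2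
  case h_14 a b st =>
    rcases h1 _ _ h with h2 | h2
    · apply ovals_none1; simp [oval, fval, fmN _ h2]
    · rcases h1 _ _ h2 with h2 | h2
      · apply ovals_none1; simp only [oval, fval, fmN _ h2]; cases fval c a <;> rfl
      · exact ovals_none2 h2
  case h_15 a b st =>
    rcases h1 _ _ h with h2 | h2
    · apply ovals_none1; simp [oval, fval, fmN _ h2]
    · rcases h1 _ _ h2 with h2 | h2
      · apply ovals_none1; simp only [oval, fval, fmN _ h2]; cases fval c a <;> rfl
      · exact ovals_none2 h2
  case h_16 a st =>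
    rcases h1 _ _ h with h2 | h2
    · apply ovals_none1; simp [oval, fval, fmN _ h2]
    · exact ovals_none2 h2
  all_goals
    rcases h1 _ _ h with h2 | h2
    · apply ovals_none1; simp only [oval, fval, avN _ _ _ (Or.inl (tmN _ h2))]
    · rcases h1 _ _ h2 with h2 | h2
      · apply ovals_none1; simp only [oval, fval, avN _ _ _ (Or.inr (tmN _ h2))]
      · exact ovals_none2 h2

/-- evaluation of a token list, reading from the right -/
def veval (c : Ctx) (l : List Tok) : Option (List Val) :=
  l.foldr (fun t s => s.bind (vstep c t)) (some [])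

theorem veval_eq (c : Ctx) (l : List Tok) : veval c l = (parse l).bind (ovals c) := by
  induction l with
  | nil => rfl
  | cons t l ih =>
    have h1 : veval c (t :: l) = (veval c l).bind (vstep c t) := rfl
    rw [h1, ih, parse_cons]
    cases h2 : parse l with
    | none => rfl
    | some st =>
      simp only [Option.bind_some]
      cases h3 : ovals c st with
      | none => rw [vstep_none c t st h3]; rfl
      | some vs => rw [Option.bind_some, vstep_ok c t st vs h3]

/-! ### sizes -/

theorem sz_drop_ctx (c : Ctx) (i : ℕ) : sz (c.1.drop i) + 2 * c.2.1 + 1 ≤ sz c := by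
  have h1 : sz c = sz c.1 + (sz c.2.1 + (sz c.2.2.1 + sz c.2.2.2 + 1) + 1) + 1 := by
    obtain ⟨a, b, d, e⟩ := c
    rw [sz_pair, sz_pair, sz_pair]
  have h2 := sz_drop c.1 i
  rw [sz_nat] at h1
  omega

structure TB (K : ℕ) (r : TRec) (s : ℕ) : Prop where
  p : 2 * r.1.n < 2 ^ (K * r.2.2.1)
  n : 2 * r.2.1.n < 2 ^ (K * r.2.2.1)
  w1 : 1 ≤ r.2.2.1
  w2 : r.2.2.1 ≤ s
  d : r.2.2.2 ≤ s

theorem TB_tadd {c : Ctx} {K s t : ℕ} (hK : c.2.1 + 1 ≤ K) {a b : TRec} (ha : TB K a s)
    (hb : TB K b t) : TB K (tadd c a b) (s + t + 1) := by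
  obtain ⟨a1, a2, a3, a4, a5⟩ := ha
  obtain ⟨b1, b2, b3, b4, b5⟩ := hb
  set L := c.2.1
  set wa := a.2.2.1 with hwa
  set wb := b.2.2.1 with hwb
  have e1 : 2 * 2 ^ (K * wa + L * wb) ≤ 2 ^ (K * (wa + wb)) := by
    rw [← pow_succ']
    apply Nat.pow_le_pow_right (by norm_num)
    have : (L + 1) * wb ≤ K * wb := Nat.mul_le_mul_right _ hK
    nlinarith
  have e2 : 2 * 2 ^ (K * wb + L * wa) ≤ 2 ^ (K * (wa + wb)) := by
    rw [← pow_succ']
    apply Nat.pow_le_pow_right (by norm_num)
    have : (L + 1) * wa ≤ K * wa := Nat.mul_le_mul_right _ hK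
    nlinarith
  have key : ∀ x y : ℕ, 2 * x < 2 ^ (K * wa) → 2 * y < 2 ^ (K * wb) →
      2 * (x * 2 ^ (L * wb) + y * 2 ^ (L * wa)) < 2 ^ (K * (wa + wb)) := by
    intro x y hx hy
    have h1 : 2 * x * 2 ^ (L * wb) < 2 ^ (K * wa + L * wb) := by
      rw [pow_add]; exact Nat.mul_lt_mul_of_pos_right hx (by positivity)
    have h2 : 2 * y * 2 ^ (L * wa) < 2 ^ (K * wb + L * wa) := by
      rw [pow_add]; exact Nat.mul_lt_mul_of_pos_right hy (by positivity)
    nlinarith
  refine ⟨key _ _ a1 b1, key _ _ a2 b2, ?_, ?_, ?_⟩
  · change 1 ≤ wa + wb; omega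
  · change wa + wb ≤ _; omega
  · change max _ _ ≤ _; omega

theorem TB_tswap {K s : ℕ} {a : TRec} (ha : TB K a s) : TB K (tswap a) s :=
  ⟨ha.n, ha.p, ha.w1, ha.w2, ha.d⟩

theorem TB_tmul {K s t : ℕ} {a b : TRec} (ha : TB K a s)
    (hb : TB K b t) : TB K (tmul a b) (s + t + 1) := by
  obtain ⟨a1, a2, a3, a4, a5⟩ := ha
  obtain ⟨b1, b2, b3, b4, b5⟩ := hb
  set wa := a.2.2.1 with hwa
  set wb := b.2.2.1 with hwb
  have key : ∀ x y z w : ℕ, 2 * x < 2 ^ (K * wa) → 2 * y < 2 ^ (K * wb) →
      2 * z < 2 ^ (K * wa) → 2 * w < 2 ^ (K * wb) →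
      2 * (x * y + z * w) < 2 ^ (K * (wa + wb)) := by
    intro x y z w h1 h2 h3 h4
    have h5 : (2 * x) * (2 * y) < 2 ^ (K * wa) * 2 ^ (K * wb) := Nat.mul_lt_mul'' h1 h2
    have h6 : (2 * z) * (2 * w) < 2 ^ (K * wa) * 2 ^ (K * wb) := Nat.mul_lt_mul'' h3 h4
    rw [Nat.mul_add K, pow_add]
    nlinarith
  refine ⟨key _ _ _ _ a1 b1 a2 b2, key _ _ _ _ a1 b2 a2 b1, ?_, ?_, ?_⟩
  · change 1 ≤ wa + wb; omega
  · change wa + wb ≤ _; omega
  · change a.2.2.2 + b.2.2.2 ≤ _; omega

theorem tval_TB (c : Ctx) (t : Term) (r : TRec) (h : tval c t = some r) :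
    TB (sz c + 1) r t.toks.length := by
  have hK : c.2.1 + 1 ≤ sz c + 1 := by have := sz_drop_ctx c 0; omega
  induction t generalizing r with
  | zero =>
    simp only [tval, Option.some.injEq] at h; subst h
    exact ⟨by simp, by simp, by simp, by simp [Term.toks], by simp⟩
  | one =>
    simp only [tval, Option.some.injEq] at h; subst h
    refine ⟨?_, by simp, by simp, by simp [Term.toks], by simp⟩
    simp only [one_mul, mul_one]
    rw [pow_succ' 2 (sz c)]
    have : 2 ^ c.2.1 < 2 ^ sz c := Nat.pow_lt_pow_right (by norm_num) (by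
      have := sz_drop_ctx c 0; omega)
    omega
  | var i =>
    simp only [tval] at h
    rcases hd : c.1.drop i with _ | ⟨e, l⟩
    · rw [hd] at h; simp at h
    · rw [hd] at h; simp only [Option.some.injEq] at h; subst h
      have h1 := sz_drop_ctx c i
      rw [hd, sz_cons] at h1
      have h2 : sz e = sz e.1 + (sz e.2.1 + sz e.2.2 + 1) + 1 := by
        obtain ⟨a, b, d⟩ := e
        rw [sz_pair, sz_pair]
      have h3 := lt_of_sz e.2.1
      have h4 := lt_of_sz e.2.2
      have h5 : 2 ^ sz e.2.1 ≤ 2 ^ sz c := Nat.pow_le_pow_right (by norm_num) (by omega)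
      have h6 : 2 ^ sz e.2.2 ≤ 2 ^ sz c := Nat.pow_le_pow_right (by norm_num) (by omega)
      refine ⟨?_, ?_, by simp, by simp [Term.toks], ?_⟩
      · simp only [mul_one]; rw [pow_succ' 2 (sz c)]; omega
      · simp only [mul_one]; rw [pow_succ' 2 (sz c)]; omega
      · simp only [Term.toks]; split_ifs <;> simp
  | add s t ihs iht =>
    simp only [tval] at h
    cases h1 : tval c s with
    | none => rw [h1] at h; simp at h
    | some a =>
      cases h2 : tval c t with
      | none => rw [h1, h2] at h; simp at h
      | some b =>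
        rw [h1, h2] at h; simp only [Option.some.injEq] at h; subst h
        have := TB_tadd (c := c) hK (ihs a h1) (iht b h2)
        simpa [Term.toks] using this
  | sub s t ihs iht =>
    simp only [tval] at h
    cases h1 : tval c s with
    | none => rw [h1] at h; simp at h
    | some a =>
      cases h2 : tval c t with
      | none => rw [h1, h2] at h; simp at h
      | some b =>
        rw [h1, h2] at h; simp only [Option.some.injEq] at h; subst h
        have := TB_tadd (c := c) hK (ihs a h1) (TB_tswap (iht b h2))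
        simpa [Term.toks] using this
  | mul s t ihs iht =>
    simp only [tval] at h
    cases h1 : tval c s with
    | none => rw [h1] at h; simp at h
    | some a =>
      cases h2 : tval c t with
      | none => rw [h1, h2] at h; simp at h
      | some b =>
        rw [h1, h2] at h; simp only [Option.some.injEq] at h; subst h
        have := TB_tmul (ihs a h1) (iht b h2)
        simpa [Term.toks] using this

theorem aval_cnt {g : Bool × Bool → Bool} {c : Ctx} {s t : Term} {r : FRec}
    (h : aval g c s t = some r) : r.2 ≤ 1 := by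
  unfold aval at h
  cases h1 : tval c s with
  | none => rw [h1] at h; simp at h
  | some a =>
    cases h2 : tval c t with
    | none => rw [h1, h2] at h; simp at h
    | some b =>
      rw [h1, h2] at h
      simp only [atomV] at h
      cases h3 : cls0 c (tadd c a (tswap b)) with
      | none => rw [h3] at h; simp at h
      | some k =>
        rw [h3] at h
        simp only at h
        split_ifs at h
        · simp only [Option.some.injEq] at h; subst h; simp
        · simp only [Option.some.injEq] at h; subst h; simp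

theorem fval_cnt (c : Ctx) (p : Form) (r : FRec) (h : fval c p = some r) :
    r.2 ≤ p.toks.length := by
  induction p generalizing r with
  | lt s t | le s t | eq s t | ge s t | gt s t =>
    have := aval_cnt h
    simp only [Form.toks, List.length_cons]; omega
  | and p q ihp ihq | or p q ihp ihq =>
    simp only [fval] at h
    cases h1 : fval c p with
    | none => rw [h1] at h; simp at h
    | some a =>
      cases h2 : fval c q with
      | none => rw [h1, h2] at h; simp at h
      | some b =>
        rw [h1, h2] at h; simp only [Option.some.injEq] at h; subst h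
        have := ihp a h1
        have := ihq b h2
        simp only [Form.toks, List.length_cons, List.length_append]; omega
  | not p ihp =>
    simp only [fval] at h
    cases h1 : fval c p with
    | none => rw [h1] at h; simp at h
    | some a =>
      rw [h1] at h; simp only [Option.some.injEq] at h; subst h
      have := ihp a h1
      simp only [Form.toks, List.length_cons]; omega

theorem sz_val (v : Val) : sz v = sz v.1 + (sz v.2.1 + ((sz v.2.2.1.1 + (sz v.2.2.1.2.1 +
    (sz v.2.2.1.2.2.1 + sz v.2.2.1.2.2.2 + 1) + 1) + 1) + (sz v.2.2.2.1 + sz v.2.2.2.2 + 1) + 1) + 1)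
    + 1 := by
  obtain ⟨a, b, ⟨d, e, f, g⟩, h, i⟩ := v
  simp only [sz_pair]

theorem sz_bn0 : sz (⟨0⟩ : BN) = 1 := by
  change (TEnc.enc (Nat.bits 0)).size = 1
  simp

theorem sz_bb (k : Bool × Bool) : sz k ≤ 7 := by
  obtain ⟨a, b⟩ := k
  rw [sz_pair]
  have := sz_bool a
  have := sz_bool b
  omega

theorem toks_pos (t : Term) : 1 ≤ t.toks.length := by
  cases t <;> simp [Term.toks]

theorem toksF_pos (t : Form) : 1 ≤ t.toks.length := by
  cases t <;> simp [Form.toks]

/-- size of an object value -/
theorem oval_sz (c : Ctx) (o : Ob) (v : Val) (h : oval c o = some v) :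
    sz v ≤ (12 * sz c + 60) * o.toks.length := by
  have hb := sz_bb v.1
  cases o with
  | num i =>
    simp only [oval, Option.some.injEq] at h; subst h
    rw [sz_val]
    have h1 := sz_drop_ctx c i
    simp only [vnum, t0, f0, sz_bn0, sz_nat, sz_false] at hb ⊢
    have h2 : 1 ≤ (Ob.num i).toks.length := by simp [Ob.toks]
    have h3 : (12 * sz c + 60) * 1 ≤ (12 * sz c + 60) * (Ob.num i).toks.length :=
      Nat.mul_le_mul_left _ h2
    omega
  | tm t =>
    obtain ⟨r, hr, rfl⟩ := oval_tm h
    obtain ⟨h1, h2, h3, h4, h5⟩ := tval_TB c t r hr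
    have h6 := sz_bn_le r.1.n ((sz c + 1) * r.2.2.1) (by omega)
    have h7 := sz_bn_le r.2.1.n ((sz c + 1) * r.2.2.1) (by omega)
    rw [sz_val]
    simp only [vtm, f0, sz_nat, sz_false, sz_nil] at hb ⊢
    have h8 : (sz c + 1) * r.2.2.1 ≤ (sz c + 1) * t.toks.length := Nat.mul_le_mul_left _ h4
    have h9 := toks_pos t
    have h10 : (12 * sz c + 60) * t.toks.length = 12 * ((sz c + 1) * t.toks.length) +
      48 * t.toks.length := by ring
    change _ ≤ (12 * sz c + 60) * t.toks.length
    rw [h10]
    have h11 : sz (⟨r.1.n⟩ : BN) = sz r.1 := rfl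
    have h12 : sz (⟨r.2.1.n⟩ : BN) = sz r.2.1 := rfl
    omega
  | fm p =>
    obtain ⟨r, hr, rfl⟩ := oval_fm h
    have h1 := fval_cnt c p r hr
    have h2 := toksF_pos p
    rw [sz_val]
    have h3 := sz_bool r.1
    simp only [vfm, t0, sz_bn0, sz_nat, sz_nil] at hb ⊢
    change _ ≤ (12 * sz c + 60) * p.toks.length
    have h4 : (12 * sz c + 60) * p.toks.length = 12 * (sz c * p.toks.length) +
      60 * p.toks.length := by ring
    rw [h4]
    omega

theorem ovals_sz (c : Ctx) (st : List Ob) (vs : List Val) (h : ovals c st = some vs) :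
    sz vs ≤ (12 * sz c + 61) * (st.flatMap Ob.toks).length + 1 := by
  induction st generalizing vs with
  | nil => simp only [ovals, Option.some.injEq] at h; subst h; rw [sz_nil]; simp
  | cons o st ih =>
    obtain ⟨v, vs', h1, h2, rfl⟩ := ovals_cons h
    rw [sz_cons, List.flatMap_cons, List.length_append]
    have h3 := oval_sz c o v h1
    have h4 := ih vs' h2
    have h5 : 1 ≤ o.toks.length := by
      cases o with
      | num i => simp [Ob.toks]
      | tm t => exact toks_pos t
      | fm t => exact toksF_pos t
    have h6 : (12 * sz c + 61) * (o.toks.length + (st.flatMap Ob.toks).length) =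
      (12 * sz c + 60) * o.toks.length + o.toks.length +
      (12 * sz c + 61) * (st.flatMap Ob.toks).length := by ring
    rw [h6]
    omega

theorem veval_sz (c : Ctx) (l : List Tok) :
    sz (veval c l) ≤ (12 * sz c + 61) * l.length + 3 := by
  rw [veval_eq]
  cases h : parse l with
  | none => simp [sz_none]
  | some st =>
    rw [Option.bind_some]
    cases h2 : ovals c st with
    | none => simp [sz_none]
    | some vs =>
      rw [sz_some]
      have h3 := ovals_sz c st vs h2
      rw [← parse_sound l st h] at h3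
      omega

theorem veval_foldl (c : Ctx) (l : List Tok) :
    l.reverse.foldl (fun s t => s.bind (vstep c t)) (some []) = veval c l := by
  rw [List.foldl_reverse]; rfl

/-- evaluation of token lists is polynomial-time -/
theorem PTveval {α : Type} [TEnc α] {c : α → Ctx} {l : α → List Tok} (hc : PT c) (hl : PT l) :
    PT (fun a => veval (c a) (l a)) := by
  have hf : PT (fun z : α × (Option (List Val) × Tok) =>
      z.2.1.bind (vstep (c z.1) z.2.2)) := by
    have h1 : PT (fun y : (α × (Option (List Val) × Tok)) × List Val =>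
        vstep (c y.1.1) y.1.2.2 y.2) :=
      PTvstep.comp ((hc.comp PT.id.fst.fst).pair (PT.id.fst.snd.snd.pair PT.id.snd))
    have h2 := PT.optCase (l := fun z : α × (Option (List Val) × Tok) => z.2.1)
      (f := fun _ => (none : Option (List Val))) PT.id.snd.fst (PT.const _) h1
    refine h2.congr fun z => ?_
    cases z.2.1 <;> rfl
  obtain ⟨C, hC⟩ := hc.bound
  obtain ⟨S, hS⟩ := hl.bound
  have h := PT.foldl hf hl.reverse (x := fun _ => some []) (PT.const _)
    ((12 * C + 61) * S + 3) (by
      intro a k hk
      have h1 : (l a).reverse.take k = ((l a).drop ((l a).length - k)).reverse := by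
        rw [List.take_reverse]
      change sz (((l a).reverse.take k).foldl (fun s t => s.bind (vstep (c a) t)) (some [])) ≤ _
      rw [h1, veval_foldl]
      refine (veval_sz _ _).trans ?_
      have h2 : ((l a).drop ((l a).length - k)).length ≤ (l a).length := by
        rw [List.length_drop]; omega
      have h3 : (l a).length ≤ S.eval (sz a) := (length_le_sz _).trans (hS a)
      have h4 := Nat.mul_le_mul (show 12 * sz (c a) + 61 ≤ 12 * C.eval (sz a) + 61 by
        have := hC a; omega) (h2.trans h3)
      simp only [Polynomial.eval_add, Polynomial.eval_mul, Polynomial.eval_ofNat]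
      omega)
  exact h.congr fun a => veval_foldl (c a) (l a)

end Pool.Agent.Helper54.ETR
end
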