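import Pool.Agent.Helper54.Stage2

namespace Pool.Agent.Helper54

open Finset Filter Topology

section

variable {X Y A1 A2 : Type} [Fintype X] [DecidableEq X] [Fintype Y] [DecidableEq Y]
  [Fintype A1] [Fintype A2] (D : Sgn X Y A1 A2)

namespace Sgn

abbrev LLB (X Y A1 : Type) := (A1 × Bool) ⊕ ((X × Bool) ⊕ ((Y × Bool) ⊕ Fin 1))

noncomputable def eLB (R : ℕ) : LLB X Y A1 → QP (Option X) Y
  | Sum.inl (a, b) => (D.e1 a).aff some (R * al (D.s1 a) b)
      (MvPolynomial.C (be (D.s1 a)) - MvPolynomial.X none)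
  | Sum.inr (Sum.inl (x, b)) => QP.base (MvPolynomial.C (pm b) * MvPolynomial.X (some x)
      - (MvPolynomial.C (R : ℤ) + MvPolynomial.X none))
  | Sum.inr (Sum.inr (Sum.inl (y, b))) => QP.ycon (pm b) y
      (- (MvPolynomial.C (R : ℤ) + MvPolynomial.X none))
  | Sum.inr (Sum.inr (Sum.inr _)) => QP.base (- (MvPolynomial.C 1 + MvPolynomial.X none))

noncomputable def eQB (R : ℕ) : A2 × Bool → QP (Option X) Y
  | (a, b) => (D.e2 a).aff some (R * al (D.s2 a) b)
      (MvPolynomial.C (be (D.s2 a)) - MvPolynomial.X none)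

variable {D} {d h : ℕ} {R : ℕ}

theorem bnd_eLB (hb : D.Bd d h) (i : LLB X Y A1) :
    Bnd (D.eLB R i) (d + 2) ((d + 2) * (R * h + R + 2)) := by
  have hX : ∀ (i : Option X), (MvPolynomial.X i :
      MvPolynomial (Option X) ℤ).totalDegree ≤ d + 2 := fun i => (td_X i).trans (by omega)
  have hn1 : ∀ s : SignType, (mvSN (Option X) intSN).f (MvPolynomial.C (be s) -
      MvPolynomial.X none) ≤ 2 := by
    intro s
    refine ((mvSN (Option X) intSN).sub_le _ _).trans ?_
    have h1 := nC (V := Option X) (be s)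
    have h2 := nX (V := Option X) none
    have h3 := be_natAbs s
    omega
  have hn2 : (mvSN (Option X) intSN).f (MvPolynomial.C (R : ℤ) + MvPolynomial.X none) ≤
      R + 1 := by
    refine ((mvSN (Option X) intSN).add_le _ _).trans ?_
    have h1 := nC (V := Option X) (R : ℤ)
    have h2 := nX (V := Option X) none
    rw [Int.natAbs_natCast] at h1
    omega
  apply bnd_of _ (by omega)
  · rcases i with ⟨a, b⟩ | ⟨x, b⟩ | ⟨y, b⟩ | j
    · apply deg_aff
      · exact ⟨(hb.d1 a).c.trans (by omega), fun c => ((hb.d1 a).g c).trans (by omega),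
          fun c e => ((hb.d1 a).H c e).trans (by omega)⟩
      · exact td_sub (td_C _ _) (hX _)
    · exact deg_base _ (td_sub ((td_mul (td_C _ 0) (td_X _)).trans (by omega))
        (td_add (td_C _ _) (hX _)))
    · exact deg_ycon _ _ _ (td_neg (td_add (td_C _ _) (hX _)))
    · exact deg_base _ (td_neg (td_add (td_C _ _) (hX _)))
  · rcases i with ⟨a, b⟩ | ⟨x, b⟩ | ⟨y, b⟩ | j
    · refine (nrm_aff _ _ _ _).trans ?_
      rw [Int.natAbs_mul, al_natAbs, mul_one, Int.natAbs_natCast]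
      have h1 := Nat.mul_le_mul_left R (hb.n1 a)
      have h2 := hn1 (D.s1 a)
      omega
    · change (QP.base _ : QP (Option X) Y).nrm ≤ _
      rw [nrm_base]
      refine ((mvSN (Option X) intSN).sub_le _ _).trans ?_
      have h1 := nCX (V := Option X) (pm b) (some x)
      rw [pm_natAbs] at h1
      omega
    · refine (nrm_ycon _ _ _).trans ?_
      rw [(mvSN (Option X) intSN).map_neg, pm_natAbs]
      omega
    · change (QP.base _ : QP (Option X) Y).nrm ≤ _
      rw [nrm_base, (mvSN (Option X) intSN).map_neg]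
      refine ((mvSN (Option X) intSN).add_le _ _).trans ?_
      have h1 := nC (V := Option X) (1 : ℤ)
      have h2 := nX (V := Option X) none
      have h3 : (1 : ℤ).natAbs = 1 := rfl
      omega

theorem bnd_eQB (hb : D.Bd d h) (i : A2 × Bool) :
    Bnd (D.eQB R i) (d + 2) ((d + 2) * (R * h + R + 2)) := by
  have hn1 : ∀ s : SignType, (mvSN (Option X) intSN).f (MvPolynomial.C (be s) -
      MvPolynomial.X none) ≤ 2 := by
    intro s
    refine ((mvSN (Option X) intSN).sub_le _ _).trans ?_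
    have h1 := nC (V := Option X) (be s)
    have h2 := nX (V := Option X) none
    have h3 := be_natAbs s
    omega
  rcases i with ⟨a, b⟩
  apply bnd_of _ (by omega)
  · apply deg_aff
    · exact ⟨(hb.d2 a).c.trans (by omega), fun c => ((hb.d2 a).g c).trans (by omega),
        fun c e => ((hb.d2 a).H c e).trans (by omega)⟩
    · exact td_sub (td_C _ _) ((td_X _).trans (by omega))
  · refine (nrm_aff _ _ _ _).trans ?_
    rw [Int.natAbs_mul, al_natAbs, mul_one, Int.natAbs_natCast]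
    have h1 := Nat.mul_le_mul_left R (hb.n2 a)
    have h2 := hn1 (D.s2 a)
    omega

variable (D)

theorem conB (z : (Option X → ℝ) × (Y → ℝ)) : (∀ i, con (D.eLB R) (D.eQB R) i z ≤ 0) ↔
    ((∀ a b, (R : ℝ) * ((al (D.s1 a) b : ℝ) * (D.e1 a).ev1 (fun x => z.1 (some x)) z.2) +
      be (D.s1 a) ≤ z.1 none) ∧
    (∀ x b, (pm b : ℝ) * z.1 (some x) ≤ R + z.1 none) ∧
    (∀ y b, (pm b : ℝ) * z.2 y ≤ R + z.1 none) ∧ -1 ≤ z.1 none) ∧
    (∀ a b, (R : ℝ) * ((al (D.s2 a) b : ℝ) * (D.e2 a).ev (fun x => z.1 (some x)) z.2) +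
      be (D.s2 a) ≤ z.1 none) := by
  rw [con_iff]
  have h1 : ∀ a b, (D.eLB R (Sum.inl (a, b))).ev1 z.1 z.2 = (R : ℝ) * ((al (D.s1 a) b : ℝ) *
      (D.e1 a).ev1 (fun x => z.1 (some x)) z.2) + be (D.s1 a) - z.1 none := by
    intro a b
    simp only [eLB, ev1_aff, map_sub, iv_C, iv_X]
    push_cast; ring
  have h2 : ∀ x b, (D.eLB R (Sum.inr (Sum.inl (x, b)))).ev1 z.1 z.2 =
      (pm b : ℝ) * z.1 (some x) - (R + z.1 none) := by
    intro a b
    simp only [eLB, ev1_base, map_sub, map_add, map_mul, iv_C, iv_X]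
    push_cast; ring
  have h3 : ∀ y b, (D.eLB R (Sum.inr (Sum.inr (Sum.inl (y, b))))).ev1 z.1 z.2 =
      (pm b : ℝ) * z.2 y - (R + z.1 none) := by
    intro a b
    simp only [eLB, ev1_ycon, map_neg, map_add, iv_C, iv_X]
    push_cast; ring
  have h4 : ∀ j, (D.eLB R (Sum.inr (Sum.inr (Sum.inr j)))).ev1 z.1 z.2 =
      -1 - z.1 none := by
    intro j
    simp only [eLB, ev1_base, map_neg, map_add, iv_C, iv_X]
    push_cast; ring
  have h7 : ∀ a b, (D.eQB R (a, b)).ev z.1 z.2 = (R : ℝ) * ((al (D.s2 a) b : ℝ) *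
      (D.e2 a).ev (fun x => z.1 (some x)) z.2) + be (D.s2 a) - z.1 none := by
    intro a b
    simp only [eQB, ev_aff, map_sub, iv_C, iv_X]
    push_cast; ring
  constructor
  · rintro ⟨hL, hQ⟩
    refine ⟨⟨fun a b => ?_, fun x b => ?_, fun y b => ?_, ?_⟩, fun a b => ?_⟩
    · have := hL (Sum.inl (a, b)); rw [h1] at this; linarith
    · have := hL (Sum.inr (Sum.inl (x, b))); rw [h2] at this; linarith
    · have := hL (Sum.inr (Sum.inr (Sum.inl (y, b)))); rw [h3] at this; linarith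
    · have := hL (Sum.inr (Sum.inr (Sum.inr 0))); rw [h4] at this; linarith
    · have := hQ (a, b); rw [h7] at this; linarith
  · rintro ⟨⟨g1, g2, g3, g4⟩, g7⟩
    refine ⟨fun i => ?_, fun i => ?_⟩
    · rcases i with ⟨a, b⟩ | ⟨x, b⟩ | ⟨y, b⟩ | j
      · rw [h1]; have := g1 a b; linarith
      · rw [h2]; have := g2 x b; linarith
      · rw [h3]; have := g3 y b; linarith
      · rw [h4]; linarith
    · rcases i with ⟨a, b⟩
      rw [h7]; have := g7 a b; linarith

theorem stageB (hb : D.Bd d h) (hR : 1 ≤ R) (δ : ℝ) (hδ0 : 0 ≤ δ)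
    (hδ : δ * (DBn (Fintype.card X) (Fintype.card Y) (Fintype.card A1) (Fintype.card A2)
      d h R : ℕ) < 1) (happ : ∃ x y, D.App R δ x y) :
    ∃ x y, D.Sat x y := by
  obtain ⟨x, y, hs1, hs2, hx, hy⟩ := happ
  let z0 : (Option X → ℝ) × (Y → ℝ) :=
    (fun v => match v with | none => δ | some i => x i, y)
  have hR0 : (0 : ℝ) < R := by exact_mod_cast hR
  have hz0 : ∀ i, con (D.eLB R) (D.eQB R) i z0 ≤ 0 := by
    rw [conB]
    exact ⟨⟨fun a b => hs1 a b, fun i b => pm_of_abs (hx i) b, fun i b => pm_of_abs (hy i) b,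
      by change -1 ≤ δ; linarith⟩, fun a b => hs2 a b⟩
  obtain ⟨z, hz, hzle, P0, hP0, hsz, hroot⟩ := mini (D.eLB R) (D.eQB R) none (d := d + 2)
    (h := (d + 2) * (R * h + R + 2)) (by omega)
    (Nat.succ_le_of_lt (by positivity)) (bnd_eLB hb) (bnd_eQB hb) z0 hz0 (R + δ + 1) (by
      intro z hz hz1
      rw [conB] at hz
      obtain ⟨⟨_, g2, g3, g4⟩, _⟩ := hz
      have hz1' : z.1 none ≤ δ := hz1
      refine ⟨fun i => ?_, fun a => (abs_of_pm (g3 a)).trans (by linarith)⟩
      rcases i with _ | i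
      · rw [abs_le]; constructor <;> linarith
      · exact (abs_of_pm (g2 i)).trans (by linarith))
  have hzle' : z.1 none ≤ δ := hzle
  have hcard : HH (Fintype.card (Option X)) (Fintype.card Y) (Fintype.card (LLB X Y A1))
      (Fintype.card (A2 × Bool)) (d + 2) ((d + 2) * (R * h + R + 2)) =
      DBn (Fintype.card X) (Fintype.card Y) (Fintype.card A1) (Fintype.card A2) d h R := by
    unfold DBn
    simp only [Fintype.card_option, Fintype.card_sum, Fintype.card_prod, Fintype.card_bool,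
      Fintype.card_fin]
    congr 1 <;> ring
  rw [hcard] at hsz
  have hle : z.1 none ≤ 0 := by
    by_contra hc
    push Not at hc
    have h1 := root_lower P0 hP0 _ hc.ne' hroot
    rw [abs_of_pos hc] at h1
    have h2 : (((pSN intSN).f P0 : ℕ) : ℝ) ≤ (DBn (Fintype.card X) (Fintype.card Y)
      (Fintype.card A1) (Fintype.card A2) d h R : ℕ) := by exact_mod_cast hsz
    have h3 : z.1 none * (((pSN intSN).f P0 : ℕ) : ℝ) ≤ δ * (DBn (Fintype.card X)
      (Fintype.card Y) (Fintype.card A1) (Fintype.card A2) d h R : ℕ) :=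
      mul_le_mul hzle' h2 (Nat.cast_nonneg _) hδ0
    linarith
  rw [conB] at hz
  obtain ⟨⟨g1, _, _, _⟩, g7⟩ := hz
  exact ⟨fun x => z.1 (some x), z.2, fun a => al_bwd _ _ R hR0 fun b => (g1 a b).trans hle,
    fun a => al_bwd _ _ R hR0 fun b => (g7 a b).trans hle⟩

end Sgn

end

end Pool.Agent.Helper54
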