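import Pool.Agent.Helper54.ETRSys
import Pool.Agent.Helper54.Stage3
import Pool.Agent.Helper54.ETRSem2

section
namespace Pool.Agent.Helper54

open Finset

/-! ### numerical bounds -/

theorem Hb_le {C w N E : ℕ} (hC : C ≤ 2 ^ E) : Hb C w N ≤ 2 ^ ((1 + E * (w * N)) * N ^ w) := by
  unfold Hb
  rw [pow_mul 2]
  apply Nat.pow_le_pow_left
  have h1 : C ^ (w * N) ≤ 2 ^ (E * (w * N)) := by
    rw [pow_mul 2]; exact Nat.pow_le_pow_left hC _
  have h2 : 1 ≤ 2 ^ (E * (w * N)) := Nat.one_le_two_pow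
  rw [pow_add, pow_one]
  omega

theorem Cbn_le {y l q h T : ℕ} (hy : y ≤ T) (hlq : l + q ≤ 2 * T) (hh : h ≤ 2 ^ T) :
    Cbn y l q h ≤ 2 ^ ((4 * T + 3) + (5 * T + 3) * (2 * T + 2)) := by
  unfold Cbn
  have h1 : l + q + 1 ≤ 2 ^ (2 * T + 1) := (by omega : l + q + 1 ≤ 2 * T + 1).trans
    (Nat.lt_two_pow_self).le
  have h2 : h ^ 2 ≤ 2 ^ (2 * T) := by
    rw [mul_comm, pow_mul]; exact Nat.pow_le_pow_left hh 2
  have h3 : y + 1 ≤ 2 ^ (T + 1) := (by omega : y + 1 ≤ T + 1).trans (Nat.lt_two_pow_self).le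
  have h4 : 3 * (l + q + 1) * h ^ 2 ≤ 2 ^ (4 * T + 3) := by
    calc 3 * (l + q + 1) * h ^ 2 ≤ 2 ^ 2 * 2 ^ (2 * T + 1) * 2 ^ (2 * T) := by
          gcongr; norm_num
      _ = 2 ^ (4 * T + 3) := by rw [← pow_add, ← pow_add]; congr 1; ring
  have h5 : (y + 1) * (2 * (l + q + 1) * h ^ 2) ≤ 2 ^ (5 * T + 3) := by
    calc (y + 1) * (2 * (l + q + 1) * h ^ 2) ≤
        2 ^ (T + 1) * (2 ^ 1 * 2 ^ (2 * T + 1) * 2 ^ (2 * T)) := by
          gcongr; norm_num
      _ = 2 ^ (5 * T + 3) := by rw [← pow_add, ← pow_add, ← pow_add]; congr 1; ring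
  have h6 : (((y + 1) * (2 * (l + q + 1) * h ^ 2)) ^ (y + 1)) ^ 2 ≤
      2 ^ ((5 * T + 3) * (2 * T + 2)) := by
    rw [← pow_mul]
    calc ((y + 1) * (2 * (l + q + 1) * h ^ 2)) ^ ((y + 1) * 2) ≤
        (2 ^ (5 * T + 3)) ^ ((y + 1) * 2) := Nat.pow_le_pow_left h5 _
      _ = 2 ^ ((5 * T + 3) * ((y + 1) * 2)) := by rw [← pow_mul]
      _ ≤ 2 ^ ((5 * T + 3) * (2 * T + 2)) := by
          apply Nat.pow_le_pow_right (by norm_num)
          apply Nat.mul_le_mul_left
          omega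
  calc _ ≤ 2 ^ (4 * T + 3) * 2 ^ ((5 * T + 3) * (2 * T + 2)) := Nat.mul_le_mul h4 h6
    _ = _ := (pow_add _ _ _).symm

theorem HH_le {v y l q d h T w : ℕ} (hT : 2 ≤ T) (hy : y ≤ T) (hlq : l + q ≤ 2 * T)
    (hd : d ≤ T) (hh : h ≤ 2 ^ T) (hw : v + q ≤ w) (hh1 : 1 ≤ h) :
    HH v y l q d h ≤ 2 ^ (T ^ (14 + 7 * w)) := by
  have hN1 : 1 ≤ Nb y d := Nat.succ_pos _
  have h0 : HH v y l q d h ≤ Hb (Cbn y l q h) w (Nb y d) :=
    Hb_mono le_rfl hw (Cbn_pos hh1) hN1
  refine h0.trans ((Hb_le (Cbn_le hy hlq hh)).trans ?_)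
  apply Nat.pow_le_pow_right (by norm_num)
  have hpow2 : ∀ k, 2 ^ k ≤ T ^ k := fun k => Nat.pow_le_pow_left hT k
  have hN : Nb y d ≤ T ^ 6 := by
    unfold Nb
    have h1 : y * d ≤ T * T := Nat.mul_le_mul hy hd
    have h2 : 2 * (y * (2 * d)) + 6 * d + 1 = 4 * (y * d) + 6 * d + 1 := by ring
    have h3 := hpow2 4
    have h4 : T ^ 6 = T ^ 4 * (T * T) := by ring
    rw [h2, h4]
    have h5 : 16 * (T * T) ≤ T ^ 4 * (T * T) := Nat.mul_le_mul_right _ h3
    nlinarith
  have hE : (4 * T + 3) + (5 * T + 3) * (2 * T + 2) ≤ T ^ 7 := by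
    have h3 := hpow2 5
    have h4 : T ^ 7 = T ^ 5 * (T * T) := by ring
    rw [h4]
    have h5 : 32 * (T * T) ≤ T ^ 5 * (T * T) := Nat.mul_le_mul_right _ h3
    nlinarith
  have hw1 : 1 + w ≤ T ^ (1 + w) :=
    ((Nat.lt_two_pow_self (n := 1 + w)).le).trans (hpow2 (1 + w))
  have hT1 : 1 ≤ T := by omega
  calc (1 + ((4 * T + 3) + (5 * T + 3) * (2 * T + 2)) * (w * Nb y d)) * Nb y d ^ w
      ≤ (1 + T ^ 7 * (w * T ^ 6)) * (T ^ 6) ^ w := by
        gcongr
    _ ≤ ((1 + w) * T ^ 13) * (T ^ 6) ^ w := by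
        apply Nat.mul_le_mul_right
        have h1 : T ^ 7 * (w * T ^ 6) = w * T ^ 13 := by ring
        have h2 : 1 ≤ T ^ 13 := Nat.one_le_pow _ _ hT1
        rw [h1]; nlinarith
    _ ≤ (T ^ (1 + w) * T ^ 13) * (T ^ 6) ^ w := by gcongr
    _ = T ^ (14 + 7 * w) := by rw [← pow_mul, ← pow_add, ← pow_add]; congr 1; ring

/-- exponents used by the verifier -/
def c1 (k m : ℕ) : ℕ := 14 + 7 * (k + 2 + 2 * m)
def c2 (k m : ℕ) : ℕ := 14 + 7 * (k + 1 + 2 * m)
def rr (k m N : ℕ) : ℕ := (6 * N + 4) ^ c1 k m + 1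
def ee (k m N : ℕ) : ℕ := (rr k m N + 6 * N + 5) ^ c2 k m + 1

theorem RAn_le {k m N x y a1 a2 S : ℕ} (hx : x ≤ k) (hxy : x + y ≤ N) (ha1 : a1 ≤ N)
    (ha2 : a2 ≤ m) (ha2' : a2 ≤ N) (hS : S ≤ N) :
    2 * RAn x y a1 a2 S (2 ^ (S + 1)) ≤ 2 ^ rr k m N := by
  unfold RAn rr
  rw [pow_succ, mul_comm]
  apply Nat.mul_le_mul_right
  unfold c1
  have h1 : (S + 2) * (2 ^ (S + 1) + 2) ≤ 2 ^ (6 * N + 4) := by
    have h2 : S + 2 ≤ 2 ^ (S + 2) := (Nat.lt_two_pow_self).le
    have h3 : 2 ^ (S + 1) + 2 ≤ 2 ^ (S + 2) := by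
      rw [pow_succ 2 (S + 1)]
      have : 2 ≤ 2 ^ (S + 1) := by
        calc 2 = 2 ^ 1 := by norm_num
          _ ≤ 2 ^ (S + 1) := Nat.pow_le_pow_right (by norm_num) (by omega)
      omega
    calc (S + 2) * (2 ^ (S + 1) + 2) ≤ 2 ^ (S + 2) * 2 ^ (S + 2) := Nat.mul_le_mul h2 h3
      _ = 2 ^ (2 * S + 4) := by rw [← pow_add]; congr 1; ring
      _ ≤ 2 ^ (6 * N + 4) := Nat.pow_le_pow_right (by norm_num) (by omega)
  exact HH_le (by omega) (by omega) (by omega) (by omega) h1 (by omega)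
    (Nat.succ_le_of_lt (by positivity))

theorem DBn_le {k m N x y a1 a2 S : ℕ} (hx : x ≤ k) (hxy : x + y ≤ N) (ha1 : a1 ≤ N)
    (ha2 : a2 ≤ m) (ha2' : a2 ≤ N) (hS : S ≤ N) :
    2 * DBn x y a1 a2 S (2 ^ (S + 1)) (2 ^ rr k m N) ≤ 2 ^ ee k m N := by
  unfold DBn ee
  rw [pow_succ 2 ((rr k m N + 6 * N + 5) ^ c2 k m), mul_comm]
  apply Nat.mul_le_mul_right
  unfold c2
  set r := rr k m N with hr
  have h1 : (S + 2) * (2 ^ r * 2 ^ (S + 1) + 2 ^ r + 2) ≤ 2 ^ (r + 6 * N + 5) := by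
    have h2 : S + 2 ≤ 2 ^ (S + 2) := (Nat.lt_two_pow_self).le
    have h4 : 1 ≤ 2 ^ r := Nat.one_le_two_pow
    have h3 : 2 ^ r * 2 ^ (S + 1) + 2 ^ r + 2 ≤ 2 ^ r * 2 ^ (S + 3) := by
      have h5 : 2 ^ (S + 3) = 4 * 2 ^ (S + 1) := by rw [pow_succ, pow_succ]; ring
      rw [h5]
      have h6 : 1 ≤ 2 ^ (S + 1) := Nat.one_le_two_pow
      nlinarith
    calc (S + 2) * (2 ^ r * 2 ^ (S + 1) + 2 ^ r + 2) ≤ 2 ^ (S + 2) * (2 ^ r * 2 ^ (S + 3)) :=
          Nat.mul_le_mul h2 h3
      _ = 2 ^ (r + 2 * S + 5) := by rw [← pow_add, ← pow_add]; congr 1; ring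
      _ ≤ 2 ^ (r + 6 * N + 5) := Nat.pow_le_pow_right (by norm_num) (by omega)
  exact HH_le (by omega) (by omega) (by omega) (by omega) h1 (by omega)
    (Nat.succ_le_of_lt (by positivity))

namespace ETR

/-- truth value from the signs of the atoms -/
def Form.tv (sg : Term × Term → SignType) : Form → Bool
  | lt s t => decide (sg (s, t) = -1)
  | le s t => decide (sg (s, t) ≠ 1)
  | eq s t => decide (sg (s, t) = 0)
  | ge s t => decide (sg (s, t) ≠ -1)
  | gt s t => decide (sg (s, t) = 1)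
  | and p q => p.tv sg && q.tv sg
  | or p q => p.tv sg || q.tv sg
  | not p => !p.tv sg

theorem holds_iff (x : ℕ → ℝ) (sg : Term × Term → SignType) (p : Form)
    (h : ∀ a ∈ p.atoms, SignType.sign (a.1.eval x - a.2.eval x) = sg a) :
    p.Holds x ↔ p.tv sg = true := by
  induction p with
  | lt s t =>
    have h1 := h (s, t) (by simp [Form.atoms])
    simp only [Form.Holds, Form.tv, ← h1, decide_eq_true_eq]
    rw [sign_eq_neg_one_iff]
    constructor <;> intro h <;> linarith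
  | le s t =>
    have h1 := h (s, t) (by simp [Form.atoms])
    simp only [Form.Holds, Form.tv, ← h1, decide_eq_true_eq]
    rw [Ne, sign_eq_one_iff, not_lt]
    constructor <;> intro h <;> linarith
  | eq s t =>
    have h1 := h (s, t) (by simp [Form.atoms])
    simp only [Form.Holds, Form.tv, ← h1, decide_eq_true_eq]
    rw [sign_eq_zero_iff]
    constructor <;> intro h <;> linarith
  | ge s t =>
    have h1 := h (s, t) (by simp [Form.atoms])
    simp only [Form.Holds, Form.tv, ← h1, decide_eq_true_eq]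
    rw [Ne, sign_eq_neg_one_iff, not_lt]
    constructor <;> intro h <;> linarith
  | gt s t =>
    have h1 := h (s, t) (by simp [Form.atoms])
    simp only [Form.Holds, Form.tv, ← h1, decide_eq_true_eq]
    rw [sign_eq_one_iff]
    constructor <;> intro h <;> linarith
  | and p q ihp ihq =>
    simp only [Form.Holds, Form.tv, Bool.and_eq_true]
    rw [ihp fun a ha => h a (by simp [Form.atoms, ha]),
      ihq fun a ha => h a (by simp [Form.atoms, ha])]
  | or p q ihp ihq =>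
    simp only [Form.Holds, Form.tv, Bool.or_eq_true]
    rw [ihp fun a ha => h a (by simp [Form.atoms, ha]),
      ihq fun a ha => h a (by simp [Form.atoms, ha])]
  | not p ihp =>
    simp only [Form.Holds, Form.tv, Bool.not_eq_true']
    rw [ihp fun a ha => h a (by simpa [Form.atoms] using ha)]
    simp

/-- robust satisfaction of sign conditions -/
structure Rob (n : ℕ) (R δ : ℝ) (sg : Term × Term → SignType) (x : ℕ → ℝ)
    (l : List (Term × Term)) : Prop where
  at' : ∀ a ∈ l, ∀ b, R * ((al (sg a) b : ℝ) * (a.1.eval x - a.2.eval x)) + be (sg a) ≤ δ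
  bd : ∀ i < n, |x i| ≤ R + δ

section cert

variable (n : ℕ) (X : Finset ℕ)

/-- atoms of degree at most one, and the others -/
def L1 (p : Form) : List (Term × Term) := p.atoms.filter fun a => decide (atomDeg X a ≤ 1)
def L2 (p : Form) : List (Term × Term) := p.atoms.filter fun a => !decide (atomDeg X a ≤ 1)

noncomputable def sys (p : Form) (sg : Term × Term → SignType) :
    Sgn (VX n X) (VY n X) (Fin (L1 X p).length) (Fin (L2 X p).length) where
  e1 a := (qp n X ((L1 X p).get a).1).subQ (qp n X ((L1 X p).get a).2)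
  e2 a := (qp n X ((L2 X p).get a).1).subQ (qp n X ((L2 X p).get a).2)
  s1 a := sg ((L1 X p).get a)
  s2 a := sg ((L2 X p).get a)

/-- hypotheses on the formula -/
structure Good (n S : ℕ) (X : Finset ℕ) (p : Form) : Prop where
  deg : ∀ a ∈ p.atoms, atomDeg X a ≤ 2
  v1 : ∀ a ∈ p.atoms, VarsLt n a.1
  v2 : ∀ a ∈ p.atoms, VarsLt n a.2
  sz : ∀ a ∈ p.atoms, tsz a.1 ≤ S ∧ tsz a.2 ≤ S

variable {n X} {S : ℕ} {p : Form}

theorem mem_L1 (a : Fin (L1 X p).length) : (L1 X p).get a ∈ p.atoms ∧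
    atomDeg X ((L1 X p).get a) ≤ 1 := by
  have h : (L1 X p).get a ∈ L1 X p := List.get_mem _ _
  have h2 := List.mem_filter.1 h
  exact ⟨h2.1, by simpa using h2.2⟩

theorem mem_L2 (a : Fin (L2 X p).length) : (L2 X p).get a ∈ p.atoms := by
  have h : (L2 X p).get a ∈ L2 X p := List.get_mem _ _
  exact (List.mem_filter.1 h).1

theorem ev1_sub (p q : QP (VX n X) (VY n X)) (v : VX n X → ℝ) (y : VY n X → ℝ) :
    (p.subQ q).ev1 v y = p.ev1 v y - q.ev1 v y := by
  simp only [QP.ev1, QP.subQ, map_sub, sub_mul, Finset.sum_sub_distrib]; ring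

theorem sys_e1 (hg : Good n S X p) (sg : Term × Term → SignType) (x : ℕ → ℝ)
    (a : Fin (L1 X p).length) : ((sys n X p sg).e1 a).ev1 (rx x) (ry x) =
      ((L1 X p).get a).1.eval x - ((L1 X p).get a).2.eval x := by
  obtain ⟨h1, h2⟩ := mem_L1 a
  unfold atomDeg at h2
  change ((qp n X ((L1 X p).get a).1).subQ (qp n X ((L1 X p).get a).2)).ev1 _ _ = _
  rw [ev1_sub, qp_eval1 x _ (by omega) (hg.v1 _ h1), qp_eval1 x _ (by omega) (hg.v2 _ h1)]

theorem sys_e2 (hg : Good n S X p) (sg : Term × Term → SignType) (x : ℕ → ℝ)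
    (a : Fin (L2 X p).length) : ((sys n X p sg).e2 a).ev (rx x) (ry x) =
      ((L2 X p).get a).1.eval x - ((L2 X p).get a).2.eval x := by
  have h1 := mem_L2 a
  have h2 := hg.deg _ h1
  unfold atomDeg at h2
  change ((qp n X ((L2 X p).get a).1).subQ (qp n X ((L2 X p).get a).2)).ev _ _ = _
  rw [ev_subQ, qp_eval x _ (by omega) (hg.v1 _ h1), qp_eval x _ (by omega) (hg.v2 _ h1)]

theorem atoms_iff (P : Term × Term → Prop) : (∀ a ∈ p.atoms, P a) ↔
    (∀ a, P ((L1 X p).get a)) ∧ ∀ a, P ((L2 X p).get a) := by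
  constructor
  · intro h
    exact ⟨fun a => h _ (mem_L1 a).1, fun a => h _ (mem_L2 a)⟩
  · rintro ⟨h1, h2⟩ a ha
    by_cases hd : atomDeg X a ≤ 1
    · have h3 : a ∈ L1 X p := List.mem_filter.2 ⟨ha, by simpa using hd⟩
      obtain ⟨i, hi⟩ := List.get_of_mem h3
      rw [← hi]; exact h1 i
    · have h3 : a ∈ L2 X p := List.mem_filter.2 ⟨ha, by simpa using hd⟩
      obtain ⟨i, hi⟩ := List.get_of_mem h3
      rw [← hi]; exact h2 i

theorem sys_bd (hg : Good n S X p) (sg : Term × Term → SignType) :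
    (sys n X p sg).Bd S (2 ^ (S + 1)) := by
  have key : ∀ a ∈ p.atoms, ((qp n X a.1).subQ (qp n X a.2)).DegLe S ∧
      ((qp n X a.1).subQ (qp n X a.2)).nrm ≤ 2 ^ (S + 1) := by
    intro a ha
    obtain ⟨h1, h2⟩ := hg.sz a ha
    refine ⟨deg_subQ ((qp_degLe _).mono h1) ((qp_degLe _).mono h2), ?_⟩
    refine (nrm_subQ _ _).trans ((Nat.add_le_add (qp_nrm _) (qp_nrm _)).trans ?_)
    have h3 : 2 ^ tsz a.1 ≤ 2 ^ S := Nat.pow_le_pow_right (by norm_num) h1
    have h4 : 2 ^ tsz a.2 ≤ 2 ^ S := Nat.pow_le_pow_right (by norm_num) h2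
    rw [pow_succ]; omega
  exact ⟨fun a => (key _ (mem_L1 a).1).1, fun a => (key _ (mem_L2 a)).1,
    fun a => (key _ (mem_L1 a).1).2, fun a => (key _ (mem_L2 a)).2⟩

theorem sat_iff (hg : Good n S X p) (sg : Term × Term → SignType) (x : ℕ → ℝ) :
    (sys n X p sg).Sat (rx x) (ry x) ↔
      ∀ a ∈ p.atoms, SignType.sign (a.1.eval x - a.2.eval x) = sg a := by
  rw [atoms_iff (X := X)]
  unfold Sgn.Sat
  simp only [sys_e1 hg, sys_e2 hg]
  rfl

theorem app_iff (hg : Good n S X p) (sg : Term × Term → SignType) (R δ : ℝ) (x : ℕ → ℝ) :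
    (sys n X p sg).App R δ (rx x) (ry x) ↔ Rob n R δ sg x p.atoms := by
  unfold Sgn.App
  simp only [sys_e1 hg, sys_e2 hg]
  constructor
  · rintro ⟨h1, h2, h3, h4⟩
    refine ⟨(atoms_iff (X := X) _).2 ⟨h1, h2⟩, fun i hi => ?_⟩
    by_cases hx : i ∈ X
    · exact h3 ⟨⟨i, hi⟩, hx⟩
    · exact h4 ⟨⟨i, hi⟩, hx⟩
  · intro h
    have h1 := (atoms_iff (X := X) _).1 h.at'
    exact ⟨h1.1, h1.2, fun i => h.bd _ i.1.2, fun i => h.bd _ i.1.2⟩

open Classical in
/-- assemble an assignment from its two parts -/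
noncomputable def asm (x : VX n X → ℝ) (y : VY n X → ℝ) : ℕ → ℝ := fun i =>
  if h : i < n then (if hx : i ∈ X then x ⟨⟨i, h⟩, hx⟩ else y ⟨⟨i, h⟩, hx⟩) else 0

theorem rx_asm (x : VX n X → ℝ) (y : VY n X → ℝ) : rx (asm x y) = x := by
  funext i
  simp [rx, asm, i.2]

theorem ry_asm (x : VX n X → ℝ) (y : VY n X → ℝ) : ry (asm x y) = y := by
  funext i
  simp [ry, asm, i.2]

/-- completeness -/
theorem certA (hg : Good n S X p) (hsol : ∃ x : ℕ → ℝ, p.Holds x) :
    ∃ (sg : Term × Term → SignType) (x : ℕ → ℝ),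
      Rob n (RAn (Fintype.card (VX n X)) (Fintype.card (VY n X)) (L1 X p).length
        (L2 X p).length S (2 ^ (S + 1)) : ℕ) 0 sg x p.atoms ∧ p.tv sg = true := by
  obtain ⟨x, hx⟩ := hsol
  set sg : Term × Term → SignType := fun a => SignType.sign (a.1.eval x - a.2.eval x) with hsg
  have h1 : (sys n X p sg).Sat (rx x) (ry x) := (sat_iff hg sg x).2 fun a _ => rfl
  obtain ⟨x', y', h2⟩ := Sgn.stageA (sys n X p sg) (sys_bd hg sg) ⟨_, _, h1⟩
  have h3 := (app_iff hg sg _ _ (asm x' y')).1 (by rw [rx_asm, ry_asm]; exact h2)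
  simp only [Fintype.card_fin] at h3
  exact ⟨sg, asm x' y', h3, (holds_iff x sg p fun a _ => rfl).1 hx⟩

/-- soundness -/
theorem certB (hg : Good n S X p) (sg : Term × Term → SignType) (x : ℕ → ℝ) (R : ℕ)
    (hR : 1 ≤ R) (δ : ℝ) (hδ0 : 0 ≤ δ)
    (hδ : δ * (DBn (Fintype.card (VX n X)) (Fintype.card (VY n X)) (L1 X p).length
        (L2 X p).length S (2 ^ (S + 1)) R : ℕ) < 1) (h : Rob n R δ sg x p.atoms)
    (htv : p.tv sg = true) : ∃ x : ℕ → ℝ, p.Holds x := by
  rw [← app_iff hg] at h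
  obtain ⟨x', y', h2⟩ := Sgn.stageB (sys n X p sg) (sys_bd hg sg) hR δ hδ0
    (by simpa only [Fintype.card_fin] using hδ) ⟨_, _, h⟩
  have h3 : (sys n X p sg).Sat (rx (asm x' y')) (ry (asm x' y')) := by
    rw [rx_asm, ry_asm]; exact h2
  exact ⟨asm x' y', (holds_iff _ sg p ((sat_iff hg sg _).1 h3)).2 htv⟩

theorem card_VX_le : Fintype.card (VX n X) ≤ X.card := by
  rw [← Fintype.card_coe]
  exact Fintype.card_le_of_injective (fun i : VX n X => (⟨i.1, i.2⟩ : X)) (by
    intro i j hij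
    simp only [Subtype.mk.injEq] at hij
    exact Subtype.ext (Fin.ext hij))

theorem card_VX_VY : Fintype.card (VX n X) + Fintype.card (VY n X) = n := by
  have h : Fintype.card (VY n X) = Fintype.card (Fin n) - Fintype.card (VX n X) :=
    Fintype.card_subtype_compl (fun i : Fin n => (i : ℕ) ∈ X)
  have h2 : Fintype.card (VX n X) ≤ Fintype.card (Fin n) := Fintype.card_subtype_le _
  rw [h]
  rw [Fintype.card_fin] at h2 ⊢
  omega

end cert

end ETR

end Pool.Agent.Helper54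
end

section
open Pool.Agent.Helper54.Poly

namespace Pool.Agent.Helper54.ETR

/-- the rational point of a context -/
noncomputable def xx (c : Ctx) : ℕ → ℝ := fun i => match c.1.drop i with
  | [] => 0
  | e :: _ => ((e.2.1.n : ℝ) - e.2.2.n) / 2 ^ c.2.1

def flagAt (c : Ctx) (i : ℕ) : Bool := match c.1.drop i with
  | [] => false
  | e :: _ => e.1

def XX (c : Ctx) : Finset ℕ := (Finset.range c.1.length).filter (fun i => flagAt c i = true)

theorem tadd_sem (c : Ctx) (a b : TRec) (u v : ℝ)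
    (ha : ((a.1.n : ℝ) - a.2.1.n) = u * 2 ^ (c.2.1 * a.2.2.1))
    (hb : ((b.1.n : ℝ) - b.2.1.n) = v * 2 ^ (c.2.1 * b.2.2.1)) :
    (((tadd c a b).1.n : ℝ) - (tadd c a b).2.1.n) = (u + v) * 2 ^ (c.2.1 * (tadd c a b).2.2.1) := by
  simp only [tadd]
  push_cast
  rw [Nat.mul_add, pow_add]
  linear_combination 2 ^ (c.2.1 * b.2.2.1) * ha + 2 ^ (c.2.1 * a.2.2.1) * hb

theorem tswap_sem (c : Ctx) (b : TRec) (v : ℝ)
    (hb : ((b.1.n : ℝ) - b.2.1.n) = v * 2 ^ (c.2.1 * b.2.2.1)) :
    (((tswap b).1.n : ℝ) - (tswap b).2.1.n) = (-v) * 2 ^ (c.2.1 * (tswap b).2.2.1) := by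
  simp only [tswap]
  linear_combination -hb

theorem tmul_sem (c : Ctx) (a b : TRec) (u v : ℝ)
    (ha : ((a.1.n : ℝ) - a.2.1.n) = u * 2 ^ (c.2.1 * a.2.2.1))
    (hb : ((b.1.n : ℝ) - b.2.1.n) = v * 2 ^ (c.2.1 * b.2.2.1)) :
    (((tmul a b).1.n : ℝ) - (tmul a b).2.1.n) = (u * v) * 2 ^ (c.2.1 * (tmul a b).2.2.1) := by
  simp only [tmul]
  push_cast
  rw [Nat.mul_add, pow_add]
  have h : ((a.1.n : ℝ) - a.2.1.n) * ((b.1.n : ℝ) - b.2.1.n) =
    (u * 2 ^ (c.2.1 * a.2.2.1)) * (v * 2 ^ (c.2.1 * b.2.2.1)) := by rw [ha, hb]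
  linear_combination h

theorem tval_sem (c : Ctx) (t : Term) (r : TRec) (h : tval c t = some r) :
    ((r.1.n : ℝ) - r.2.1.n) = t.eval (xx c) * 2 ^ (c.2.1 * r.2.2.1) ∧
      r.2.2.2 = t.deg (XX c) ∧ VarsLt c.1.length t := by
  induction t generalizing r with
  | zero =>
    simp only [tval, Option.some.injEq] at h; subst h
    simp [Term.eval, Term.deg, VarsLt]
  | one =>
    simp only [tval, Option.some.injEq] at h; subst h
    simp [Term.eval, Term.deg, VarsLt]
  | var i =>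
    simp only [tval] at h
    rcases hd : c.1.drop i with _ | ⟨e, l⟩
    · rw [hd] at h; simp at h
    · rw [hd] at h; simp only [Option.some.injEq] at h; subst h
      have hlt : i < c.1.length := by
        by_contra hc
        rw [List.drop_eq_nil_of_le (by omega)] at hd
        simp at hd
      refine ⟨?_, ?_, hlt⟩
      · simp only [Term.eval, xx, hd, mul_one]
        field_simp
      · have h1 : i ∈ XX c ↔ e.1 = true := by
          simp [XX, flagAt, hd, hlt]
        simp only [Term.deg, h1]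
  | add s t ihs iht =>
    simp only [tval] at h
    cases h1 : tval c s with
    | none => rw [h1] at h; simp at h
    | some a =>
      cases h2 : tval c t with
      | none => rw [h1, h2] at h; simp at h
      | some b =>
        rw [h1, h2] at h; simp only [Option.some.injEq] at h; subst h
        obtain ⟨a1, a2, a3⟩ := ihs a h1
        obtain ⟨b1, b2, b3⟩ := iht b h2
        exact ⟨tadd_sem c a b _ _ a1 b1, by simp only [tadd, Term.deg, a2, b2], a3, b3⟩
  | sub s t ihs iht =>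
    simp only [tval] at h
    cases h1 : tval c s with
    | none => rw [h1] at h; simp at h
    | some a =>
      cases h2 : tval c t with
      | none => rw [h1, h2] at h; simp at h
      | some b =>
        rw [h1, h2] at h; simp only [Option.some.injEq] at h; subst h
        obtain ⟨a1, a2, a3⟩ := ihs a h1
        obtain ⟨b1, b2, b3⟩ := iht b h2
        refine ⟨?_, by simp only [tadd, tswap, Term.deg, a2, b2], a3, b3⟩
        have := tadd_sem c a (tswap b) _ _ a1 (tswap_sem c b _ b1)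
        rw [this, Term.eval, sub_eq_add_neg]
  | mul s t ihs iht =>
    simp only [tval] at h
    cases h1 : tval c s with
    | none => rw [h1] at h; simp at h
    | some a =>
      cases h2 : tval c t with
      | none => rw [h1, h2] at h; simp at h
      | some b =>
        rw [h1, h2] at h; simp only [Option.some.injEq] at h; subst h
        obtain ⟨a1, a2, a3⟩ := ihs a h1
        obtain ⟨b1, b2, b3⟩ := iht b h2
        exact ⟨tmul_sem c a b _ _ a1 b1, by simp only [tmul, Term.deg, a2, b2], a3, b3⟩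

theorem tval_ex (c : Ctx) (t : Term) (h : VarsLt c.1.length t) : ∃ r, tval c t = some r := by
  induction t with
  | zero => exact ⟨_, rfl⟩
  | one => exact ⟨_, rfl⟩
  | var i =>
    have h : i < c.1.length := h
    simp only [tval]
    rcases hd : c.1.drop i with _ | ⟨e, l⟩
    · rw [List.drop_eq_nil_iff] at hd; omega
    · exact ⟨_, rfl⟩
  | add s t ihs iht | sub s t ihs iht | mul s t ihs iht =>
    obtain ⟨a, ha⟩ := ihs h.1
    obtain ⟨b, hb⟩ := iht h.2
    simp only [tval, ha, hb]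
    exact ⟨_, rfl⟩

/-- the sign coded by a pair of bits -/
def sgOf : Bool × Bool → SignType
  | (true, _) => -1
  | (false, true) => 1
  | (false, false) => 0

theorem cls0_sound (c : Ctx) (d : TRec) (k : Bool × Bool) (h : cls0 c d = some k) (v : ℝ)
    (hv : ((d.1.n : ℝ) - d.2.1.n) = v * 2 ^ (c.2.1 * d.2.2.1)) (b : Bool) :
    (2:ℝ) ^ c.2.2.1 * ((al (sgOf k) b : ℝ) * v) + be (sgOf k) ≤ 2 ^ c.2.2.1 / 2 ^ c.2.2.2 := by
  set T : ℝ := 2 ^ (c.2.1 * d.2.2.1) with hT
  have hT0 : 0 < T := by positivity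
  have hR0 : (0:ℝ) < 2 ^ c.2.2.1 := by positivity
  have hE0 : (0:ℝ) < 2 ^ c.2.2.2 := by positivity
  have hpos : (0:ℝ) ≤ 2 ^ c.2.2.1 / 2 ^ c.2.2.2 := by positivity
  unfold cls0 at h
  split_ifs at h with h1 h2 h3
  · simp only [Option.some.injEq] at h; subst h
    rw [decide_eq_true_eq] at h1
    have h4 : T + (d.1.n : ℝ) * 2 ^ c.2.2.1 ≤ (d.2.1.n : ℝ) * 2 ^ c.2.2.1 := by
      rw [hT]; exact_mod_cast h1
    have h5 : T * (2 ^ c.2.2.1 * v + 1) ≤ 0 := by
      have : T * (2 ^ c.2.2.1 * v + 1) = T + ((d.1.n : ℝ) - d.2.1.n) * 2 ^ c.2.2.1 := by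
        rw [hv]; ring
      rw [this]; linarith
    have h6 : 2 ^ c.2.2.1 * v + 1 ≤ 0 := by
      by_contra hc; push Not at hc
      have := mul_pos hT0 hc
      linarith
    have e1 : al (sgOf (true, false)) b = 1 := rfl
    have e2 : be (sgOf (true, false)) = 1 := rfl
    rw [e1, e2]; push_cast; linarith
  · simp only [Option.some.injEq] at h; subst h
    rw [decide_eq_true_eq] at h2
    have h4 : T + (d.2.1.n : ℝ) * 2 ^ c.2.2.1 ≤ (d.1.n : ℝ) * 2 ^ c.2.2.1 := by
      rw [hT]; exact_mod_cast h2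
    have h5 : T * (-(2 ^ c.2.2.1 * v) + 1) ≤ 0 := by
      have : T * (-(2 ^ c.2.2.1 * v) + 1) = T - ((d.1.n : ℝ) - d.2.1.n) * 2 ^ c.2.2.1 := by
        rw [hv]; ring
      rw [this]; linarith
    have h6 : -(2 ^ c.2.2.1 * v) + 1 ≤ 0 := by
      by_contra hc; push Not at hc
      have := mul_pos hT0 hc
      linarith
    have e1 : al (sgOf (false, true)) b = -1 := rfl
    have e2 : be (sgOf (false, true)) = 1 := rfl
    rw [e1, e2]; push_cast; linarith
  · simp only [Option.some.injEq] at h; subst h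
    rw [Bool.and_eq_true, decide_eq_true_eq, decide_eq_true_eq] at h3
    have h4 : (d.1.n : ℝ) * 2 ^ c.2.2.2 ≤ (d.2.1.n : ℝ) * 2 ^ c.2.2.2 + T := by
      rw [hT]; exact_mod_cast h3.1
    have h5 : (d.2.1.n : ℝ) * 2 ^ c.2.2.2 ≤ (d.1.n : ℝ) * 2 ^ c.2.2.2 + T := by
      rw [hT]; exact_mod_cast h3.2
    have h6 : T * (v * 2 ^ c.2.2.2) ≤ T * 1 := by
      have : T * (v * 2 ^ c.2.2.2) = ((d.1.n : ℝ) - d.2.1.n) * 2 ^ c.2.2.2 := by
        rw [hv]; ring
      rw [this]; linarith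
    have h7 : T * (-(v * 2 ^ c.2.2.2)) ≤ T * 1 := by
      have : T * (-(v * 2 ^ c.2.2.2)) = -(((d.1.n : ℝ) - d.2.1.n) * 2 ^ c.2.2.2) := by
        rw [hv]; ring
      rw [this]; linarith
    have h8 := le_of_mul_le_mul_left h6 hT0
    have h9 := le_of_mul_le_mul_left h7 hT0
    have e2 : be (sgOf (false, false)) = 0 := rfl
    rw [e2]
    push_cast
    rw [add_zero, le_div_iff₀ hE0]
    cases b
    · have e1 : al (sgOf (false, false)) false = -1 := rfl
      rw [e1]; push_cast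
      have : 2 ^ c.2.2.1 * (-1 * v) * 2 ^ c.2.2.2 = 2 ^ c.2.2.1 * (-(v * 2 ^ c.2.2.2)) := by ring
      rw [this]; nlinarith
    · have e1 : al (sgOf (false, false)) true = 1 := rfl
      rw [e1]; push_cast
      have : 2 ^ c.2.2.1 * (1 * v) * 2 ^ c.2.2.2 = 2 ^ c.2.2.1 * (v * 2 ^ c.2.2.2) := by ring
      rw [this]; nlinarith

theorem cls0_complete (c : Ctx) (d : TRec) (v : ℝ)
    (hv : ((d.1.n : ℝ) - d.2.1.n) = v * 2 ^ (c.2.1 * d.2.2.1)) (s : SignType)
    (hre : c.2.2.1 + 1 ≤ c.2.2.2)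
    (hneg : s = -1 → 2 ^ c.2.2.1 * v ≤ -1) (hpos : s = 1 → 1 ≤ 2 ^ c.2.2.1 * v)
    (hzero : s = 0 → |v| * 2 ^ c.2.2.2 ≤ 1) :
    ∃ k, cls0 c d = some k ∧ sgOf k = s := by
  set T : ℝ := 2 ^ (c.2.1 * d.2.2.1) with hT
  have hT0 : 0 < T := by positivity
  have hR0 : (0:ℝ) < 2 ^ c.2.2.1 := by positivity
  have hE0 : (0:ℝ) < 2 ^ c.2.2.2 := by positivity
  have i1 : (2 ^ (c.2.1 * d.2.2.1) + d.1.n * 2 ^ c.2.2.1 ≤ d.2.1.n * 2 ^ c.2.2.1) ↔
      2 ^ c.2.2.1 * v ≤ -1 := by
    have h0 : (2 ^ (c.2.1 * d.2.2.1) + d.1.n * 2 ^ c.2.2.1 ≤ d.2.1.n * 2 ^ c.2.2.1) ↔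
        T + (d.1.n : ℝ) * 2 ^ c.2.2.1 ≤ (d.2.1.n : ℝ) * 2 ^ c.2.2.1 := by
      rw [hT]; exact_mod_cast Iff.rfl
    rw [h0]
    have h1 : (d.1.n : ℝ) * 2 ^ c.2.2.1 = (d.2.1.n : ℝ) * 2 ^ c.2.2.1 +
        T * (2 ^ c.2.2.1 * v) := by
      have : (d.1.n : ℝ) = d.2.1.n + v * T := by linarith
      rw [this]; ring
    rw [h1]
    constructor
    · intro h
      by_contra hc; push Not at hc
      nlinarith
    · intro h; nlinarith
  have i2 : (2 ^ (c.2.1 * d.2.2.1) + d.2.1.n * 2 ^ c.2.2.1 ≤ d.1.n * 2 ^ c.2.2.1) ↔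
      1 ≤ 2 ^ c.2.2.1 * v := by
    have h0 : (2 ^ (c.2.1 * d.2.2.1) + d.2.1.n * 2 ^ c.2.2.1 ≤ d.1.n * 2 ^ c.2.2.1) ↔
        T + (d.2.1.n : ℝ) * 2 ^ c.2.2.1 ≤ (d.1.n : ℝ) * 2 ^ c.2.2.1 := by
      rw [hT]; exact_mod_cast Iff.rfl
    rw [h0]
    have h1 : (d.1.n : ℝ) * 2 ^ c.2.2.1 = (d.2.1.n : ℝ) * 2 ^ c.2.2.1 +
        T * (2 ^ c.2.2.1 * v) := by
      have : (d.1.n : ℝ) = d.2.1.n + v * T := by linarith
      rw [this]; ring
    rw [h1]
    constructor
    · intro h
      by_contra hc; push Not at hc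
      nlinarith
    · intro h; nlinarith
  unfold cls0
  cases s with
  | neg =>
    refine ⟨(true, false), ?_, rfl⟩
    rw [if_pos (by simpa using i1.2 (hneg rfl))]
  | pos =>
    have h1 := hpos rfl
    refine ⟨(false, true), ?_, rfl⟩
    rw [if_neg (by
      rw [decide_eq_true_eq, i1]; intro h; linarith), if_pos (by simpa using i2.2 h1)]
  | zero =>
    have h1 := hzero rfl
    have h2 : |v| * 2 ^ c.2.2.1 ≤ 1 / 2 := by
      have h3 : (2:ℝ) ^ (c.2.2.1 + 1) ≤ 2 ^ c.2.2.2 := pow_le_pow_right₀ (by norm_num) hre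
      have h4 : |v| * 2 ^ (c.2.2.1 + 1) ≤ 1 :=
        (mul_le_mul_of_nonneg_left h3 (abs_nonneg v)).trans h1
      rw [pow_succ] at h4
      linarith
    have h5 : |2 ^ c.2.2.1 * v| ≤ 1 / 2 := by
      rw [abs_mul, abs_of_pos hR0]; linarith
    have h6 := abs_le.1 h5
    have h7 : |v * 2 ^ c.2.2.2| ≤ 1 := by rw [abs_mul, abs_of_pos hE0]; exact h1
    have h8 := abs_le.1 h7
    have hp : (d.1.n : ℝ) * 2 ^ c.2.2.2 = (d.2.1.n : ℝ) * 2 ^ c.2.2.2 +
        T * (v * 2 ^ c.2.2.2) := by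
      have : (d.1.n : ℝ) = d.2.1.n + v * T := by linarith
      rw [this]; ring
    refine ⟨(false, false), ?_, rfl⟩
    rw [if_neg (by rw [decide_eq_true_eq, i1]; intro h; linarith),
      if_neg (by rw [decide_eq_true_eq, i2]; intro h; linarith), if_pos]
    rw [Bool.and_eq_true, decide_eq_true_eq, decide_eq_true_eq]
    constructor
    · have : (d.1.n : ℝ) * 2 ^ c.2.2.2 ≤ (d.2.1.n : ℝ) * 2 ^ c.2.2.2 + T := by
        rw [hp]; nlinarith
      rw [hT] at this; exact_mod_cast this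
    · have : (d.2.1.n : ℝ) * 2 ^ c.2.2.2 ≤ (d.1.n : ℝ) * 2 ^ c.2.2.2 + T := by
        rw [hp]; nlinarith
      rw [hT] at this; exact_mod_cast this

/-- classification of an atom -/
def kcls (c : Ctx) (s t : Term) : Option (Bool × Bool) :=
  match tval c s, tval c t with
  | some a, some b => cls0 c (tadd c a (tswap b))
  | _, _ => none

def sgc (c : Ctx) (a : Term × Term) : SignType :=
  match kcls c a.1 a.2 with
  | some k => sgOf k
  | none => 0

theorem kcls_dec {c : Ctx} {s t : Term} {k : Bool × Bool} (h : kcls c s t = some k) :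
    ∃ a b, tval c s = some a ∧ tval c t = some b ∧ cls0 c (tadd c a (tswap b)) = some k := by
  unfold kcls at h
  cases h1 : tval c s with
  | none => rw [h1] at h; simp at h
  | some a =>
    cases h2 : tval c t with
    | none => rw [h1, h2] at h; simp at h
    | some b => rw [h1, h2] at h; exact ⟨a, b, rfl, rfl, h⟩

theorem aval_sem {g : Bool × Bool → Bool} {c : Ctx} {s t : Term} {r : FRec}
    (h : aval g c s t = some r) : ∃ k, kcls c s t = some k ∧ atomDeg (XX c) (s, t) ≤ 2 ∧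
      r = (g k, if 2 ≤ atomDeg (XX c) (s, t) then 1 else 0) := by
  unfold aval at h
  cases h1 : tval c s with
  | none => rw [h1] at h; simp at h
  | some a =>
    cases h2 : tval c t with
    | none => rw [h1, h2] at h; simp at h
    | some b =>
      rw [h1, h2] at h
      simp only [atomV] at h
      have e1 := (tval_sem c s a h1).2.1
      have e2 := (tval_sem c t b h2).2.1
      cases h3 : cls0 c (tadd c a (tswap b)) with
      | none => rw [h3] at h; simp at h
      | some k =>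
        rw [h3] at h
        simp only [e1, e2] at h
        refine ⟨k, by simp [kcls, h1, h2, h3], ?_⟩
        unfold atomDeg
        simp only
        by_cases h4 : max (s.deg (XX c)) (t.deg (XX c)) ≤ 2
        · rw [if_pos (by simpa using h4)] at h
          simp only [Option.some.injEq, decide_eq_true_eq] at h
          exact ⟨h4, h.symm⟩
        · rw [if_neg (by simpa using h4)] at h
          simp at h

theorem aval_ex {g : Bool × Bool → Bool} {c : Ctx} {s t : Term} {k : Bool × Bool}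
    (h : kcls c s t = some k) (hd : atomDeg (XX c) (s, t) ≤ 2) : ∃ r, aval g c s t = some r := by
  obtain ⟨a, b, h1, h2, h3⟩ := kcls_dec h
  have e1 := (tval_sem c s a h1).2.1
  have e2 := (tval_sem c t b h2).2.1
  unfold atomDeg at hd
  simp only at hd
  simp only [aval, h1, h2, atomV, h3, e1, e2]
  rw [if_pos (by simpa using hd)]
  exact ⟨_, rfl⟩

theorem cls0_valid {c : Ctx} {d : TRec} {k : Bool × Bool} (h : cls0 c d = some k) :
    k ≠ (true, true) := by
  unfold cls0 at h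
  split_ifs at h <;> simp only [Option.some.injEq] at h <;> subst h <;> decide

theorem g_tv (k : Bool × Bool) (hk : k ≠ (true, true)) :
    gLt k = decide (sgOf k = -1) ∧ gLe k = decide (sgOf k ≠ 1) ∧ gEq k = decide (sgOf k = 0) ∧
    gGe k = decide (sgOf k ≠ -1) ∧ gGt k = decide (sgOf k = 1) := by
  obtain ⟨a, b⟩ := k
  cases a <;> cases b <;> simp_all [gLt, gLe, gEq, gGe, gGt, sgOf] <;> decide

theorem fval_sem (c : Ctx) (p : Form) (r : FRec) (h : fval c p = some r) :
    (∀ a ∈ p.atoms, (∃ k, kcls c a.1 a.2 = some k) ∧ atomDeg (XX c) a ≤ 2) ∧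
      r.1 = p.tv (sgc c) ∧ r.2 = (L2 (XX c) p).length := by
  have atomCase : ∀ (g : Bool × Bool → Bool) (s t : Term) (r : FRec), aval g c s t = some r →
      (∀ a ∈ [(s, t)], (∃ k, kcls c a.1 a.2 = some k) ∧ atomDeg (XX c) a ≤ 2) ∧
      (∃ k, k ≠ (true, true) ∧ r.1 = g k ∧ sgc c (s, t) = sgOf k) ∧
      r.2 = ([(s, t)].filter fun a => !decide (atomDeg (XX c) a ≤ 1)).length := by
    intro g s t r h
    obtain ⟨k, h1, h2, h3⟩ := aval_sem h
    refine ⟨?_, ⟨k, ?_, ?_, ?_⟩, ?_⟩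
    · intro a ha
      rw [List.mem_singleton] at ha
      subst ha
      exact ⟨⟨k, h1⟩, h2⟩
    · obtain ⟨_, _, _, _, h4⟩ := kcls_dec h1
      exact cls0_valid h4
    · rw [h3]
    · simp [sgc, h1]
    · rw [h3]
      simp only [List.filter]
      by_cases h4 : atomDeg (XX c) (s, t) ≤ 1
      · have : ¬ 2 ≤ atomDeg (XX c) (s, t) := by omega
        simp [h4, this]
      · have : 2 ≤ atomDeg (XX c) (s, t) := by omega
        simp [h4, this]
  induction p generalizing r with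
  | lt s t =>
    obtain ⟨h1, ⟨k, h2, h3, h4⟩, h5⟩ := atomCase gLt s t r h
    exact ⟨h1, by rw [h3, (g_tv k h2).1]; simp [Form.tv, h4], h5⟩
  | le s t =>
    obtain ⟨h1, ⟨k, h2, h3, h4⟩, h5⟩ := atomCase gLe s t r h
    exact ⟨h1, by rw [h3, (g_tv k h2).2.1]; simp [Form.tv, h4], h5⟩
  | eq s t =>
    obtain ⟨h1, ⟨k, h2, h3, h4⟩, h5⟩ := atomCase gEq s t r h
    exact ⟨h1, by rw [h3, (g_tv k h2).2.2.1]; simp [Form.tv, h4], h5⟩
  | ge s t =>
    obtain ⟨h1, ⟨k, h2, h3, h4⟩, h5⟩ := atomCase gGe s t r h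
    exact ⟨h1, by rw [h3, (g_tv k h2).2.2.2.1]; simp [Form.tv, h4], h5⟩
  | gt s t =>
    obtain ⟨h1, ⟨k, h2, h3, h4⟩, h5⟩ := atomCase gGt s t r h
    exact ⟨h1, by rw [h3, (g_tv k h2).2.2.2.2]; simp [Form.tv, h4], h5⟩
  | and p q ihp ihq =>
    simp only [fval] at h
    cases h1 : fval c p with
    | none => rw [h1] at h; simp at h
    | some a =>
      cases h2 : fval c q with
      | none => rw [h1, h2] at h; simp at h
      | some b =>
        rw [h1, h2] at h; simp only [Option.some.injEq] at h; subst h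
        obtain ⟨a1, a2, a3⟩ := ihp a h1
        obtain ⟨b1, b2, b3⟩ := ihq b h2
        refine ⟨?_, by simp [Form.tv, a2, b2], ?_⟩
        · intro x hx
          rcases List.mem_append.1 hx with hx | hx
          exacts [a1 x hx, b1 x hx]
        · simp only [L2, Form.atoms, List.filter_append, List.length_append] at a3 b3 ⊢
          rw [a3, b3]
  | or p q ihp ihq =>
    simp only [fval] at h
    cases h1 : fval c p with
    | none => rw [h1] at h; simp at h
    | some a =>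
      cases h2 : fval c q with
      | none => rw [h1, h2] at h; simp at h
      | some b =>
        rw [h1, h2] at h; simp only [Option.some.injEq] at h; subst h
        obtain ⟨a1, a2, a3⟩ := ihp a h1
        obtain ⟨b1, b2, b3⟩ := ihq b h2
        refine ⟨?_, by simp [Form.tv, a2, b2], ?_⟩
        · intro x hx
          rcases List.mem_append.1 hx with hx | hx
          exacts [a1 x hx, b1 x hx]
        · simp only [L2, Form.atoms, List.filter_append, List.length_append] at a3 b3 ⊢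
          rw [a3, b3]
  | not p ihp =>
    simp only [fval] at h
    cases h1 : fval c p with
    | none => rw [h1] at h; simp at h
    | some a =>
      rw [h1] at h; simp only [Option.some.injEq] at h; subst h
      obtain ⟨a1, a2, a3⟩ := ihp a h1
      exact ⟨a1, by simp [Form.tv, a2], a3⟩

theorem fval_ex (c : Ctx) (p : Form)
    (h : ∀ a ∈ p.atoms, (∃ k, kcls c a.1 a.2 = some k) ∧ atomDeg (XX c) a ≤ 2) :
    ∃ r, fval c p = some r := by
  induction p with
  | lt s t | le s t | eq s t | ge s t | gt s t =>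
    obtain ⟨⟨k, hk⟩, hd⟩ := h (s, t) (by simp [Form.atoms])
    exact aval_ex hk hd
  | and p q ihp ihq | or p q ihp ihq =>
    obtain ⟨a, ha⟩ := ihp fun x hx => h x (by simp [Form.atoms, hx])
    obtain ⟨b, hb⟩ := ihq fun x hx => h x (by simp [Form.atoms, hx])
    simp only [fval, ha, hb]
    exact ⟨_, rfl⟩
  | not p ihp =>
    obtain ⟨a, ha⟩ := ihp fun x hx => h x (by simpa [Form.atoms] using hx)
    simp only [fval, ha]
    exact ⟨_, rfl⟩

end Pool.Agent.Helper54.ETR
end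

section
open Pool.Agent.Helper54.Poly

namespace Pool.Agent.Helper54.ETR

/-! ### sizes of atoms -/

theorem atoms_len (p : Form) : p.atoms.length ≤ p.toks.length := by
  induction p with
  | lt s t | le s t | eq s t | ge s t | gt s t =>
    simp only [Form.atoms, Form.toks, List.length_cons, List.length_nil]; omega
  | and p q ihp ihq | or p q ihp ihq =>
    simp only [Form.atoms, Form.toks, List.length_cons, List.length_append]; omega
  | not p ihp => simp only [Form.atoms, Form.toks, List.length_cons]; omega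

theorem atoms_tsz (p : Form) : ∀ a ∈ p.atoms, tsz a.1 ≤ p.toks.length ∧
    tsz a.2 ≤ p.toks.length := by
  induction p with
  | lt s t | le s t | eq s t | ge s t | gt s t =>
    intro a ha
    simp only [Form.atoms, List.mem_singleton] at ha
    subst ha
    simp only [Form.toks, List.length_cons, List.length_append, tsz]
    omega
  | and p q ihp ihq | or p q ihp ihq =>
    intro a ha
    simp only [Form.atoms, List.mem_append] at ha
    simp only [Form.toks, List.length_cons, List.length_append]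
    rcases ha with ha | ha
    · have := ihp a ha; omega
    · have := ihq a ha; omega
  | not p ihp =>
    intro a ha
    have := ihp a ha
    simp only [Form.toks, List.length_cons]; omega

theorem code_len (p : Form) : p.code.length = 4 * p.toks.length := by
  unfold Form.code
  induction p.toks with
  | nil => rfl
  | cons t l ih => rw [List.flatMap_cons, List.length_append, bits_length, ih, List.length_cons]; ring

theorem toks_le_code (p : Form) : p.toks.length ≤ p.code.length := by rw [code_len]; omega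

theorem good_of (p : Form) (n : ℕ) (X : Finset ℕ) (N : ℕ) (hN : p.toks.length ≤ N)
    (hd : ∀ a ∈ p.atoms, atomDeg X a ≤ 2)
    (hv : ∀ a ∈ p.atoms, VarsLt n a.1 ∧ VarsLt n a.2) : Good n N X p :=
  ⟨hd, fun a ha => (hv a ha).1, fun a ha => (hv a ha).2, fun a ha => by
    have := atoms_tsz p a ha; omega⟩

theorem L1_len (X : Finset ℕ) (p : Form) : (L1 X p).length ≤ p.toks.length :=
  (List.length_filter_le _ _).trans (atoms_len p)

theorem L2_len (X : Finset ℕ) (p : Form) : (L2 X p).length ≤ p.toks.length :=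
  (List.length_filter_le _ _).trans (atoms_len p)

theorem L2_count (X : Finset ℕ) (p : Form) (hd : ∀ a ∈ p.atoms, atomDeg X a ≤ 2) :
    (L2 X p).length = p.atoms.countP (fun a => decide (atomDeg X a = 2)) := by
  unfold L2
  rw [← List.countP_eq_length_filter]
  apply List.countP_congr
  intro a ha
  have := hd a ha
  simp only [Bool.not_eq_true', decide_eq_false_iff_not, decide_eq_true_eq]
  omega

theorem deg_congr {X X' : Finset ℕ} {n : ℕ} (h : ∀ i < n, i ∈ X ↔ i ∈ X') (t : Term)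
    (ht : VarsLt n t) : t.deg X = t.deg X' := by
  induction t with
  | zero => rfl
  | one => rfl
  | var i =>
    have := h i ht
    simp only [Term.deg, this]
  | add s t ihs iht | sub s t ihs iht | mul s t ihs iht =>
    simp only [Term.deg, ihs ht.1, iht ht.2]

theorem tv_congr {sg sg' : Term × Term → SignType} (p : Form)
    (h : ∀ a ∈ p.atoms, sg a = sg' a) : p.tv sg = p.tv sg' := by
  induction p with
  | lt s t | le s t | eq s t | ge s t | gt s t =>
    simp only [Form.tv, h (s, t) (by simp [Form.atoms])]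
  | and p q ihp ihq | or p q ihp ihq =>
    simp only [Form.tv]
    rw [ihp fun a ha => h a (by simp [Form.atoms, ha]),
      ihq fun a ha => h a (by simp [Form.atoms, ha])]
  | not p ihp =>
    simp only [Form.tv]
    rw [ihp fun a ha => h a (by simpa [Form.atoms] using ha)]

/-! ### perturbation of terms -/

theorem lip (x z : ℕ → ℝ) (n : ℕ) (B η : ℝ) (hB : 2 ≤ B) (hη : 0 ≤ η)
    (hx : ∀ i < n, |x i| ≤ B) (hz : ∀ i < n, |z i| ≤ B) (hxz : ∀ i < n, |x i - z i| ≤ η)
    (t : Term) (ht : VarsLt n t) :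
    |t.eval x| ≤ B ^ tsz t ∧ |t.eval z| ≤ B ^ tsz t ∧ |t.eval x - t.eval z| ≤ η * B ^ tsz t := by
  have hB0 : (0:ℝ) ≤ B := by linarith
  have hB1 : (1:ℝ) ≤ B := by linarith
  have hone : ∀ k : ℕ, (1:ℝ) ≤ B ^ k := fun k => one_le_pow₀ hB1
  have hmono : ∀ {a b : ℕ}, a ≤ b → B ^ a ≤ B ^ b := fun h => pow_le_pow_right₀ hB1 h
  induction t with
  | zero =>
    simp only [Term.eval, abs_zero, sub_self]
    exact ⟨by positivity, by positivity, by positivity⟩
  | one =>
    simp only [Term.eval, abs_one, sub_self, abs_zero]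
    exact ⟨hone _, hone _, by positivity⟩
  | var i =>
    have hi : i < n := ht
    have h1 : B ≤ B ^ tsz (Term.var i) := by
      calc B = B ^ 1 := (pow_one B).symm
        _ ≤ _ := hmono (toks_pos _)
    refine ⟨(hx i hi).trans h1, (hz i hi).trans h1, (hxz i hi).trans ?_⟩
    have := hone (tsz (Term.var i))
    nlinarith
  | add s t ihs iht =>
    obtain ⟨s1, s2, s3⟩ := ihs ht.1
    obtain ⟨t1, t2, t3⟩ := iht ht.2
    have e : tsz (Term.add s t) = tsz s + tsz t + 1 := by simp [tsz, Term.toks]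
    have h1 : B ^ tsz s ≤ B ^ (tsz s + tsz t) := hmono (by omega)
    have h2 : B ^ tsz t ≤ B ^ (tsz s + tsz t) := hmono (by omega)
    have h3 : B ^ tsz s + B ^ tsz t ≤ B ^ (tsz s + tsz t + 1) := by
      rw [pow_succ]
      have : (0:ℝ) ≤ B ^ (tsz s + tsz t) := by positivity
      nlinarith
    rw [e]
    refine ⟨?_, ?_, ?_⟩
    · exact (abs_add_le _ _).trans (by linarith)
    · exact (abs_add_le _ _).trans (by linarith)
    · have e2 : (Term.add s t).eval x - (Term.add s t).eval z =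
        (s.eval x - s.eval z) + (t.eval x - t.eval z) := by simp only [Term.eval]; ring
      rw [e2]
      refine (abs_add_le _ _).trans ?_
      have := mul_le_mul_of_nonneg_left h3 hη
      linarith
  | sub s t ihs iht =>
    obtain ⟨s1, s2, s3⟩ := ihs ht.1
    obtain ⟨t1, t2, t3⟩ := iht ht.2
    have e : tsz (Term.sub s t) = tsz s + tsz t + 1 := by simp [tsz, Term.toks]
    have h1 : B ^ tsz s ≤ B ^ (tsz s + tsz t) := hmono (by omega)
    have h2 : B ^ tsz t ≤ B ^ (tsz s + tsz t) := hmono (by omega)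
    have h3 : B ^ tsz s + B ^ tsz t ≤ B ^ (tsz s + tsz t + 1) := by
      rw [pow_succ]
      have : (0:ℝ) ≤ B ^ (tsz s + tsz t) := by positivity
      nlinarith
    rw [e]
    refine ⟨?_, ?_, ?_⟩
    · exact (abs_sub _ _).trans (by linarith)
    · exact (abs_sub _ _).trans (by linarith)
    · have e2 : (Term.sub s t).eval x - (Term.sub s t).eval z =
        (s.eval x - s.eval z) - (t.eval x - t.eval z) := by simp only [Term.eval]; ring
      rw [e2]
      refine (abs_sub _ _).trans ?_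
      have := mul_le_mul_of_nonneg_left h3 hη
      linarith
  | mul s t ihs iht =>
    obtain ⟨s1, s2, s3⟩ := ihs ht.1
    obtain ⟨t1, t2, t3⟩ := iht ht.2
    have e : tsz (Term.mul s t) = tsz s + tsz t + 1 := by simp [tsz, Term.toks]
    have hs0 : (0:ℝ) ≤ B ^ tsz s := by positivity
    have ht0 : (0:ℝ) ≤ B ^ tsz t := by positivity
    have hst : (0:ℝ) ≤ B ^ (tsz s + tsz t) := by positivity
    have h3 : 2 * B ^ (tsz s + tsz t) ≤ B ^ (tsz s + tsz t + 1) := by
      rw [pow_succ]; nlinarith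
    have h4 : B ^ tsz s * B ^ tsz t = B ^ (tsz s + tsz t) := (pow_add _ _ _).symm
    rw [e]
    refine ⟨?_, ?_, ?_⟩
    · simp only [Term.eval]; rw [abs_mul]
      have := mul_le_mul s1 t1 (abs_nonneg _) hs0
      linarith
    · simp only [Term.eval]; rw [abs_mul]
      have := mul_le_mul s2 t2 (abs_nonneg _) hs0
      linarith
    · have e2 : (Term.mul s t).eval x - (Term.mul s t).eval z =
        s.eval x * (t.eval x - t.eval z) + (s.eval x - s.eval z) * t.eval z := by
          simp only [Term.eval]; ring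
      rw [e2]
      refine (abs_add_le _ _).trans ?_
      rw [abs_mul, abs_mul]
      have a1 := mul_le_mul s1 t3 (abs_nonneg _) hs0
      have a2 := mul_le_mul s3 t2 (abs_nonneg _) (by positivity)
      have a3 : B ^ tsz s * (η * B ^ tsz t) = η * B ^ (tsz s + tsz t) := by rw [← h4]; ring
      have a4 : η * B ^ tsz s * B ^ tsz t = η * B ^ (tsz s + tsz t) := by rw [← h4]; ring
      have := mul_le_mul_of_nonneg_left h3 hη
      rw [a3] at a1
      rw [a4] at a2
      linarith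

/-! ### robust points are certified -/

theorem tdiff_sem (c : Ctx) (s t : Term) (a b : TRec) (ha : tval c s = some a)
    (hb : tval c t = some b) :
    (((tadd c a (tswap b)).1.n : ℝ) - (tadd c a (tswap b)).2.1.n) =
      (s.eval (xx c) - t.eval (xx c)) * 2 ^ (c.2.1 * (tadd c a (tswap b)).2.2.1) := by
  have h1 := (tval_sem c s a ha).1
  have h2 := (tval_sem c t b hb).1
  have := tadd_sem c a (tswap b) _ _ h1 (tswap_sem c b _ h2)
  rw [this, sub_eq_add_neg]

/-- soundness of the certificate -/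
theorem cert_sound (c : Ctx) (k m N e : ℕ) (p : Form) (r : FRec) (hN : p.toks.length ≤ N)
    (hlen : c.1.length ≤ N) (hX : (XX c).card ≤ k) (hr : c.2.2.1 = rr k m N)
    (he : c.2.2.2 = rr k m N + e) (hee : e = ee k m N)
    (hent : ∀ en ∈ c.1, en.2.1.n ≤ 2 ^ (rr k m N + c.2.1) ∧ en.2.2.n ≤ 2 ^ (rr k m N + c.2.1))
    (hf : fval c p = some r) (hm : r.2 ≤ m) (htv : r.1 = true) :
    p.Frag k m ∧ ∃ x : ℕ → ℝ, p.Holds x := by
  obtain ⟨h1, h2, h3⟩ := fval_sem c p r hf
  have hd : ∀ a ∈ p.atoms, atomDeg (XX c) a ≤ 2 := fun a ha => (h1 a ha).2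
  have hc2 := L2_count (XX c) p hd
  refine ⟨⟨XX c, hX, hd, by rw [← hc2, ← h3]; exact hm⟩, ?_⟩
  have hv : ∀ a ∈ p.atoms, VarsLt c.1.length a.1 ∧ VarsLt c.1.length a.2 := by
    intro a ha
    obtain ⟨⟨kk, hk⟩, _⟩ := h1 a ha
    obtain ⟨u, v, hu, hv, _⟩ := kcls_dec hk
    exact ⟨(tval_sem c _ _ hu).2.2, (tval_sem c _ _ hv).2.2⟩
  have hg := good_of p c.1.length (XX c) N hN hd hv
  set R : ℕ := 2 ^ rr k m N with hR
  have hRr : ((R : ℕ) : ℝ) = 2 ^ rr k m N := by rw [hR]; push_cast; rfl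
  set δ : ℝ := 2 ^ c.2.2.1 / 2 ^ c.2.2.2 with hδ
  have hδe : δ = 1 / 2 ^ ee k m N := by
    rw [hδ, hr, he, hee, pow_add]
    field_simp
  have hδ0 : 0 ≤ δ := by rw [hδe]; positivity
  refine certB hg (sgc c) (xx c) R Nat.one_le_two_pow δ hδ0 ?_ ?_ (by rw [← h2]; exact htv)
  · have hcv := card_VX_VY (n := c.1.length) (X := XX c)
    have hcx := (card_VX_le (n := c.1.length) (X := XX c)).trans hX
    have hD := DBn_le (k := k) (m := m) (N := N) (x := Fintype.card (VX c.1.length (XX c)))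
      (y := Fintype.card (VY c.1.length (XX c))) (a1 := (L1 (XX c) p).length)
      (a2 := (L2 (XX c) p).length) (S := N) hcx (by omega)
      ((L1_len _ _).trans hN) (by rw [← h3]; exact hm) ((L2_len _ _).trans hN) le_rfl
    have hD' : 2 * (DBn (Fintype.card (VX c.1.length (XX c)))
      (Fintype.card (VY c.1.length (XX c))) (L1 (XX c) p).length (L2 (XX c) p).length N
        (2 ^ (N + 1)) R : ℝ) ≤ 2 ^ ee k m N := by exact_mod_cast hD
    rw [hδe]
    have hpos : (0:ℝ) < 2 ^ ee k m N := by positivity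
    rw [one_div, inv_mul_lt_iff₀ hpos]
    linarith
  · constructor
    · intro a ha b
      obtain ⟨⟨kk, hk⟩, _⟩ := h1 a ha
      obtain ⟨u, v, hu, hv, hcl⟩ := kcls_dec hk
      have h4 := cls0_sound c _ kk hcl _ (tdiff_sem c _ _ _ _ hu hv) b
      have h5 : sgc c a = sgOf kk := by simp only [sgc, hk]
      rw [h5, hRr, ← hr]
      exact h4
    · intro i hi
      rcases hdi : c.1.drop i with _ | ⟨en, l⟩
      · rw [List.drop_eq_nil_iff] at hdi; omega
      · have hmem : en ∈ c.1 := by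
          apply List.mem_of_mem_drop (i := i)
          rw [hdi]; exact List.mem_cons_self
        obtain ⟨e1, e2⟩ := hent en hmem
        have e1' : (en.2.1.n : ℝ) ≤ 2 ^ (rr k m N + c.2.1) := by exact_mod_cast e1
        have e2' : (en.2.2.n : ℝ) ≤ 2 ^ (rr k m N + c.2.1) := by exact_mod_cast e2
        have hxx : xx c i = ((en.2.1.n : ℝ) - en.2.2.n) / 2 ^ c.2.1 := by
          simp only [xx, hdi]
        have h6 : |(en.2.1.n : ℝ) - en.2.2.n| ≤ 2 ^ (rr k m N + c.2.1) := by
          rw [abs_le]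
          have : (0:ℝ) ≤ en.2.1.n := Nat.cast_nonneg _
          have : (0:ℝ) ≤ en.2.2.n := Nat.cast_nonneg _
          constructor <;> linarith
        have hpos : (0:ℝ) < 2 ^ c.2.1 := by positivity
        have h7 : |xx c i| ≤ 2 ^ rr k m N := by
          rw [hxx, abs_div, abs_of_pos hpos, div_le_iff₀ hpos, ← pow_add]
          exact h6
        rw [hRr]; linarith

end Pool.Agent.Helper54.ETR
end
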