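import Pool.Agent.Helper54.Quad5

section
namespace Pool.Agent.Helper54

open Finset Filter Topology

section generic

variable {P : Type}

theorem ts0 {α : Type*} {l : Filter α} {f : α → ℝ} {g : α → P → ℝ} {t : ℝ} {π : P → ℝ}
    (F : ℝ → (P → ℝ) → ℝ) (hF : Continuous (fun p : ℝ × (P → ℝ) => F p.1 p.2))
    (hf : Tendsto f l (𝓝 t)) (hg : Tendsto g l (𝓝 π)) :
    Tendsto (fun a => F (f a) (g a)) l (𝓝 (F t π)) := by
  have hc := hF.tendsto (t, π)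
  have ht : Tendsto (fun a => ((f a, g a) : ℝ × (P → ℝ))) l (𝓝 (t, π)) :=
    hf.prodMk_nhds hg
  exact hc.comp ht

theorem tendsto_evS1 {α : Type*} {l : Filter α} {f : α → ℝ} {g : α → P → ℝ} {t : ℝ} {π : P → ℝ}
    (hf : Tendsto f l (𝓝 t)) (hg : Tendsto g l (𝓝 π)) (x : S1 P) :
    Tendsto (fun a => evS1 (f a) (g a) x) l (𝓝 (evS1 t π x)) :=
  ts0 (fun t π => evS1 t π x) (evS1_continuous x) hf hg

theorem tendsto_evS2 {α : Type*} {l : Filter α} {f : α → ℝ} {g : α → P → ℝ} {t : ℝ} {π : P → ℝ}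
    (ε : ℝ) (hf : Tendsto f l (𝓝 t)) (hg : Tendsto g l (𝓝 π)) (x : S2 P) :
    Tendsto (fun a => evS2 (f a) ε (g a) x) l (𝓝 (evS2 t ε π x)) :=
  ts0 (fun t π => evS2 t ε π x) (evS2_continuous ε x) hf hg

theorem pass_eps (A : S2 P) (ts : ℝ) (π : P → ℝ)
    (hex : ∀ δ > 0, ∃ ε0 > 0, ∀ ε, 0 < ε → ε < ε0 → ∃ t : ℝ, |t - ts| < δ ∧
      evS2 t ε π A = 0) : evS1 ts π A.trailingCoeff = 0 := by
  have hfun : ∃ tf : ℝ → ℝ, Tendsto tf (𝓝[>] 0) (𝓝 ts) ∧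
      ∀ᶠ ε in 𝓝[>] (0:ℝ), evS2 (tf ε) ε π A = 0 := by
    let good : ℝ → ℝ → Prop := fun ε t => evS2 t ε π A = 0
    let inf' : ℝ → ℝ := fun ε => sInf {x | ∃ t, good ε t ∧ x = |t - ts|}
    have hchoice : ∀ ε : ℝ, ∃ t : ℝ, (∃ t', good ε t') → 0 < ε →
        (good ε t ∧ |t - ts| ≤ inf' ε + ε) := by
      intro ε
      by_cases hε : (∃ t', good ε t') ∧ 0 < ε
      · have hne : {x | ∃ t, good ε t ∧ x = |t - ts|}.Nonempty := by
          obtain ⟨⟨t', ht'⟩, _⟩ := hε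
          exact ⟨_, t', ht', rfl⟩
        obtain ⟨x, ⟨t, ht, rfl⟩, hxt⟩ := Real.lt_sInf_add_pos hne hε.2
        exact ⟨t, fun _ _ => ⟨ht, hxt.le⟩⟩
      · exact ⟨0, fun h1 h2 => absurd ⟨h1, h2⟩ hε⟩
    choose tf htf using hchoice
    refine ⟨tf, ?_, ?_⟩
    · rw [Metric.tendsto_nhds]
      intro e he
      obtain ⟨ε0, hε0, h⟩ := hex (e / 2) (half_pos he)
      have hev : ∀ᶠ ε in 𝓝[>] (0:ℝ), ε ∈ Set.Ioo 0 (min ε0 (e / 2)) :=
        Ioo_mem_nhdsGT (lt_min hε0 (half_pos he))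
      filter_upwards [hev] with ε hε
      obtain ⟨t', ht'1, ht'2⟩ := h ε hε.1 (hε.2.trans_le (min_le_left _ _))
      have h1 := htf ε ⟨t', ht'2⟩ hε.1
      have h2 : inf' ε ≤ |t' - ts| := by
        apply csInf_le
        · exact ⟨0, by rintro x ⟨t, _, rfl⟩; exact abs_nonneg _⟩
        · exact ⟨t', ht'2, rfl⟩
      rw [Real.dist_eq]
      have h3 := hε.2.trans_le (min_le_right _ _)
      linarith [h1.2]
    · obtain ⟨ε0, hε0, h⟩ := hex 1 one_pos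
      have hev : ∀ᶠ ε in 𝓝[>] (0:ℝ), ε ∈ Set.Ioo 0 ε0 := Ioo_mem_nhdsGT hε0
      filter_upwards [hev] with ε hε
      obtain ⟨t', _, ht'2⟩ := h ε hε.1 hε.2
      exact (htf ε ⟨t', ht'2⟩ hε.1).1
  obtain ⟨tf, htf1, htf2⟩ := hfun
  refine tendsto_trail A (fun ε => evS1 (tf ε) π) _ ?_ ?_
  · intro x
    exact tendsto_evS1 htf1 tendsto_const_nhds x
  · exact htf2

end generic

namespace Sys

variable {V Y L Q : Type} [Fintype V] [DecidableEq V] [Fintype Y] [DecidableEq Y]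
  [Fintype L] [Fintype Q] (S : Sys V Y L Q)

theorem pass_om (N : ℕ) (χ : S3 (PP V Y Q))
    (h0 : ∀ (ω ε : ℝ), ω ≠ 0 → ε ≠ 0 → ∀ (s : Q → ℝ) (v : V → ℝ) (y : Y → ℝ),
      (S.Mr v (S.lam ε s v y) ε).det ≠ 0 →
      evS3 (v S.v0) ω ε (S.prm N ω ε s v y) χ = 0)
    (ε : ℝ) (hε : ε ≠ 0) (s : Q → ℝ) (v : V → ℝ) (y : Y → ℝ)
    (hD : (S.Mr v (S.lam ε s v y) ε).det ≠ 0) :
    evS2 (v S.v0) ε (S.prm0 ε s v y) χ.leadingCoeff = 0 := by
  refine tendsto_lead χ (fun ω => evS2 (v S.v0) ε (S.prm N ω ε s v y)) _ ?_ ?_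
  · intro x
    exact tendsto_evS2 ε tendsto_const_nhds (S.tendsto_prm N ε s v y) x
  · filter_upwards [eventually_gt_atTop 0] with ω hω
    exact h0 ω ε hω.ne' hε s v y hD

theorem pass_det (A : S2 (PP V Y Q)) (vb : V → ℝ) (yb : Y → ℝ) (ε : ℝ) (s : Q → ℝ)
    (hdet : (S.Mr vb (S.lam ε s vb yb) ε).det ≠ 0)
    (step1 : ∀ (v : V → ℝ) (y : Y → ℝ),
        (S.Mr v (S.lam ε s v y) ε).det ≠ 0 → evS2 (v S.v0) ε (S.prm0 ε s v y) A = 0)
    (v : V → ℝ) (y : Y → ℝ) : evS2 (v S.v0) ε (S.prm0 ε s v y) A = 0 := by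
  have hfreq := S.freq_ne ε s (vb, yb) hdet (v, y)
  have hcont : Continuous (fun u : (V → ℝ) × (Y → ℝ) =>
      evS2 (u.1 S.v0) ε (S.prm0 ε s u.1 u.2) A) := by
    have h1 : Continuous (fun u : (V → ℝ) × (Y → ℝ) => S.prm0 ε s u.1 u.2) := by
      apply continuous_pi
      intro k
      rcases k with (j | i) | a
      · exact S.continuous_pp ε s j
      · exact continuous_const
      · exact S.continuous_qq ε s a
    have h2 : Continuous (fun u : (V → ℝ) × (Y → ℝ) => u.1 S.v0) :=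
      (continuous_apply _).comp continuous_fst
    rw [continuous_iff_continuousAt]
    intro u
    exact tendsto_evS2 ε (h2.tendsto u) (h1.tendsto u) A
  have hclosed : IsClosed {u : (V → ℝ) × (Y → ℝ) |
      evS2 (u.1 S.v0) ε (S.prm0 ε s u.1 u.2) A = 0} :=
    isClosed_eq hcont continuous_const
  have hmem : (v, y) ∈ closure {u : (V → ℝ) × (Y → ℝ) |
      evS2 (u.1 S.v0) ε (S.prm0 ε s u.1 u.2) A = 0} := by
    rw [mem_closure_iff_frequently]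
    exact hfreq.mono fun u hu => step1 u.1 u.2 hu
  rw [hclosed.closure_eq] at hmem
  exact hmem

/-- the combination of the limit arguments for a fixed annihilating polynomial `χ` -/
theorem main_chi (N : ℕ) (χ : S3 (PP V Y Q)) (hχ : χ ≠ 0)
    (h0 : ∀ (ω ε : ℝ), ω ≠ 0 → ε ≠ 0 → ∀ (s : Q → ℝ) (v : V → ℝ) (y : Y → ℝ),
      (S.Mr v (S.lam ε s v y) ε).det ≠ 0 →
      evS3 (v S.v0) ω ε (S.prm N ω ε s v y) χ = 0) :
    ∃ P0 : Polynomial ℤ, P0 ≠ 0 ∧ (pSN intSN).f P0 ≤ (nuS (PP V Y Q)).f χ ∧ ∀ ts : ℝ,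
      (∃ vb yb, ∀ i, (S.eQ i).ev vb yb = 0) →
      (∃ ρ > 0, ∀ π : PP V Y Q → ℝ, (∀ k, |π k| < ρ) → ∀ δ > 0, ∃ ε0 > 0, ∀ ε, 0 < ε → ε < ε0 →
        ∃ v y, S.prm0 ε (fun i => π (Sum.inl (Sum.inr i))) v y = π ∧ |v S.v0 - ts| < δ) →
      evZ ts P0 = 0 := by
  obtain ⟨P0, hP0, hsz, hP⟩ := pick χ hχ
  refine ⟨P0, hP0, hsz, ?_⟩
  rintro ts ⟨vb, yb, hb⟩ ⟨ρ, hρ, hcrit⟩
  obtain ⟨ρ1, hρ1, hdet⟩ := S.det_ne_zero_at vb yb hb
  refine hP ts (min ρ ρ1) (lt_min hρ hρ1) ?_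
  intro π hπ
  have hπρ : ∀ k, |π k| < ρ := fun k => (hπ k).trans_le (min_le_left _ _)
  have hπρ1 : ∀ k, |π k| < ρ1 := fun k => (hπ k).trans_le (min_le_right _ _)
  apply pass_eps
  intro δ hδ
  obtain ⟨ε0, hε0, h⟩ := hcrit π hπρ δ hδ
  refine ⟨ε0, hε0, fun ε h1 h2 => ?_⟩
  obtain ⟨v, y, hvy, ht⟩ := h ε h1 h2
  refine ⟨v S.v0, ht, ?_⟩
  have h3 := S.pass_det χ.leadingCoeff vb yb ε (fun i => π (Sum.inl (Sum.inr i)))
    (hdet _ (fun i => hπρ1 _) ε h1.ne')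
    (fun v y hD => S.pass_om N χ h0 ε h1.ne' (fun i => π (Sum.inl (Sum.inr i))) v y hD) v y
  rwa [hvy] at h3

end Sys

end Pool.Agent.Helper54
end

section
namespace Pool.Agent.Helper54

open Finset Filter Topology

/-- exponent used in the elimination -/
def Nb (y d : ℕ) : ℕ := 2 * (y * (2 * d)) + 6 * d + 1

/-- final bound on the l1 size of an annihilating polynomial; `C` is the row bound, `w` the
number of auxiliary variables -/
def Hb (C w N : ℕ) : ℕ := (1 + C ^ (w * N)) ^ (N ^ w)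

theorem nuS_chi' {P : Type} {n : Type} [Fintype n] [DecidableEq n] (M : Matrix n n (R3 P))
    (B c : ℕ) (hB : ∀ i, ∑ j, (nuR P).f (M i j) ≤ B) (hc : Fintype.card n = c) :
    (nuS P).f (chi M) ≤ (1 + B) ^ c := by
  subst hc
  exact nuS_chi M B hB

theorem card_box (W : Type) [Fintype W] [DecidableEq W] (N : ℕ) :
    Fintype.card (W → Fin N) = N ^ Fintype.card W := by
  rw [Fintype.card_fun, Fintype.card_fin]

namespace Sys

variable {V Y L Q : Type} [Fintype V] [DecidableEq V] [Fintype Y] [DecidableEq Y]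
  [Fintype L] [Fintype Q] (S : Sys V Y L Q)

theorem main {d h : ℕ} (hd : S.DegLe d) (hn : NrmLe S h) :
    ∃ P0 : Polynomial ℤ, P0 ≠ 0 ∧ (pSN intSN).f P0 ≤
        Hb (Cb Y L Q h) (Fintype.card (WW V Q)) (Nb (Fintype.card Y) d) ∧ ∀ ts : ℝ,
      (∃ vb yb, ∀ i, (S.eQ i).ev vb yb = 0) →
      (∃ ρ > 0, ∀ π : PP V Y Q → ℝ, (∀ k, |π k| < ρ) → ∀ δ > 0, ∃ ε0 > 0, ∀ ε, 0 < ε → ε < ε0 →
        ∃ v y, S.prm0 ε (fun i => π (Sum.inl (Sum.inr i))) v y = π ∧ |v S.v0 - ts| < δ) →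
      evZ ts P0 = 0 := by
  classical
  have hN : 0 < Nb (Fintype.card Y) d := Nat.succ_pos _
  obtain ⟨M, hM1, hM2⟩ := elim (nuR (PP V Y Q)) (Nb (Fintype.card Y) d) hN
    (S.F' (rP V Y Q))
    (fun j => td_F' _ hd j) (Cb Y L Q h) (Cb_pos hn.one) (fun j => nr_F' hn prmLe_rP j)
    (Sum.inl S.v0)
  obtain ⟨P0, hP0, hsz, hP⟩ := S.main_chi (Nb (Fintype.card Y) d) (chi M) (chi_ne_zero M)
    (by
      intro ω ε hω hε s v y hD
      have h1 := S.solves (Nb (Fintype.card Y) d) hω hε s v y hD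
        (spec_rP ω ε (S.prm (Nb (Fintype.card Y) d) ω ε s v y))
      have h2 := hM2 _ _ h1
      have h3 := evS3_chi M (v S.v0) ω ε (S.prm (Nb (Fintype.card Y) d) ω ε s v y)
      simp only [Sum.elim_inl] at h2
      rw [h2] at h3
      exact h3)
  refine ⟨P0, hP0, hsz.trans ?_, hP⟩
  exact nuS_chi' M _ _ hM1 (card_box _ _)

end Sys

end Pool.Agent.Helper54
end
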