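import Pool.Agent.Helper54.Quad5

namespace Pool.Agent.Helper54

open Finset Filter Topology

section deriv

variable {V Y : Type} [Fintype V] [DecidableEq V] [Fintype Y] [DecidableEq Y]

/-- moving the coordinate `j` by `t` -/
def mv {W : Type} [DecidableEq W] (v : W → ℝ) (j : W) (t : ℝ) : W → ℝ :=
  fun k => v k + if k = j then t else 0

theorem mv_zero {W : Type} [DecidableEq W] (v : W → ℝ) (j : W) : mv v j 0 = v := by
  ext k; simp [mv]

theorem hd_mv {W : Type} [DecidableEq W] (v : W → ℝ) (j k : W) :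
    HasDerivAt (fun t => mv v j t k) (if k = j then 1 else 0) 0 := by
  unfold mv
  split_ifs
  · exact (hasDerivAt_id (0 : ℝ)).const_add _
  · exact hasDerivAt_const _ _

theorem hd_iv (a : MvPolynomial V ℤ) (v : V → ℝ) (j : V) :
    HasDerivAt (fun t => iv (mv v j t) a) (iv v (MvPolynomial.pderiv j a)) 0 := by
  induction a using MvPolynomial.induction_on with
  | C r =>
    simp only [iv, MvPolynomial.coe_eval₂Hom, MvPolynomial.eval₂_C, MvPolynomial.pderiv_C,
      MvPolynomial.eval₂_zero]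
    exact hasDerivAt_const _ _
  | add p q hp hq =>
    simp only [map_add]
    exact hp.add hq
  | mul_X p i hp =>
    simp only [map_mul, Derivation.leibniz, map_add, smul_eq_mul, MvPolynomial.pderiv_X]
    have h1 : ∀ w : V → ℝ, iv w (MvPolynomial.X i) = w i := fun w => by simp [iv]
    simp only [h1]
    have h2 := hp.mul (hd_mv v j i)
    simp only [mv_zero] at h2
    have h3 : iv v p * iv v ((Pi.single j 1 : V → MvPolynomial V ℤ) i) +
        v i * iv v (MvPolynomial.pderiv j p) =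
        iv v (MvPolynomial.pderiv j p) * v i + iv v p * (if i = j then 1 else 0) := by
      by_cases hij : i = j
      · subst hij; simp; ring
      · simp [hij]; ring
    rw [h3]
    exact h2

theorem hd_sum {ι : Type*} (s : Finset ι) (f : ι → ℝ → ℝ) (f' : ι → ℝ) (x : ℝ)
    (h : ∀ i ∈ s, HasDerivAt (f i) (f' i) x) :
    HasDerivAt (fun t => ∑ i ∈ s, f i t) (∑ i ∈ s, f' i) x :=
  HasDerivAt.fun_sum h

theorem hd_ev1_v (e : QP V Y) (v : V → ℝ) (y : Y → ℝ) (j : V) :
    HasDerivAt (fun t => e.ev1 (mv v j t) y) ((e.dv j).ev1 v y) 0 := by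
  unfold QP.ev1 QP.dv
  exact (hd_iv _ _ _).add (hd_sum _ _ _ _ fun a _ => (hd_iv _ _ _).mul_const _)

theorem hd_ev_v (e : QP V Y) (v : V → ℝ) (y : Y → ℝ) (j : V) :
    HasDerivAt (fun t => e.ev (mv v j t) y) ((e.dv j).ev v y) 0 := by
  unfold QP.ev
  exact (hd_ev1_v _ _ _ _).add (hd_sum _ _ _ _ fun a _ => hd_sum _ _ _ _ fun b _ =>
    ((hd_iv _ _ _).mul_const _).mul_const _)

theorem hd_ev1_y (e : QP V Y) (v : V → ℝ) (y : Y → ℝ) (a : Y) :
    HasDerivAt (fun t => e.ev1 v (mv y a t)) (iv v (e.g a)) 0 := by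
  unfold QP.ev1
  have h := (hd_sum (Finset.univ : Finset Y)
    (fun b t => iv v (e.g b) * mv y a t b) (fun b => iv v (e.g b) * (if b = a then 1 else 0)) 0
    fun b _ => (hd_mv y a b).const_mul _).const_add (iv v e.c)
  simpa using h

theorem hd_ev_y (e : QP V Y) (v : V → ℝ) (y : Y → ℝ) (a : Y) :
    HasDerivAt (fun t => e.ev v (mv y a t)) (e.dy a v y) 0 := by
  unfold QP.ev
  have h := (hd_ev1_y e v y a).add (hd_sum (Finset.univ : Finset Y)
    (fun b t => ∑ c, iv v (e.H b c) * mv y a t b * mv y a t c) _ 0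
    (fun b _ => hd_sum (Finset.univ : Finset Y)
      (fun c t => iv v (e.H b c) * mv y a t b * mv y a t c) _ 0
      (fun c _ => ((hd_mv y a b).const_mul (iv v (e.H b c))).mul (hd_mv y a c))))
  refine h.congr_deriv ?_
  unfold QP.dy
  simp only [mv_zero, mul_ite, mul_one, mul_zero, ite_mul, zero_mul, Finset.sum_add_distrib,
    Finset.sum_ite_eq', Finset.mem_univ, if_true, Finset.sum_ite_irrel, Finset.sum_const_zero,
    add_mul]

end deriv

section gfun

variable {V Y L Q : Type} [Fintype V] [DecidableEq V] [Fintype Y] [DecidableEq Y]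
  [Fintype L] [Fintype Q] (S : Sys V Y L Q)

/-- the regularised penalty function -/
noncomputable def Sys.G (ε : ℝ) (s : Q → ℝ) (p : V → ℝ) (q : Y → ℝ) (v : V → ℝ) (y : Y → ℝ) :
    ℝ :=
  ∑ i : L, (S.eL i).ev1 v y ^ 2 + ∑ i : Q, ((S.eQ i).ev v y + ε ^ 2 * s i) ^ 2 + ε * v S.v0 +
    ε ^ 2 * (∑ j, (v j ^ 2 / 2 - p j * v j) + ∑ a, (y a ^ 2 / 2 - q a * y a))

theorem Sys.hd_G_v (ε : ℝ) (s : Q → ℝ) (p : V → ℝ) (q : Y → ℝ) (v : V → ℝ) (y : Y → ℝ)
    (j : V) : HasDerivAt (fun t => S.G ε s p q (mv v j t) y)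
      (S.gv ε s v y j + ε ^ 2 * (v j - p j)) 0 := by
  unfold Sys.G
  have h1 := hd_sum (Finset.univ : Finset L) (fun i t => (S.eL i).ev1 (mv v j t) y ^ 2) _ 0
    (fun i _ => (hd_ev1_v (S.eL i) v y j).pow 2)
  have h2 := hd_sum (Finset.univ : Finset Q)
    (fun i t => ((S.eQ i).ev (mv v j t) y + ε ^ 2 * s i) ^ 2) _ 0
    (fun i _ => ((hd_ev_v (S.eQ i) v y j).add_const (ε ^ 2 * s i)).pow 2)
  have h3 := (hd_mv v j S.v0).const_mul ε
  have h4 := hd_sum (Finset.univ : Finset V)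
    (fun k t => (mv v j t k ^ 2 / 2 - p k * mv v j t k)) _ 0
    (fun k _ => (((hd_mv v j k).pow 2).div_const 2).sub ((hd_mv v j k).const_mul (p k)))
  have h5 := ((h1.add h2).add h3).add ((h4.add_const (∑ a, (y a ^ 2 / 2 - q a * y a))).const_mul
    (ε ^ 2))
  refine h5.congr_deriv ?_
  simp only [mv_zero, Sys.gv, Sys.lam]
  have e4 : ∑ k, ((2:ℕ) * v k ^ (2 - 1) * (if k = j then (1:ℝ) else 0) / 2 -
      p k * (if k = j then (1:ℝ) else 0)) = v j - p j := by
    rw [Finset.sum_eq_single j]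
    · simp
    · intro b _ hb; simp [hb]
    · intro h; exact absurd (Finset.mem_univ j) h
  rw [e4]
  congr 1
  congr 1
  · congr 1
    · apply Finset.sum_congr rfl; intro i _; simp
    · apply Finset.sum_congr rfl; intro i _; simp
  · congr 1
    by_cases hj : j = S.v0
    · simp [hj]
    · have : ¬ S.v0 = j := fun h => hj h.symm
      simp [hj, this]

theorem Sys.hd_G_y (ε : ℝ) (s : Q → ℝ) (p : V → ℝ) (q : Y → ℝ) (v : V → ℝ) (y : Y → ℝ)
    (a : Y) : HasDerivAt (fun t => S.G ε s p q v (mv y a t))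
      (S.gy ε s v y a + ε ^ 2 * (y a - q a)) 0 := by
  unfold Sys.G
  have h1 := hd_sum (Finset.univ : Finset L) (fun i t => (S.eL i).ev1 v (mv y a t) ^ 2) _ 0
    (fun i _ => (hd_ev1_y (S.eL i) v y a).pow 2)
  have h2 := hd_sum (Finset.univ : Finset Q)
    (fun i t => ((S.eQ i).ev v (mv y a t) + ε ^ 2 * s i) ^ 2) _ 0
    (fun i _ => ((hd_ev_y (S.eQ i) v y a).add_const (ε ^ 2 * s i)).pow 2)
  have h4 := hd_sum (Finset.univ : Finset Y)
    (fun k t => (mv y a t k ^ 2 / 2 - q k * mv y a t k)) _ 0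
    (fun k _ => (((hd_mv y a k).pow 2).div_const 2).sub ((hd_mv y a k).const_mul (q k)))
  have h5 := ((h1.add h2).add_const (ε * v S.v0)).add
    ((h4.const_add (∑ j, (v j ^ 2 / 2 - p j * v j))).const_mul (ε ^ 2))
  refine h5.congr_deriv ?_
  simp only [mv_zero, Sys.gy, Sys.lam]
  have e4 : ∑ k, ((2:ℕ) * y k ^ (2 - 1) * (if k = a then (1:ℝ) else 0) / 2 -
      q k * (if k = a then (1:ℝ) else 0)) = y a - q a := by
    rw [Finset.sum_eq_single a]
    · simp
    · intro b _ hb; simp [hb]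
    · intro h; exact absurd (Finset.mem_univ a) h
  rw [e4]
  congr 1
  congr 1
  · apply Finset.sum_congr rfl; intro i _; simp
  · apply Finset.sum_congr rfl; intro i _; simp

theorem continuous_mv {W : Type} [Fintype W] [DecidableEq W] (v : W → ℝ) (j : W) :
    Continuous (fun t => mv v j t) := by
  apply continuous_pi
  intro k
  unfold mv
  split_ifs
  · exact continuous_const.add continuous_id
  · exact continuous_const.add continuous_const

/-- criticality gives the parameter equations -/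
theorem Sys.crit (ε : ℝ) (hε : ε ≠ 0) (s : Q → ℝ) (p : V → ℝ) (q : Y → ℝ)
    (z : (V → ℝ) × (Y → ℝ))
    (hz : IsLocalMin (fun z : (V → ℝ) × (Y → ℝ) => S.G ε s p q z.1 z.2) z) :
    S.prm0 ε s z.1 z.2 = Sum.elim (Sum.elim p s) q := by
  have hε2 : ε ^ 2 ≠ 0 := pow_ne_zero 2 hε
  have hv : ∀ j, S.gv ε s z.1 z.2 j + ε ^ 2 * (z.1 j - p j) = 0 := by
    intro j
    have hc : Tendsto (fun t : ℝ => ((mv z.1 j t, z.2) : (V → ℝ) × (Y → ℝ))) (𝓝 0) (𝓝 z) := by
      have h1 : Continuous (fun t : ℝ => ((mv z.1 j t, z.2) : (V → ℝ) × (Y → ℝ))) :=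
        (continuous_mv z.1 j).prodMk continuous_const
      have h2 := h1.tendsto 0
      simpa [mv_zero] using h2
    have h3 : IsLocalMin (fun t => S.G ε s p q (mv z.1 j t) z.2) 0 := by
      have h4 := hc.eventually hz
      filter_upwards [h4] with t ht
      simpa [mv_zero] using ht
    exact h3.hasDerivAt_eq_zero (S.hd_G_v ε s p q z.1 z.2 j)
  have hy : ∀ a, S.gy ε s z.1 z.2 a + ε ^ 2 * (z.2 a - q a) = 0 := by
    intro a
    have hc : Tendsto (fun t : ℝ => ((z.1, mv z.2 a t) : (V → ℝ) × (Y → ℝ))) (𝓝 0) (𝓝 z) := by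
      have h1 : Continuous (fun t : ℝ => ((z.1, mv z.2 a t) : (V → ℝ) × (Y → ℝ))) :=
        continuous_const.prodMk (continuous_mv z.2 a)
      have h2 := h1.tendsto 0
      simpa [mv_zero] using h2
    have h3 : IsLocalMin (fun t => S.G ε s p q z.1 (mv z.2 a t)) 0 := by
      have h4 := hc.eventually hz
      filter_upwards [h4] with t ht
      simpa [mv_zero] using ht
    exact h3.hasDerivAt_eq_zero (S.hd_G_y ε s p q z.1 z.2 a)
  ext k
  rcases k with (j | i) | a
  · simp only [prm0, Sum.elim_inl, pp]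
    have := hv j
    field_simp
    linarith
  · simp only [prm0, Sum.elim_inl, Sum.elim_inr]
  · simp only [prm0, Sum.elim_inr, qq]
    have := hy a
    field_simp
    linarith

end gfun

end Pool.Agent.Helper54
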