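import Pool.Agent.Helper54.Quad2

namespace Pool.Agent.Helper54

open Finset Filter Topology

theorem evZ_eq (t : ℝ) (P : Polynomial ℤ) :
    evZ t P = ∑ i ∈ P.support, (P.coeff i : ℝ) * t ^ i := by
  simp [evZ, Polynomial.eval₂_eq_sum, Polynomial.sum_def]

theorem l1_eq (P : Polynomial ℤ) :
    (((pSN intSN).f P : ℕ) : ℝ) = ∑ i ∈ P.support, |(P.coeff i : ℝ)| := by
  have h : (pSN intSN).f P = ∑ i ∈ P.support, (P.coeff i).natAbs := rfl
  rw [h]
  push_cast
  apply Finset.sum_congr rfl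
  intro i _
  simp [Nat.cast_natAbs]

theorem coeff_abs_ge_one {P : Polynomial ℤ} {i : ℕ} (hi : i ∈ P.support) :
    (1 : ℝ) ≤ |(P.coeff i : ℝ)| := by
  have h1 : P.coeff i ≠ 0 := Polynomial.mem_support_iff.1 hi
  have h2 : 1 ≤ |P.coeff i| := Int.one_le_abs h1
  exact_mod_cast h2

theorem root_upper (P : Polynomial ℤ) (hP : P ≠ 0) (t : ℝ) (ht : evZ t P = 0) :
    |t| ≤ ((pSN intSN).f P : ℕ) := by
  rw [l1_eq]
  rw [evZ_eq] at ht
  set n := P.natDegree with hn
  have hmem : n ∈ P.support := Polynomial.natDegree_mem_support_of_nonzero hP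
  have h1 := coeff_abs_ge_one hmem
  rw [← Finset.add_sum_erase _ _ hmem] at ht
  rw [← Finset.add_sum_erase _ _ hmem]
  have hS : 0 ≤ ∑ i ∈ P.support.erase n, |(P.coeff i : ℝ)| :=
    Finset.sum_nonneg fun i _ => abs_nonneg _
  by_contra hcon
  push Not at hcon
  have hT1 : 1 < |t| := by linarith
  have hT0 : 0 < |t| := by linarith
  have h2 : |(P.coeff n : ℝ)| * |t| ^ n ≤ ∑ i ∈ P.support.erase n, |(P.coeff i : ℝ)| * |t| ^ i := by
    have h3 : (P.coeff n : ℝ) * t ^ n = -∑ i ∈ P.support.erase n, (P.coeff i : ℝ) * t ^ i := by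
      linarith
    rw [← abs_pow, ← abs_mul, h3, abs_neg]
    refine (Finset.abs_sum_le_sum_abs _ _).trans ?_
    apply Finset.sum_le_sum
    intro i _
    rw [abs_mul, abs_pow]
  rcases Nat.eq_zero_or_pos n with h0 | hpos
  · have hempty : P.support.erase n = ∅ := by
      apply Finset.eq_empty_of_forall_notMem
      intro i hi
      have h4 := Finset.mem_erase.1 hi
      have h5 : i ≤ n := Polynomial.le_natDegree_of_mem_supp i h4.2
      omega
    rw [hempty, Finset.sum_empty, h0, pow_zero, mul_one] at h2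
    rw [h0] at h1
    linarith
  · have h6 : ∑ i ∈ P.support.erase n, |(P.coeff i : ℝ)| * |t| ^ i ≤
        (∑ i ∈ P.support.erase n, |(P.coeff i : ℝ)|) * |t| ^ (n - 1) := by
      rw [Finset.sum_mul]
      apply Finset.sum_le_sum
      intro i hi
      have h4 := Finset.mem_erase.1 hi
      have h5 : i ≤ n := Polynomial.le_natDegree_of_mem_supp i h4.2
      apply mul_le_mul_of_nonneg_left _ (abs_nonneg _)
      apply pow_le_pow_right₀ hT1.le
      have := h4.1
      omega
    have h7 : |t| ^ n = |t| * |t| ^ (n - 1) := by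
      rw [← pow_succ']; congr 1; omega
    have h8 : 0 < |t| ^ (n - 1) := by positivity
    have h9 : |(P.coeff n : ℝ)| * |t| * |t| ^ (n - 1) ≤
        (∑ i ∈ P.support.erase n, |(P.coeff i : ℝ)|) * |t| ^ (n - 1) := by
      rw [mul_assoc, ← h7]; exact h2.trans h6
    have h10 := le_of_mul_le_mul_right h9 h8
    nlinarith

theorem root_lower (P : Polynomial ℤ) (hP : P ≠ 0) (t : ℝ) (ht0 : t ≠ 0) (ht : evZ t P = 0) :
    1 ≤ |t| * ((pSN intSN).f P : ℕ) := by
  rw [l1_eq]
  rw [evZ_eq] at ht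
  have hT0 : 0 < |t| := abs_pos.2 ht0
  have hne : P.support.Nonempty := Polynomial.support_nonempty.2 hP
  set m := P.natTrailingDegree with hm
  have hmem : m ∈ P.support := Polynomial.natTrailingDegree_mem_support_of_nonzero hP
  have h1 := coeff_abs_ge_one hmem
  rw [← Finset.add_sum_erase _ _ hmem] at ht
  rw [← Finset.add_sum_erase _ _ hmem]
  have hS : 0 ≤ ∑ i ∈ P.support.erase m, |(P.coeff i : ℝ)| :=
    Finset.sum_nonneg fun i _ => abs_nonneg _
  rcases le_or_gt 1 |t| with hT1 | hT1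
  · nlinarith
  have h2 : |(P.coeff m : ℝ)| * |t| ^ m ≤ ∑ i ∈ P.support.erase m, |(P.coeff i : ℝ)| * |t| ^ i := by
    have h3 : (P.coeff m : ℝ) * t ^ m = -∑ i ∈ P.support.erase m, (P.coeff i : ℝ) * t ^ i := by
      linarith
    rw [← abs_pow, ← abs_mul, h3, abs_neg]
    refine (Finset.abs_sum_le_sum_abs _ _).trans ?_
    apply Finset.sum_le_sum
    intro i _
    rw [abs_mul, abs_pow]
  have h6 : ∑ i ∈ P.support.erase m, |(P.coeff i : ℝ)| * |t| ^ i ≤
      (∑ i ∈ P.support.erase m, |(P.coeff i : ℝ)|) * |t| ^ (m + 1) := by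
    rw [Finset.sum_mul]
    apply Finset.sum_le_sum
    intro i hi
    have h4 := Finset.mem_erase.1 hi
    have h5 : m ≤ i := Polynomial.natTrailingDegree_le_of_mem_supp i h4.2
    apply mul_le_mul_of_nonneg_left _ (abs_nonneg _)
    apply pow_le_pow_of_le_one hT0.le hT1.le
    have := h4.1
    omega
  have h8 : 0 < |t| ^ m := by positivity
  have h9 : |(P.coeff m : ℝ)| * |t| ^ m ≤
      ((∑ i ∈ P.support.erase m, |(P.coeff i : ℝ)|) * |t|) * |t| ^ m := by
    have := h2.trans h6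
    rw [pow_succ] at this
    nlinarith
  have h10 := le_of_mul_le_mul_right h9 h8
  nlinarith

end Pool.Agent.Helper54
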