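import Pool.Agent.Helper54.Penalty
import Pool.Agent.Helper54.Quad5c
import Pool.Agent.Helper54.Quad6
import Pool.Agent.Helper54.RootB

section
namespace Pool.Agent.Helper54

open Finset Filter Topology

/-- row bound in terms of cardinalities -/
def Cbn (y l q h : ℕ) : ℕ :=
  3 * (l + q + 1) * h ^ 2 * (((y + 1) * (2 * (l + q + 1) * h ^ 2)) ^ (y + 1)) ^ 2

/-- the final bound in terms of cardinalities -/
def HH (v y l q d h : ℕ) : ℕ := Hb (Cbn y l q h) (v + q) (Nb y d)

theorem Cbn_mono {y l q h l' q' : ℕ} (hl : l ≤ l') (hq : q ≤ q') :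
    Cbn y l q h ≤ Cbn y l' q' h := by
  unfold Cbn
  gcongr

theorem Cbn_pos {y l q h : ℕ} (h1 : 1 ≤ h) : 1 ≤ Cbn y l q h := by
  unfold Cbn
  have : 0 < h := h1
  apply Nat.succ_le_of_lt
  positivity

theorem Hb_mono {C w N C' w' : ℕ} (hC : C ≤ C') (hw : w ≤ w') (hC1 : 1 ≤ C) (hN : 1 ≤ N) :
    Hb C w N ≤ Hb C' w' N := by
  unfold Hb
  have h1 : C ^ (w * N) ≤ C' ^ (w' * N) :=
    (Nat.pow_le_pow_left hC _).trans (Nat.pow_le_pow_right (hC1.trans hC) (by gcongr))
  have h2 : N ^ w ≤ N ^ w' := Nat.pow_le_pow_right hN hw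
  exact (Nat.pow_le_pow_left (by omega) _).trans (Nat.pow_le_pow_right (by omega) h2)

section

variable {V Y LL QQ : Type} [Fintype V] [DecidableEq V] [Fintype Y] [DecidableEq Y]
  [Fintype LL] [Fintype QQ]

/-- the constraint functions -/
noncomputable def con (eL : LL → QP V Y) (eQ : QQ → QP V Y) :
    LL ⊕ QQ → ((V → ℝ) × (Y → ℝ)) → ℝ
  | Sum.inl l, z => (eL l).ev1 z.1 z.2
  | Sum.inr q, z => (eQ q).ev z.1 z.2

theorem con_cont (eL : LL → QP V Y) (eQ : QQ → QP V Y) (i : LL ⊕ QQ) :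
    Continuous (con eL eQ i) := by
  rcases i with l | q
  · exact continuousOn_univ.1 (analytic_ev1 (eL l)).continuousOn
  · exact continuousOn_univ.1 (analytic_ev (eQ q)).continuousOn

/-- uniform bounds for a family of constraints -/
structure Bnd (e : QP V Y) (d h : ℕ) : Prop where
  deg : e.DegLe d
  ddeg : ∀ j, (e.dv j).DegLe d
  nrm : e.nrm ≤ h
  dnrm : ∀ j, (e.dv j).nrm ≤ h

theorem sum_split (I : Finset (LL ⊕ QQ)) (f : LL ⊕ QQ → ℝ) [DecidableEq (LL ⊕ QQ)] :
    ∑ i ∈ I, f i = ∑ l : {l : LL // Sum.inl l ∈ I}, f (Sum.inl l.1) +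
      ∑ q : {q : QQ // Sum.inr q ∈ I}, f (Sum.inr q.1) := by
  classical
  have h1 : ∑ i ∈ I, f i = ∑ i, if i ∈ I then f i else 0 := by
    rw [Finset.sum_ite_mem, Finset.univ_inter]
  rw [h1, Fintype.sum_sum_type]
  congr 1
  · rw [← Finset.sum_filter]
    exact (Finset.sum_subtype (Finset.univ.filter fun l : LL => Sum.inl l ∈ I)
      (by simp) (fun l => f (Sum.inl l)))
  · rw [← Finset.sum_filter]
    exact (Finset.sum_subtype (Finset.univ.filter fun l : QQ => Sum.inr l ∈ I)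
      (by simp) (fun l => f (Sum.inr l)))

theorem minval (eL : LL → QP V Y) (eQ : QQ → QP V Y) (v0 : V) {d h : ℕ} (hd1 : 1 ≤ d)
    (hh1 : 1 ≤ h) (hL : ∀ i, Bnd (eL i) d h) (hQ : ∀ i, Bnd (eQ i) d h) (ts : ℝ)
    (hne : ∃ z, (∀ i, con eL eQ i z ≤ 0) ∧ z.1 v0 = ts)
    (hmin : ∀ z, (∀ i, con eL eQ i z ≤ 0) → ts ≤ z.1 v0)
    (hcpt : IsCompact {z | (∀ i, con eL eQ i z ≤ 0) ∧ z.1 v0 = ts}) :
    ∃ P0 : Polynomial ℤ, P0 ≠ 0 ∧ (pSN intSN).f P0 ≤
      HH (Fintype.card V) (Fintype.card Y) (Fintype.card LL) (Fintype.card QQ) d h ∧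
      evZ ts P0 = 0 := by
  classical
  have hτ : Continuous (fun z : (V → ℝ) × (Y → ℝ) => z.1 v0) :=
    (continuous_apply _).comp continuous_fst
  obtain ⟨I, N, hN, ⟨zb, hzbN, hzb⟩, hpen⟩ := penalty (con eL eQ) (con_cont eL eQ)
    (fun z => z.1 v0) hτ ts hne hmin hcpt
  let L := {l : LL // Sum.inl l ∈ I}
  let Q := {q : QQ // Sum.inr q ∈ I}
  let S : Sys V Y L Q := ⟨fun l => eL l.1, fun q => eQ q.1, v0⟩
  have hdeg : S.DegLe d := ⟨hd1, fun i => (hL i.1).deg, fun i => (hQ i.1).deg,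
    fun i j => (hL i.1).ddeg j, fun i j => (hQ i.1).ddeg j⟩
  have hnrm : Sys.NrmLe S h := ⟨hh1, fun i => (hL i.1).nrm, fun i => (hQ i.1).nrm,
    fun i j => (hL i.1).dnrm j, fun i j => (hQ i.1).dnrm j⟩
  obtain ⟨P0, hP0, hsz, hP⟩ := S.main hdeg hnrm
  refine ⟨P0, hP0, hsz.trans ?_, hP ts ⟨zb.1, zb.2, fun i => hzb _ i.2⟩ ⟨1, one_pos, ?_⟩⟩
  · have hcL : Fintype.card L ≤ Fintype.card LL := Fintype.card_subtype_le _
    have hcQ : Fintype.card Q ≤ Fintype.card QQ := Fintype.card_subtype_le _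
    have hW : Fintype.card (WW V Q) ≤ Fintype.card V + Fintype.card QQ := by
      rw [Fintype.card_sum]; omega
    have hCe : Sys.Cb Y L Q h = Cbn (Fintype.card Y) (Fintype.card L) (Fintype.card Q) h := rfl
    rw [hCe]
    exact Hb_mono (Cbn_mono hcL hcQ) hW (Cbn_pos hh1) (Nat.succ_pos _)
  · intro π hπ δ hδ
    set s : Q → ℝ := fun i => π (Sum.inl (Sum.inr i)) with hs
    set p : V → ℝ := fun j => π (Sum.inl (Sum.inl j)) with hp
    set q : Y → ℝ := fun a => π (Sum.inr a) with hq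
    have hπe : Sum.elim (Sum.elim p s) q = π := by
      ext k; rcases k with (j | i) | a <;> rfl
    -- the regularisation
    let Φ0 : ((V → ℝ) × (Y → ℝ)) → ℝ := fun z => ∑ i : Q, 2 * s i * con eL eQ (Sum.inr i.1) z +
      (∑ j, (z.1 j ^ 2 / 2 - p j * z.1 j) + ∑ a, (z.2 a ^ 2 / 2 - q a * z.2 a))
    have hΦ0c : Continuous Φ0 := by
      have hv : ∀ j, Continuous (fun z : (V → ℝ) × (Y → ℝ) => z.1 j) := fun j =>
        (continuous_apply _).comp continuous_fst
      have hy : ∀ a, Continuous (fun z : (V → ℝ) × (Y → ℝ) => z.2 a) := fun j =>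
        (continuous_apply _).comp continuous_snd
      apply Continuous.add
      · exact continuous_finsetSum _ fun i _ => continuous_const.mul (con_cont eL eQ _)
      · apply Continuous.add
        · exact continuous_finsetSum _ fun j _ =>
            (((hv j).pow 2).div_const 2).sub (continuous_const.mul (hv j))
        · exact continuous_finsetSum _ fun j _ =>
            (((hy j).pow 2).div_const 2).sub (continuous_const.mul (hy j))
    obtain ⟨B0, hB0⟩ := hN.exists_bound_of_continuousOn hΦ0c.continuousOn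
    set c0 : ℝ := ∑ i : Q, s i ^ 2 with hc0
    have hc0' : 0 ≤ c0 := Finset.sum_nonneg fun i _ => sq_nonneg _
    obtain ⟨ε0, hε0, hpen'⟩ := hpen (B0 + c0) δ hδ
    refine ⟨min ε0 1, lt_min hε0 one_pos, ?_⟩
    intro ε hε hεlt
    have hε1 : ε < 1 := hεlt.trans_le (min_le_right _ _)
    obtain ⟨z, _, hzmin, hzδ⟩ := hpen' ε hε (hεlt.trans_le (min_le_left _ _))
      (fun z => Φ0 z + ε ^ 2 * c0) (hΦ0c.add continuous_const).continuousOn (by
        intro z hz
        refine (abs_add_le _ _).trans (add_le_add (hB0 z hz) ?_)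
        rw [abs_of_nonneg (by positivity)]
        have : ε ^ 2 ≤ 1 := by nlinarith
        nlinarith)
    refine ⟨z.1, z.2, ?_, hzδ⟩
    have hG : (fun z : (V → ℝ) × (Y → ℝ) => ∑ i ∈ I, con eL eQ i z ^ 2 + ε * z.1 v0 +
        ε ^ 2 * (Φ0 z + ε ^ 2 * c0)) = fun z => S.G ε s p q z.1 z.2 := by
      ext z
      rw [sum_split I (fun i => con eL eQ i z ^ 2)]
      simp only [Sys.G, Φ0, hc0, con]
      have h1 : ∑ i : Q, ((S.eQ i).ev z.1 z.2 + ε ^ 2 * s i) ^ 2 =
          ∑ i : Q, (eQ i.1).ev z.1 z.2 ^ 2 + ε ^ 2 * ∑ i : Q, 2 * s i * (eQ i.1).ev z.1 z.2 +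
          ε ^ 2 * (ε ^ 2 * ∑ i : Q, s i ^ 2) := by
        rw [Finset.mul_sum, Finset.mul_sum, Finset.mul_sum, ← Finset.sum_add_distrib,
          ← Finset.sum_add_distrib]
        apply Finset.sum_congr rfl
        intro i _
        change ((eQ i.1).ev z.1 z.2 + ε ^ 2 * s i) ^ 2 = _
        ring
      rw [h1]
      change _ = ∑ i : L, (eL i.1).ev1 z.1 z.2 ^ 2 + _ + ε * z.1 v0 + _
      ring
    rw [hG] at hzmin
    rw [S.crit ε hε.ne' s p q z hzmin, hπe]

end

end Pool.Agent.Helper54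
end

section
namespace Pool.Agent.Helper54

open Finset Filter Topology

section cpt

variable {V Y : Type} [Fintype V] [Fintype Y]

theorem cpt_box (F : Set ((V → ℝ) × (Y → ℝ))) (hF : IsClosed F) (B : ℝ)
    (hB : ∀ z ∈ F, (∀ i, |z.1 i| ≤ B) ∧ ∀ a, |z.2 a| ≤ B) : IsCompact F := by
  have h1 : IsCompact ((Set.pi Set.univ fun _ : V => Set.Icc (-B) B) ×ˢ
      (Set.pi Set.univ fun _ : Y => Set.Icc (-B) B)) :=
    (isCompact_univ_pi fun _ => isCompact_Icc).prod (isCompact_univ_pi fun _ => isCompact_Icc)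
  apply h1.of_isClosed_subset hF
  intro z hz
  obtain ⟨h2, h3⟩ := hB z hz
  refine ⟨fun i _ => ?_, fun a _ => ?_⟩
  · exact ⟨(abs_le.1 (h2 i)).1, (abs_le.1 (h2 i)).2⟩
  · exact ⟨(abs_le.1 (h3 a)).1, (abs_le.1 (h3 a)).2⟩

end cpt

section mini

variable {V Y LL QQ : Type} [Fintype V] [DecidableEq V] [Fintype Y] [DecidableEq Y]
  [Fintype LL] [Fintype QQ]

/-- existence of a minimiser together with an annihilating polynomial for the minimum -/
theorem mini (eL : LL → QP V Y) (eQ : QQ → QP V Y) (v0 : V) {d h : ℕ} (hd1 : 1 ≤ d)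
    (hh1 : 1 ≤ h) (hL : ∀ i, Bnd (eL i) d h) (hQ : ∀ i, Bnd (eQ i) d h)
    (z0 : (V → ℝ) × (Y → ℝ)) (hz0 : ∀ i, con eL eQ i z0 ≤ 0) (B : ℝ)
    (hB : ∀ z, (∀ i, con eL eQ i z ≤ 0) → z.1 v0 ≤ z0.1 v0 →
      (∀ i, |z.1 i| ≤ B) ∧ ∀ a, |z.2 a| ≤ B) :
    ∃ z, (∀ i, con eL eQ i z ≤ 0) ∧ z.1 v0 ≤ z0.1 v0 ∧
      ∃ P0 : Polynomial ℤ, P0 ≠ 0 ∧ (pSN intSN).f P0 ≤
      HH (Fintype.card V) (Fintype.card Y) (Fintype.card LL) (Fintype.card QQ) d h ∧
      evZ (z.1 v0) P0 = 0 := by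
  have hcon := con_cont eL eQ
  have hτ : Continuous (fun z : (V → ℝ) × (Y → ℝ) => z.1 v0) :=
    (continuous_apply _).comp continuous_fst
  set K : Set ((V → ℝ) × (Y → ℝ)) := {z | (∀ i, con eL eQ i z ≤ 0) ∧ z.1 v0 ≤ z0.1 v0} with hK
  have hKc : IsCompact K := by
    apply cpt_box K _ B
    · intro z hz; exact hB z hz.1 hz.2
    · have h1 : K = (⋂ i, {z | con eL eQ i z ≤ 0}) ∩ {z | z.1 v0 ≤ z0.1 v0} := by
        ext z; simp [hK]
      rw [h1]
      exact (isClosed_iInter fun i => isClosed_le (hcon i) continuous_const).inter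
        (isClosed_le hτ continuous_const)
  obtain ⟨z, hzK, hzmin⟩ := hKc.exists_isMinOn ⟨z0, hz0, le_rfl⟩ hτ.continuousOn
  refine ⟨z, hzK.1, hzK.2, ?_⟩
  apply minval eL eQ v0 hd1 hh1 hL hQ (z.1 v0) ⟨z, hzK.1, rfl⟩
  · intro z' hz'
    by_cases h : z'.1 v0 ≤ z0.1 v0
    · exact hzmin ⟨hz', h⟩
    · push Not at h
      exact (hzK.2).trans h.le
  · apply hKc.of_isClosed_subset
    · have h1 : {z' | (∀ i, con eL eQ i z' ≤ 0) ∧ z'.1 v0 = z.1 v0} =
          (⋂ i, {z | con eL eQ i z ≤ 0}) ∩ {z' | z'.1 v0 = z.1 v0} := by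
        ext z; simp
      rw [h1]
      exact (isClosed_iInter fun i => isClosed_le (hcon i) continuous_const).inter
        (isClosed_eq hτ continuous_const)
    · intro z' hz'
      exact ⟨hz'.1, hz'.2.le.trans hzK.2⟩

end mini

section bounds

variable {V : Type}

theorem pderiv_nrm [DecidableEq V] (p : MvPolynomial V ℤ) (j : V) :
    (mvSN V intSN).f (MvPolynomial.pderiv j p) ≤ p.totalDegree * (mvSN V intSN).f p := by
  classical
  have h1 : MvPolynomial.pderiv j p = ∑ m ∈ p.support,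
      MvPolynomial.monomial (m - Finsupp.single j 1) (p.coeff m * (m j : ℤ)) := by
    conv_lhs => rw [p.as_sum]
    rw [map_sum]
    apply Finset.sum_congr rfl
    intro m _
    rw [MvPolynomial.pderiv_monomial]
  rw [h1]
  refine ((mvSN V intSN).sum_le _ _).trans ?_
  have h2 : (mvSN V intSN).f p = ∑ m ∈ p.support, (p.coeff m).natAbs := rfl
  rw [h2, Finset.mul_sum]
  apply Finset.sum_le_sum
  intro m hm
  refine (mvF_monomial intSN _ _).trans ?_
  change (p.coeff m * (m j : ℤ)).natAbs ≤ _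
  rw [Int.natAbs_mul, Int.natAbs_natCast, mul_comm]
  apply Nat.mul_le_mul_right
  have h3 : (m.sum fun _ e => e) ≤ p.totalDegree := MvPolynomial.le_totalDegree hm
  refine le_trans ?_ h3
  by_cases hj : j ∈ m.support
  · exact Finset.single_le_sum (f := fun i => m i) (fun _ _ => Nat.zero_le _) hj
  · rw [Finsupp.notMem_support_iff.1 hj]; exact Nat.zero_le _

theorem pderiv_deg [DecidableEq V] (p : MvPolynomial V ℤ) (j : V) :
    (MvPolynomial.pderiv j p).totalDegree ≤ p.totalDegree := by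
  classical
  have h1 : MvPolynomial.pderiv j p = ∑ m ∈ p.support,
      MvPolynomial.monomial (m - Finsupp.single j 1) (p.coeff m * (m j : ℤ)) := by
    conv_lhs => rw [p.as_sum]
    rw [map_sum]
    apply Finset.sum_congr rfl
    intro m _
    rw [MvPolynomial.pderiv_monomial]
  rw [h1]
  apply MvPolynomial.totalDegree_finsetSum_le
  intro m hm
  refine (MvPolynomial.totalDegree_monomial_le _ _).trans ?_
  refine le_trans ?_ (MvPolynomial.le_totalDegree hm)
  exact Finsupp.sum_le_sum_index (h := fun _ e => e) tsub_le_self (fun _ _ => monotone_id)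
    (fun _ _ => rfl)

variable {Y : Type} [Fintype Y]

theorem bnd_of [DecidableEq V] (e : QP V Y) {d h : ℕ} (hd1 : 1 ≤ d) (hd : e.DegLe d)
    (hn : e.nrm ≤ h) : Bnd e d (d * h) := by
  refine ⟨hd, fun j => ⟨?_, fun a => ?_, fun a b => ?_⟩, ?_, fun j => ?_⟩
  · exact (pderiv_deg _ _).trans hd.c
  · exact (pderiv_deg _ _).trans (hd.g a)
  · exact (pderiv_deg _ _).trans (hd.H a b)
  · exact hn.trans (Nat.le_mul_of_pos_left h hd1)
  · have h1 : ∀ p : MvPolynomial V ℤ, p.totalDegree ≤ d →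
        (mvSN V intSN).f (MvPolynomial.pderiv j p) ≤ d * (mvSN V intSN).f p := fun p hp =>
      (pderiv_nrm p j).trans (Nat.mul_le_mul_right _ hp)
    unfold QP.nrm at hn ⊢
    refine le_trans ?_ (Nat.mul_le_mul_left d hn)
    rw [Nat.mul_add, Nat.mul_add, Finset.mul_sum, Finset.mul_sum]
    refine Nat.add_le_add (Nat.add_le_add (h1 _ hd.c) ?_) ?_
    · exact Finset.sum_le_sum fun a _ => h1 _ (hd.g a)
    · apply Finset.sum_le_sum
      intro a _
      rw [Finset.mul_sum]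
      exact Finset.sum_le_sum fun b _ => h1 _ (hd.H a b)

end bounds

section aff

variable {X V Y : Type} [Fintype Y]

/-- affine modification of a constraint -/
noncomputable def QP.aff (f : X → V) (α : ℤ) (β : MvPolynomial V ℤ) (e : QP X Y) : QP V Y where
  c := MvPolynomial.C α * MvPolynomial.rename f e.c + β
  g a := MvPolynomial.C α * MvPolynomial.rename f (e.g a)
  H a b := MvPolynomial.C α * MvPolynomial.rename f (e.H a b)

theorem iv_rename (f : X → V) (v : V → ℝ) (p : MvPolynomial X ℤ) :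
    iv v (MvPolynomial.rename f p) = iv (fun x => v (f x)) p := by
  simp only [iv, MvPolynomial.coe_eval₂Hom, MvPolynomial.eval₂_rename]
  rfl

theorem iv_C (v : V → ℝ) (a : ℤ) : iv v (MvPolynomial.C a) = a := by
  simp [iv]

theorem iv_X (v : V → ℝ) (i : V) : iv v (MvPolynomial.X i) = v i := by
  simp [iv]

theorem ev1_aff (f : X → V) (α : ℤ) (β : MvPolynomial V ℤ) (e : QP X Y) (v : V → ℝ)
    (y : Y → ℝ) : (e.aff f α β).ev1 v y = α * e.ev1 (fun x => v (f x)) y + iv v β := by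
  simp only [QP.ev1, QP.aff, map_add, map_mul, iv_C, iv_rename, mul_add, Finset.mul_sum]
  have : ∀ a, (α : ℝ) * iv (fun x => v (f x)) (e.g a) * y a =
      α * (iv (fun x => v (f x)) (e.g a) * y a) := fun a => by ring
  simp only [this]
  ring

theorem ev_aff (f : X → V) (α : ℤ) (β : MvPolynomial V ℤ) (e : QP X Y) (v : V → ℝ)
    (y : Y → ℝ) : (e.aff f α β).ev v y = α * e.ev (fun x => v (f x)) y + iv v β := by
  have h : (e.aff f α β).ev v y = (e.aff f α β).ev1 v y +
    ∑ a, ∑ b, iv v ((e.aff f α β).H a b) * y a * y b := rfl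
  rw [h, ev1_aff]
  simp only [QP.ev, QP.aff, map_mul, iv_C, iv_rename, mul_add, Finset.mul_sum]
  have : ∀ a b, (α : ℝ) * iv (fun x => v (f x)) (e.H a b) * y a * y b =
      α * (iv (fun x => v (f x)) (e.H a b) * y a * y b) := fun a b => by ring
  simp only [this]
  ring

theorem mvSN_rename (f : X → V) (p : MvPolynomial X ℤ) :
    (mvSN V intSN).f (MvPolynomial.rename f p) ≤ (mvSN X intSN).f p := by
  classical
  have h1 : MvPolynomial.rename f p = ∑ m ∈ p.support,
      MvPolynomial.monomial (Finsupp.mapDomain f m) (p.coeff m) := by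
    conv_lhs => rw [p.as_sum]
    rw [map_sum]
    apply Finset.sum_congr rfl
    intro m _
    rw [MvPolynomial.rename_monomial]
  rw [h1]
  refine ((mvSN V intSN).sum_le _ _).trans ?_
  have h2 : (mvSN X intSN).f p = ∑ m ∈ p.support, (p.coeff m).natAbs := rfl
  rw [h2]
  exact Finset.sum_le_sum fun m _ => mvF_monomial intSN _ _

theorem nrm_aff (f : X → V) (α : ℤ) (β : MvPolynomial V ℤ) (e : QP X Y) :
    (e.aff f α β).nrm ≤ α.natAbs * e.nrm + (mvSN V intSN).f β := by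
  have h1 : ∀ p : MvPolynomial X ℤ, (mvSN V intSN).f (MvPolynomial.C α *
      MvPolynomial.rename f p) ≤ α.natAbs * (mvSN X intSN).f p := fun p =>
    ((mvSN V intSN).mul_le _ _).trans (Nat.mul_le_mul (mvSN_C (W := V) intSN α)
      (mvSN_rename f p))
  unfold QP.nrm QP.aff
  simp only [Nat.mul_add, Finset.mul_sum]
  have h2 := ((mvSN V intSN).add_le (MvPolynomial.C α * MvPolynomial.rename f e.c) β).trans
    (Nat.add_le_add_right (h1 e.c) _)
  have h3 : ∑ a, (mvSN V intSN).f (MvPolynomial.C α * MvPolynomial.rename f (e.g a)) ≤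
      ∑ a, α.natAbs * (mvSN X intSN).f (e.g a) := Finset.sum_le_sum fun a _ => h1 _
  have h4 : ∑ a, ∑ b, (mvSN V intSN).f (MvPolynomial.C α * MvPolynomial.rename f (e.H a b)) ≤
      ∑ a, ∑ b, α.natAbs * (mvSN X intSN).f (e.H a b) :=
    Finset.sum_le_sum fun a _ => Finset.sum_le_sum fun b _ => h1 _
  omega

theorem deg_aff (f : X → V) (α : ℤ) (β : MvPolynomial V ℤ) (e : QP X Y) {d : ℕ}
    (he : e.DegLe d) (hβ : β.totalDegree ≤ d) : (e.aff f α β).DegLe d := by
  have h1 : ∀ p : MvPolynomial X ℤ, p.totalDegree ≤ d → (MvPolynomial.C α *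
      MvPolynomial.rename f p).totalDegree ≤ d := by
    intro p hp
    refine (MvPolynomial.totalDegree_mul _ _).trans ?_
    rw [MvPolynomial.totalDegree_C, zero_add]
    exact (MvPolynomial.totalDegree_rename_le f p).trans hp
  refine ⟨?_, fun a => h1 _ (he.g a), fun a b => h1 _ (he.H a b)⟩
  exact (MvPolynomial.totalDegree_add _ _).trans (max_le (h1 _ he.c) hβ)

/-- constraint without dependence on `Y` -/
noncomputable def QP.base (β : MvPolynomial V ℤ) : QP V Y := ⟨β, fun _ => 0, fun _ _ => 0⟩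

theorem ev1_base (β : MvPolynomial V ℤ) (v : V → ℝ) (y : Y → ℝ) :
    (QP.base β : QP V Y).ev1 v y = iv v β := by
  simp [QP.ev1, QP.base]

theorem nrm_base (β : MvPolynomial V ℤ) :
    (QP.base β : QP V Y).nrm = (mvSN V intSN).f β := by
  simp [QP.nrm, QP.base, (mvSN V intSN).map_zero]

theorem deg_base (β : MvPolynomial V ℤ) {d : ℕ} (hβ : β.totalDegree ≤ d) :
    (QP.base β : QP V Y).DegLe d :=
  ⟨hβ, fun _ => by simp [QP.base], fun _ _ => by simp [QP.base]⟩

variable [DecidableEq Y]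

/-- constraint `α y_b + β` -/
noncomputable def QP.ycon (α : ℤ) (b : Y) (β : MvPolynomial V ℤ) : QP V Y :=
  ⟨β, fun a => if a = b then MvPolynomial.C α else 0, fun _ _ => 0⟩

theorem ev1_ycon (α : ℤ) (b : Y) (β : MvPolynomial V ℤ) (v : V → ℝ) (y : Y → ℝ) :
    (QP.ycon α b β : QP V Y).ev1 v y = iv v β + α * y b := by
  simp only [QP.ev1, QP.ycon]
  congr 1
  rw [Finset.sum_eq_single b]
  · simp [iv_C]
  · intro c _ hc; simp [hc]
  · intro h; exact absurd (Finset.mem_univ _) h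

theorem nrm_ycon (α : ℤ) (b : Y) (β : MvPolynomial V ℤ) :
    (QP.ycon α b β : QP V Y).nrm ≤ (mvSN V intSN).f β + α.natAbs := by
  unfold QP.nrm QP.ycon
  simp only [(mvSN V intSN).map_zero, Finset.sum_const_zero, add_zero]
  apply Nat.add_le_add_left
  rw [Finset.sum_eq_single b]
  · simp only [if_true]; exact mvSN_C (W := V) intSN α
  · intro c _ hc; simp [hc, (mvSN V intSN).map_zero]
  · intro h; exact absurd (Finset.mem_univ _) h

theorem deg_ycon (α : ℤ) (b : Y) (β : MvPolynomial V ℤ) {d : ℕ} (hβ : β.totalDegree ≤ d) :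
    (QP.ycon α b β : QP V Y).DegLe d := by
  refine ⟨hβ, fun a => ?_, fun _ _ => by simp [QP.ycon]⟩
  simp only [QP.ycon]
  split_ifs
  · rw [MvPolynomial.totalDegree_C]; exact Nat.zero_le _
  · rw [MvPolynomial.totalDegree_zero]; exact Nat.zero_le _

end aff

end Pool.Agent.Helper54
end

section
namespace Pool.Agent.Helper54

open Finset Filter Topology

/-- direction of the inequality -/
def al : SignType → Bool → ℤ
  | 0, true => 1
  | 0, false => -1
  | 1, _ => -1
  | -1, _ => 1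

/-- strictness -/
def be : SignType → ℤ
  | 0 => 0
  | 1 => 1
  | -1 => 1

theorem al_fwd (r : ℝ) : ∃ σ > 0, ∀ τ, 0 ≤ τ → τ ≤ σ → ∀ b,
    (al (SignType.sign r) b : ℝ) * r + be (SignType.sign r) * τ ≤ 0 := by
  rcases lt_trichotomy r 0 with h | h | h
  · refine ⟨-r, by linarith, fun τ h0 hτ b => ?_⟩
    rw [sign_neg h]
    have h1 : al (-1) b = 1 := rfl
    have h2 : be (-1) = 1 := rfl
    rw [h1, h2]; push_cast; linarith
  · refine ⟨1, one_pos, fun τ h0 hτ b => ?_⟩
    subst h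
    rw [sign_zero]
    have h2 : be 0 = 0 := rfl
    rw [h2]; simp
  · refine ⟨r, h, fun τ h0 hτ b => ?_⟩
    rw [sign_pos h]
    have h1 : al 1 b = -1 := rfl
    have h2 : be 1 = 1 := rfl
    rw [h1, h2]; push_cast; linarith

theorem al_bwd (s : SignType) (r R : ℝ) (hR : 0 < R)
    (h : ∀ b, R * ((al s b : ℝ) * r) + be s ≤ 0) : SignType.sign r = s := by
  cases s
  · have h1 : R * (((1:ℤ) : ℝ) * r) + ((0:ℤ) : ℝ) ≤ 0 := h true
    have h2 : R * (((-1:ℤ) : ℝ) * r) + ((0:ℤ) : ℝ) ≤ 0 := h false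
    push_cast at h1 h2
    have h3 : R * r = 0 := by linarith
    have h4 : r = 0 := by
      rcases mul_eq_zero.1 h3 with h5 | h5
      · exact absurd h5 hR.ne'
      · exact h5
    rw [h4]; exact sign_zero
  · have h1 : R * (((1:ℤ) : ℝ) * r) + ((1:ℤ) : ℝ) ≤ 0 := h true
    push_cast at h1
    have h2 : r < 0 := by
      by_contra hc; push Not at hc
      have := mul_nonneg hR.le hc
      linarith
    exact sign_neg h2
  · have h1 : R * (((-1:ℤ) : ℝ) * r) + ((1:ℤ) : ℝ) ≤ 0 := h true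
    push_cast at h1
    have h2 : 0 < r := by
      by_contra hc; push Not at hc
      have := mul_nonneg hR.le (by linarith : 0 ≤ -r)
      linarith
    exact sign_pos h2

theorem be_nonneg (s : SignType) : 0 ≤ be s := by cases s <;> decide
theorem be_natAbs (s : SignType) : (be s).natAbs ≤ 1 := by cases s <;> decide
theorem al_natAbs (s : SignType) (b : Bool) : (al s b).natAbs = 1 := by
  cases s <;> cases b <;> rfl

/-- a sign condition system -/
structure Sgn (X Y A1 A2 : Type) where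
  e1 : A1 → QP X Y
  e2 : A2 → QP X Y
  s1 : A1 → SignType
  s2 : A2 → SignType

def RAn (x y a1 a2 d h : ℕ) : ℕ :=
  HH (x + 2) y (2 * a1 + 2 * x + 2 * y + 3) (2 * a2) (d + 2) ((d + 2) * (h + 2))

def DBn (x y a1 a2 d h R : ℕ) : ℕ :=
  HH (x + 1) y (2 * a1 + 2 * x + 2 * y + 1) (2 * a2) (d + 2) ((d + 2) * (R * h + R + 2))

def pm (b : Bool) : ℤ := if b then 1 else -1

theorem pm_natAbs (b : Bool) : (pm b).natAbs = 1 := by cases b <;> rfl

theorem abs_of_pm {r B : ℝ} (h : ∀ b, (pm b : ℝ) * r ≤ B) : |r| ≤ B := by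
  have h1 := h true
  have h2 := h false
  simp only [pm] at h1 h2
  push_cast at h1 h2
  rw [abs_le]; constructor
  · simp at h2; linarith
  · simpa using h1

theorem pm_of_abs {r B : ℝ} (h : |r| ≤ B) (b : Bool) : (pm b : ℝ) * r ≤ B := by
  have h1 := abs_le.1 h
  cases b <;> simp [pm] <;> linarith [h1.1, h1.2]

section

variable {X Y A1 A2 : Type} [Fintype X] [DecidableEq X] [Fintype Y] [DecidableEq Y]
  [Fintype A1] [Fintype A2] (D : Sgn X Y A1 A2)

namespace Sgn

/-- real solvability -/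
def Sat (x : X → ℝ) (y : Y → ℝ) : Prop :=
  (∀ a, SignType.sign ((D.e1 a).ev1 x y) = D.s1 a) ∧
    ∀ a, SignType.sign ((D.e2 a).ev x y) = D.s2 a

/-- robust version with parameter `R` and tolerance `δ` -/
def App (R δ : ℝ) (x : X → ℝ) (y : Y → ℝ) : Prop :=
  (∀ a b, R * ((al (D.s1 a) b : ℝ) * (D.e1 a).ev1 x y) + be (D.s1 a) ≤ δ) ∧
  (∀ a b, R * ((al (D.s2 a) b : ℝ) * (D.e2 a).ev x y) + be (D.s2 a) ≤ δ) ∧
  (∀ i, |x i| ≤ R + δ) ∧ ∀ i, |y i| ≤ R + δ

structure Bd (d h : ℕ) : Prop where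
  d1 : ∀ a, (D.e1 a).DegLe d
  d2 : ∀ a, (D.e2 a).DegLe d
  n1 : ∀ a, (D.e1 a).nrm ≤ h
  n2 : ∀ a, (D.e2 a).nrm ≤ h

abbrev VA (X : Type) := Option (Option X)
abbrev LLA (X Y A1 : Type) := (A1 × Bool) ⊕ ((X × Bool) ⊕ ((Y × Bool) ⊕ Fin 3))

noncomputable def eLA : LLA X Y A1 → QP (VA X) Y
  | Sum.inl (a, b) => (D.e1 a).aff (fun x => some (some x)) (al (D.s1 a) b)
      (MvPolynomial.C (be (D.s1 a)) * MvPolynomial.X (some none))
  | Sum.inr (Sum.inl (x, b)) => QP.base (MvPolynomial.C (pm b) * MvPolynomial.X (some (some x))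
      - MvPolynomial.X none)
  | Sum.inr (Sum.inr (Sum.inl (y, b))) => QP.ycon (pm b) y (- MvPolynomial.X none)
  | Sum.inr (Sum.inr (Sum.inr 0)) => QP.base (MvPolynomial.C 1 -
      MvPolynomial.X none * MvPolynomial.X (some none))
  | Sum.inr (Sum.inr (Sum.inr 1)) => QP.base (MvPolynomial.X (some none) - MvPolynomial.C 1)
  | Sum.inr (Sum.inr (Sum.inr 2)) => QP.base (- MvPolynomial.X none)

noncomputable def eQA : A2 × Bool → QP (VA X) Y
  | (a, b) => (D.e2 a).aff (fun x => some (some x)) (al (D.s2 a) b)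
      (MvPolynomial.C (be (D.s2 a)) * MvPolynomial.X (some none))

omit [Fintype X] [DecidableEq X] [Fintype Y] [DecidableEq Y] [Fintype A1] [Fintype A2] in
theorem nC {V : Type} (a : ℤ) : (mvSN V intSN).f (MvPolynomial.C a) ≤ a.natAbs :=
  mvSN_C (W := V) intSN a

omit [Fintype X] [DecidableEq X] [Fintype Y] [DecidableEq Y] [Fintype A1] [Fintype A2] in
theorem nX {V : Type} (a : V) : (mvSN V intSN).f (MvPolynomial.X a) ≤ 1 :=
  mvSN_X (W := V) intSN a

omit [Fintype X] [DecidableEq X] [Fintype Y] [DecidableEq Y] [Fintype A1] [Fintype A2] in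
theorem nCX {V : Type} (a : ℤ) (i : V) :
    (mvSN V intSN).f (MvPolynomial.C a * MvPolynomial.X i) ≤ a.natAbs :=
  ((mvSN V intSN).mul_le _ _).trans ((Nat.mul_le_mul (nC a) (nX i)).trans (by rw [mul_one]))

variable {D} {d h : ℕ}

theorem bnd_eLA (hb : D.Bd d h) (i : LLA X Y A1) : Bnd (D.eLA i) (d + 2) ((d + 2) * (h + 2)) := by
  have hCX : ∀ (a : ℤ) (i : VA X), (MvPolynomial.C a * MvPolynomial.X i :
      MvPolynomial (VA X) ℤ).totalDegree ≤ d + 2 := fun a i =>
    (td_mul (td_C a 0) (td_X i)).trans (by omega)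
  have hX : ∀ (i : VA X), (MvPolynomial.X i :
      MvPolynomial (VA X) ℤ).totalDegree ≤ d + 2 := fun i => (td_X i).trans (by omega)
  apply bnd_of _ (by omega)
  · rcases i with ⟨a, b⟩ | ⟨x, b⟩ | ⟨y, b⟩ | j
    · apply deg_aff
      · exact ⟨(hb.d1 a).c.trans (by omega), fun c => ((hb.d1 a).g c).trans (by omega),
          fun c e => ((hb.d1 a).H c e).trans (by omega)⟩
      · exact hCX _ _
    · exact deg_base _ (td_sub (hCX _ _) (hX _))
    · exact deg_ycon _ _ _ (td_neg (hX _))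
    · fin_cases j
      · exact deg_base _ (td_sub (td_C _ _) ((td_mul (td_X _) (td_X _)).trans (by omega)))
      · exact deg_base _ (td_sub (hX _) (td_C _ _))
      · exact deg_base _ (td_neg (hX _))
  · rcases i with ⟨a, b⟩ | ⟨x, b⟩ | ⟨y, b⟩ | j
    · refine (nrm_aff _ _ _ _).trans ?_
      rw [al_natAbs, one_mul]
      exact Nat.add_le_add (hb.n1 a) ((nCX _ _).trans ((be_natAbs _).trans (by omega)))
    · change (QP.base _ : QP (VA X) Y).nrm ≤ _
      rw [nrm_base]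
      refine ((mvSN (VA X) intSN).sub_le _ _).trans ?_
      have h1 := nCX (V := VA X) (pm b) (some (some x))
      have h2 := nX (V := VA X) none
      rw [pm_natAbs] at h1
      omega
    · refine (nrm_ycon _ _ _).trans ?_
      rw [(mvSN (VA X) intSN).map_neg, pm_natAbs]
      have h2 := nX (V := VA X) none
      omega
    · fin_cases j
      · change (QP.base _ : QP (VA X) Y).nrm ≤ _
        rw [nrm_base]
        refine ((mvSN (VA X) intSN).sub_le _ _).trans ?_
        have h1 := nC (V := VA X) 1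
        have h2 : (mvSN (VA X) intSN).f (MvPolynomial.X none * MvPolynomial.X (some none)) ≤ 1 * 1 :=
          ((mvSN (VA X) intSN).mul_le _ _).trans (Nat.mul_le_mul (nX _) (nX _))
        have h3 : (1 : ℤ).natAbs = 1 := rfl
        omega
      · change (QP.base _ : QP (VA X) Y).nrm ≤ _
        rw [nrm_base]
        refine ((mvSN (VA X) intSN).sub_le _ _).trans ?_
        have h1 := nC (V := VA X) 1
        have h2 := nX (V := VA X) (some none)
        have h3 : (1 : ℤ).natAbs = 1 := rfl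
        omega
      · change (QP.base _ : QP (VA X) Y).nrm ≤ _
        rw [nrm_base, (mvSN (VA X) intSN).map_neg]
        have h2 := nX (V := VA X) none
        omega

theorem bnd_eQA (hb : D.Bd d h) (i : A2 × Bool) :
    Bnd (D.eQA i) (d + 2) ((d + 2) * (h + 2)) := by
  rcases i with ⟨a, b⟩
  apply bnd_of _ (by omega)
  · apply deg_aff
    · exact ⟨(hb.d2 a).c.trans (by omega), fun c => ((hb.d2 a).g c).trans (by omega),
        fun c e => ((hb.d2 a).H c e).trans (by omega)⟩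
    · exact (td_mul (td_C _ 0) (td_X _)).trans (by omega)
  · refine (nrm_aff _ _ _ _).trans ?_
    rw [al_natAbs, one_mul]
    exact Nat.add_le_add (hb.n2 a) ((nCX _ _).trans ((be_natAbs _).trans (by omega)))

theorem con_iff {V LL QQ : Type} [Fintype V] [DecidableEq V] (eL : LL → QP V Y)
    (eQ : QQ → QP V Y) (z : (V → ℝ) × (Y → ℝ)) :
    (∀ i, con eL eQ i z ≤ 0) ↔ (∀ i, (eL i).ev1 z.1 z.2 ≤ 0) ∧ ∀ i, (eQ i).ev z.1 z.2 ≤ 0 :=
  ⟨fun h => ⟨fun i => h (Sum.inl i), fun i => h (Sum.inr i)⟩,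
    fun h i => by rcases i with i | i; exacts [h.1 i, h.2 i]⟩

variable (D)

theorem conA (z : (VA X → ℝ) × (Y → ℝ)) : (∀ i, con D.eLA D.eQA i z ≤ 0) ↔
    ((∀ a b, (al (D.s1 a) b : ℝ) * (D.e1 a).ev1 (fun x => z.1 (some (some x))) z.2 +
      be (D.s1 a) * z.1 (some none) ≤ 0) ∧
    (∀ x b, (pm b : ℝ) * z.1 (some (some x)) ≤ z.1 none) ∧
    (∀ y b, (pm b : ℝ) * z.2 y ≤ z.1 none) ∧
    (1 ≤ z.1 none * z.1 (some none) ∧ z.1 (some none) ≤ 1 ∧ 0 ≤ z.1 none)) ∧
    (∀ a b, (al (D.s2 a) b : ℝ) * (D.e2 a).ev (fun x => z.1 (some (some x))) z.2 +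
      be (D.s2 a) * z.1 (some none) ≤ 0) := by
  rw [con_iff]
  have h1 : ∀ a b, (D.eLA (Sum.inl (a, b))).ev1 z.1 z.2 = (al (D.s1 a) b : ℝ) *
      (D.e1 a).ev1 (fun x => z.1 (some (some x))) z.2 + be (D.s1 a) * z.1 (some none) := by
    intro a b
    simp only [eLA, ev1_aff, map_mul, iv_C, iv_X]
  have h2 : ∀ x b, (D.eLA (Sum.inr (Sum.inl (x, b)))).ev1 z.1 z.2 =
      (pm b : ℝ) * z.1 (some (some x)) - z.1 none := by
    intro a b
    simp only [eLA, ev1_base, map_sub, map_mul, iv_C, iv_X]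
  have h3 : ∀ y b, (D.eLA (Sum.inr (Sum.inr (Sum.inl (y, b))))).ev1 z.1 z.2 =
      - z.1 none + (pm b : ℝ) * z.2 y := by
    intro a b
    simp only [eLA, ev1_ycon, map_neg, iv_X]
  have h4 : (D.eLA (Sum.inr (Sum.inr (Sum.inr 0)))).ev1 z.1 z.2 =
      1 - z.1 none * z.1 (some none) := by
    simp only [eLA, ev1_base, map_sub, map_mul, iv_C, iv_X]; simp
  have h5 : (D.eLA (Sum.inr (Sum.inr (Sum.inr 1)))).ev1 z.1 z.2 = z.1 (some none) - 1 := by
    simp only [eLA, ev1_base, map_sub, iv_C, iv_X]; simp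
  have h6 : (D.eLA (Sum.inr (Sum.inr (Sum.inr 2)))).ev1 z.1 z.2 = - z.1 none := by
    simp only [eLA, ev1_base, map_neg, iv_X]
  have h7 : ∀ a b, (D.eQA (a, b)).ev z.1 z.2 = (al (D.s2 a) b : ℝ) *
      (D.e2 a).ev (fun x => z.1 (some (some x))) z.2 + be (D.s2 a) * z.1 (some none) := by
    intro a b
    simp only [eQA, ev_aff, map_mul, iv_C, iv_X]
  constructor
  · rintro ⟨hL, hQ⟩
    refine ⟨⟨fun a b => ?_, fun x b => ?_, fun y b => ?_, ?_, ?_, ?_⟩, fun a b => ?_⟩
    · rw [← h1]; exact hL _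
    · have := hL (Sum.inr (Sum.inl (x, b))); rw [h2] at this; linarith
    · have := hL (Sum.inr (Sum.inr (Sum.inl (y, b)))); rw [h3] at this; linarith
    · have := hL (Sum.inr (Sum.inr (Sum.inr 0))); rw [h4] at this; linarith
    · have := hL (Sum.inr (Sum.inr (Sum.inr 1))); rw [h5] at this; linarith
    · have := hL (Sum.inr (Sum.inr (Sum.inr 2))); rw [h6] at this; linarith
    · rw [← h7]; exact hQ _
  · rintro ⟨⟨g1, g2, g3, g4, g5, g6⟩, g7⟩
    refine ⟨fun i => ?_, fun i => ?_⟩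
    · rcases i with ⟨a, b⟩ | ⟨x, b⟩ | ⟨y, b⟩ | j
      · rw [h1]; exact g1 a b
      · rw [h2]; have := g2 x b; linarith
      · rw [h3]; have := g3 y b; linarith
      · fin_cases j
        · exact h4.le.trans (by linarith)
        · exact h5.le.trans (by linarith)
        · exact h6.le.trans (by linarith)
    · rcases i with ⟨a, b⟩
      rw [h7]; exact g7 a b

omit [Fintype X] [DecidableEq X] [DecidableEq Y] [Fintype A1] [Fintype A2] in
theorem HH_pos (v y l q d h : ℕ) : 1 ≤ HH v y l q d h := by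
  unfold HH Hb
  exact Nat.one_le_pow _ _ (by omega)

theorem stageA (hb : D.Bd d h) (hsol : ∃ x y, D.Sat x y) :
    ∃ x y, D.App (RAn (Fintype.card X) (Fintype.card Y) (Fintype.card A1) (Fintype.card A2)
      d h) 0 x y := by
  obtain ⟨x, y, hs1, hs2⟩ := hsol
  have hf1 := fun a => al_fwd ((D.e1 a).ev1 x y)
  have hf2 := fun a => al_fwd ((D.e2 a).ev x y)
  choose σ1 hσ1 hσ1' using hf1
  choose σ2 hσ2 hσ2' using hf2
  set S : ℝ := 1 + ∑ a, (σ1 a)⁻¹ + ∑ a, (σ2 a)⁻¹ with hS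
  have hp1 : ∀ a ∈ (Finset.univ : Finset A1), 0 ≤ (σ1 a)⁻¹ := fun a _ => (inv_pos.2 (hσ1 a)).le
  have hp2 : ∀ a ∈ (Finset.univ : Finset A2), 0 ≤ (σ2 a)⁻¹ := fun a _ => (inv_pos.2 (hσ2 a)).le
  have hsum1 := Finset.sum_nonneg hp1
  have hsum2 := Finset.sum_nonneg hp2
  have hS1 : 1 ≤ S := by linarith
  have hSpos : 0 < S := by linarith
  have hle1 : ∀ a, S⁻¹ ≤ σ1 a := by
    intro a
    have := Finset.single_le_sum hp1 (Finset.mem_univ a)
    exact inv_le_of_inv_le₀ (hσ1 a) (by linarith)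
  have hle2 : ∀ a, S⁻¹ ≤ σ2 a := by
    intro a
    have := Finset.single_le_sum hp2 (Finset.mem_univ a)
    exact inv_le_of_inv_le₀ (hσ2 a) (by linarith)
  set ρ : ℝ := S + ∑ i, |x i| + ∑ a, |y a| with hρ
  have hx0 : 0 ≤ ∑ i, |x i| := Finset.sum_nonneg fun i _ => abs_nonneg _
  have hy0 : 0 ≤ ∑ i, |y i| := Finset.sum_nonneg fun i _ => abs_nonneg _
  have hxρ : ∀ i, |x i| ≤ ρ := fun i => by
    have := Finset.single_le_sum (f := fun i => |x i|) (fun i _ => abs_nonneg _)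
      (Finset.mem_univ i)
    linarith
  have hyρ : ∀ i, |y i| ≤ ρ := fun i => by
    have := Finset.single_le_sum (f := fun i => |y i|) (fun i _ => abs_nonneg _)
      (Finset.mem_univ i)
    linarith
  have hρS : S ≤ ρ := by linarith
  let z0 : (VA X → ℝ) × (Y → ℝ) :=
    (fun v => match v with | none => ρ | some none => S⁻¹ | some (some i) => x i, y)
  have hz0 : ∀ i, con D.eLA D.eQA i z0 ≤ 0 := by
    rw [conA]
    refine ⟨⟨fun a b => ?_, fun i b => pm_of_abs (hxρ i) b, fun i b => pm_of_abs (hyρ i) b,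
      ?_, ?_, ?_⟩, fun a b => ?_⟩
    · have := hσ1' a S⁻¹ (inv_pos.2 hSpos).le (hle1 a) b
      rw [hs1 a] at this
      exact this
    · change 1 ≤ ρ * S⁻¹
      rw [← div_eq_mul_inv, le_div_iff₀ hSpos, one_mul]; exact hρS
    · exact inv_le_one_of_one_le₀ hS1
    · change 0 ≤ ρ; linarith
    · have := hσ2' a S⁻¹ (inv_pos.2 hSpos).le (hle2 a) b
      rw [hs2 a] at this
      exact this
  obtain ⟨z, hz, _, P0, hP0, hsz, hroot⟩ := mini D.eLA D.eQA none (d := d + 2)
    (h := (d + 2) * (h + 2)) (by omega)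
    (Nat.succ_le_of_lt (by positivity)) (bnd_eLA hb) (bnd_eQA hb) z0 hz0 (ρ + 1) (by
      intro z hz hz1
      rw [conA] at hz
      obtain ⟨⟨_, g2, g3, g4, g5, g6⟩, _⟩ := hz
      have hz1' : z.1 none ≤ ρ := hz1
      refine ⟨fun i => ?_, fun a => (abs_of_pm (g3 a)).trans (by linarith)⟩
      rcases i with _ | _ | i
      · rw [abs_of_nonneg g6]; linarith
      · have hpos : 0 ≤ z.1 (some none) := by
          by_contra hc; push Not at hc
          nlinarith
        rw [abs_of_nonneg hpos]; linarith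
      · exact (abs_of_pm (g2 i)).trans (by linarith))
  have hcard : HH (Fintype.card (VA X)) (Fintype.card Y) (Fintype.card (LLA X Y A1))
      (Fintype.card (A2 × Bool)) (d + 2) ((d + 2) * (h + 2)) =
      RAn (Fintype.card X) (Fintype.card Y) (Fintype.card A1) (Fintype.card A2) d h := by
    unfold RAn
    simp only [Fintype.card_option, Fintype.card_sum, Fintype.card_prod, Fintype.card_bool,
      Fintype.card_fin]
    congr 1 <;> ring
  rw [hcard] at hsz
  have hR1 : 1 ≤ RAn (Fintype.card X) (Fintype.card Y) (Fintype.card A1) (Fintype.card A2) d h :=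
    HH_pos _ _ _ _ _ _
  have hup := root_upper P0 hP0 _ hroot
  set R : ℕ := RAn (Fintype.card X) (Fintype.card Y) (Fintype.card A1) (Fintype.card A2) d h
    with hR
  have hR1' : (1 : ℝ) ≤ R := by exact_mod_cast hR1
  have hle : |z.1 none| ≤ R := hup.trans (by exact_mod_cast hsz)
  rw [conA] at hz
  obtain ⟨⟨g1, g2, g3, g4, g5, g6⟩, g7⟩ := hz
  rw [abs_of_nonneg g6] at hle
  have hpos : 0 < z.1 (some none) := by
    by_contra hc; push Not at hc
    nlinarith
  have hRσ : 1 ≤ R * z.1 (some none) := by nlinarith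
  refine ⟨fun x => z.1 (some (some x)), z.2, fun a b => ?_, fun a b => ?_, fun i => ?_,
    fun i => ?_⟩
  · have h1 := g1 a b
    have h2 : (0 : ℝ) ≤ be (D.s1 a) := by exact_mod_cast be_nonneg _
    nlinarith
  · have h1 := g7 a b
    have h2 : (0 : ℝ) ≤ be (D.s2 a) := by exact_mod_cast be_nonneg _
    nlinarith
  · exact (abs_of_pm (g2 i)).trans (by linarith)
  · exact (abs_of_pm (g3 i)).trans (by linarith)

end Sgn

end

end Pool.Agent.Helper54
end
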