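import Pool.Agent.Helper54.ETRDefs
import Pool.Agent.Helper54.Stage2

namespace Pool.Agent.Helper54

open Finset

section qpops

variable {V Y : Type} [Fintype Y]

noncomputable def QP.addQ (p q : QP V Y) : QP V Y :=
  ⟨p.c + q.c, fun a => p.g a + q.g a, fun a b => p.H a b + q.H a b⟩
noncomputable def QP.subQ (p q : QP V Y) : QP V Y :=
  ⟨p.c - q.c, fun a => p.g a - q.g a, fun a b => p.H a b - q.H a b⟩
noncomputable def QP.mulQ (p q : QP V Y) : QP V Y :=
  ⟨p.c * q.c, fun a => p.c * q.g a + p.g a * q.c,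
    fun a b => p.c * q.H a b + p.H a b * q.c + p.g a * q.g b⟩

theorem ev_addQ (p q : QP V Y) (v : V → ℝ) (y : Y → ℝ) :
    (p.addQ q).ev v y = p.ev v y + q.ev v y := by
  simp only [QP.ev, QP.ev1, QP.addQ, map_add, add_mul, Finset.sum_add_distrib]; ring

theorem ev_subQ (p q : QP V Y) (v : V → ℝ) (y : Y → ℝ) :
    (p.subQ q).ev v y = p.ev v y - q.ev v y := by
  simp only [QP.ev, QP.ev1, QP.subQ, map_sub, sub_mul, Finset.sum_sub_distrib]; ring

/-- homogeneous parts -/
noncomputable def QP.p1 (p : QP V Y) (v : V → ℝ) (y : Y → ℝ) : ℝ := ∑ a, iv v (p.g a) * y a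
noncomputable def QP.p2 (p : QP V Y) (v : V → ℝ) (y : Y → ℝ) : ℝ :=
  ∑ a, ∑ b, iv v (p.H a b) * y a * y b

theorem ev_parts (p : QP V Y) (v : V → ℝ) (y : Y → ℝ) :
    p.ev v y = iv v p.c + p.p1 v y + p.p2 v y := rfl

theorem ev_mulQ (p q : QP V Y) (v : V → ℝ) (y : Y → ℝ) :
    (p.mulQ q).ev v y = iv v p.c * iv v q.c + (iv v p.c * q.p1 v y + p.p1 v y * iv v q.c) +
      (iv v p.c * q.p2 v y + p.p2 v y * iv v q.c + p.p1 v y * q.p1 v y) := by
  simp only [QP.ev, QP.ev1, QP.mulQ, QP.p1, QP.p2, map_add, map_mul, add_mul,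
    Finset.sum_add_distrib, Finset.mul_sum, Finset.sum_mul]
  congr 1
  · congr 1
    congr 1
    · apply Finset.sum_congr rfl; intro a _; ring
    · apply Finset.sum_congr rfl; intro a _; ring
  · congr 1
    · congr 1
      · apply Finset.sum_congr rfl; intro a _
        apply Finset.sum_congr rfl; intro b _; ring
      · apply Finset.sum_congr rfl; intro a _
        apply Finset.sum_congr rfl; intro b _; ring
    · rw [Finset.sum_comm]
      apply Finset.sum_congr rfl; intro a _
      apply Finset.sum_congr rfl; intro b _; ring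

theorem nrm_addQ (p q : QP V Y) : (p.addQ q).nrm ≤ p.nrm + q.nrm := by
  unfold QP.nrm QP.addQ
  dsimp only
  have h1 := (mvSN V intSN).add_le p.c q.c
  have h2 : ∑ a, (mvSN V intSN).f (p.g a + q.g a) ≤
      ∑ a, (mvSN V intSN).f (p.g a) + ∑ a, (mvSN V intSN).f (q.g a) := by
    rw [← Finset.sum_add_distrib]
    exact Finset.sum_le_sum fun a _ => (mvSN V intSN).add_le _ _
  have h3 : ∑ a, ∑ b, (mvSN V intSN).f (p.H a b + q.H a b) ≤
      ∑ a, ∑ b, (mvSN V intSN).f (p.H a b) + ∑ a, ∑ b, (mvSN V intSN).f (q.H a b) := by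
    rw [← Finset.sum_add_distrib]
    refine Finset.sum_le_sum fun a _ => ?_
    rw [← Finset.sum_add_distrib]
    exact Finset.sum_le_sum fun b _ => (mvSN V intSN).add_le _ _
  omega

theorem nrm_subQ (p q : QP V Y) : (p.subQ q).nrm ≤ p.nrm + q.nrm := by
  unfold QP.nrm QP.subQ
  dsimp only
  have h1 := (mvSN V intSN).sub_le p.c q.c
  have h2 : ∑ a, (mvSN V intSN).f (p.g a - q.g a) ≤
      ∑ a, (mvSN V intSN).f (p.g a) + ∑ a, (mvSN V intSN).f (q.g a) := by
    rw [← Finset.sum_add_distrib]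
    exact Finset.sum_le_sum fun a _ => (mvSN V intSN).sub_le _ _
  have h3 : ∑ a, ∑ b, (mvSN V intSN).f (p.H a b - q.H a b) ≤
      ∑ a, ∑ b, (mvSN V intSN).f (p.H a b) + ∑ a, ∑ b, (mvSN V intSN).f (q.H a b) := by
    rw [← Finset.sum_add_distrib]
    refine Finset.sum_le_sum fun a _ => ?_
    rw [← Finset.sum_add_distrib]
    exact Finset.sum_le_sum fun b _ => (mvSN V intSN).sub_le _ _
  omega

theorem nrm_mulQ (p q : QP V Y) : (p.mulQ q).nrm ≤ p.nrm * q.nrm := by
  set ν := mvSN V intSN with hν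
  have e : ∀ r : QP V Y, r.nrm = ν.f r.c + ∑ a, ν.f (r.g a) + ∑ a, ∑ b, ν.f (r.H a b) :=
    fun r => rfl
  rw [e, e p, e q]
  have h1 : ν.f (p.mulQ q).c ≤ ν.f p.c * ν.f q.c := ν.mul_le _ _
  have h2 : ∑ a, ν.f ((p.mulQ q).g a) ≤
      ν.f p.c * ∑ a, ν.f (q.g a) + (∑ a, ν.f (p.g a)) * ν.f q.c := by
    rw [Finset.mul_sum, Finset.sum_mul, ← Finset.sum_add_distrib]
    refine Finset.sum_le_sum fun a _ => ?_
    exact (ν.add_le _ _).trans (Nat.add_le_add (ν.mul_le _ _) (ν.mul_le _ _))
  have h3 : ∑ a, ∑ b, ν.f ((p.mulQ q).H a b) ≤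
      ν.f p.c * ∑ a, ∑ b, ν.f (q.H a b) + (∑ a, ∑ b, ν.f (p.H a b)) * ν.f q.c +
      (∑ a, ν.f (p.g a)) * ∑ b, ν.f (q.g b) := by
    rw [Finset.sum_mul_sum, Finset.mul_sum, Finset.sum_mul, ← Finset.sum_add_distrib,
      ← Finset.sum_add_distrib]
    refine Finset.sum_le_sum fun a _ => ?_
    rw [Finset.mul_sum, Finset.sum_mul, ← Finset.sum_add_distrib, ← Finset.sum_add_distrib]
    refine Finset.sum_le_sum fun b _ => ?_
    refine (ν.add_le _ _).trans (Nat.add_le_add ((ν.add_le _ _).trans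
      (Nat.add_le_add (ν.mul_le _ _) (ν.mul_le _ _))) (ν.mul_le _ _))
  generalize ν.f p.c = a0 at *
  generalize ν.f q.c = b0 at *
  generalize ∑ a, ν.f (p.g a) = a1 at *
  generalize ∑ a, ν.f (q.g a) = b1 at *
  generalize ∑ a, ∑ b, ν.f (p.H a b) = a2 at *
  generalize ∑ a, ∑ b, ν.f (q.H a b) = b2 at *
  have h4 : (a0 + a1 + a2) * (b0 + b1 + b2) = a0 * b0 + (a0 * b1 + a1 * b0) +
    (a0 * b2 + a2 * b0 + a1 * b1) + (a1 * b2 + a2 * b1 + a2 * b2) := by ring
  rw [h4]
  omega

theorem deg_addQ {p q : QP V Y} {d : ℕ} (hp : p.DegLe d) (hq : q.DegLe d) :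
    (p.addQ q).DegLe d :=
  ⟨td_add hp.c hq.c, fun a => td_add (hp.g a) (hq.g a), fun a b => td_add (hp.H a b) (hq.H a b)⟩

theorem deg_subQ {p q : QP V Y} {d : ℕ} (hp : p.DegLe d) (hq : q.DegLe d) :
    (p.subQ q).DegLe d :=
  ⟨td_sub hp.c hq.c, fun a => td_sub (hp.g a) (hq.g a), fun a b => td_sub (hp.H a b) (hq.H a b)⟩

theorem deg_mulQ {p q : QP V Y} {d e : ℕ} (hp : p.DegLe d) (hq : q.DegLe e) :
    (p.mulQ q).DegLe (d + e) :=
  ⟨td_mul hp.c hq.c, fun a => td_add (td_mul hp.c (hq.g a)) (td_mul (hp.g a) hq.c),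
    fun a b => td_add (td_add (td_mul hp.c (hq.H a b)) (td_mul (hp.H a b) hq.c))
      (td_mul (hp.g a) (hq.g b))⟩

theorem QP.DegLe.mono {p : QP V Y} {d e : ℕ} (hp : p.DegLe d) (h : d ≤ e) : p.DegLe e :=
  ⟨hp.c.trans h, fun a => (hp.g a).trans h, fun a b => (hp.H a b).trans h⟩

end qpops

namespace ETR

section

variable (n : ℕ) (X : Finset ℕ)

abbrev VX := {i : Fin n // (i : ℕ) ∈ X}
abbrev VY := {i : Fin n // ¬ (i : ℕ) ∈ X}

open Classical in
/-- translation of terms -/
noncomputable def qp : Term → QP (VX n X) (VY n X)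
  | Term.zero => ⟨0, fun _ => 0, fun _ _ => 0⟩
  | Term.one => ⟨1, fun _ => 0, fun _ _ => 0⟩
  | Term.var i => if h : i < n then
      (if hx : i ∈ X then ⟨MvPolynomial.X ⟨⟨i, h⟩, hx⟩, fun _ => 0, fun _ _ => 0⟩
      else ⟨0, fun a => if a = ⟨⟨i, h⟩, hx⟩ then 1 else 0, fun _ _ => 0⟩)
      else ⟨0, fun _ => 0, fun _ _ => 0⟩
  | Term.add s t => (qp s).addQ (qp t)
  | Term.sub s t => (qp s).subQ (qp t)
  | Term.mul s t => (qp s).mulQ (qp t)

/-- number of symbols -/
def tsz (t : Term) : ℕ := t.toks.length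

/-- all variables are below `n` -/
def VarsLt (n : ℕ) : Term → Prop
  | Term.zero => True
  | Term.one => True
  | Term.var i => i < n
  | Term.add s t => VarsLt n s ∧ VarsLt n t
  | Term.sub s t => VarsLt n s ∧ VarsLt n t
  | Term.mul s t => VarsLt n s ∧ VarsLt n t

theorem varsLt_of_size (t : Term) : ∀ n, tsz t ≤ n → VarsLt n t := by
  induction t with
  | zero => intro n _; trivial
  | one => intro n _; trivial
  | var i => intro n h; simp only [tsz, Term.toks, List.length_cons, List.length_append,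
      List.length_replicate, List.length_nil] at h; show i < n; omega
  | add s t ihs iht | sub s t ihs iht | mul s t ihs iht =>
    intro n h
    simp only [tsz, Term.toks, List.length_cons, List.length_append] at h ihs iht
    exact ⟨ihs n (by omega), iht n (by omega)⟩

variable {n X}

theorem qp_deg0 (t : Term) (h : t.deg X = 0) : (∀ a, (qp n X t).g a = 0) ∧
    ∀ a b, (qp n X t).H a b = 0 := by
  induction t with
  | zero => exact ⟨fun _ => rfl, fun _ _ => rfl⟩
  | one => exact ⟨fun _ => rfl, fun _ _ => rfl⟩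
  | var i =>
    have hx : i ∈ X := by
      by_contra hx
      simp [Term.deg, hx] at h
    simp only [qp, hx, dif_pos]
    split_ifs
    · exact ⟨fun _ => rfl, fun _ _ => rfl⟩
    · exact ⟨fun _ => rfl, fun _ _ => rfl⟩
  | add s t ihs iht =>
    simp only [Term.deg] at h
    obtain ⟨h1, h2⟩ := ihs (by omega)
    obtain ⟨h3, h4⟩ := iht (by omega)
    exact ⟨fun a => by simp [qp, QP.addQ, h1, h3], fun a b => by simp [qp, QP.addQ, h2, h4]⟩
  | sub s t ihs iht =>
    simp only [Term.deg] at h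
    obtain ⟨h1, h2⟩ := ihs (by omega)
    obtain ⟨h3, h4⟩ := iht (by omega)
    exact ⟨fun a => by simp [qp, QP.subQ, h1, h3], fun a b => by simp [qp, QP.subQ, h2, h4]⟩
  | mul s t ihs iht =>
    simp only [Term.deg] at h
    obtain ⟨h1, h2⟩ := ihs (by omega)
    obtain ⟨h3, h4⟩ := iht (by omega)
    exact ⟨fun a => by simp [qp, QP.mulQ, h1, h3],
      fun a b => by simp [qp, QP.mulQ, h1, h2, h4]⟩

theorem qp_deg1 (t : Term) (h : t.deg X ≤ 1) : ∀ a b, (qp n X t).H a b = 0 := by
  induction t with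
  | zero => exact fun _ _ => rfl
  | one => exact fun _ _ => rfl
  | var i =>
    simp only [qp]
    split_ifs
    · exact fun _ _ => rfl
    · exact fun _ _ => rfl
    · exact fun _ _ => rfl
  | add s t ihs iht =>
    simp only [Term.deg] at h
    intro a b
    simp [qp, QP.addQ, ihs (by omega) a b, iht (by omega) a b]
  | sub s t ihs iht =>
    simp only [Term.deg] at h
    intro a b
    simp [qp, QP.subQ, ihs (by omega) a b, iht (by omega) a b]
  | mul s t ihs iht =>
    simp only [Term.deg] at h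
    intro a b
    have h1 := ihs (by omega) a b
    have h2 := iht (by omega) a b
    rcases Nat.eq_zero_or_pos (s.deg X) with h0 | h0
    · have h3 := (qp_deg0 (n := n) (X := X) s h0).1
      simp [qp, QP.mulQ, h1, h2, h3]
    · have h3 := (qp_deg0 (n := n) (X := X) t (by omega)).1
      simp [qp, QP.mulQ, h1, h2, h3]

/-- restriction of an assignment -/
def rx (x : ℕ → ℝ) : VX n X → ℝ := fun i => x i.1
def ry (x : ℕ → ℝ) : VY n X → ℝ := fun i => x i.1

theorem qp_eval (x : ℕ → ℝ) (t : Term) (h : t.deg X ≤ 2) (hv : VarsLt n t) :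
    (qp n X t).ev (rx x) (ry x) = t.eval x := by
  induction t with
  | zero => simp [qp, QP.ev, QP.ev1, Term.eval]
  | one => simp [qp, QP.ev, QP.ev1, Term.eval]
  | var i =>
    have hv : i < n := hv
    by_cases hx : i ∈ X
    · simp only [qp, hv, hx, dif_pos, QP.ev, QP.ev1, iv_X, map_zero, zero_mul,
        Finset.sum_const_zero, add_zero, Term.eval]
      rfl
    · simp only [qp, hv, hx, dif_pos, dif_neg, not_false_iff, QP.ev, QP.ev1, map_zero, zero_mul,
        Finset.sum_const_zero, add_zero, Term.eval, zero_add]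
      rw [Finset.sum_eq_single ⟨⟨i, hv⟩, hx⟩]
      · simp [ry]
      · intro b _ hb; simp [hb]
      · intro h; exact absurd (Finset.mem_univ _) h
  | add s t ihs iht =>
    simp only [Term.deg] at h
    rw [qp, ev_addQ, ihs (by omega) hv.1, iht (by omega) hv.2]; rfl
  | sub s t ihs iht =>
    simp only [Term.deg] at h
    rw [qp, ev_subQ, ihs (by omega) hv.1, iht (by omega) hv.2]; rfl
  | mul s t ihs iht =>
    simp only [Term.deg] at h
    have h1 := ihs (by omega) hv.1
    have h2 := iht (by omega) hv.2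
    rw [qp, ev_mulQ]
    have h3 : (Term.mul s t).eval x = s.eval x * t.eval x := rfl
    rw [h3, ← h1, ← h2, ev_parts, ev_parts]
    have hp1 : ∀ t : Term, t.deg X = 0 → (qp n X t).p1 (rx x) (ry x) = 0 := by
      intro t ht
      simp [QP.p1, (qp_deg0 (n := n) t ht).1]
    have hp2 : ∀ t : Term, t.deg X ≤ 1 → (qp n X t).p2 (rx x) (ry x) = 0 := by
      intro t ht
      simp [QP.p2, (qp_deg1 (n := n) t ht)]
    rcases Nat.eq_zero_or_pos (s.deg X) with h0 | h0
    · rw [hp1 s h0, hp2 s (by omega)]; ring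
    · rcases Nat.eq_zero_or_pos (t.deg X) with h0' | h0'
      · rw [hp1 t h0', hp2 t (by omega)]; ring
      · rw [hp2 s (by omega), hp2 t (by omega)]; ring

theorem qp_eval1 (x : ℕ → ℝ) (t : Term) (h : t.deg X ≤ 1) (hv : VarsLt n t) :
    (qp n X t).ev1 (rx x) (ry x) = t.eval x := by
  rw [← qp_eval (X := X) x t (by omega) hv, ev_parts]
  have : (qp n X t).p2 (rx x) (ry x) = 0 := by simp [QP.p2, (qp_deg1 (n := n) t h)]
  rw [this, add_zero]; rfl

theorem qp_nrm (t : Term) : (qp n X t).nrm ≤ 2 ^ tsz t := by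
  induction t with
  | zero =>
    have : (qp n X Term.zero).nrm = 0 := by simp [qp, QP.nrm, (mvSN _ intSN).map_zero]
    rw [this]; exact Nat.zero_le _
  | one =>
    have h1 : (mvSN (VX n X) intSN).f (1 : MvPolynomial (VX n X) ℤ) ≤ 1 := by
      have := Sgn.nC (V := VX n X) 1
      rw [MvPolynomial.C_1] at this
      exact this
    have : (qp n X Term.one).nrm ≤ 1 := by
      simp only [qp, QP.nrm, (mvSN _ intSN).map_zero, Finset.sum_const_zero, add_zero]
      exact h1
    exact this.trans (Nat.one_le_two_pow)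
  | var i =>
    have : (qp n X (Term.var i)).nrm ≤ 1 := by
      simp only [qp]
      split_ifs with h hx
      · simp only [QP.nrm, (mvSN _ intSN).map_zero, Finset.sum_const_zero, add_zero]
        exact Sgn.nX _
      · simp only [QP.nrm, (mvSN _ intSN).map_zero, Finset.sum_const_zero, add_zero, zero_add]
        rw [Finset.sum_eq_single ⟨⟨i, h⟩, hx⟩]
        · have h1 : (mvSN (VX n X) intSN).f (1 : MvPolynomial (VX n X) ℤ) ≤ 1 := by
            have := Sgn.nC (V := VX n X) 1
            rw [MvPolynomial.C_1] at this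
            exact this
          simpa using h1
        · intro b _ hb; simp [hb, (mvSN _ intSN).map_zero]
        · intro h; exact absurd (Finset.mem_univ _) h
      · simp [QP.nrm, (mvSN _ intSN).map_zero]
    exact this.trans (Nat.one_le_two_pow)
  | add s t ihs iht =>
    refine (nrm_addQ _ _).trans ?_
    have h1 : tsz (Term.add s t) = tsz s + tsz t + 1 := by simp [tsz, Term.toks]
    rw [h1, pow_succ, pow_add]
    have h2 : 1 ≤ 2 ^ tsz s := Nat.one_le_two_pow
    have h3 : 1 ≤ 2 ^ tsz t := Nat.one_le_two_pow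
    nlinarith
  | sub s t ihs iht =>
    refine (nrm_subQ _ _).trans ?_
    have h1 : tsz (Term.sub s t) = tsz s + tsz t + 1 := by simp [tsz, Term.toks]
    rw [h1, pow_succ, pow_add]
    have h2 : 1 ≤ 2 ^ tsz s := Nat.one_le_two_pow
    have h3 : 1 ≤ 2 ^ tsz t := Nat.one_le_two_pow
    nlinarith
  | mul s t ihs iht =>
    refine (nrm_mulQ _ _).trans ((Nat.mul_le_mul ihs iht).trans ?_)
    have h1 : tsz (Term.mul s t) = tsz s + tsz t + 1 := by simp [tsz, Term.toks]
    rw [h1, pow_succ, pow_add]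
    exact Nat.le_mul_of_pos_right _ (by norm_num)

theorem qp_degLe (t : Term) : (qp n X t).DegLe (tsz t) := by
  induction t with
  | zero => exact ⟨by simp [qp], fun _ => by simp [qp], fun _ _ => by simp [qp]⟩
  | one => exact ⟨by simp [qp], fun _ => by simp [qp], fun _ _ => by simp [qp]⟩
  | var i =>
    have h1 : 1 ≤ tsz (Term.var i) := by simp [tsz, Term.toks]
    have key : ∀ p : QP (VX n X) (VY n X), p.DegLe 1 → p.DegLe (tsz (Term.var i)) :=
      fun p hp => hp.mono h1
    apply key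
    simp only [qp]
    split_ifs with h hx
    · exact ⟨td_X _, fun _ => by simp, fun _ _ => by simp⟩
    · refine ⟨by simp, fun a => ?_, fun _ _ => by simp⟩
      simp only []
      split_ifs <;> simp
    · exact ⟨by simp, fun _ => by simp, fun _ _ => by simp⟩
  | add s t ihs iht =>
    have h1 : tsz (Term.add s t) = tsz s + tsz t + 1 := by simp [tsz, Term.toks]
    exact deg_addQ (ihs.mono (by omega)) (iht.mono (by omega))
  | sub s t ihs iht =>
    have h1 : tsz (Term.sub s t) = tsz s + tsz t + 1 := by simp [tsz, Term.toks]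
    exact deg_subQ (ihs.mono (by omega)) (iht.mono (by omega))
  | mul s t ihs iht =>
    have h1 : tsz (Term.mul s t) = tsz s + tsz t + 1 := by simp [tsz, Term.toks]
    exact (deg_mulQ ihs iht).mono (by omega)

end

end ETR

end Pool.Agent.Helper54
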