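import Mathlib

namespace Pool.Agent.Helper54

open Filter Topology Finset

theorem tendsto_lead {S : Type*} [CommRing S] (p : Polynomial S) (φ : ℝ → S →+* ℝ)
    (φ0 : S →+* ℝ) (h : ∀ x, Tendsto (fun ω => φ ω x) atTop (𝓝 (φ0 x)))
    (hz : ∀ᶠ ω : ℝ in atTop, Polynomial.eval₂ (φ ω) ω p = 0) : φ0 p.leadingCoeff = 0 := by
  have h1 : Tendsto (fun ω : ℝ => ∑ j ∈ range (p.natDegree + 1),
      φ ω (p.coeff j) * (ω⁻¹) ^ (p.natDegree - j)) atTop
      (𝓝 (∑ j ∈ range (p.natDegree + 1), φ0 (p.coeff j) *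
        (if j = p.natDegree then 1 else 0))) := by
    apply tendsto_finsetSum
    intro j hj
    apply (h _).mul
    by_cases hjn : j = p.natDegree
    · simp [hjn]
    · have hlt : 0 < p.natDegree - j := by
        have := mem_range.1 hj
        omega
      simp only [hjn, if_false]
      have := (tendsto_inv_atTop_zero (𝕜 := ℝ)).pow (p.natDegree - j)
      rwa [zero_pow hlt.ne'] at this
  have h2 : (fun ω : ℝ => ∑ j ∈ range (p.natDegree + 1),
      φ ω (p.coeff j) * (ω⁻¹) ^ (p.natDegree - j)) =ᶠ[atTop] fun _ => (0 : ℝ) := by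
    filter_upwards [hz, eventually_gt_atTop 0] with ω hω hpos
    rw [Polynomial.eval₂_eq_sum_range] at hω
    have h3 : ∑ j ∈ range (p.natDegree + 1), φ ω (p.coeff j) * (ω⁻¹) ^ (p.natDegree - j)
        = (ω⁻¹) ^ p.natDegree * ∑ j ∈ range (p.natDegree + 1), φ ω (p.coeff j) * ω ^ j := by
      rw [mul_sum]
      apply sum_congr rfl
      intro j hj
      have hjle : j ≤ p.natDegree := by have := mem_range.1 hj; omega
      have h4 : (ω⁻¹) ^ p.natDegree = (ω⁻¹) ^ (p.natDegree - j) * (ω⁻¹) ^ j := by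
        rw [← pow_add]; congr 1; omega
      rw [h4]
      have h5 : (ω⁻¹) ^ j * ω ^ j = 1 := by
        rw [← mul_pow, inv_mul_cancel₀ hpos.ne', one_pow]
      calc φ ω (p.coeff j) * (ω⁻¹) ^ (p.natDegree - j)
          = φ ω (p.coeff j) * (ω⁻¹) ^ (p.natDegree - j) * ((ω⁻¹) ^ j * ω ^ j) := by
            rw [h5, mul_one]
        _ = _ := by ring
    rw [h3, hω, mul_zero]
  have h3 := tendsto_nhds_unique (h1.congr' h2) tendsto_const_nhds
  rw [sum_eq_single p.natDegree] at h3
  · simpa using h3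
  · intro b _ hb; simp [hb]
  · intro hb; simp at hb

theorem tendsto_trail {S : Type*} [CommRing S] (p : Polynomial S) (φ : ℝ → S →+* ℝ)
    (φ0 : S →+* ℝ) (h : ∀ x, Tendsto (fun ε => φ ε x) (𝓝[>] 0) (𝓝 (φ0 x)))
    (hz : ∀ᶠ ε : ℝ in 𝓝[>] 0, Polynomial.eval₂ (φ ε) ε p = 0) : φ0 p.trailingCoeff = 0 := by
  set m := p.natTrailingDegree with hm
  have h1 : Tendsto (fun ε : ℝ => ∑ j ∈ range (p.natDegree + 1),
      φ ε (p.coeff j) * (if j < m then 0 else ε ^ (j - m))) (𝓝[>] 0)
      (𝓝 (∑ j ∈ range (p.natDegree + 1), φ0 (p.coeff j) *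
        (if j = m then 1 else 0))) := by
    apply tendsto_finsetSum
    intro j hj
    apply (h _).mul
    by_cases hjn : j = m
    · simp [hjn]
    · simp only [hjn, if_false]
      by_cases hlt : j < m
      · simp [hlt]
      · simp only [hlt, if_false]
        have hlt : 0 < j - m := by omega
        have h0 : Tendsto (fun ε : ℝ => ε) (𝓝[>] 0) (𝓝 0) := tendsto_nhdsWithin_of_tendsto_nhds tendsto_id
        have := h0.pow (j - m)
        rwa [zero_pow hlt.ne'] at this
  have h2 : (fun ε : ℝ => ∑ j ∈ range (p.natDegree + 1),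
      φ ε (p.coeff j) * (if j < m then 0 else ε ^ (j - m))) =ᶠ[𝓝[>] 0] fun _ => (0 : ℝ) := by
    filter_upwards [hz, self_mem_nhdsWithin] with ε hε hpos
    have hpos : (0 : ℝ) < ε := hpos
    rw [Polynomial.eval₂_eq_sum_range] at hε
    have h3 : ε ^ m * ∑ j ∈ range (p.natDegree + 1),
        φ ε (p.coeff j) * (if j < m then 0 else ε ^ (j - m)) = 0 := by
      rw [← hε, mul_sum]
      apply sum_congr rfl
      intro j hj
      by_cases hlt : j < m
      · rw [Polynomial.coeff_eq_zero_of_lt_natTrailingDegree hlt]; simp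
      · simp only [hlt, if_false]
        have h4 : ε ^ j = ε ^ m * ε ^ (j - m) := by
          rw [← pow_add]; congr 1; omega
        rw [h4]; ring
    exact (mul_eq_zero.1 h3).resolve_left (pow_ne_zero _ hpos.ne')
  have h3 := tendsto_nhds_unique (h1.congr' h2) tendsto_const_nhds
  rw [sum_eq_single m] at h3
  · simpa [Polynomial.trailingCoeff] using h3
  · intro b _ hb; simp [hb]
  · intro hb
    have : m ≤ p.natDegree := Polynomial.natTrailingDegree_le_natDegree p
    simp at hb; omega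

/-- A multivariate polynomial over a ring mapped into `ℝ` vanishing on a cube has all
coefficients mapped to zero. -/
theorem coeff_zero_of_cube {S : Type*} [CommRing S] {P : Type*} (B : MvPolynomial P S)
    (φ : S →+* ℝ) (ρ : ℝ) (hρ : 0 < ρ)
    (h : ∀ π : P → ℝ, (∀ k, |π k| < ρ) → MvPolynomial.eval₂ φ π B = 0) (μ : P →₀ ℕ) :
    φ (B.coeff μ) = 0 := by
  have h1 : MvPolynomial.map φ B = 0 := by
    apply MvPolynomial.funext_set (fun _ => Set.Ioo (-ρ) ρ)
      (fun _ => Set.Ioo_infinite (by linarith))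
    intro x hx
    rw [map_zero, MvPolynomial.eval_map]
    apply h
    intro k
    have := hx k (Set.mem_univ k)
    exact abs_lt.2 ⟨this.1, this.2⟩
  have h2 := congrArg (MvPolynomial.coeff μ) h1
  rw [MvPolynomial.coeff_map] at h2
  simpa using h2

end Pool.Agent.Helper54
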