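import Mathlib

namespace Pool.Agent.Helper54

open Metric Set Filter Topology

/-- Penalty principle near the set of minimizers with maximal active set. -/
theorem penalty {E : Type*} [MetricSpace E] [ProperSpace E] {ι : Type*} [Fintype ι]
    (h : ι → E → ℝ) (hc : ∀ i, Continuous (h i)) (τ : E → ℝ) (hτ : Continuous τ) (ts : ℝ)
    (hne : ∃ z, (∀ i, h i z ≤ 0) ∧ τ z = ts)
    (hmin : ∀ z, (∀ i, h i z ≤ 0) → ts ≤ τ z)
    (hcpt : IsCompact {z | (∀ i, h i z ≤ 0) ∧ τ z = ts}) :
    ∃ (I : Finset ι) (N : Set E), IsCompact N ∧ (∃ zb ∈ N, ∀ i ∈ I, h i zb = 0) ∧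
      ∀ B δ : ℝ, 0 < δ → ∃ ε0 > 0, ∀ ε, 0 < ε → ε < ε0 → ∀ Φ : E → ℝ, ContinuousOn Φ N →
        (∀ z ∈ N, |Φ z| ≤ B) →
        ∃ z ∈ interior N, IsLocalMin
          (fun z => ∑ i ∈ I, h i z ^ 2 + ε * τ z + ε ^ 2 * Φ z) z ∧ |τ z - ts| < δ := by
  classical
  set M : Set E := {z | (∀ i, h i z ≤ 0) ∧ τ z = ts} with hM
  -- choose a minimizer with maximal active set
  let act : E → Finset ι := fun z => Finset.univ.filter (fun i => h i z = 0)
  obtain ⟨zb, hzbM, hzbmax⟩ : ∃ zb ∈ M, ∀ z ∈ M, (act z).card ≤ (act zb).card := by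
    have hfin : (Set.range (fun z : M => (act z.1).card)).Finite := by
      apply (Set.finite_Iic (Fintype.card ι)).subset
      rintro _ ⟨z, rfl⟩
      exact Finset.card_le_univ _
    obtain ⟨z0, hz0⟩ := hne
    have hnon : (Set.range (fun z : M => (act z.1).card)).Nonempty := ⟨_, ⟨⟨z0, hz0⟩, rfl⟩⟩
    obtain ⟨c, ⟨zb, rfl⟩, hmax⟩ := Set.Finite.exists_maximal hfin hnon
    refine ⟨zb.1, zb.2, fun z hz => ?_⟩
    by_contra hlt
    push Not at hlt
    have := hmax ⟨⟨z, hz⟩, rfl⟩ hlt.le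
    simp only at this
    omega
  set I := act zb with hI
  set MI : Set E := {z | z ∈ M ∧ ∀ i ∈ I, h i z = 0} with hMI
  have hzbMI : zb ∈ MI := ⟨hzbM, fun i hi => by simpa [hI, act] using hi⟩
  have hMIc : IsCompact MI := by
    have : MI = M ∩ ⋂ i ∈ I, {z | h i z = 0} := by
      ext z; simp [hMI]
    rw [this]
    apply hcpt.inter_right
    exact isClosed_biInter fun i _ => isClosed_eq (hc i) continuous_const
  have hinact : ∀ z ∈ MI, ∀ i, i ∉ I → h i z < 0 := by
    intro z hz i hi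
    refine lt_of_le_of_ne (hz.1.1 i) fun h0 => ?_
    have hsub : insert i I ⊆ act z := by
      intro j hj
      rcases Finset.mem_insert.1 hj with rfl | hj
      · simp [act, h0]
      · simp [act, hz.2 j hj]
    have h1 := Finset.card_le_card hsub
    rw [Finset.card_insert_of_notMem hi] at h1
    have h2 := hzbmax z hz.1
    have h3 : (act zb).card = I.card := rfl
    omega
  -- radius
  have hopen : IsOpen (⋂ i ∈ {i | i ∉ I}, {z : E | h i z < 0}) := by
    apply Set.Finite.isOpen_biInter (Set.toFinite _)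
    intro i _
    exact isOpen_lt (hc i) continuous_const
  have hsubopen : MI ⊆ ⋂ i ∈ {i | i ∉ I}, {z : E | h i z < 0} := by
    intro z hz
    simp only [Set.mem_iInter]
    intro i hi
    exact hinact z hz i hi
  obtain ⟨r, hr0, hr⟩ := hMIc.exists_cthickening_subset_open hopen hsubopen
  set N : Set E := cthickening r MI with hN
  have hNc : IsCompact N := hMIc.cthickening
  have hzbN : zb ∈ N := self_subset_cthickening _ hzbMI
  refine ⟨I, N, hNc, ⟨zb, hzbN, fun i hi => hzbMI.2 i hi⟩, ?_⟩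
  set Q : E → ℝ := fun z => ∑ i ∈ I, h i z ^ 2 with hQ
  have hQc : Continuous Q := by
    apply continuous_finsetSum; intro i _; exact (hc i).pow 2
  have hQ0 : ∀ z, 0 ≤ Q z := fun z => Finset.sum_nonneg fun i _ => sq_nonneg _
  have hkey : ∀ z ∈ N, Q z = 0 → τ z ≤ ts → z ∈ MI := by
    intro z hz hq ht
    have h0 : ∀ i ∈ I, h i z = 0 := by
      intro i hi
      have := (Finset.sum_eq_zero_iff_of_nonneg (fun i _ => sq_nonneg (h i z))).1 hq i hi
      simpa using this
    have hfeas : ∀ i, h i z ≤ 0 := by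
      intro i
      by_cases hi : i ∈ I
      · exact (h0 i hi).le
      · have := hr hz
        simp only [Set.mem_iInter] at this
        exact (this i hi).le
    exact ⟨⟨hfeas, le_antisymm ht (hmin z hfeas)⟩, h0⟩
  intro B δ hδ
  -- the bad compact set
  set K : Set E := N ∩ ({z | r / 2 ≤ infDist z MI} ∪ {z | δ ≤ |τ z - ts|}) with hK
  have hKc : IsCompact K := by
    apply hNc.inter_right
    apply IsClosed.union
    · exact isClosed_le continuous_const (continuous_infDist_pt MI)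
    · exact isClosed_le continuous_const ((hτ.sub continuous_const).abs)
  set m : E → ℝ := fun z => max (Q z) (τ z - ts) with hm
  have hmc : Continuous m := hQc.max (hτ.sub continuous_const)
  have hmpos : ∀ z ∈ K, 0 < m z := by
    intro z hz
    by_contra hcon
    push Not at hcon
    have h1 : Q z ≤ 0 := le_trans (le_max_left _ _) hcon
    have h2 : τ z - ts ≤ 0 := le_trans (le_max_right _ _) hcon
    have hzMI : z ∈ MI := hkey z hz.1 (le_antisymm h1 (hQ0 z)) (by linarith)
    rcases hz.2 with h3 | h3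
    · have : infDist z MI = 0 := infDist_zero_of_mem hzMI
      simp only [Set.mem_ofPred_eq, this] at h3
      linarith
    · have : τ z = ts := hzMI.1.2
      simp only [Set.mem_ofPred_eq, this, sub_self, abs_zero] at h3
      linarith
  obtain ⟨κ, hκ0, hκ⟩ : ∃ κ > 0, ∀ z ∈ K, κ ≤ m z := by
    rcases K.eq_empty_or_nonempty with hKe | hKne
    · exact ⟨1, one_pos, fun z hz => by rw [hKe] at hz; exact absurd hz (Set.notMem_empty z)⟩
    · obtain ⟨z0, hz0, hz0m⟩ := hKc.exists_isMinOn hKne hmc.continuousOn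
      exact ⟨m z0, hmpos z0 hz0, fun z hz => hz0m hz⟩
  obtain ⟨T, hT⟩ : ∃ T, ∀ z ∈ N, |τ z - ts| ≤ T := by
    obtain ⟨T, hT⟩ := hNc.exists_bound_of_continuousOn (f := fun z => τ z - ts)
      (hτ.sub continuous_const).continuousOn
    exact ⟨T, fun z hz => by simpa using hT z hz⟩
  have hT0 : 0 ≤ T := le_trans (abs_nonneg _) (hT zb hzbN)
  refine ⟨min 1 (κ / (T + 2 * |B| + 1)), by positivity, ?_⟩
  intro ε hε hεlt Φ hΦc hΦB
  have hε1 : ε < 1 := lt_of_lt_of_le hεlt (min_le_left _ _)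
  have hε2 : ε * (T + 2 * |B| + 1) < κ := by
    have := lt_of_lt_of_le hεlt (min_le_right _ _)
    rwa [lt_div_iff₀ (by positivity)] at this
  set G : E → ℝ := fun z => ∑ i ∈ I, h i z ^ 2 + ε * τ z + ε ^ 2 * Φ z with hG
  have hGc : ContinuousOn G N := by
    apply ContinuousOn.add
    · exact ((hQc.add (continuous_const.mul hτ))).continuousOn
    · exact continuousOn_const.mul hΦc
  obtain ⟨z0, hz0N, hz0min⟩ := hNc.exists_isMinOn ⟨zb, hzbN⟩ hGc
  have hcomp : G z0 ≤ G zb := hz0min hzbN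
  have hQzb : Q zb = 0 := Finset.sum_eq_zero fun i hi => by rw [hzbMI.2 i hi]; ring
  have hτzb : τ zb = ts := hzbMI.1.2
  have hΦ0 := abs_le.1 (hΦB z0 hz0N)
  have hΦb := abs_le.1 (hΦB zb hzbN)
  have hBB : B ≤ |B| := le_abs_self B
  have hineq : Q z0 + ε * (τ z0 - ts) ≤ ε ^ 2 * (2 * |B|) := by
    have h1 : Q z0 + ε * τ z0 + ε ^ 2 * Φ z0 ≤ Q zb + ε * τ zb + ε ^ 2 * Φ zb := hcomp
    rw [hQzb, hτzb] at h1
    have h2 : ε ^ 2 * Φ zb ≤ ε ^ 2 * |B| := by
      apply mul_le_mul_of_nonneg_left _ (by positivity); linarith [hΦb.2]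
    have h3 : - (ε ^ 2 * |B|) ≤ ε ^ 2 * Φ z0 := by
      have : ε ^ 2 * (-|B|) ≤ ε ^ 2 * Φ z0 := by
        apply mul_le_mul_of_nonneg_left _ (by positivity); linarith [hΦ0.1]
      linarith
    linarith
  have hτlow := abs_le.1 (hT z0 hz0N)
  have hQsmall : Q z0 < κ := by
    have h1 : -(ε * T) ≤ ε * (τ z0 - ts) := by
      have : ε * (-T) ≤ ε * (τ z0 - ts) := mul_le_mul_of_nonneg_left hτlow.1 hε.le
      linarith
    have h2 : ε ^ 2 * (2 * |B|) ≤ ε * (2 * |B|) := by
      have : ε ^ 2 ≤ ε := by nlinarith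
      exact mul_le_mul_of_nonneg_right this (by positivity)
    nlinarith
  have hτsmall : τ z0 - ts < κ := by
    have h1 : ε * (τ z0 - ts) ≤ ε ^ 2 * (2 * |B|) := by linarith [hQ0 z0]
    have h2 : τ z0 - ts ≤ ε * (2 * |B|) := by
      have : ε * (τ z0 - ts) ≤ ε * (ε * (2 * |B|)) := by nlinarith
      exact le_of_mul_le_mul_left this hε
    nlinarith
  have hz0K : z0 ∉ K := fun hzK => by
    have := hκ z0 hzK
    have h2 : m z0 < κ := max_lt hQsmall hτsmall
    linarith
  have hz0' : infDist z0 MI < r / 2 ∧ |τ z0 - ts| < δ := by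
    constructor
    · by_contra hcon; push Not at hcon
      exact hz0K ⟨hz0N, Or.inl hcon⟩
    · by_contra hcon; push Not at hcon
      exact hz0K ⟨hz0N, Or.inr hcon⟩
  have hz0int : z0 ∈ interior N := by
    have h1 : thickening r MI ⊆ interior N :=
      interior_maximal (thickening_subset_cthickening r MI) isOpen_thickening
    apply h1
    rw [mem_thickening_iff_infDist_lt ⟨zb, hzbMI⟩]
    linarith [hz0'.1]
  refine ⟨z0, hz0int, ?_, hz0'.2⟩
  have : IsMinOn G N z0 := hz0min
  exact this.isLocalMin (mem_interior_iff_mem_nhds.1 hz0int)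

end Pool.Agent.Helper54
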