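import Mathlib

section
namespace Pool.Agent.Helper54

open Finset

/-- A submultiplicative, subadditive size function on a commutative ring. -/
structure SubNorm (R : Type*) [CommRing R] where
  f : R → ℕ
  map_zero : f 0 = 0
  map_one_le : f 1 ≤ 1
  map_neg : ∀ a, f (-a) = f a
  add_le : ∀ a b, f (a + b) ≤ f a + f b
  mul_le : ∀ a b, f (a * b) ≤ f a * f b

namespace SubNorm

variable {R : Type*} [CommRing R] (ν : SubNorm R)

theorem sub_le (a b : R) : ν.f (a - b) ≤ ν.f a + ν.f b := by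
  rw [sub_eq_add_neg]
  have := ν.add_le a (-b)
  rwa [ν.map_neg] at this

theorem sum_le {ι : Type*} (s : Finset ι) (g : ι → R) :
    ν.f (∑ i ∈ s, g i) ≤ ∑ i ∈ s, ν.f (g i) := by
  classical
  induction s using Finset.induction_on with
  | empty => simp [ν.map_zero]
  | insert a s ha ih =>
    rw [sum_insert ha, sum_insert ha]
    exact (ν.add_le _ _).trans (by omega)

theorem prod_le {ι : Type*} (s : Finset ι) (g : ι → R) :
    ν.f (∏ i ∈ s, g i) ≤ ∏ i ∈ s, ν.f (g i) := by
  classical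
  induction s using Finset.induction_on with
  | empty => simpa using ν.map_one_le
  | insert a s ha ih =>
    rw [prod_insert ha, prod_insert ha]
    exact (ν.mul_le _ _).trans (Nat.mul_le_mul_left _ ih)

theorem pow_le (a : R) (n : ℕ) : ν.f (a ^ n) ≤ ν.f a ^ n := by
  induction n with
  | zero => simpa using ν.map_one_le
  | succ n ih =>
    rw [pow_succ, pow_succ]
    exact (ν.mul_le _ _).trans (Nat.mul_le_mul_right _ ih)

theorem unit_smul (u : ℤˣ) (a : R) : ν.f (u • a) = ν.f a := by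
  rcases Int.units_eq_one_or u with rfl | rfl
  · simp
  · simp [ν.map_neg]

theorem det_le {n : Type*} [Fintype n] [DecidableEq n] (A : Matrix n n R) :
    ν.f A.det ≤ ∏ i, ∑ j, ν.f (A i j) := by
  rw [← Matrix.det_transpose, Matrix.det_apply]
  refine (ν.sum_le _ _).trans ?_
  rw [Finset.prod_univ_sum]
  have h1 : ∑ σ : Equiv.Perm n, ν.f (Equiv.Perm.sign σ • ∏ i, A.transpose (σ i) i) ≤
      ∑ σ : Equiv.Perm n, ∏ i, ν.f (A i (σ i)) := by
    apply Finset.sum_le_sum
    intro σ _
    rw [ν.unit_smul]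
    exact ν.prod_le _ _
  refine h1.trans ?_
  rw [← Finset.sum_image (s := (Finset.univ : Finset (Equiv.Perm n)))
    (g := fun σ : Equiv.Perm n => (σ : n → n)) (f := fun x : n → n => ∏ i, ν.f (A i (x i)))]
  · apply Finset.sum_le_sum_of_subset
    intro x _
    simp
  · intro a _ b _ hab
    exact DFunLike.coe_injective hab

end SubNorm

/-- The absolute value on the integers. -/
def intSN : SubNorm ℤ where
  f := Int.natAbs
  map_zero := rfl
  map_one_le := le_rfl
  map_neg := Int.natAbs_neg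
  add_le := Int.natAbs_add_le
  mul_le a b := (Int.natAbs_mul a b).le

section mv

variable {R : Type*} [CommRing R] (W : Type*)

/-- l1 size of a multivariate polynomial. -/
noncomputable def mvF (ν : SubNorm R) (p : MvPolynomial W R) : ℕ :=
  ∑ μ ∈ p.support, ν.f (p.coeff μ)

variable {W}

theorem mvF_eq (ν : SubNorm R) (p : MvPolynomial W R) (s : Finset (W →₀ ℕ))
    (hs : p.support ⊆ s) : mvF W ν p = ∑ μ ∈ s, ν.f (p.coeff μ) := by
  apply Finset.sum_subset hs
  intro x _ hx
  rw [MvPolynomial.notMem_support_iff.1 hx, ν.map_zero]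

theorem mvF_monomial (ν : SubNorm R) (μ : W →₀ ℕ) (a : R) :
    mvF W ν (MvPolynomial.monomial μ a) ≤ ν.f a := by
  classical
  rw [mvF_eq ν _ {μ} MvPolynomial.support_monomial_subset]
  simp

theorem mvF_add (ν : SubNorm R) (p q : MvPolynomial W R) :
    mvF W ν (p + q) ≤ mvF W ν p + mvF W ν q := by
  classical
  rw [mvF_eq ν (p + q) (p.support ∪ q.support) MvPolynomial.support_add,
    mvF_eq ν p (p.support ∪ q.support) subset_union_left,
    mvF_eq ν q (p.support ∪ q.support) subset_union_right, ← Finset.sum_add_distrib]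
  apply Finset.sum_le_sum
  intro μ _
  rw [MvPolynomial.coeff_add]
  exact ν.add_le _ _

theorem mvF_sum (ν : SubNorm R) {ι : Type*} (s : Finset ι) (g : ι → MvPolynomial W R) :
    mvF W ν (∑ i ∈ s, g i) ≤ ∑ i ∈ s, mvF W ν (g i) := by
  classical
  induction s using Finset.induction_on with
  | empty => simp [mvF]
  | insert a s ha ih =>
    rw [sum_insert ha, sum_insert ha]
    exact (mvF_add ν _ _).trans (by omega)

theorem mvF_mul (ν : SubNorm R) (p q : MvPolynomial W R) :
    mvF W ν (p * q) ≤ mvF W ν p * mvF W ν q := by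
  classical
  conv_lhs => rw [p.as_sum, q.as_sum, Finset.sum_mul_sum]
  refine (mvF_sum ν _ _).trans ?_
  rw [mvF, mvF, Finset.sum_mul_sum]
  apply Finset.sum_le_sum
  intro μ _
  refine (mvF_sum ν _ _).trans ?_
  apply Finset.sum_le_sum
  intro μ' _
  rw [MvPolynomial.monomial_mul]
  exact (mvF_monomial ν _ _).trans (ν.mul_le _ _)

/-- The l1 size on a multivariate polynomial ring. -/
noncomputable def mvSN (W : Type*) (ν : SubNorm R) : SubNorm (MvPolynomial W R) where
  f := mvF W ν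
  map_zero := by simp [mvF]
  map_one_le := (mvF_monomial ν 0 1).trans ν.map_one_le
  map_neg p := by simp [mvF, MvPolynomial.support_neg, ν.map_neg]
  add_le := mvF_add ν
  mul_le := mvF_mul ν

theorem mvSN_C (ν : SubNorm R) (a : R) : (mvSN W ν).f (MvPolynomial.C a) ≤ ν.f a :=
  mvF_monomial ν 0 a

theorem mvSN_X (ν : SubNorm R) (j : W) : (mvSN W ν).f (MvPolynomial.X j) ≤ 1 :=
  (mvF_monomial ν _ 1).trans ν.map_one_le

theorem coeff_le_mvSN (ν : SubNorm R) (p : MvPolynomial W R) (μ : W →₀ ℕ) :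
    ν.f (p.coeff μ) ≤ (mvSN W ν).f p := by
  classical
  by_cases h : μ ∈ p.support
  · exact Finset.single_le_sum (f := fun μ => ν.f (p.coeff μ)) (fun _ _ => Nat.zero_le _) h
  · rw [MvPolynomial.notMem_support_iff.1 h, ν.map_zero]; exact Nat.zero_le _

end mv

section poly

variable {R : Type*} [CommRing R]

/-- l1 size of a polynomial. -/
noncomputable def pF (ν : SubNorm R) (p : Polynomial R) : ℕ :=
  ∑ μ ∈ p.support, ν.f (p.coeff μ)

theorem pF_eq (ν : SubNorm R) (p : Polynomial R) (s : Finset ℕ)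
    (hs : p.support ⊆ s) : pF ν p = ∑ μ ∈ s, ν.f (p.coeff μ) := by
  apply Finset.sum_subset hs
  intro x _ hx
  rw [Polynomial.notMem_support_iff.1 hx, ν.map_zero]

theorem pF_monomial (ν : SubNorm R) (μ : ℕ) (a : R) :
    pF ν (Polynomial.monomial μ a) ≤ ν.f a := by
  classical
  rw [pF_eq ν _ {μ} (Polynomial.support_monomial_subset μ a)]
  simp

theorem pF_add (ν : SubNorm R) (p q : Polynomial R) :
    pF ν (p + q) ≤ pF ν p + pF ν q := by
  classical
  rw [pF_eq ν (p + q) (p.support ∪ q.support) Polynomial.support_add,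
    pF_eq ν p (p.support ∪ q.support) subset_union_left,
    pF_eq ν q (p.support ∪ q.support) subset_union_right, ← Finset.sum_add_distrib]
  apply Finset.sum_le_sum
  intro μ _
  rw [Polynomial.coeff_add]
  exact ν.add_le _ _

theorem pF_sum (ν : SubNorm R) {ι : Type*} (s : Finset ι) (g : ι → Polynomial R) :
    pF ν (∑ i ∈ s, g i) ≤ ∑ i ∈ s, pF ν (g i) := by
  classical
  induction s using Finset.induction_on with
  | empty => simp [pF]
  | insert a s ha ih =>
    rw [sum_insert ha, sum_insert ha]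
    exact (pF_add ν _ _).trans (by omega)

theorem pF_mul (ν : SubNorm R) (p q : Polynomial R) :
    pF ν (p * q) ≤ pF ν p * pF ν q := by
  classical
  conv_lhs => rw [p.as_sum_support, q.as_sum_support, Finset.sum_mul_sum]
  refine (pF_sum ν _ _).trans ?_
  rw [pF, pF, Finset.sum_mul_sum]
  apply Finset.sum_le_sum
  intro μ _
  refine (pF_sum ν _ _).trans ?_
  apply Finset.sum_le_sum
  intro μ' _
  rw [Polynomial.monomial_mul_monomial]
  exact (pF_monomial ν _ _).trans (ν.mul_le _ _)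

/-- The l1 size on a polynomial ring. -/
noncomputable def pSN (ν : SubNorm R) : SubNorm (Polynomial R) where
  f := pF ν
  map_zero := by simp [pF]
  map_one_le := (pF_monomial ν 0 1).trans ν.map_one_le
  map_neg p := by simp [pF, Polynomial.support_neg, ν.map_neg]
  add_le := pF_add ν
  mul_le := pF_mul ν

theorem pSN_C (ν : SubNorm R) (a : R) : (pSN ν).f (Polynomial.C a) ≤ ν.f a :=
  pF_monomial ν 0 a

theorem pSN_X (ν : SubNorm R) : (pSN ν).f (Polynomial.X : Polynomial R) ≤ 1 :=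
  (pF_monomial ν 1 1).trans ν.map_one_le

theorem coeff_le_pSN (ν : SubNorm R) (p : Polynomial R) (n : ℕ) :
    ν.f (p.coeff n) ≤ (pSN ν).f p := by
  classical
  by_cases h : n ∈ p.support
  · exact Finset.single_le_sum (f := fun μ => ν.f (p.coeff μ)) (fun _ _ => Nat.zero_le _) h
  · rw [Polynomial.notMem_support_iff.1 h, ν.map_zero]; exact Nat.zero_le _

theorem pSN_map {S : Type*} [CommRing S] (ν : SubNorm R) (μ : SubNorm S) (g : R →+* S)
    (hg : ∀ a, μ.f (g a) ≤ ν.f a) (p : Polynomial R) :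
    (pSN μ).f (p.map g) ≤ (pSN ν).f p := by
  classical
  change pF μ _ ≤ pF ν p
  rw [pF_eq μ (p.map g) p.support (Polynomial.support_map_subset g p)]
  apply Finset.sum_le_sum
  intro n _
  rw [Polynomial.coeff_map]
  exact hg _

end poly

end Pool.Agent.Helper54
end

section
namespace Pool.Agent.Helper54

open Finset

variable {R : Type*} [CommRing R] {W : Type*} [Fintype W] [DecidableEq W]

/-- The point `w` (with parameters specialised by `φ`) solves `w_j ^ N = F_j(w)` for all `j`. -/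
def Solves (N : ℕ) (F : W → MvPolynomial W R) (φ : R →+* ℝ) (w : W → ℝ) : Prop :=
  ∀ j, w j ^ N = MvPolynomial.eval₂ φ w (F j)

theorem red (ν : SubNorm R) (N : ℕ) (hN : 0 < N) (F : W → MvPolynomial W R)
    (hdeg : ∀ j, (F j).totalDegree < N) (C : ℕ) (hC1 : 1 ≤ C)
    (hC : ∀ j, (mvSN W ν).f (F j) ≤ C) (n : ℕ) :
    ∀ γ : W → ℕ, ∑ j, γ j ≤ n → ∃ r : (W → Fin N) → R, ∑ β, ν.f (r β) ≤ C ^ n ∧
      ∀ (φ : R →+* ℝ) (w : W → ℝ), Solves N F φ w →
        ∏ j, w j ^ γ j = ∑ β, φ (r β) * ∏ j, w j ^ (β j : ℕ) := by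
  induction n with
  | zero =>
    intro γ hγ
    have hlt : ∀ j, γ j < N := by
      intro j
      have : γ j ≤ ∑ j, γ j := Finset.single_le_sum (fun _ _ => Nat.zero_le _) (Finset.mem_univ j)
      omega
    refine ⟨Pi.single (fun j => ⟨γ j, hlt j⟩) 1, ?_, ?_⟩
    · rw [Finset.sum_eq_single (fun j => (⟨γ j, hlt j⟩ : Fin N))]
      · simpa using ν.map_one_le
      · intro b _ hb; rw [Pi.single_eq_of_ne hb, ν.map_zero]
      · intro h; exact absurd (Finset.mem_univ _) h
    · intro φ w _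
      rw [Finset.sum_eq_single (fun j => (⟨γ j, hlt j⟩ : Fin N))]
      · simp
      · intro b _ hb; rw [Pi.single_eq_of_ne hb]; simp
      · intro h; exact absurd (Finset.mem_univ _) h
  | succ n ih =>
    intro γ hγ
    by_cases hlt : ∀ j, γ j < N
    · refine ⟨Pi.single (fun j => ⟨γ j, hlt j⟩) 1, ?_, ?_⟩
      · rw [Finset.sum_eq_single (fun j => (⟨γ j, hlt j⟩ : Fin N))]
        · simp only [Pi.single_eq_same]
          exact ν.map_one_le.trans (Nat.one_le_pow _ _ hC1)
        · intro b _ hb; rw [Pi.single_eq_of_ne hb, ν.map_zero]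
        · intro h; exact absurd (Finset.mem_univ _) h
      · intro φ w _
        rw [Finset.sum_eq_single (fun j => (⟨γ j, hlt j⟩ : Fin N))]
        · simp
        · intro b _ hb; rw [Pi.single_eq_of_ne hb]; simp
        · intro h; exact absurd (Finset.mem_univ _) h
    · push Not at hlt
      obtain ⟨j0, hj0⟩ := hlt
      -- gamma' = gamma - N e_{j0}
      let γ' : W → ℕ := Function.update γ j0 (γ j0 - N)
      have hγ' : ∑ j, γ' j + N = ∑ j, γ j := by
        have h1 : ∑ j, γ' j = γ' j0 + ∑ j ∈ Finset.univ.erase j0, γ' j :=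
          (Finset.add_sum_erase _ _ (Finset.mem_univ j0)).symm
        have h2 : ∑ j, γ j = γ j0 + ∑ j ∈ Finset.univ.erase j0, γ j :=
          (Finset.add_sum_erase _ _ (Finset.mem_univ j0)).symm
        have h3 : ∑ j ∈ Finset.univ.erase j0, γ' j = ∑ j ∈ Finset.univ.erase j0, γ j := by
          apply Finset.sum_congr rfl
          intro j hj
          simp [γ', Function.update_of_ne (Finset.ne_of_mem_erase hj)]
        have h4 : γ' j0 = γ j0 - N := by simp [γ']
        omega
      have hdegμ : ∀ μ ∈ (F j0).support, ∑ j, (γ' j + μ j) ≤ n := by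
        intro μ hμ
        have h1 : (μ.sum fun _ e => e) ≤ (F j0).totalDegree := MvPolynomial.le_totalDegree hμ
        have h2 : (μ.sum fun _ e => e) = ∑ j, μ j := by
          rw [Finsupp.sum_fintype]; simp
        have h3 := hdeg j0
        rw [Finset.sum_add_distrib]
        omega
      choose! rr hrr1 hrr2 using fun (μ : W →₀ ℕ) (hμ : μ ∈ (F j0).support) =>
        ih (fun j => γ' j + μ j) (hdegμ μ hμ)
      refine ⟨fun β => ∑ μ ∈ (F j0).support, (F j0).coeff μ * rr μ β, ?_, ?_⟩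
      · calc ∑ β, ν.f (∑ μ ∈ (F j0).support, (F j0).coeff μ * rr μ β)
            ≤ ∑ β, ∑ μ ∈ (F j0).support, ν.f ((F j0).coeff μ) * ν.f (rr μ β) := by
              apply Finset.sum_le_sum
              intro β _
              refine (ν.sum_le _ _).trans (Finset.sum_le_sum fun μ _ => ν.mul_le _ _)
          _ = ∑ μ ∈ (F j0).support, ν.f ((F j0).coeff μ) * ∑ β, ν.f (rr μ β) := by
              rw [Finset.sum_comm]
              apply Finset.sum_congr rfl
              intro μ _
              rw [Finset.mul_sum]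
          _ ≤ ∑ μ ∈ (F j0).support, ν.f ((F j0).coeff μ) * C ^ n := by
              apply Finset.sum_le_sum
              intro μ hμ
              exact Nat.mul_le_mul_left _ (hrr1 μ hμ)
          _ = (mvSN W ν).f (F j0) * C ^ n := by
              rw [← Finset.sum_mul]; rfl
          _ ≤ C ^ (n + 1) := by
              rw [pow_succ, mul_comm (C ^ n)]
              exact Nat.mul_le_mul_right _ (hC j0)
      · intro φ w hw
        have h1 : ∏ j, w j ^ γ j = w j0 ^ N * ∏ j, w j ^ γ' j := by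
          rw [← Finset.mul_prod_erase Finset.univ (fun j => w j ^ γ j) (Finset.mem_univ j0),
            ← Finset.mul_prod_erase Finset.univ (fun j => w j ^ γ' j) (Finset.mem_univ j0)]
          have h3 : ∏ j ∈ Finset.univ.erase j0, w j ^ γ' j
              = ∏ j ∈ Finset.univ.erase j0, w j ^ γ j := by
            apply Finset.prod_congr rfl
            intro j hj
            simp [γ', Function.update_of_ne (Finset.ne_of_mem_erase hj)]
          rw [h3, ← mul_assoc, ← pow_add]
          have h4 : N + γ' j0 = γ j0 := by simp [γ']; omega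
          rw [h4]
        rw [h1, hw j0, MvPolynomial.eval₂_eq', Finset.sum_mul]
        simp only [map_sum, map_mul, Finset.sum_mul]
        rw [Finset.sum_comm]
        apply Finset.sum_congr rfl
        intro μ hμ
        have h5 := hrr2 μ hμ φ w hw
        have h6 : (∏ j, w j ^ μ j) * ∏ j, w j ^ γ' j = ∏ j, w j ^ (γ' j + μ j) := by
          rw [← Finset.prod_mul_distrib]
          apply Finset.prod_congr rfl
          intro j _
          rw [← pow_add, add_comm]
        rw [mul_assoc, h6, h5, Finset.mul_sum]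
        apply Finset.sum_congr rfl
        intro β _
        ring

/-- Elimination: the coordinate `w j0` of every solution is an eigenvalue of a matrix over `R`
with controlled entries. -/
theorem elim (ν : SubNorm R) (N : ℕ) (hN : 0 < N) (F : W → MvPolynomial W R)
    (hdeg : ∀ j, (F j).totalDegree < N) (C : ℕ) (hC1 : 1 ≤ C)
    (hC : ∀ j, (mvSN W ν).f (F j) ≤ C) (j0 : W) :
    ∃ M : Matrix (W → Fin N) (W → Fin N) R,
      (∀ α, ∑ β, ν.f (M α β) ≤ C ^ (Fintype.card W * N)) ∧
      ∀ (φ : R →+* ℝ) (w : W → ℝ), Solves N F φ w →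
        (Matrix.scalar _ (w j0) - M.map φ).det = 0 := by
  have hcardW : 0 < Fintype.card W := Fintype.card_pos_iff.2 ⟨j0⟩
  have hγ : ∀ α : W → Fin N, ∑ j, ((α j : ℕ) + if j = j0 then 1 else 0) ≤
      Fintype.card W * N := by
    intro α
    rw [Finset.sum_add_distrib]
    have h1 : ∑ j, (α j : ℕ) ≤ ∑ _j : W, (N - 1) := by
      apply Finset.sum_le_sum
      intro j _
      have := (α j).2
      omega
    have h2 : ∑ _j : W, (N - 1) = Fintype.card W * (N - 1) := by simp
    have h3 : ∑ j : W, (if j = j0 then 1 else 0) = 1 := by simp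
    have h4 : Fintype.card W * (N - 1) + Fintype.card W = Fintype.card W * N := by
      conv_rhs => rw [← Nat.sub_add_cancel hN]
      ring
    omega
  choose M hM1 hM2 using fun α : W → Fin N =>
    red ν N hN F hdeg C hC1 hC (Fintype.card W * N)
      (fun j => (α j : ℕ) + if j = j0 then 1 else 0) (hγ α)
  refine ⟨Matrix.of M, fun α => hM1 α, ?_⟩
  intro φ w hw
  rw [← Matrix.exists_mulVec_eq_zero_iff]
  refine ⟨fun β => ∏ j, w j ^ (β j : ℕ), ?_, ?_⟩
  · intro h0
    have := congrFun h0 (fun _ => ⟨0, hN⟩)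
    simp at this
  · ext α
    have h1 := hM2 α φ w hw
    have h2 : ∏ j, w j ^ ((α j : ℕ) + if j = j0 then 1 else 0)
        = w j0 * ∏ j, w j ^ (α j : ℕ) := by
      simp only [pow_add, Finset.prod_mul_distrib]
      rw [mul_comm]
      congr 1
      rw [Finset.prod_eq_single j0]
      · simp
      · intro b _ hb; simp [hb]
      · intro h; exact absurd (Finset.mem_univ _) h
    rw [h2] at h1
    rw [Matrix.sub_mulVec]
    simp only [Pi.sub_apply, Pi.zero_apply]
    rw [sub_eq_zero]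
    have h3 : (Matrix.scalar (W → Fin N) (w j0)).mulVec (fun β => ∏ j, w j ^ (β j : ℕ)) α
        = w j0 * ∏ j, w j ^ (α j : ℕ) := by
      simp [Matrix.scalar_apply, Matrix.mulVec_diagonal]
    rw [h3, h1]
    simp [Matrix.mulVec, dotProduct, Matrix.map_apply]

end Pool.Agent.Helper54
end

section
namespace Pool.Agent.Helper54

open Filter Topology Finset

/-- Polynomials of degree at most two in the variables `Y`, with coefficients integer
polynomials in the variables `V`. -/
structure QP (V Y : Type) where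
  c : MvPolynomial V ℤ
  g : Y → MvPolynomial V ℤ
  H : Y → Y → MvPolynomial V ℤ

section defs

variable {V Y : Type} [Fintype Y]

/-- evaluation of integer polynomials at a real point -/
noncomputable def iv (v : V → ℝ) : MvPolynomial V ℤ →+* ℝ :=
  MvPolynomial.eval₂Hom (Int.castRingHom ℝ) v

namespace QP

noncomputable def ev1 (e : QP V Y) (v : V → ℝ) (y : Y → ℝ) : ℝ :=
  iv v e.c + ∑ a, iv v (e.g a) * y a

noncomputable def ev (e : QP V Y) (v : V → ℝ) (y : Y → ℝ) : ℝ :=
  e.ev1 v y + ∑ a, ∑ b, iv v (e.H a b) * y a * y b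

noncomputable def dy (e : QP V Y) (a : Y) (v : V → ℝ) (y : Y → ℝ) : ℝ :=
  iv v (e.g a) + ∑ b, (iv v (e.H a b) + iv v (e.H b a)) * y b

noncomputable def dv (e : QP V Y) (j : V) : QP V Y :=
  ⟨MvPolynomial.pderiv j e.c, fun a => MvPolynomial.pderiv j (e.g a),
    fun a b => MvPolynomial.pderiv j (e.H a b)⟩

end QP

end defs

section rings

variable (P : Type)

/-- integer polynomials in the parameters `P` -/
def R1 : Type := MvPolynomial P ℤ

noncomputable instance : CommRing (R1 P) := inferInstanceAs (CommRing (MvPolynomial P ℤ))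

/-- polynomials in the parameters `P` over `ℤ[t]` -/
def S1 : Type := MvPolynomial P (Polynomial ℤ)

noncomputable instance : CommRing (S1 P) :=
  inferInstanceAs (CommRing (MvPolynomial P (Polynomial ℤ)))

abbrev R2 := Polynomial (R1 P)
abbrev R3 := Polynomial (R2 P)
abbrev S2 := Polynomial (S1 P)
abbrev S3 := Polynomial (S2 P)

variable {P}

noncomputable def xR1 (k : P) : R1 P := (MvPolynomial.X k : MvPolynomial P ℤ)

noncomputable def evR1 (π : P → ℝ) : R1 P →+* ℝ := (iv π : MvPolynomial P ℤ →+* ℝ)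

theorem evR1_x (π : P → ℝ) (k : P) : evR1 π (xR1 k) = π k :=
  MvPolynomial.eval₂_X (Int.castRingHom ℝ) π k

noncomputable def evR2 (ε : ℝ) (π : P → ℝ) : R2 P →+* ℝ :=
  Polynomial.eval₂RingHom (evR1 π) ε

noncomputable def evR3 (ω ε : ℝ) (π : P → ℝ) : R3 P →+* ℝ :=
  Polynomial.eval₂RingHom (evR2 ε π) ω

noncomputable def evZ (t : ℝ) : Polynomial ℤ →+* ℝ :=
  Polynomial.eval₂RingHom (Int.castRingHom ℝ) t

noncomputable def evS1 (t : ℝ) (π : P → ℝ) : S1 P →+* ℝ :=
  (MvPolynomial.eval₂Hom (evZ t) π : MvPolynomial P (Polynomial ℤ) →+* ℝ)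

noncomputable def tS1 : S1 P := (MvPolynomial.C Polynomial.X : MvPolynomial P (Polynomial ℤ))

theorem evS1_t (t : ℝ) (π : P → ℝ) : evS1 t π (tS1 : S1 P) = t := by
  have : evS1 t π (tS1 : S1 P) = evZ t Polynomial.X :=
    MvPolynomial.eval₂_C (evZ t) π Polynomial.X
  rw [this]; simp [evZ]

noncomputable def evS2 (t ε : ℝ) (π : P → ℝ) : S2 P →+* ℝ :=
  Polynomial.eval₂RingHom (evS1 t π) ε

noncomputable def evS3 (t ω ε : ℝ) (π : P → ℝ) : S3 P →+* ℝ :=
  Polynomial.eval₂RingHom (evS2 t ε π) ω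

noncomputable def lift1 : R1 P →+* S1 P :=
  (MvPolynomial.map Polynomial.C : MvPolynomial P ℤ →+* MvPolynomial P (Polynomial ℤ))

noncomputable def liftRS : R3 P →+* S3 P :=
  Polynomial.mapRingHom (Polynomial.mapRingHom lift1)

theorem evS1_lift1 (t : ℝ) (π : P → ℝ) : (evS1 t π).comp lift1 = evR1 π := by
  have h : (MvPolynomial.eval₂Hom (evZ t) π : MvPolynomial P (Polynomial ℤ) →+* ℝ).comp
      (MvPolynomial.map Polynomial.C) = (iv π : MvPolynomial P ℤ →+* ℝ) := by
    apply MvPolynomial.ringHom_ext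
    · intro r
      simp [iv, evZ]
    · intro i
      simp [iv, evZ]
  exact h

theorem evS3_liftRS (t ω ε : ℝ) (π : P → ℝ) (x : R3 P) :
    evS3 t ω ε π (liftRS x) = evR3 ω ε π x := by
  have h : (evS3 t ω ε π).comp liftRS = evR3 ω ε π := by
    apply Polynomial.ringHom_ext'
    · apply Polynomial.ringHom_ext'
      · refine RingHom.ext fun x => ?_
        have h1 : evS1 t π (lift1 x) = evR1 π x := by
          rw [← evS1_lift1 t π]; rfl
        simp [evS3, evS2, evR3, evR2, liftRS, h1]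
      · simp [evS3, evS2, evR3, evR2, liftRS]
    · simp [evS3, evR3, liftRS]
  exact congrArg (fun f => f x) h

theorem evS1_continuous (x : S1 P) : Continuous (fun p : ℝ × (P → ℝ) => evS1 p.1 p.2 x) := by
  have key : ∀ x : MvPolynomial P (Polynomial ℤ),
      Continuous (fun p : ℝ × (P → ℝ) => MvPolynomial.eval₂Hom (evZ p.1) p.2 x) := by
    intro x
    induction x using MvPolynomial.induction_on with
    | C a =>
      simp only [MvPolynomial.coe_eval₂Hom, MvPolynomial.eval₂_C, evZ,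
        Polynomial.coe_eval₂RingHom]
      have h := (a.map (Int.castRingHom ℝ)).continuous
      have h2 : (fun p : ℝ × (P → ℝ) => Polynomial.eval₂ (Int.castRingHom ℝ) p.1 a) =
          (fun x => Polynomial.eval x (a.map (Int.castRingHom ℝ))) ∘ Prod.fst := by
        ext p; simp [Polynomial.eval_map]
      rw [h2]
      exact h.comp continuous_fst
    | add p q hp hq =>
      simp only [map_add]
      exact hp.add hq
    | mul_X p i hp =>
      simp only [map_mul]
      apply hp.mul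
      simp only [MvPolynomial.coe_eval₂Hom, MvPolynomial.eval₂_X]
      exact (continuous_apply i).comp continuous_snd
  exact key x

theorem evS2_continuous (ε : ℝ) (x : S2 P) :
    Continuous (fun p : ℝ × (P → ℝ) => evS2 p.1 ε p.2 x) := by
  simp only [evS2, Polynomial.coe_eval₂RingHom, Polynomial.eval₂_eq_sum_range]
  apply continuous_finsetSum
  intro i _
  exact (evS1_continuous _).mul continuous_const

end rings

end Pool.Agent.Helper54
end

section
namespace Pool.Agent.Helper54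

open Filter Topology Finset

/-- The data of the active constraints. -/
structure Sys (V Y L Q : Type) where
  eL : L → QP V Y
  eQ : Q → QP V Y
  v0 : V

section

variable {V Y L Q : Type} [Fintype V] [DecidableEq V] [Fintype Y] [DecidableEq Y]
  [Fintype L] [Fintype Q]

abbrev WW (V Q : Type) := V ⊕ Q
abbrev PP (V Y Q : Type) := WW V Q ⊕ Y

/-- A parameter ring: a commutative ring with names for the parameters. -/
structure PR (V Y Q : Type) (R : Type) [CommRing R] where
  om : R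
  eps : R
  prm : PP V Y Q → R

variable {R : Type} [CommRing R]

noncomputable def inj : MvPolynomial V ℤ →+* MvPolynomial (WW V Q) R :=
  MvPolynomial.eval₂Hom (Int.castRingHom _) (fun j => MvPolynomial.X (Sum.inl j))

namespace Sys

variable (S : Sys V Y L Q) (r : PR V Y Q R)

noncomputable def M : Matrix Y Y (MvPolynomial (WW V Q) R) := Matrix.of fun a b =>
  ∑ i : L, 2 * inj ((S.eL i).g a) * inj ((S.eL i).g b) +
  ∑ i : Q, MvPolynomial.X (Sum.inr i) * (inj ((S.eQ i).H a b) + inj ((S.eQ i).H b a)) +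
  if a = b then MvPolynomial.C r.eps ^ 2 else 0

noncomputable def rhs (a : Y) : MvPolynomial (WW V Q) R :=
  -(∑ i : L, 2 * inj (S.eL i).c * inj ((S.eL i).g a)) -
  ∑ i : Q, MvPolynomial.X (Sum.inr i) * inj ((S.eQ i).g a) + MvPolynomial.C r.eps ^ 2 * MvPolynomial.C (r.prm (Sum.inr a))

noncomputable def Del : MvPolynomial (WW V Q) R := (S.M r).det

noncomputable def Yv : Y → MvPolynomial (WW V Q) R := (S.M r).adjugate.mulVec (S.rhs r)

noncomputable def lin (e : QP V Y) : MvPolynomial (WW V Q) R :=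
  S.Del r * inj e.c + ∑ a, inj (e.g a) * S.Yv r a

noncomputable def sharp (e : QP V Y) : MvPolynomial (WW V Q) R :=
  S.Del r * S.lin r e + ∑ a, ∑ b, inj (e.H a b) * S.Yv r a * S.Yv r b

noncomputable def F : WW V Q → MvPolynomial (WW V Q) R
  | Sum.inl j => ∑ i : L, 2 * S.lin r (S.eL i) * S.lin r ((S.eL i).dv j) +
      ∑ i : Q, MvPolynomial.X (Sum.inr i) * S.sharp r ((S.eQ i).dv j) +
      S.Del r ^ 2 * (MvPolynomial.C r.eps * (if j = S.v0 then 1 else 0) +
        MvPolynomial.C r.eps ^ 2 * (MvPolynomial.X (Sum.inl j) - MvPolynomial.C (r.prm (Sum.inl (Sum.inl j)))))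
  | Sum.inr i => 2 * S.sharp r (S.eQ i) + S.Del r ^ 2 *
      (2 * MvPolynomial.C r.eps ^ 2 * MvPolynomial.C (r.prm (Sum.inl (Sum.inr i))) - MvPolynomial.X (Sum.inr i))

noncomputable def F' (j : WW V Q) : MvPolynomial (WW V Q) R :=
  MvPolynomial.C r.om * S.F r j

/-- real versions -/
noncomputable def Mr (v : V → ℝ) (lam : Q → ℝ) (ε : ℝ) : Matrix Y Y ℝ := Matrix.of fun a b =>
  ∑ i : L, 2 * iv v ((S.eL i).g a) * iv v ((S.eL i).g b) +
  ∑ i : Q, lam i * (iv v ((S.eQ i).H a b) + iv v ((S.eQ i).H b a)) +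
  if a = b then ε ^ 2 else 0

noncomputable def rr (v : V → ℝ) (lam : Q → ℝ) (ε : ℝ) (q : Y → ℝ) (a : Y) : ℝ :=
  -(∑ i : L, 2 * iv v (S.eL i).c * iv v ((S.eL i).g a)) -
  ∑ i : Q, lam i * iv v ((S.eQ i).g a) + ε ^ 2 * q a

noncomputable def lam (ε : ℝ) (s : Q → ℝ) (v : V → ℝ) (y : Y → ℝ) (i : Q) : ℝ :=
  2 * ((S.eQ i).ev v y + ε ^ 2 * s i)

/-- gradient of the regular part of the penalty function in direction `y a` -/
noncomputable def gy (ε : ℝ) (s : Q → ℝ) (v : V → ℝ) (y : Y → ℝ) (a : Y) : ℝ :=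
  ∑ i : L, 2 * (S.eL i).ev1 v y * iv v ((S.eL i).g a) +
  ∑ i : Q, S.lam ε s v y i * (S.eQ i).dy a v y

noncomputable def gv (ε : ℝ) (s : Q → ℝ) (v : V → ℝ) (y : Y → ℝ) (j : V) : ℝ :=
  ∑ i : L, 2 * (S.eL i).ev1 v y * ((S.eL i).dv j).ev1 v y +
  ∑ i : Q, S.lam ε s v y i * ((S.eQ i).dv j).ev v y + ε * (if j = S.v0 then 1 else 0)

noncomputable def qq (ε : ℝ) (s : Q → ℝ) (v : V → ℝ) (y : Y → ℝ) (a : Y) : ℝ :=
  y a + (ε ^ 2)⁻¹ * S.gy ε s v y a

noncomputable def pp (ε : ℝ) (s : Q → ℝ) (v : V → ℝ) (y : Y → ℝ) (j : V) : ℝ :=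
  v j + (ε ^ 2)⁻¹ * S.gv ε s v y j

theorem Mr_mulVec (ε : ℝ) (hε : ε ≠ 0) (s : Q → ℝ) (v : V → ℝ) (y : Y → ℝ) :
    (S.Mr v (S.lam ε s v y) ε).mulVec y = S.rr v (S.lam ε s v y) ε (S.qq ε s v y) := by
  ext a
  have h1 : ε ^ 2 * S.qq ε s v y a = ε ^ 2 * y a + S.gy ε s v y a := by
    rw [qq, mul_add, ← mul_assoc, mul_inv_cancel₀ (pow_ne_zero 2 hε), one_mul]
  rw [rr, h1, gy]
  simp only [Matrix.mulVec, dotProduct, Mr, Matrix.of_apply, QP.ev1, QP.dy]
  simp only [add_mul, Finset.sum_add_distrib, Finset.sum_mul, mul_add, Finset.mul_sum,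
    ite_mul, zero_mul, Finset.sum_ite_eq, Finset.mem_univ, if_true]
  rw [Finset.sum_comm (s := (Finset.univ : Finset Y)) (t := (Finset.univ : Finset L)),
    Finset.sum_comm (s := (Finset.univ : Finset Y)) (t := (Finset.univ : Finset Q)),
    Finset.sum_comm (s := (Finset.univ : Finset Y)) (t := (Finset.univ : Finset Q))]
  have e1 : ∑ x : L, ∑ x_1, 2 * iv v ((S.eL x).g a) * iv v ((S.eL x).g x_1) * y x_1 =
      ∑ x : L, ∑ i, 2 * (iv v ((S.eL x).g i) * y i) * iv v ((S.eL x).g a) := by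
    apply Finset.sum_congr rfl; intro i _
    apply Finset.sum_congr rfl; intro b _
    ring
  have e2 : ∑ x : Q, ∑ x_1, S.lam ε s v y x * iv v ((S.eQ x).H a x_1) * y x_1 =
      ∑ x : Q, ∑ i, S.lam ε s v y x * (iv v ((S.eQ x).H a i) * y i) := by
    apply Finset.sum_congr rfl; intro i _
    apply Finset.sum_congr rfl; intro b _
    ring
  have e3 : ∑ x : Q, ∑ x_1, S.lam ε s v y x * iv v ((S.eQ x).H x_1 a) * y x_1 =
      ∑ x : Q, ∑ i, S.lam ε s v y x * (iv v ((S.eQ x).H i a) * y i) := by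
    apply Finset.sum_congr rfl; intro i _
    apply Finset.sum_congr rfl; intro b _
    ring
  rw [e1, e2, e3]
  ring

/-- evaluation at a real point -/
noncomputable def E (φ : R →+* ℝ) (w : WW V Q → ℝ) : MvPolynomial (WW V Q) R →+* ℝ :=
  MvPolynomial.eval₂Hom φ w

theorem E_inj (φ : R →+* ℝ) (w : WW V Q → ℝ) (a : MvPolynomial V ℤ) :
    E φ w (inj a) = iv (fun j => w (Sum.inl j)) a := by
  have h : (E φ w).comp inj = iv (fun j => w (Sum.inl j)) := by
    apply MvPolynomial.ringHom_ext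
    · intro r; simp [E, inj, iv]
    · intro i; simp [E, inj, iv]
  exact congrArg (fun f => f a) h

@[simp] theorem E_X (φ : R →+* ℝ) (w : WW V Q → ℝ) (j : WW V Q) :
    E φ w (MvPolynomial.X j) = w j := by
  simp [E]

@[simp] theorem E_C (φ : R →+* ℝ) (w : WW V Q → ℝ) (x : R) :
    E φ w (MvPolynomial.C x) = φ x := by
  simp [E]

/-- `φ` specialises the parameters to the given real values. -/
structure Spec (φ : R →+* ℝ) (ω ε : ℝ) (π : PP V Y Q → ℝ) : Prop where
  om : φ r.om = ω
  eps : φ r.eps = ε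
  prm : ∀ k, φ (r.prm k) = π k

variable {r} {φ : R →+* ℝ} {ω ε : ℝ} {π : PP V Y Q → ℝ}

theorem E_M (hφ : Spec r φ ω ε π) (w : WW V Q → ℝ) :
    (E φ w).mapMatrix (S.M r) = S.Mr (fun j => w (Sum.inl j)) (fun i => w (Sum.inr i)) ε := by
  ext a b
  simp only [RingHom.mapMatrix_apply, Matrix.map_apply, M, Matrix.of_apply, Mr, map_add,
    map_sum, map_mul, E_inj, E_X, map_ofNat]
  congr 1
  split_ifs
  · simp [hφ.eps]
  · simp

theorem E_rhs (hφ : Spec r φ ω ε π) (w : WW V Q → ℝ) (a : Y) :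
    E φ w (S.rhs r a) = S.rr (fun j => w (Sum.inl j)) (fun i => w (Sum.inr i)) ε
      (fun a => π (Sum.inr a)) a := by
  simp only [rhs, rr, map_add, map_sub, map_neg, map_sum, map_mul, E_inj, E_X, map_ofNat,
    map_pow, E_C, hφ.eps, hφ.prm]

theorem E_Del (hφ : Spec r φ ω ε π) (w : WW V Q → ℝ) :
    E φ w (S.Del r) = (S.Mr (fun j => w (Sum.inl j)) (fun i => w (Sum.inr i)) ε).det := by
  rw [Del, RingHom.map_det, S.E_M hφ]

theorem E_Yv (hφ : Spec r φ ω ε π) (w : WW V Q → ℝ) (y : Y → ℝ)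
    (hy : (S.Mr (fun j => w (Sum.inl j)) (fun i => w (Sum.inr i)) ε).mulVec y =
      S.rr (fun j => w (Sum.inl j)) (fun i => w (Sum.inr i)) ε (fun a => π (Sum.inr a)))
    (a : Y) :
    E φ w (S.Yv r a) =
      (S.Mr (fun j => w (Sum.inl j)) (fun i => w (Sum.inr i)) ε).det * y a := by
  set A := S.Mr (fun j => w (Sum.inl j)) (fun i => w (Sum.inr i)) ε with hA
  have h1 : E φ w (S.Yv r a) = (A.adjugate.mulVec (S.rr (fun j => w (Sum.inl j))
      (fun i => w (Sum.inr i)) ε (fun a => π (Sum.inr a)))) a := by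
    simp only [Yv, Matrix.mulVec, dotProduct, map_sum, map_mul, S.E_rhs hφ]
    apply Finset.sum_congr rfl
    intro b _
    congr 1
    have h2 : (E φ w).mapMatrix (S.M r).adjugate = A.adjugate := by
      rw [RingHom.map_adjugate, S.E_M hφ]
    have h3 := congrFun (congrFun h2 a) b
    simpa using h3
  rw [h1, ← hy, Matrix.mulVec_mulVec, Matrix.adjugate_mul]
  simp [Matrix.smul_mulVec]

theorem E_lin (hφ : Spec r φ ω ε π) (w : WW V Q → ℝ) (y : Y → ℝ)
    (hy : (S.Mr (fun j => w (Sum.inl j)) (fun i => w (Sum.inr i)) ε).mulVec y =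
      S.rr (fun j => w (Sum.inl j)) (fun i => w (Sum.inr i)) ε (fun a => π (Sum.inr a)))
    (e : QP V Y) :
    E φ w (S.lin r e) =
      (S.Mr (fun j => w (Sum.inl j)) (fun i => w (Sum.inr i)) ε).det *
        e.ev1 (fun j => w (Sum.inl j)) y := by
  simp only [lin, map_add, map_mul, map_sum, E_inj, S.E_Del hφ, S.E_Yv hφ w y hy, QP.ev1,
    mul_add, Finset.mul_sum]
  congr 1
  apply Finset.sum_congr rfl
  intro a _
  ring

theorem E_sharp (hφ : Spec r φ ω ε π) (w : WW V Q → ℝ) (y : Y → ℝ)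
    (hy : (S.Mr (fun j => w (Sum.inl j)) (fun i => w (Sum.inr i)) ε).mulVec y =
      S.rr (fun j => w (Sum.inl j)) (fun i => w (Sum.inr i)) ε (fun a => π (Sum.inr a)))
    (e : QP V Y) :
    E φ w (S.sharp r e) =
      (S.Mr (fun j => w (Sum.inl j)) (fun i => w (Sum.inr i)) ε).det ^ 2 *
        e.ev (fun j => w (Sum.inl j)) y := by
  simp only [sharp, map_add, map_mul, map_sum, E_inj, S.E_Del hφ, S.E_Yv hφ w y hy,
    S.E_lin hφ w y hy, QP.ev, mul_add, Finset.mul_sum]
  congr 1
  · ring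
  · apply Finset.sum_congr rfl
    intro a _
    apply Finset.sum_congr rfl
    intro b _
    ring

/-- The perturbed parameters for which the deformed system is solved exactly. -/
noncomputable def prm (N : ℕ) (ω ε : ℝ) (s : Q → ℝ) (v : V → ℝ) (y : Y → ℝ) :
    PP V Y Q → ℝ :=
  Sum.elim
    (Sum.elim
      (fun j => S.pp ε s v y j -
        ω⁻¹ * (v j ^ N / (ε ^ 2 * (S.Mr v (S.lam ε s v y) ε).det ^ 2)))
      (fun i => s i + ω⁻¹ * (S.lam ε s v y i ^ N /
        (2 * ε ^ 2 * (S.Mr v (S.lam ε s v y) ε).det ^ 2))))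
    (fun a => S.qq ε s v y a)

theorem solves (N : ℕ) (hω : ω ≠ 0) (hε : ε ≠ 0) (s : Q → ℝ) (v : V → ℝ)
    (y : Y → ℝ) (hD : (S.Mr v (S.lam ε s v y) ε).det ≠ 0)
    (hφ : Spec r φ ω ε (S.prm N ω ε s v y)) :
    Solves N (S.F' r) φ (Sum.elim v (S.lam ε s v y)) := by
  have hy : (S.Mr (fun j => (Sum.elim v (S.lam ε s v y) : WW V Q → ℝ) (Sum.inl j))
      (fun i => (Sum.elim v (S.lam ε s v y) : WW V Q → ℝ) (Sum.inr i)) ε).mulVec y =
      S.rr (fun j => (Sum.elim v (S.lam ε s v y) : WW V Q → ℝ) (Sum.inl j))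
        (fun i => (Sum.elim v (S.lam ε s v y) : WW V Q → ℝ) (Sum.inr i)) ε
        (fun a => S.prm N ω ε s v y (Sum.inr a)) := S.Mr_mulVec ε hε s v y
  intro j
  change _ = E φ (Sum.elim v (S.lam ε s v y)) (S.F' r j)
  have hl := S.E_lin hφ (Sum.elim v (S.lam ε s v y)) y hy
  have hs := S.E_sharp hφ (Sum.elim v (S.lam ε s v y)) y hy
  have hd := S.E_Del hφ (Sum.elim v (S.lam ε s v y))
  simp only [Sum.elim_inl, Sum.elim_inr] at hl hs hd
  set D := (S.Mr v (S.lam ε s v y) ε).det with hDdef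
  rcases j with j | i
  · simp only [F', F, map_mul, map_add, map_sum, map_sub, map_pow, E_X, E_C, hφ.om, hφ.eps,
      hφ.prm, map_ofNat, hl, hs, hd, Sum.elim_inl, Sum.elim_inr, prm]
    have h1 : ∑ x : L, 2 * (D * (S.eL x).ev1 v y) * (D * ((S.eL x).dv j).ev1 v y) =
        D ^ 2 * ∑ x : L, 2 * (S.eL x).ev1 v y * ((S.eL x).dv j).ev1 v y := by
      rw [Finset.mul_sum]; apply Finset.sum_congr rfl; intro x _; ring
    have h2 : ∑ x : Q, S.lam ε s v y x * (D ^ 2 * ((S.eQ x).dv j).ev v y) =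
        D ^ 2 * ∑ x : Q, S.lam ε s v y x * ((S.eQ x).dv j).ev v y := by
      rw [Finset.mul_sum]; apply Finset.sum_congr rfl; intro x _; ring
    have h3 : ε ^ 2 * S.pp ε s v y j = ε ^ 2 * v j + S.gv ε s v y j := by
      rw [pp, mul_add, ← mul_assoc, mul_inv_cancel₀ (pow_ne_zero 2 hε), one_mul]
    rw [h1, h2]
    have h4 : (E φ (Sum.elim v (S.lam ε s v y))) (if j = S.v0 then 1 else 0) =
        (if j = S.v0 then (1:ℝ) else 0) := by
      split_ifs <;> simp
    rw [h4]
    rw [gv] at h3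
    have h5 : ω * (D ^ 2 * ∑ x : L, 2 * (S.eL x).ev1 v y * ((S.eL x).dv j).ev1 v y +
        D ^ 2 * ∑ x : Q, S.lam ε s v y x * ((S.eQ x).dv j).ev v y +
        D ^ 2 * (ε * (if j = S.v0 then (1:ℝ) else 0) + ε ^ 2 * (v j - (S.pp ε s v y j -
          ω⁻¹ * (v j ^ N / (ε ^ 2 * D ^ 2)))))) =
        ω * D ^ 2 * ((∑ x : L, 2 * (S.eL x).ev1 v y * ((S.eL x).dv j).ev1 v y +
          ∑ x : Q, S.lam ε s v y x * ((S.eQ x).dv j).ev v y +
          ε * (if j = S.v0 then (1:ℝ) else 0)) + ε ^ 2 * v j - ε ^ 2 * S.pp ε s v y j) +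
        v j ^ N := by
      field_simp
      ring
    rw [h5, h3]
    ring
  · simp only [F', F, map_mul, map_add, map_sub, map_pow, E_X, E_C, hφ.om, hφ.eps,
      hφ.prm, map_ofNat, hs, hd, Sum.elim_inl, Sum.elim_inr, prm]
    have h1 : S.lam ε s v y i = 2 * ((S.eQ i).ev v y + ε ^ 2 * s i) := rfl
    have h2 : ω * (2 * (D ^ 2 * (S.eQ i).ev v y) + D ^ 2 * (2 * ε ^ 2 * (s i + ω⁻¹ *
        (S.lam ε s v y i ^ N / (2 * ε ^ 2 * D ^ 2))) - S.lam ε s v y i)) =
        ω * D ^ 2 * (2 * ((S.eQ i).ev v y + ε ^ 2 * s i) - S.lam ε s v y i) +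
        S.lam ε s v y i ^ N := by
      field_simp
      ring
    rw [h2, ← h1]
    ring

end Sys

end

end Pool.Agent.Helper54
end
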