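import Pool.Agent.Helper54.Quad2

namespace Pool.Agent.Helper54

open Finset MvPolynomial

section deg

variable {W : Type*} {R : Type*} [CommRing R]

theorem td_add {p q : MvPolynomial W R} {d : ℕ} (hp : p.totalDegree ≤ d)
    (hq : q.totalDegree ≤ d) : (p + q).totalDegree ≤ d :=
  (totalDegree_add p q).trans (max_le hp hq)

theorem td_neg {p : MvPolynomial W R} {d : ℕ} (hp : p.totalDegree ≤ d) :
    (-p).totalDegree ≤ d := by rwa [totalDegree_neg]

theorem td_sub {p q : MvPolynomial W R} {d : ℕ} (hp : p.totalDegree ≤ d)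
    (hq : q.totalDegree ≤ d) : (p - q).totalDegree ≤ d := by
  rw [sub_eq_add_neg]; exact td_add hp (td_neg hq)

theorem td_mul {p q : MvPolynomial W R} {d e : ℕ} (hp : p.totalDegree ≤ d)
    (hq : q.totalDegree ≤ e) : (p * q).totalDegree ≤ d + e :=
  (totalDegree_mul p q).trans (add_le_add hp hq)

theorem td_C (a : R) (d : ℕ) : (C a : MvPolynomial W R).totalDegree ≤ d := by
  rw [totalDegree_C]; exact Nat.zero_le _

theorem td_ofNat (n d : ℕ) [n.AtLeastTwo] : (OfNat.ofNat n : MvPolynomial W R).totalDegree ≤ d := by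
  have : (OfNat.ofNat n : MvPolynomial W R) = C (OfNat.ofNat n : R) := by
    rw [map_ofNat]
  rw [this]; exact td_C _ _

theorem td_X (j : W) : (X j : MvPolynomial W R).totalDegree ≤ 1 := by
  refine (totalDegree_monomial_le _ _).trans ?_
  simp

theorem td_det {n : Type*} [Fintype n] [DecidableEq n] (A : Matrix n n (MvPolynomial W R))
    (D : ℕ) (h : ∀ i j, (A i j).totalDegree ≤ D) : A.det.totalDegree ≤ Fintype.card n * D := by
  rw [Matrix.det_apply]
  apply totalDegree_finsetSum_le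
  intro σ _
  have h1 : (∏ i, A (σ i) i).totalDegree ≤ Fintype.card n * D := by
    refine (totalDegree_finsetProd _ _).trans ?_
    refine (Finset.sum_le_sum fun i _ => h (σ i) i).trans ?_
    simp
  rcases Int.units_eq_one_or (Equiv.Perm.sign σ) with h2 | h2
  · rw [h2, one_smul]; exact h1
  · rw [h2]; simpa using h1

theorem td_adj {n : Type*} [Fintype n] [DecidableEq n] (A : Matrix n n (MvPolynomial W R))
    (D : ℕ) (h : ∀ i j, (A i j).totalDegree ≤ D) (i j : n) :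
    (A.adjugate i j).totalDegree ≤ Fintype.card n * D := by
  rw [Matrix.adjugate_apply]
  apply td_det
  intro a b
  rw [Matrix.updateRow_apply]
  split_ifs
  · rw [Pi.single_apply]; split_ifs
    · simp
    · simp
  · exact h a b

end deg

section nrm

variable {R : Type*} [CommRing R] (μ : SubNorm R)

theorem SubNorm.nat_le (n : ℕ) : μ.f (n : R) ≤ n := by
  induction n with
  | zero => simp [μ.map_zero]
  | succ n ih =>
    rw [Nat.cast_succ]
    exact (μ.add_le _ _).trans (Nat.add_le_add ih μ.map_one_le)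

theorem SubNorm.two_le : μ.f (2 : R) ≤ 2 := by
  simpa using μ.nat_le 2

theorem SubNorm.int_le (n : ℤ) : μ.f (n : R) ≤ n.natAbs := by
  rcases Int.natAbs_eq n with h | h
  · conv_lhs => rw [h]
    rw [Int.cast_natCast]; exact μ.nat_le _
  · conv_lhs => rw [h]
    rw [Int.cast_neg, Int.cast_natCast, μ.map_neg]; exact μ.nat_le _

theorem SubNorm.hom_le {V : Type*} (ψ : MvPolynomial V ℤ →+* R) (hψ : ∀ j, μ.f (ψ (X j)) ≤ 1)
    (a : MvPolynomial V ℤ) : μ.f (ψ a) ≤ (mvSN V intSN).f a := by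
  classical
  conv_lhs => rw [a.as_sum, map_sum]
  refine (μ.sum_le _ _).trans ?_
  change _ ≤ ∑ m ∈ a.support, intSN.f (a.coeff m)
  apply Finset.sum_le_sum
  intro m _
  have h1 : (monomial m (a.coeff m) : MvPolynomial V ℤ) =
      C (a.coeff m) * m.prod fun i k => X i ^ k := by rw [← monomial_eq]
  rw [h1, map_mul]
  have h2 : ψ (C (a.coeff m)) = ((a.coeff m : ℤ) : R) := by
    have := map_intCast ψ (a.coeff m)
    rw [← this]; congr 1
  have h3 : μ.f (ψ (m.prod fun i k => X i ^ k)) ≤ 1 := by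
    rw [Finsupp.prod, map_prod]
    refine (μ.prod_le _ _).trans ?_
    apply Finset.prod_le_one'
    intro i _
    rw [map_pow]
    exact (μ.pow_le _ _).trans (pow_le_one₀ (Nat.zero_le _) (hψ i))
  rw [h2]
  calc _ ≤ μ.f ((a.coeff m : ℤ) : R) * μ.f (ψ (m.prod fun i k => X i ^ k)) := μ.mul_le _ _
    _ ≤ (a.coeff m).natAbs * 1 := Nat.mul_le_mul (μ.int_le _) h3
    _ = _ := by rw [mul_one]; rfl

end nrm

section QPb

variable {V Y : Type} [Fintype Y]

/-- total l1 size of the coefficients -/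
noncomputable def QP.nrm (e : QP V Y) : ℕ :=
  (mvSN V intSN).f e.c + ∑ a, (mvSN V intSN).f (e.g a) +
    ∑ a, ∑ b, (mvSN V intSN).f (e.H a b)

/-- degree bound in the `V` variables -/
structure QP.DegLe (e : QP V Y) (d : ℕ) : Prop where
  c : e.c.totalDegree ≤ d
  g : ∀ a, (e.g a).totalDegree ≤ d
  H : ∀ a b, (e.H a b).totalDegree ≤ d

theorem QP.g_le (e : QP V Y) {h : ℕ} (he : e.nrm ≤ h) (a : Y) :
    (mvSN V intSN).f (e.g a) ≤ h := by
  have h1 : (mvSN V intSN).f (e.g a) ≤ ∑ a, (mvSN V intSN).f (e.g a) :=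
    Finset.single_le_sum (f := fun a => (mvSN V intSN).f (e.g a)) (fun _ _ => Nat.zero_le _)
      (Finset.mem_univ a)
  unfold QP.nrm at he; omega

theorem QP.c_le (e : QP V Y) {h : ℕ} (he : e.nrm ≤ h) :
    (mvSN V intSN).f e.c ≤ h := by
  unfold QP.nrm at he; omega

theorem QP.H_le (e : QP V Y) {h : ℕ} (he : e.nrm ≤ h) (a b : Y) :
    (mvSN V intSN).f (e.H a b) ≤ h := by
  have h1 : (mvSN V intSN).f (e.H a b) ≤ ∑ b, (mvSN V intSN).f (e.H a b) :=
    Finset.single_le_sum (f := fun b => (mvSN V intSN).f (e.H a b)) (fun _ _ => Nat.zero_le _)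
      (Finset.mem_univ b)
  have h2 : ∑ b, (mvSN V intSN).f (e.H a b) ≤ ∑ a, ∑ b, (mvSN V intSN).f (e.H a b) :=
    Finset.single_le_sum (f := fun a => ∑ b, (mvSN V intSN).f (e.H a b))
      (fun _ _ => Nat.zero_le _) (Finset.mem_univ a)
  unfold QP.nrm at he; omega

end QPb

namespace Sys

variable {V Y L Q : Type} [Fintype V] [DecidableEq V] [Fintype Y] [DecidableEq Y]
  [Fintype L] [Fintype Q] {R : Type} [CommRing R] (S : Sys V Y L Q) (r : PR V Y Q R)

omit [Fintype V] [DecidableEq V] [Fintype Q] in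
theorem td_inj (a : MvPolynomial V ℤ) {d : ℕ} (h : a.totalDegree ≤ d) :
    (inj a : MvPolynomial (WW V Q) R).totalDegree ≤ d := by
  classical
  have h0 : (inj a : MvPolynomial (WW V Q) R) =
      ∑ m ∈ a.support, inj (monomial m (a.coeff m)) := by
    conv_lhs => rw [a.as_sum, map_sum]
  rw [h0]
  apply totalDegree_finsetSum_le
  intro m hm
  have h1 : (inj (monomial m (a.coeff m)) : MvPolynomial (WW V Q) R) =
      C ((a.coeff m : ℤ) : R) * m.prod fun i k => X (Sum.inl i) ^ k := by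
    rw [monomial_eq, map_mul]
    congr 1
    · simp [inj]
    · simp [inj, Finsupp.prod]
  rw [h1]
  have h2 : (m.prod fun i k => (X (Sum.inl i) : MvPolynomial (WW V Q) R) ^ k).totalDegree ≤ d := by
    rw [Finsupp.prod]
    refine (totalDegree_finsetProd _ _).trans ?_
    refine le_trans ?_ ((le_totalDegree hm).trans h)
    rw [Finsupp.sum]
    apply Finset.sum_le_sum
    intro i _
    refine (totalDegree_pow _ _).trans ?_
    have := td_X (R := R) (Sum.inl i : WW V Q)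
    calc _ ≤ m i * 1 := Nat.mul_le_mul_left _ this
      _ = m i := mul_one _
  have := td_mul (td_C (W := WW V Q) ((a.coeff m : ℤ) : R) 0) h2
  rwa [zero_add] at this

/-- all degree bounds -/
structure DegLe (d : ℕ) : Prop where
  one : 1 ≤ d
  L : ∀ i, (S.eL i).DegLe d
  Q : ∀ i, (S.eQ i).DegLe d
  dL : ∀ i j, ((S.eL i).dv j).DegLe d
  dQ : ∀ i j, ((S.eQ i).dv j).DegLe d

variable {S} {d : ℕ}

theorem td_M (hd : S.DegLe d) (a b : Y) : (S.M r a b).totalDegree ≤ 2 * d := by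
  have h1 := hd.one
  rw [M, Matrix.of_apply]
  refine td_add (td_add (totalDegree_finsetSum_le fun i _ => ?_)
    (totalDegree_finsetSum_le fun i _ => ?_)) ?_
  · refine (td_mul (td_mul (td_ofNat 2 0) (td_inj _ ((hd.L i).g a)))
      (td_inj _ ((hd.L i).g b))).trans ?_
    omega
  · refine (td_mul (td_X _) (td_add (td_inj _ ((hd.Q i).H a b))
      (td_inj _ ((hd.Q i).H b a)))).trans ?_
    omega
  · split_ifs
    · rw [← map_pow]; exact td_C _ _
    · simp

theorem td_rhs (hd : S.DegLe d) (a : Y) : (S.rhs r a).totalDegree ≤ 2 * d := by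
  have h1 := hd.one
  rw [rhs]
  refine td_add (td_sub (td_neg (totalDegree_finsetSum_le fun i _ => ?_))
    (totalDegree_finsetSum_le fun i _ => ?_)) ?_
  · refine (td_mul (td_mul (td_ofNat 2 0) (td_inj _ (hd.L i).c))
      (td_inj _ ((hd.L i).g a))).trans ?_
    omega
  · refine (td_mul (td_X _) (td_inj _ ((hd.Q i).g a))).trans ?_
    omega
  · rw [← map_pow, ← map_mul]; exact td_C _ _

theorem td_Del (hd : S.DegLe d) : (S.Del r).totalDegree ≤ Fintype.card Y * (2 * d) :=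
  td_det _ _ (td_M r hd)

theorem td_Yv (hd : S.DegLe d) (a : Y) :
    (S.Yv r a).totalDegree ≤ Fintype.card Y * (2 * d) + 2 * d := by
  rw [Yv, Matrix.mulVec, dotProduct]
  apply totalDegree_finsetSum_le
  intro b _
  exact td_mul (td_adj _ _ (td_M r hd) a b) (td_rhs r hd b)

theorem td_lin (hd : S.DegLe d) (e : QP V Y) (he : e.DegLe d) :
    (S.lin r e).totalDegree ≤ Fintype.card Y * (2 * d) + 3 * d := by
  rw [lin]
  refine td_add ?_ (totalDegree_finsetSum_le fun a _ => ?_)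
  · exact (td_mul (td_Del r hd) (td_inj _ he.c)).trans (by omega)
  · exact (td_mul (td_inj _ (he.g a)) (td_Yv r hd a)).trans (by omega)

theorem td_sharp (hd : S.DegLe d) (e : QP V Y) (he : e.DegLe d) :
    (S.sharp r e).totalDegree ≤ 2 * (Fintype.card Y * (2 * d)) + 5 * d := by
  rw [sharp]
  refine td_add ?_ (totalDegree_finsetSum_le fun a _ => totalDegree_finsetSum_le fun b _ => ?_)
  · exact (td_mul (td_Del r hd) (td_lin r hd e he)).trans (by omega)
  · exact (td_mul (td_mul (td_inj _ (he.H a b)) (td_Yv r hd a)) (td_Yv r hd b)).trans (by omega)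

theorem td_F (hd : S.DegLe d) (j : WW V Q) :
    (S.F r j).totalDegree ≤ 2 * (Fintype.card Y * (2 * d)) + 6 * d := by
  have h1 := hd.one
  have hD2 : (S.Del r ^ 2).totalDegree ≤ 2 * (Fintype.card Y * (2 * d)) := by
    rw [pow_two]
    exact (td_mul (td_Del r hd) (td_Del r hd)).trans (by omega)
  rcases j with j | i
  · rw [F]
    refine td_add (td_add (totalDegree_finsetSum_le fun i _ => ?_)
      (totalDegree_finsetSum_le fun i _ => ?_)) ?_
    · exact (td_mul (td_mul (td_ofNat 2 0) (td_lin r hd _ (hd.L i)))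
        (td_lin r hd _ (hd.dL i j))).trans (by omega)
    · exact (td_mul (td_X _) (td_sharp r hd _ (hd.dQ i j))).trans (by omega)
    · refine (td_mul hD2 (td_add (d := 1) ?_ ?_)).trans (by omega)
      · have : (if j = S.v0 then (1 : MvPolynomial (WW V Q) R) else 0).totalDegree ≤ 0 := by
          split_ifs <;> simp
        exact (td_mul (td_C _ 0) this).trans (by omega)
      · rw [← map_pow]
        exact (td_mul (td_C _ 0) (td_sub (td_X _) (td_C _ 1))).trans (by omega)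
  · rw [F]
    refine td_add ?_ ?_
    · exact (td_mul (td_ofNat 2 0) (td_sharp r hd _ (hd.Q i))).trans (by omega)
    · refine (td_mul hD2 (td_sub (d := 1) ?_ (td_X _))).trans (by omega)
      rw [← map_pow]
      exact (td_mul (td_mul (td_ofNat 2 0) (td_C _ 0)) (td_C _ 0)).trans (by omega)

theorem td_F' (hd : S.DegLe d) (j : WW V Q) :
    (S.F' r j).totalDegree < 2 * (Fintype.card Y * (2 * d)) + 6 * d + 1 := by
  rw [F']
  have := td_mul (td_C (W := WW V Q) r.om 0) (td_F r hd j)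
  omega

/-- all size bounds -/
structure NrmLe (S : Sys V Y L Q) (h : ℕ) : Prop where
  one : 1 ≤ h
  L : ∀ i, (S.eL i).nrm ≤ h
  Q : ∀ i, (S.eQ i).nrm ≤ h
  dL : ∀ i j, ((S.eL i).dv j).nrm ≤ h
  dQ : ∀ i j, ((S.eQ i).dv j).nrm ≤ h

/-- the parameters have size at most one -/
structure PrmLe (μ : SubNorm R) : Prop where
  om : μ.f r.om ≤ 1
  eps : μ.f r.eps ≤ 1
  prm : ∀ k, μ.f (r.prm k) ≤ 1

variable {r} {μ : SubNorm R} {h : ℕ}

theorem nr_inj (a : MvPolynomial V ℤ) :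
    (mvSN (WW V Q) μ).f (inj a) ≤ (mvSN V intSN).f a := by
  apply SubNorm.hom_le
  intro j
  have : (inj (X j) : MvPolynomial (WW V Q) R) = X (Sum.inl j) := by simp [inj]
  rw [this]; exact mvSN_X _ _

theorem nr_C {x : R} {k : ℕ} (hx : μ.f x ≤ k) : (mvSN (WW V Q) μ).f (C x) ≤ k :=
  (mvSN_C _ _).trans hx

theorem nr_mul {x y : MvPolynomial (WW V Q) R} {a b : ℕ} (hx : (mvSN (WW V Q) μ).f x ≤ a)
    (hy : (mvSN (WW V Q) μ).f y ≤ b) : (mvSN (WW V Q) μ).f (x * y) ≤ a * b :=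
  ((mvSN (WW V Q) μ).mul_le _ _).trans (Nat.mul_le_mul hx hy)

theorem nr_add {x y : MvPolynomial (WW V Q) R} {a b : ℕ} (hx : (mvSN (WW V Q) μ).f x ≤ a)
    (hy : (mvSN (WW V Q) μ).f y ≤ b) : (mvSN (WW V Q) μ).f (x + y) ≤ a + b :=
  ((mvSN (WW V Q) μ).add_le _ _).trans (Nat.add_le_add hx hy)

theorem nr_sub {x y : MvPolynomial (WW V Q) R} {a b : ℕ} (hx : (mvSN (WW V Q) μ).f x ≤ a)
    (hy : (mvSN (WW V Q) μ).f y ≤ b) : (mvSN (WW V Q) μ).f (x - y) ≤ a + b :=
  ((mvSN (WW V Q) μ).sub_le _ _).trans (Nat.add_le_add hx hy)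

theorem nr_sum {ι : Type*} {s : Finset ι} {g : ι → MvPolynomial (WW V Q) R} {a : ι → ℕ}
    (hg : ∀ i ∈ s, (mvSN (WW V Q) μ).f (g i) ≤ a i) :
    (mvSN (WW V Q) μ).f (∑ i ∈ s, g i) ≤ ∑ i ∈ s, a i :=
  ((mvSN (WW V Q) μ).sum_le _ _).trans (Finset.sum_le_sum hg)

/-- size bound for the entries of `M` and `rhs` -/
def a1 (L Q : Type) [Fintype L] [Fintype Q] (h : ℕ) : ℕ :=
  2 * (Fintype.card L + Fintype.card Q + 1) * h ^ 2

theorem a1_pos (h1 : 1 ≤ h) : 1 ≤ a1 L Q h := by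
  have : 0 < h ^ 2 := by positivity
  unfold a1
  nlinarith [Nat.zero_le (Fintype.card L), Nat.zero_le (Fintype.card Q)]

theorem nr_M (hn : NrmLe S h) (hp : PrmLe (r := r) μ) (a b : Y) :
    (mvSN (WW V Q) μ).f (S.M r a b) ≤ a1 L Q h := by
  have h1 := hn.one
  rw [M, Matrix.of_apply]
  have e1 : (mvSN (WW V Q) μ).f (∑ i : L, 2 * inj ((S.eL i).g a) * inj ((S.eL i).g b)) ≤
      ∑ _i : L, 2 * h * h := nr_sum fun i _ => nr_mul (nr_mul (SubNorm.two_le _)
        ((nr_inj _).trans (QP.g_le _ (hn.L i) a))) ((nr_inj _).trans (QP.g_le _ (hn.L i) b))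
  have e2 : (mvSN (WW V Q) μ).f (∑ i : Q, X (Sum.inr i) *
      (inj ((S.eQ i).H a b) + inj ((S.eQ i).H b a))) ≤ ∑ _i : Q, 1 * (h + h) :=
    nr_sum fun i _ => nr_mul (mvSN_X _ _) (nr_add ((nr_inj _).trans (QP.H_le _ (hn.Q i) a b))
      ((nr_inj _).trans (QP.H_le _ (hn.Q i) b a)))
  have e3 : (mvSN (WW V Q) μ).f (if a = b then C r.eps ^ 2 else 0) ≤ 1 := by
    split_ifs
    · exact ((mvSN (WW V Q) μ).pow_le _ _).trans
        (pow_le_one₀ (Nat.zero_le _) (nr_C hp.eps))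
    · rw [(mvSN (WW V Q) μ).map_zero]; exact Nat.zero_le _
  refine (nr_add (nr_add e1 e2) e3).trans ?_
  simp only [Finset.sum_const, Finset.card_univ, smul_eq_mul, a1]
  nlinarith [Nat.zero_le (Fintype.card L), Nat.zero_le (Fintype.card Q),
    Nat.mul_le_mul_left (Fintype.card Q) (Nat.mul_le_mul_left h h1)]

theorem nr_rhs (hn : NrmLe S h) (hp : PrmLe (r := r) μ) (a : Y) :
    (mvSN (WW V Q) μ).f (S.rhs r a) ≤ a1 L Q h := by
  have h1 := hn.one
  rw [rhs]
  have e1 : (mvSN (WW V Q) μ).f (-∑ i : L, 2 * inj (S.eL i).c * inj ((S.eL i).g a)) ≤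
      ∑ _i : L, 2 * h * h := by
    rw [(mvSN (WW V Q) μ).map_neg]
    exact nr_sum fun i _ => nr_mul (nr_mul (SubNorm.two_le _)
        ((nr_inj _).trans (QP.c_le _ (hn.L i)))) ((nr_inj _).trans (QP.g_le _ (hn.L i) a))
  have e2 : (mvSN (WW V Q) μ).f (∑ i : Q, X (Sum.inr i) * inj ((S.eQ i).g a)) ≤
      ∑ _i : Q, 1 * h :=
    nr_sum fun i _ => nr_mul (mvSN_X _ _) ((nr_inj _).trans (QP.g_le _ (hn.Q i) a))
  have e3 : (mvSN (WW V Q) μ).f (C r.eps ^ 2 * C (r.prm (Sum.inr a))) ≤ 1 * 1 := by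
    refine nr_mul ?_ (nr_C (hp.prm _))
    exact ((mvSN (WW V Q) μ).pow_le _ _).trans
        (pow_le_one₀ (Nat.zero_le _) (nr_C hp.eps))
  refine (nr_add (nr_sub e1 e2) e3).trans ?_
  simp only [Finset.sum_const, Finset.card_univ, smul_eq_mul, a1]
  nlinarith [Nat.zero_le (Fintype.card L), Nat.zero_le (Fintype.card Q),
    Nat.mul_le_mul_left (Fintype.card Q) (Nat.mul_le_mul_left h h1)]

/-- size bound for `Del` and `Yv` -/
def Eb (Y L Q : Type) [Fintype Y] [Fintype L] [Fintype Q] (h : ℕ) : ℕ :=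
  ((Fintype.card Y + 1) * a1 L Q h) ^ (Fintype.card Y + 1)

theorem prod_rows_le (A : Matrix Y Y (MvPolynomial (WW V Q) R)) (B : ℕ) (hB : 1 ≤ B)
    (hA : ∀ i, ∑ j, (mvSN (WW V Q) μ).f (A i j) ≤ B) :
    (mvSN (WW V Q) μ).f A.det ≤ B ^ Fintype.card Y := by
  refine ((mvSN (WW V Q) μ).det_le A).trans ?_
  refine (Finset.prod_le_pow_card _ _ B fun i _ => hA i).trans ?_
  rw [Finset.card_univ]

theorem row_M (hn : NrmLe S h) (hp : PrmLe (r := r) μ) (i : Y) :
    ∑ j, (mvSN (WW V Q) μ).f (S.M r i j) ≤ (Fintype.card Y + 1) * a1 L Q h := by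
  refine (Finset.sum_le_sum fun j _ => nr_M hn hp i j).trans ?_
  simp only [Finset.sum_const, Finset.card_univ, smul_eq_mul]
  exact Nat.mul_le_mul_right _ (Nat.le_succ _)

theorem one_le_base (h1 : 1 ≤ h) : 1 ≤ (Fintype.card Y + 1) * a1 L Q h :=
  Nat.one_le_iff_ne_zero.2 (Nat.mul_ne_zero (Nat.succ_ne_zero _)
    (Nat.one_le_iff_ne_zero.1 (a1_pos h1)))

theorem nr_Del (hn : NrmLe S h) (hp : PrmLe (r := r) μ) :
    (mvSN (WW V Q) μ).f (S.Del r) ≤ Eb Y L Q h := by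
  have hb := one_le_base (Y := Y) (L := L) (Q := Q) hn.one
  refine (prod_rows_le _ _ hb (row_M hn hp)).trans ?_
  exact Nat.pow_le_pow_right hb (Nat.le_succ _)

theorem nr_adj (hn : NrmLe S h) (hp : PrmLe (r := r) μ) (a b : Y) :
    (mvSN (WW V Q) μ).f ((S.M r).adjugate a b) ≤
      ((Fintype.card Y + 1) * a1 L Q h) ^ Fintype.card Y := by
  have hb := one_le_base (Y := Y) (L := L) (Q := Q) hn.one
  rw [Matrix.adjugate_apply]
  apply prod_rows_le _ _ hb
  intro i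
  by_cases hi : i = b
  · subst hi
    have : ∑ j, (mvSN (WW V Q) μ).f ((S.M r).updateRow i (Pi.single a 1) i j) ≤ 1 := by
      rw [Finset.sum_eq_single a]
      · simp only [Matrix.updateRow_self, Pi.single_eq_same]
        exact (mvSN (WW V Q) μ).map_one_le
      · intro j _ hj
        simp only [Matrix.updateRow_self, Pi.single_eq_of_ne hj]
        exact (mvSN (WW V Q) μ).map_zero
      · intro h; exact absurd (Finset.mem_univ _) h
    exact this.trans hb
  · have : ∀ j, (S.M r).updateRow b (Pi.single a 1) i j = S.M r i j := by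
      intro j; rw [Matrix.updateRow_ne hi]
    simp only [this]
    exact row_M hn hp i

theorem nr_Yv (hn : NrmLe S h) (hp : PrmLe (r := r) μ) (a : Y) :
    (mvSN (WW V Q) μ).f (S.Yv r a) ≤ Eb Y L Q h := by
  rw [Yv, Matrix.mulVec, dotProduct]
  refine (nr_sum (a := fun _ => ((Fintype.card Y + 1) * a1 L Q h) ^ Fintype.card Y * a1 L Q h)
    fun b _ => nr_mul (nr_adj hn hp a b) (nr_rhs hn hp b)).trans ?_
  simp only [Finset.sum_const, Finset.card_univ, smul_eq_mul, Eb, pow_succ]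
  calc Fintype.card Y * (((Fintype.card Y + 1) * a1 L Q h) ^ Fintype.card Y * a1 L Q h)
      ≤ (Fintype.card Y + 1) * (((Fintype.card Y + 1) * a1 L Q h) ^ Fintype.card Y *
        a1 L Q h) := Nat.mul_le_mul_right _ (Nat.le_succ _)
    _ = _ := by ring

theorem nr_lin (hn : NrmLe S h) (hp : PrmLe (r := r) μ) (e : QP V Y) (he : e.nrm ≤ h) :
    (mvSN (WW V Q) μ).f (S.lin r e) ≤ Eb Y L Q h * h := by
  rw [lin]
  have e1 := nr_mul (nr_Del hn hp) (nr_inj (Q := Q) (μ := μ) e.c)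
  have e2 : (mvSN (WW V Q) μ).f (∑ a, inj (e.g a) * S.Yv r a) ≤
      ∑ a, (mvSN V intSN).f (e.g a) * Eb Y L Q h :=
    nr_sum fun a _ => nr_mul (nr_inj _) (nr_Yv hn hp a)
  refine (nr_add e1 e2).trans ?_
  rw [← Finset.sum_mul, mul_comm (Eb Y L Q h), ← add_mul, mul_comm]
  apply Nat.mul_le_mul_left
  unfold QP.nrm at he; omega

theorem nr_sharp (hn : NrmLe S h) (hp : PrmLe (r := r) μ) (e : QP V Y) (he : e.nrm ≤ h) :
    (mvSN (WW V Q) μ).f (S.sharp r e) ≤ Eb Y L Q h ^ 2 * h := by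
  rw [sharp, lin]
  have e1 := nr_mul (nr_Del hn hp) (nr_inj (Q := Q) (μ := μ) e.c)
  have e2 : (mvSN (WW V Q) μ).f (∑ a, inj (e.g a) * S.Yv r a) ≤
      ∑ a, (mvSN V intSN).f (e.g a) * Eb Y L Q h :=
    nr_sum fun a _ => nr_mul (nr_inj _) (nr_Yv hn hp a)
  have e3 : (mvSN (WW V Q) μ).f (∑ a, ∑ b, inj (e.H a b) * S.Yv r a * S.Yv r b) ≤
      ∑ a, ∑ b, (mvSN V intSN).f (e.H a b) * Eb Y L Q h * Eb Y L Q h :=
    nr_sum fun a _ => nr_sum fun b _ =>
      nr_mul (nr_mul (nr_inj _) (nr_Yv hn hp a)) (nr_Yv hn hp b)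
  refine (nr_add (nr_mul (nr_Del hn hp) (nr_add e1 e2)) e3).trans ?_
  simp only [← Finset.sum_mul]
  have : Eb Y L Q h * (Eb Y L Q h * (mvSN V intSN).f e.c +
      (∑ a, (mvSN V intSN).f (e.g a)) * Eb Y L Q h) +
      (∑ a, ∑ b, (mvSN V intSN).f (e.H a b)) * Eb Y L Q h * Eb Y L Q h =
      Eb Y L Q h ^ 2 * e.nrm := by
    unfold QP.nrm; ring
  rw [this]
  exact Nat.mul_le_mul_left _ he

/-- the final size bound -/
def Cb (Y L Q : Type) [Fintype Y] [Fintype L] [Fintype Q] (h : ℕ) : ℕ :=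
  3 * (Fintype.card L + Fintype.card Q + 1) * h ^ 2 * Eb Y L Q h ^ 2

theorem nr_F (hn : NrmLe S h) (hp : PrmLe (r := r) μ) (j : WW V Q) :
    (mvSN (WW V Q) μ).f (S.F r j) ≤ Cb Y L Q h := by
  have h1 := hn.one
  have hD2 : (mvSN (WW V Q) μ).f (S.Del r ^ 2) ≤ Eb Y L Q h ^ 2 :=
    ((mvSN (WW V Q) μ).pow_le _ _).trans (Nat.pow_le_pow_left (nr_Del hn hp) 2)
  have heps2 : (mvSN (WW V Q) μ).f (C r.eps ^ 2) ≤ 1 :=
    ((mvSN (WW V Q) μ).pow_le _ _).trans
        (pow_le_one₀ (Nat.zero_le _) (nr_C hp.eps))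
  rcases j with j | i
  · rw [F]
    have e1 : (mvSN (WW V Q) μ).f (∑ i : L, 2 * S.lin r (S.eL i) *
        S.lin r ((S.eL i).dv j)) ≤ ∑ _i : L, 2 * (Eb Y L Q h * h) * (Eb Y L Q h * h) :=
      nr_sum fun i _ => nr_mul (nr_mul (SubNorm.two_le _) (nr_lin hn hp _ (hn.L i)))
        (nr_lin hn hp _ (hn.dL i j))
    have e2 : (mvSN (WW V Q) μ).f (∑ i : Q, X (Sum.inr i) * S.sharp r ((S.eQ i).dv j)) ≤
        ∑ _i : Q, 1 * (Eb Y L Q h ^ 2 * h) :=
      nr_sum fun i _ => nr_mul (mvSN_X _ _) (nr_sharp hn hp _ (hn.dQ i j))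
    have e3 : (mvSN (WW V Q) μ).f (C r.eps * (if j = S.v0 then 1 else 0)) ≤ 1 * 1 := by
      refine nr_mul (nr_C hp.eps) ?_
      split_ifs
      · exact (mvSN (WW V Q) μ).map_one_le
      · rw [(mvSN (WW V Q) μ).map_zero]; exact Nat.zero_le _
    have e4 : (mvSN (WW V Q) μ).f (C r.eps ^ 2 * (X (Sum.inl j) -
        C (r.prm (Sum.inl (Sum.inl j))))) ≤ 1 * (1 + 1) :=
      nr_mul heps2 (nr_sub (mvSN_X _ _) (nr_C (hp.prm _)))
    refine (nr_add (nr_add e1 e2) (nr_mul hD2 (nr_add e3 e4))).trans ?_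
    simp only [Finset.sum_const, Finset.card_univ, smul_eq_mul, Cb]
    have h2 : h ≤ h ^ 2 := by nlinarith
    have h3 : Fintype.card Q * h ≤ Fintype.card Q * (3 * h ^ 2) :=
      Nat.mul_le_mul_left _ (by omega)
    have h4 : 1 ≤ h ^ 2 := Nat.one_le_pow _ _ h1
    calc Fintype.card L * (2 * (Eb Y L Q h * h) * (Eb Y L Q h * h)) +
          Fintype.card Q * (1 * (Eb Y L Q h ^ 2 * h)) + Eb Y L Q h ^ 2 * (1 * 1 + 1 * (1 + 1))
        = Eb Y L Q h ^ 2 * (2 * Fintype.card L * h ^ 2 + Fintype.card Q * h + 3) := by ring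
      _ ≤ Eb Y L Q h ^ 2 * (3 * (Fintype.card L + Fintype.card Q + 1) * h ^ 2) := by
          apply Nat.mul_le_mul_left
          nlinarith [Nat.zero_le (Fintype.card L * h ^ 2)]
      _ = _ := by ring
  · rw [F]
    have e1 := nr_mul (SubNorm.two_le (mvSN (WW V Q) μ)) (nr_sharp hn hp _ (hn.Q i))
    have e2 := nr_mul hD2 (nr_sub (nr_mul (nr_mul (SubNorm.two_le (mvSN (WW V Q) μ)) heps2)
      (nr_C (hp.prm (Sum.inl (Sum.inr i))))) (mvSN_X μ (Sum.inr i : WW V Q)))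
    refine (nr_add e1 e2).trans ?_
    have h2 : h ≤ h ^ 2 := by nlinarith
    have h4 : 1 ≤ h ^ 2 := Nat.one_le_pow _ _ h1
    have h5 : 1 ≤ Fintype.card Q := Fintype.card_pos_iff.2 ⟨i⟩
    simp only [Cb]
    calc 2 * (Eb Y L Q h ^ 2 * h) + Eb Y L Q h ^ 2 * (2 * 1 * 1 + 1)
        = Eb Y L Q h ^ 2 * (2 * h + 3) := by ring
      _ ≤ Eb Y L Q h ^ 2 * (3 * (Fintype.card L + Fintype.card Q + 1) * h ^ 2) := by
          apply Nat.mul_le_mul_left
          nlinarith [Nat.mul_le_mul h5 h4, Nat.zero_le (Fintype.card L * h ^ 2)]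
      _ = _ := by ring

theorem nr_F' (hn : NrmLe S h) (hp : PrmLe (r := r) μ) (j : WW V Q) :
    (mvSN (WW V Q) μ).f (S.F' r j) ≤ Cb Y L Q h := by
  rw [F']
  have := nr_mul (nr_C hp.om) (nr_F hn hp j)
  rwa [one_mul] at this

theorem Cb_pos (h1 : 1 ≤ h) : 1 ≤ Cb Y L Q h := by
  have h2 : 1 ≤ Eb Y L Q h := Nat.one_le_pow _ _ (one_le_base h1)
  have : 0 < 3 * (Fintype.card L + Fintype.card Q + 1) * h ^ 2 * Eb Y L Q h ^ 2 := by positivity
  exact this

end Sys

end Pool.Agent.Helper54
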