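import Pool.Agent.Helper54.Quad2

namespace Pool.Agent.Helper54

open Finset Filter Topology

section chi

variable {P : Type} {n : Type} [Fintype n] [DecidableEq n]

noncomputable def nuR1 (P : Type) : SubNorm (R1 P) :=
  (mvSN P intSN : SubNorm (MvPolynomial P ℤ))
noncomputable def nuS1 (P : Type) : SubNorm (S1 P) :=
  (mvSN P (pSN intSN) : SubNorm (MvPolynomial P (Polynomial ℤ)))
noncomputable def nuR (P : Type) : SubNorm (R3 P) := pSN (pSN (nuR1 P))
noncomputable def nuS (P : Type) : SubNorm (S3 P) := pSN (pSN (nuS1 P))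

theorem mvSN_map {R T : Type*} [CommRing R] [CommRing T] (W : Type*) (ν : SubNorm R)
    (μ : SubNorm T) (g : R →+* T) (hg : ∀ a, μ.f (g a) ≤ ν.f a) (p : MvPolynomial W R) :
    (mvSN W μ).f (MvPolynomial.map g p) ≤ (mvSN W ν).f p := by
  classical
  change mvF W μ _ ≤ mvF W ν p
  rw [mvF_eq μ (MvPolynomial.map g p) p.support (MvPolynomial.support_map_subset g p)]
  apply Finset.sum_le_sum
  intro m _
  rw [MvPolynomial.coeff_map]
  exact hg _

theorem nuS_lift (x : R3 P) : (nuS P).f (liftRS x) ≤ (nuR P).f x := by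
  apply pSN_map
  intro a
  apply pSN_map
  intro b
  exact mvSN_map P intSN (pSN intSN) Polynomial.C (fun c => pSN_C _ _) b

noncomputable def tS (P : Type) : S3 P :=
  Polynomial.C (Polynomial.C tS1)

theorem nuS_tS : (nuS P).f (tS P) ≤ 1 :=
  (pSN_C _ _).trans ((pSN_C _ _).trans ((mvSN_C (W := P) (pSN intSN) Polynomial.X).trans
    (pSN_X _)))

noncomputable def chi (M : Matrix n n (R3 P)) : S3 P :=
  (Matrix.scalar n (tS P) - M.map liftRS).det

theorem evS3_tS (t ω ε : ℝ) (π : P → ℝ) : evS3 t ω ε π (tS P) = t := by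
  simp [evS3, evS2, tS, evS1_t]

theorem evS3_chi (M : Matrix n n (R3 P)) (t ω ε : ℝ) (π : P → ℝ) :
    evS3 t ω ε π (chi M) = (Matrix.scalar n t - M.map (evR3 ω ε π)).det := by
  rw [chi, RingHom.map_det]
  congr 1
  ext i j
  simp only [RingHom.mapMatrix_apply, Matrix.map_apply, Matrix.sub_apply, map_sub,
    evS3_liftRS]
  congr 1
  simp only [Matrix.scalar_apply, Matrix.diagonal_apply]
  split_ifs
  · exact evS3_tS t ω ε π
  · exact map_zero _

theorem chi_ne_zero (M : Matrix n n (R3 P)) : chi M ≠ 0 := by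
  intro h0
  have h1 : ∀ t : ℝ, ((M.map (evR3 (0:ℝ) 0 0)).charpoly).eval t = 0 := by
    intro t
    rw [Matrix.eval_charpoly, ← evS3_chi M t 0 0 0, h0, map_zero]
  have h2 : (M.map (evR3 (0:ℝ) 0 0)).charpoly = 0 := by
    apply Polynomial.funext
    intro t; rw [h1 t, Polynomial.eval_zero]
  exact (Matrix.charpoly_monic (M.map (evR3 (0:ℝ) 0 0))).ne_zero h2

theorem nuS_chi (M : Matrix n n (R3 P)) (B : ℕ) (hB : ∀ i, ∑ j, (nuR P).f (M i j) ≤ B) :
    (nuS P).f (chi M) ≤ (1 + B) ^ Fintype.card n := by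
  refine ((nuS P).det_le _).trans ?_
  refine (Finset.prod_le_pow_card _ _ (1 + B) fun i _ => ?_).trans ?_
  · have h1 : ∀ j, (nuS P).f ((Matrix.scalar n (tS P) - M.map liftRS) i j) ≤
        (if i = j then 1 else 0) + (nuR P).f (M i j) := by
      intro j
      rw [Matrix.sub_apply]
      refine ((nuS P).sub_le _ _).trans (Nat.add_le_add ?_ (nuS_lift _))
      simp only [Matrix.scalar_apply, Matrix.diagonal_apply]
      split_ifs
      · exact nuS_tS
      · rw [(nuS P).map_zero]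
    refine (Finset.sum_le_sum fun j _ => h1 j).trans ?_
    rw [Finset.sum_add_distrib]
    have h2 : ∑ j, (if i = j then 1 else 0) = 1 := by simp
    rw [h2]
    exact Nat.add_le_add_left (hB i) 1
  · rw [Finset.card_univ]

end chi

section analytic

variable {V Y L Q : Type} [Fintype V] [Fintype Y] [DecidableEq Y] [Fintype L] [Fintype Q]

theorem analytic_iv (a : MvPolynomial V ℤ) :
    AnalyticOnNhd ℝ (fun u : (V → ℝ) × (Y → ℝ) => iv u.1 a) Set.univ := by
  have h := AnalyticOnNhd.aeval_mvPolynomial (𝕜 := ℝ) (B := ℝ) (A := ℤ)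
    (f := fun u : (V → ℝ) × (Y → ℝ) => u.1) (s := Set.univ) (fun i u _ =>
      ((ContinuousLinearMap.proj (R := ℝ) (φ := fun _ : V => ℝ) i).comp
        (ContinuousLinearMap.fst ℝ (V → ℝ) (Y → ℝ))).analyticAt u) a
  exact h

theorem analytic_y (a : Y) :
    AnalyticOnNhd ℝ (fun u : (V → ℝ) × (Y → ℝ) => u.2 a) Set.univ := fun u _ =>
      ((ContinuousLinearMap.proj (R := ℝ) (φ := fun _ : Y => ℝ) a).comp
        (ContinuousLinearMap.snd ℝ (V → ℝ) (Y → ℝ))).analyticAt u

theorem analytic_v (a : V) :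
    AnalyticOnNhd ℝ (fun u : (V → ℝ) × (Y → ℝ) => u.1 a) Set.univ := fun u _ =>
      ((ContinuousLinearMap.proj (R := ℝ) (φ := fun _ : V => ℝ) a).comp
        (ContinuousLinearMap.fst ℝ (V → ℝ) (Y → ℝ))).analyticAt u

theorem analytic_sum {ι : Type*} {s : Finset ι} {f : ι → (V → ℝ) × (Y → ℝ) → ℝ}
    (h : ∀ i ∈ s, AnalyticOnNhd ℝ (f i) Set.univ) :
    AnalyticOnNhd ℝ (fun u => ∑ i ∈ s, f i u) Set.univ :=
  Finset.analyticOnNhd_fun_sum s h

theorem analytic_ev1 (e : QP V Y) :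
    AnalyticOnNhd ℝ (fun u : (V → ℝ) × (Y → ℝ) => e.ev1 u.1 u.2) Set.univ :=
  (analytic_iv _).add (analytic_sum fun _ _ => (analytic_iv _).mul (analytic_y _))

theorem analytic_ev (e : QP V Y) :
    AnalyticOnNhd ℝ (fun u : (V → ℝ) × (Y → ℝ) => e.ev u.1 u.2) Set.univ :=
  (analytic_ev1 e).add (analytic_sum fun _ _ => analytic_sum fun _ _ =>
    ((analytic_iv _).mul (analytic_y _)).mul (analytic_y _))

theorem analytic_dy (e : QP V Y) (a : Y) :
    AnalyticOnNhd ℝ (fun u : (V → ℝ) × (Y → ℝ) => e.dy a u.1 u.2) Set.univ :=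
  (analytic_iv _).add (analytic_sum fun _ _ =>
    ((analytic_iv _).add (analytic_iv _)).mul (analytic_y _))

namespace Sys

variable (S : Sys V Y L Q)

theorem analytic_lam (ε : ℝ) (s : Q → ℝ) (i : Q) :
    AnalyticOnNhd ℝ (fun u : (V → ℝ) × (Y → ℝ) => S.lam ε s u.1 u.2 i) Set.univ :=
  analyticOnNhd_const.mul ((analytic_ev _).add analyticOnNhd_const)

theorem analytic_det (ε : ℝ) (s : Q → ℝ) :
    AnalyticOnNhd ℝ (fun u : (V → ℝ) × (Y → ℝ) =>
      (S.Mr u.1 (S.lam ε s u.1 u.2) ε).det) Set.univ := by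
  simp only [Matrix.det_apply']
  apply analytic_sum
  intro σ _
  apply AnalyticOnNhd.mul analyticOnNhd_const
  apply Finset.analyticOnNhd_fun_prod
  intro i _
  simp only [Mr, Matrix.of_apply]
  exact ((analytic_sum fun _ _ => (analyticOnNhd_const.mul (analytic_iv _)).mul
    (analytic_iv _)).add (analytic_sum fun _ _ => (S.analytic_lam ε s _).mul
      ((analytic_iv _).add (analytic_iv _)))).add analyticOnNhd_const

theorem freq_ne (ε : ℝ) (s : Q → ℝ) (ub : (V → ℝ) × (Y → ℝ))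
    (hub : (S.Mr ub.1 (S.lam ε s ub.1 ub.2) ε).det ≠ 0) (u0 : (V → ℝ) × (Y → ℝ)) :
    ∃ᶠ u in 𝓝 u0, (S.Mr u.1 (S.lam ε s u.1 u.2) ε).det ≠ 0 := by
  intro hcon
  have h1 : (fun u : (V → ℝ) × (Y → ℝ) => (S.Mr u.1 (S.lam ε s u.1 u.2) ε).det) =ᶠ[𝓝 u0] 0 := by
    filter_upwards [hcon] with u hu
    simpa using hu
  have h2 := (S.analytic_det ε s).eqOn_zero_of_preconnected_of_eventuallyEq_zero
    isPreconnected_univ (Set.mem_univ u0) h1
  exact hub (h2 (Set.mem_univ ub))

theorem continuous_qq (ε : ℝ) (s : Q → ℝ) (a : Y) :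
    Continuous (fun u : (V → ℝ) × (Y → ℝ) => S.qq ε s u.1 u.2 a) := by
  have h : AnalyticOnNhd ℝ (fun u : (V → ℝ) × (Y → ℝ) => S.qq ε s u.1 u.2 a) Set.univ :=
    (analytic_y a).add (analyticOnNhd_const.mul ((analytic_sum fun _ _ =>
      (analyticOnNhd_const.mul (analytic_ev1 _)).mul (analytic_iv _)).add
      (analytic_sum fun _ _ => (S.analytic_lam ε s _).mul (analytic_dy _ _))))
  exact continuousOn_univ.1 h.continuousOn

theorem continuous_pp [DecidableEq V] (ε : ℝ) (s : Q → ℝ) (j : V) :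
    Continuous (fun u : (V → ℝ) × (Y → ℝ) => S.pp ε s u.1 u.2 j) := by
  have h : AnalyticOnNhd ℝ (fun u : (V → ℝ) × (Y → ℝ) => S.pp ε s u.1 u.2 j) Set.univ :=
    (analytic_v j).add (analyticOnNhd_const.mul (((analytic_sum fun _ _ =>
      (analyticOnNhd_const.mul (analytic_ev1 _)).mul (analytic_ev1 _)).add
      (analytic_sum fun _ _ => (S.analytic_lam ε s _).mul (analytic_ev _))).add
      analyticOnNhd_const))
  exact continuousOn_univ.1 h.continuousOn

end Sys

end analytic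

end Pool.Agent.Helper54
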