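import Pool.Agent.Helper54.Limits
import Pool.Agent.Helper54.Quad3
import Pool.Agent.Helper54.Quad4

namespace Pool.Agent.Helper54

open Finset Filter Topology

namespace Sys

variable {V Y L Q : Type} [Fintype V] [DecidableEq V] [Fintype Y] [DecidableEq Y]
  [Fintype L] [Fintype Q] (S : Sys V Y L Q)

omit [Fintype V] [DecidableEq V] in
theorem det_ne_zero_at (vb : V → ℝ) (yb : Y → ℝ) (hb : ∀ i, (S.eQ i).ev vb yb = 0) :
    ∃ ρ > 0, ∀ (s : Q → ℝ), (∀ i, |s i| < ρ) → ∀ ε : ℝ, ε ≠ 0 →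
      (S.Mr vb (S.lam ε s vb yb) ε).det ≠ 0 := by
  set c0 : ℝ := ∑ i : Q, ∑ a, ∑ b, |iv vb ((S.eQ i).H a b) + iv vb ((S.eQ i).H b a)| with hc0
  have hc0' : 0 ≤ c0 := Finset.sum_nonneg fun i _ => Finset.sum_nonneg fun a _ =>
    Finset.sum_nonneg fun b _ => abs_nonneg _
  refine ⟨1 / (4 * (c0 + 1)), by positivity, ?_⟩
  intro s hs ε hε hdet
  rw [← Matrix.exists_mulVec_eq_zero_iff] at hdet
  obtain ⟨x, hx0, hx⟩ := hdet
  set X2 : ℝ := ∑ a, x a ^ 2 with hX2
  have hX2pos : 0 < X2 := by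
    apply lt_of_le_of_ne (Finset.sum_nonneg fun a _ => sq_nonneg _)
    intro h0
    apply hx0
    ext a
    have := (Finset.sum_eq_zero_iff_of_nonneg (fun a _ => sq_nonneg (x a))).1 h0.symm a
      (Finset.mem_univ a)
    simpa using this
  have hxx : ∀ a b, |x a * x b| ≤ X2 := by
    intro a b
    have ha : x a ^ 2 ≤ X2 := Finset.single_le_sum (f := fun a => x a ^ 2)
      (fun _ _ => sq_nonneg _) (Finset.mem_univ a)
    have hb : x b ^ 2 ≤ X2 := Finset.single_le_sum (f := fun a => x a ^ 2)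
      (fun _ _ => sq_nonneg _) (Finset.mem_univ b)
    rw [abs_le]
    constructor <;> nlinarith [sq_nonneg (x a + x b), sq_nonneg (x a - x b)]
  have hlam : ∀ i, S.lam ε s vb yb i = 2 * ε ^ 2 * s i := by
    intro i; rw [lam, hb i]; ring
  -- the quadratic form
  have h0 : ∑ a, x a * ((S.Mr vb (S.lam ε s vb yb) ε).mulVec x) a = 0 := by
    rw [hx]; simp
  have hform : ∑ a, x a * ((S.Mr vb (S.lam ε s vb yb) ε).mulVec x) a =
      ∑ i : L, 2 * (∑ a, iv vb ((S.eL i).g a) * x a) ^ 2 +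
      2 * ε ^ 2 * (∑ i : Q, s i * ∑ a, ∑ b,
        (iv vb ((S.eQ i).H a b) + iv vb ((S.eQ i).H b a)) * (x a * x b)) + ε ^ 2 * X2 := by
    simp only [Matrix.mulVec, dotProduct, Mr, Matrix.of_apply, hlam]
    have e0 : ∀ a, x a * ∑ b, (∑ i : L, 2 * iv vb ((S.eL i).g a) * iv vb ((S.eL i).g b) +
        ∑ i : Q, 2 * ε ^ 2 * s i * (iv vb ((S.eQ i).H a b) + iv vb ((S.eQ i).H b a)) +
        if a = b then ε ^ 2 else 0) * x b =
        ∑ i : L, ∑ b, 2 * (iv vb ((S.eL i).g a) * x a) * (iv vb ((S.eL i).g b) * x b) +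
        ∑ i : Q, ∑ b, 2 * ε ^ 2 * s i * ((iv vb ((S.eQ i).H a b) +
          iv vb ((S.eQ i).H b a)) * (x a * x b)) + ε ^ 2 * x a ^ 2 := by
      intro a
      rw [Finset.sum_comm (s := (Finset.univ : Finset L)),
        Finset.sum_comm (s := (Finset.univ : Finset Q)), ← Finset.sum_add_distrib,
        Finset.mul_sum]
      have e1 : ε ^ 2 * x a ^ 2 = ∑ b, if a = b then ε ^ 2 * (x a * x b) else 0 := by
        simp [pow_two]
      rw [e1, ← Finset.sum_add_distrib]
      apply Finset.sum_congr rfl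
      intro b _
      rw [add_mul, add_mul, mul_add, mul_add, Finset.sum_mul, Finset.sum_mul, Finset.mul_sum,
        Finset.mul_sum]
      congr 1
      · congr 1
        · apply Finset.sum_congr rfl; intro i _; ring
        · apply Finset.sum_congr rfl; intro i _; ring
      · split_ifs <;> ring
    rw [Finset.sum_congr rfl fun a _ => e0 a, Finset.sum_add_distrib, Finset.sum_add_distrib]
    congr 1
    · congr 1
      · rw [Finset.sum_comm]
        apply Finset.sum_congr rfl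
        intro i _
        rw [pow_two, Finset.sum_mul_sum, Finset.mul_sum]
        apply Finset.sum_congr rfl; intro a _
        rw [Finset.mul_sum]
        apply Finset.sum_congr rfl; intro b _
        ring
      · rw [Finset.sum_comm, Finset.mul_sum]
        apply Finset.sum_congr rfl
        intro i _
        rw [Finset.mul_sum, Finset.mul_sum]
        apply Finset.sum_congr rfl; intro a _
        rw [Finset.mul_sum, Finset.mul_sum]
        apply Finset.sum_congr rfl; intro b _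
        ring
    · rw [hX2, Finset.mul_sum]
  have hbound : |∑ i : Q, s i * ∑ a, ∑ b,
        (iv vb ((S.eQ i).H a b) + iv vb ((S.eQ i).H b a)) * (x a * x b)| ≤
        1 / (4 * (c0 + 1)) * (c0 * X2) := by
    refine (Finset.abs_sum_le_sum_abs _ _).trans ?_
    rw [hc0, Finset.sum_mul, Finset.mul_sum]
    apply Finset.sum_le_sum
    intro i _
    rw [abs_mul]
    apply mul_le_mul (hs i).le _ (abs_nonneg _) (by positivity)
    refine (Finset.abs_sum_le_sum_abs _ _).trans ?_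
    rw [Finset.sum_mul]
    apply Finset.sum_le_sum
    intro a _
    refine (Finset.abs_sum_le_sum_abs _ _).trans ?_
    rw [Finset.sum_mul]
    apply Finset.sum_le_sum
    intro b _
    rw [abs_mul]
    exact mul_le_mul_of_nonneg_left (hxx a b) (abs_nonneg _)
  have hL : 0 ≤ ∑ i : L, 2 * (∑ a, iv vb ((S.eL i).g a) * x a) ^ 2 :=
    Finset.sum_nonneg fun i _ => by positivity
  have h14 : 1 / (4 * (c0 + 1)) * (c0 * X2) ≤ 1 / 4 * X2 := by
    rw [div_mul_eq_mul_div, one_mul, div_le_iff₀ (by positivity)]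
    nlinarith
  have hε2 : 0 < ε ^ 2 := by positivity
  rw [h0] at hform
  have h15 := abs_le.1 (hbound.trans h14)
  have h16 : ε ^ 2 * (-(1/4 * X2)) ≤ ε ^ 2 * (∑ i : Q, s i * ∑ a, ∑ b,
        (iv vb ((S.eQ i).H a b) + iv vb ((S.eQ i).H b a)) * (x a * x b)) :=
    mul_le_mul_of_nonneg_left h15.1 hε2.le
  nlinarith

/-- parameter values realised at a point -/
noncomputable def prm0 (ε : ℝ) (s : Q → ℝ) (v : V → ℝ) (y : Y → ℝ) : PP V Y Q → ℝ :=
  Sum.elim (Sum.elim (fun j => S.pp ε s v y j) s) (fun a => S.qq ε s v y a)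

theorem tendsto_prm (N : ℕ) (ε : ℝ) (s : Q → ℝ) (v : V → ℝ) (y : Y → ℝ) :
    Tendsto (fun ω => S.prm N ω ε s v y) atTop (𝓝 (S.prm0 ε s v y)) := by
  rw [tendsto_pi_nhds]
  have hinv := tendsto_inv_atTop_zero (𝕜 := ℝ)
  intro k
  rcases k with (j | i) | a
  · simp only [prm, prm0, Sum.elim_inl]
    have := (tendsto_const_nhds (x := S.pp ε s v y j) (f := atTop)).sub
      (hinv.mul_const (v j ^ N / (ε ^ 2 * (S.Mr v (S.lam ε s v y) ε).det ^ 2)))
    simpa using this
  · simp only [prm, prm0, Sum.elim_inl, Sum.elim_inr]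
    have := (tendsto_const_nhds (x := s i) (f := atTop)).add
      (hinv.mul_const (S.lam ε s v y i ^ N / (2 * ε ^ 2 * (S.Mr v (S.lam ε s v y) ε).det ^ 2)))
    simpa using this
  · simp only [prm, prm0, Sum.elim_inr]
    exact tendsto_const_nhds

noncomputable def rP (V Y Q : Type) : PR V Y Q (R3 (PP V Y Q)) where
  om := Polynomial.X
  eps := Polynomial.C Polynomial.X
  prm k := Polynomial.C (Polynomial.C (xR1 k))

omit [Fintype V] [DecidableEq V] [Fintype Y] [DecidableEq Y] [Fintype Q] in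
theorem spec_rP (ω ε : ℝ) (π : PP V Y Q → ℝ) : Spec (rP V Y Q) (evR3 ω ε π) ω ε π where
  om := by simp [rP, evR3]
  eps := by simp [rP, evR3, evR2]
  prm k := by simp [rP, evR3, evR2, evR1_x]

omit [Fintype V] [DecidableEq V] [Fintype Y] [DecidableEq Y] [Fintype Q] in
theorem prmLe_rP : PrmLe (r := rP V Y Q) (nuR (PP V Y Q)) where
  om := pSN_X _
  eps := (pSN_C _ _).trans (pSN_X _)
  prm k := (pSN_C _ _).trans ((pSN_C _ _).trans (mvSN_X (W := PP V Y Q) intSN k))


end Sys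

section generic

variable {P : Type}

theorem pick (χ : S3 P) (hχ : χ ≠ 0) :
    ∃ P0 : Polynomial ℤ, P0 ≠ 0 ∧ (pSN intSN).f P0 ≤ (nuS P).f χ ∧
      ∀ (ts ρ : ℝ), 0 < ρ → (∀ π : P → ℝ, (∀ k, |π k| < ρ) →
        evS1 ts π (χ.leadingCoeff.trailingCoeff) = 0) → evZ ts P0 = 0 := by
  classical
  have hA0 : χ.leadingCoeff ≠ 0 := Polynomial.leadingCoeff_ne_zero.2 hχ
  have h2 : (nuS1 P).f (χ.leadingCoeff.trailingCoeff) ≤ (pSN (nuS1 P)).f χ.leadingCoeff :=
    coeff_le_pSN _ _ _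
  have h3 : (pSN (nuS1 P)).f χ.leadingCoeff ≤ (nuS P).f χ := coeff_le_pSN _ _ _
  have hB0 : χ.leadingCoeff.trailingCoeff ≠ 0 := fun h =>
    hA0 (Polynomial.trailingCoeff_eq_zero.1 h)
  generalize χ.leadingCoeff.trailingCoeff = B at h2 hB0
  have key : ∀ B : MvPolynomial P (Polynomial ℤ), B ≠ 0 → ∃ m, MvPolynomial.coeff m B ≠ 0 := by
    intro B hB
    by_contra hcon
    push Not at hcon
    apply hB
    exact MvPolynomial.ext B 0 (fun m => by rw [hcon m]; rfl)
  obtain ⟨m, hm⟩ := key B hB0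
  have h1 : (pSN intSN).f (MvPolynomial.coeff m (B : MvPolynomial P (Polynomial ℤ)))
        ≤ (nuS1 P).f B := coeff_le_mvSN (pSN intSN) _ m
  refine ⟨MvPolynomial.coeff m (B : MvPolynomial P (Polynomial ℤ)), hm, h1.trans (h2.trans h3), ?_⟩
  intro ts ρ hρ h
  exact coeff_zero_of_cube (B : MvPolynomial P (Polynomial ℤ)) (evZ ts) ρ hρ
    (fun π hπ => h π hπ) m

end generic

end Pool.Agent.Helper54
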